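import Mathlib

set_option autoImplicit false

namespace Pool.Agent.H33

open MvPolynomial

noncomputable section

variable {σ : Type*} {K : Type*} [Field K]

/-- An ideal of a polynomial ring is homogeneous if it contains all homogeneous components of its
elements. -/
def IsHomog (I : Ideal (MvPolynomial σ K)) : Prop :=
  ∀ f ∈ I, ∀ t : ℕ, homogeneousComponent t f ∈ I

/-- The Hilbert function of the graded ring `K[x]/I`. -/
def hf (I : Ideal (MvPolynomial σ K)) (t : ℕ) : ℕ :=
  Module.finrank K
    ↥((homogeneousSubmodule σ K t).map (Ideal.Quotient.mkₐ K I).toLinearMap)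

/-- dimension of the degree `t` part of the ideal -/
def hfI (I : Ideal (MvPolynomial σ K)) (t : ℕ) : ℕ :=
  Module.finrank K ↥(homogeneousSubmodule σ K t ⊓ I.restrictScalars K)

/-- dimension of the degree `t` part of the polynomial ring -/
def hs (σ : Type*) (K : Type*) [Field K] (t : ℕ) : ℕ :=
  Module.finrank K ↥(homogeneousSubmodule σ K t)

instance instFinHS [Finite σ] (t : ℕ) : FiniteDimensional K ↥(homogeneousSubmodule σ K t) :=
  Module.Finite.iff_fg.2 (homogeneousSubmodule_fg σ K t)

instance instFinHSI [Finite σ] (I : Ideal (MvPolynomial σ K)) (t : ℕ) :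
    FiniteDimensional K ↥(homogeneousSubmodule σ K t ⊓ I.restrictScalars K) :=
  Submodule.finiteDimensional_of_le (S₂ := homogeneousSubmodule σ K t) inf_le_left

lemma finrank_map_add_inf_ker {V W : Type*} [AddCommGroup V] [Module K V] [AddCommGroup W] [Module K W]
    (f : V →ₗ[K] W) (U : Submodule K V) [FiniteDimensional K U] :
    Module.finrank K ↥(U.map f) + Module.finrank K ↥(U ⊓ LinearMap.ker f) = Module.finrank K U := by
  have h := LinearMap.finrank_range_add_finrank_ker (f.domRestrict U)
  rw [LinearMap.range_domRestrict] at h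
  have h2 : Module.finrank K ↥(LinearMap.ker (f.domRestrict U)) =
      Module.finrank K ↥(U ⊓ LinearMap.ker f) := by
    have e : LinearMap.ker (f.domRestrict U) = (U ⊓ LinearMap.ker f).comap U.subtype := by
      ext x
      simp
    rw [e]
    exact (Submodule.comapSubtypeEquivOfLe (p := U ⊓ LinearMap.ker f) (q := U) inf_le_left).finrank_eq
  rw [h2] at h
  exact h

lemma hf_add_hfI [Finite σ] (I : Ideal (MvPolynomial σ K)) (t : ℕ) :
    hf I t + hfI I t = hs σ K t := by
  unfold hf hfI hs
  have h := finrank_map_add_inf_ker (Ideal.Quotient.mkₐ K I).toLinearMap (homogeneousSubmodule σ K t)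
  have e : LinearMap.ker (Ideal.Quotient.mkₐ K I).toLinearMap = I.restrictScalars K := by
    ext x
    simp [Ideal.Quotient.eq_zero_iff_mem]
  rw [e] at h
  exact h

lemma hf_antitone [Finite σ] {I J : Ideal (MvPolynomial σ K)} (h : I ≤ J) (t : ℕ) :
    hf J t ≤ hf I t := by
  have h1 := hf_add_hfI I t
  have h2 := hf_add_hfI J t
  have h3 : hfI I t ≤ hfI J t := by
    unfold hfI
    apply Submodule.finrank_mono
    exact inf_le_inf_left _ h
  omega

/-- colon ideal `(I : f)` -/
def colonI (I : Ideal (MvPolynomial σ K)) (f : MvPolynomial σ K) : Ideal (MvPolynomial σ K) :=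
  Submodule.comap (LinearMap.mulLeft (MvPolynomial σ K) f) I

lemma mem_colonI {I : Ideal (MvPolynomial σ K)} {f g : MvPolynomial σ K} :
    g ∈ colonI I f ↔ f * g ∈ I := by
  simp [colonI]

lemma le_colonI (I : Ideal (MvPolynomial σ K)) (f : MvPolynomial σ K) : I ≤ colonI I f := by
  intro g hg
  rw [mem_colonI]
  exact I.mul_mem_left _ hg

section
attribute [local instance] MvPolynomial.gradedAlgebra

lemma homogeneousComponent_mul_of_homog {f g : MvPolynomial σ K} {a : ℕ} (hf : f.IsHomogeneous a)
    (t : ℕ) : homogeneousComponent (t + a) (f * g) = f * homogeneousComponent t g := by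
  have h := DirectSum.coe_decompose_mul_add_of_right_mem (homogeneousSubmodule σ K) (i := t) (j := a)
    (a := g) (b := f) hf
  have e1 : ∀ (p : MvPolynomial σ K) (i : ℕ),
      ((DirectSum.decompose (homogeneousSubmodule σ K) p i : _) : MvPolynomial σ K)
        = homogeneousComponent i p := fun p i => decomposition.decompose'_apply p i
  rw [e1, e1] at h
  rw [mul_comm f g, h, mul_comm]

end

lemma homogeneousComponent_mul_of_homog_lt {f g : MvPolynomial σ K} {a : ℕ} (hf : f.IsHomogeneous a)
    {t : ℕ} (ht : t < a) : homogeneousComponent t (f * g) = 0 := by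
  apply homogeneousComponent_eq_zero'
  intro d hd hdt
  rw [mem_support_iff] at hd
  apply hd
  classical
  rw [coeff_mul]
  apply Finset.sum_eq_zero
  rintro ⟨u, v⟩ huv
  rw [Finset.HasAntidiagonal.mem_antidiagonal] at huv
  have : coeff u f = 0 := by
    apply hf.coeff_eq_zero
    intro hu
    have : d.degree = u.degree + v.degree := by
      rw [← huv]; simp
    omega
  simp [this]

lemma isHomog_colonI {I : Ideal (MvPolynomial σ K)} (hI : IsHomog I) {f : MvPolynomial σ K} {a : ℕ}
    (hf : f.IsHomogeneous a) : IsHomog (colonI I f) := by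
  intro g hg t
  rw [mem_colonI] at hg ⊢
  rw [← homogeneousComponent_mul_of_homog hf]
  exact hI _ hg _

lemma isHomog_sup_span {I : Ideal (MvPolynomial σ K)} (hI : IsHomog I) {f : MvPolynomial σ K} {a : ℕ}
    (hf : f.IsHomogeneous a) : IsHomog (I ⊔ Ideal.span {f}) := by
  intro g hg t
  rw [Submodule.mem_sup] at hg ⊢
  obtain ⟨i, hi, h, hh, rfl⟩ := hg
  obtain ⟨u, rfl⟩ := Ideal.mem_span_singleton.1 hh
  refine ⟨homogeneousComponent t i, hI _ hi _, homogeneousComponent t (f * u), ?_, by rw [map_add]⟩
  rcases lt_or_ge t a with h | h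
  · rw [homogeneousComponent_mul_of_homog_lt hf h]; exact Ideal.zero_mem _
  · obtain ⟨s, rfl⟩ := Nat.exists_eq_add_of_le' h
    rw [homogeneousComponent_mul_of_homog hf]
    exact Ideal.mul_mem_right _ _ (Ideal.mem_span_singleton_self f)

lemma finrank_map_mulLeft {f : MvPolynomial σ K} (hf : f ≠ 0) (U : Submodule K (MvPolynomial σ K)) :
    Module.finrank K ↥(U.map (LinearMap.mulLeft K f)) = Module.finrank K U := by
  apply LinearEquiv.finrank_eq
  exact (Submodule.equivMapOfInjective _ (mul_right_injective₀ hf) U).symm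

lemma sup_degree_part [Finite σ] {I : Ideal (MvPolynomial σ K)} (hI : IsHomog I)
    {f : MvPolynomial σ K} {a : ℕ} (hf : f.IsHomogeneous a) (t : ℕ) :
    homogeneousSubmodule σ K (t + a) ⊓ (I ⊔ Ideal.span {f}).restrictScalars K =
      (homogeneousSubmodule σ K (t + a) ⊓ I.restrictScalars K) ⊔
        (homogeneousSubmodule σ K t).map (LinearMap.mulLeft K f) := by
  apply le_antisymm
  · rintro g ⟨hg1, hg2⟩
    have hg2' : g ∈ I ⊔ Ideal.span {f} := hg2
    rw [Submodule.mem_sup] at hg2'
    obtain ⟨i, hi, h, hh, hsum⟩ := hg2'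
    obtain ⟨u, rfl⟩ := Ideal.mem_span_singleton.1 hh
    have e : g = homogeneousComponent (t + a) i + f * homogeneousComponent t u := by
      have e1 : homogeneousComponent (t + a) g = g := homogeneousComponent_eq_self hg1
      rw [← e1, ← hsum, map_add, homogeneousComponent_mul_of_homog hf]
    rw [e]
    apply Submodule.add_mem_sup
    · exact ⟨homogeneousComponent_mem _ _, hI _ hi _⟩
    · exact ⟨_, homogeneousComponent_mem _ _, rfl⟩
  · apply sup_le
    · apply inf_le_inf_left
      intro x hx
      exact Ideal.mem_sup_left hx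
    · rintro _ ⟨g, hg, rfl⟩
      refine ⟨?_, ?_⟩
      · have : (f * g).IsHomogeneous (a + t) := hf.mul hg
        rw [add_comm] at this
        exact this
      · exact Ideal.mem_sup_right (Ideal.mul_mem_right _ _ (Ideal.mem_span_singleton_self f))

lemma hf_exact [Finite σ] {I : Ideal (MvPolynomial σ K)} (hI : IsHomog I)
    {f : MvPolynomial σ K} (hf0 : f ≠ 0) {a : ℕ} (hfa : f.IsHomogeneous a) (t : ℕ) :
    hf I (t + a) = hf (colonI I f) t + hf (I ⊔ Ideal.span {f}) (t + a) := by
  have h1 := hf_add_hfI I (t + a)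
  have h2 := hf_add_hfI (colonI I f) t
  have h3 := hf_add_hfI (I ⊔ Ideal.span {f}) (t + a)
  have h4 := Submodule.finrank_sup_add_finrank_inf_eq (homogeneousSubmodule σ K (t + a) ⊓ I.restrictScalars K)
    ((homogeneousSubmodule σ K t).map (LinearMap.mulLeft K f))
  rw [← sup_degree_part hI hfa] at h4
  have h5 : (homogeneousSubmodule σ K (t + a) ⊓ I.restrictScalars K) ⊓
      ((homogeneousSubmodule σ K t).map (LinearMap.mulLeft K f)) =
      (homogeneousSubmodule σ K t ⊓ (colonI I f).restrictScalars K).map (LinearMap.mulLeft K f) := by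
    apply le_antisymm
    · rintro _ ⟨⟨hg1, hg2⟩, ⟨g, hg, rfl⟩⟩
      refine ⟨g, ⟨hg, ?_⟩, rfl⟩
      exact mem_colonI.2 hg2
    · rintro _ ⟨g, ⟨hg1, hg2⟩, rfl⟩
      refine ⟨⟨?_, mem_colonI.1 hg2⟩, ⟨g, hg1, rfl⟩⟩
      have : (f * g).IsHomogeneous (a + t) := hfa.mul hg1
      rw [add_comm] at this
      exact this
  rw [h5, finrank_map_mulLeft hf0, finrank_map_mulLeft hf0] at h4
  unfold hfI hs at *
  omega

end

end Pool.Agent.H33
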