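import Pool.Agent.H33.FrameEx

set_option autoImplicit false

namespace Pool.Agent.H33

open InnerProductSpace

noncomputable section

theorem exists_frame {n : ℕ} (p : Fin (n + 1) → ℤ) (hp : p ≠ 0) :
    ∃ A : Fin n → (Fin (n + 1) → ℤ), Frame p A ∧
      (∏ i, (supN (A i) : ℝ)) ≤ (n : ℝ) ^ n * (n + 1) * supN p := by
  classical
  obtain ⟨A, hA, hmin⟩ := exists_minimal_family p hp
  refine ⟨A, hA, ?_⟩
  have hsp : (1 : ℝ) ≤ supN p := by exact_mod_cast supN_pos hp
  rcases Nat.eq_zero_or_pos n with hn | hn
  · subst hn
    simpa using hsp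
  by_contra hcon
  push Not at hcon
  have hnr : (0 : ℝ) < n := by exact_mod_cast hn
  -- the vectors
  let f : Fin (n + 1) → EuclideanSpace ℝ (Fin (n + 1)) :=
    Fin.snoc (α := fun _ => EuclideanSpace ℝ (Fin (n + 1))) (fun i => toE (A i)) (toE p)
  have hf1 : ∀ i : Fin n, f i.castSucc = toE (A i) := by intro i; simp [f]
  have hf2 : f (Fin.last n) = toE p := by simp [f]
  have hpos : 0 < ‖toE p‖ := lt_of_lt_of_le (by linarith) (supN_le_norm p)
  have horth : ∀ i : Fin n, inner ℝ (toE (A i)) (toE p) = 0 := by
    intro i
    rw [inner_toE, hA.orth i]; simp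
  have hli : LinearIndependent ℝ f := by
    have : LinearIndependent ℝ (Fin.snoc (α := fun _ => EuclideanSpace ℝ (Fin (n + 1)))
        (fun i => toE (A i)) (toE p)) := by
      rw [linearIndependent_finSnoc]
      refine ⟨li_real_of_int A hA.li, ?_⟩
      intro hmem
      have h0 : inner ℝ (toE p) (toE p) = 0 := by
        have : ∀ v ∈ Submodule.span ℝ (Set.range (fun i => toE (A i))), inner ℝ v (toE p) = 0 := by
          intro v hv
          induction hv using Submodule.span_induction with
          | mem x hx => obtain ⟨i, rfl⟩ := hx; exact horth i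
          | zero => exact inner_zero_left _
          | add x y _ _ hx hy => rw [inner_add_left, hx, hy, add_zero]
          | smul c x _ hx => rw [inner_smul_left, hx, mul_zero]
        exact this _ hmem
      rw [real_inner_self_eq_norm_sq] at h0
      have : 0 < ‖toE p‖ ^ 2 := by positivity
      linarith
    exact this
  have hcard : Module.finrank ℝ (EuclideanSpace ℝ (Fin (n + 1))) = Fintype.card (Fin (n + 1)) := by
    simp
  let b := gramSchmidtOrthonormalBasis hcard f
  have T1 : ∀ i j, i < j → inner ℝ (b j) (f i) = 0 := by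
    intro i j hij
    exact gramSchmidtOrthonormalBasis_inv_triangular hcard f hij
  have T2 : ∀ i, inner ℝ (b i) (f i) ≠ 0 := by
    have hdet : b.toBasis.det f = ∏ i, inner ℝ (b i) (f i) :=
      gramSchmidtOrthonormalBasis_det hcard f
    have hne : b.toBasis.det f ≠ 0 := by
      let c := basisOfLinearIndependentOfCardEqFinrank hli hcard.symm
      have hc : ⇑c = f := coe_basisOfLinearIndependentOfCardEqFinrank hli hcard.symm
      have := b.toBasis.isUnit_det c
      rw [hc] at this
      exact this.ne_zero
    rw [hdet, Finset.prod_ne_zero_iff] at hne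
    intro i
    exact hne i (Finset.mem_univ i)
  have T3 : ∀ j : Fin n, inner ℝ (b j.castSucc) (toE p) = 0 := by
    intro j
    have hnz : gramSchmidtNormed ℝ f j.castSucc ≠ 0 := by
      have := gramSchmidtNormed_unit_length j.castSucc hli (𝕜 := ℝ)
      intro h
      rw [h, norm_zero] at this
      exact zero_ne_one this
    have hb : b j.castSucc = gramSchmidtNormed ℝ f j.castSucc :=
      gramSchmidtOrthonormalBasis_apply hcard hnz
    rw [hb]
    unfold gramSchmidtNormed
    rw [inner_smul_left]
    have hmem := gramSchmidt_mem_span ℝ f (le_refl j.castSucc)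
    have : ∀ v ∈ Submodule.span ℝ (f '' Set.Iic j.castSucc), inner ℝ v (toE p) = 0 := by
      intro v hv
      induction hv using Submodule.span_induction with
      | mem x hx =>
        obtain ⟨i, hi, rfl⟩ := hx
        have hi' : i.val < n := by
          have : i ≤ j.castSucc := hi
          have h2 := j.2
          have h3 : i.val ≤ j.val := this
          omega
        have : i = (⟨i.val, hi'⟩ : Fin n).castSucc := by ext; rfl
        rw [this, hf1]
        exact horth _
      | zero => exact inner_zero_left _
      | add x y _ _ hx hy => rw [inner_add_left, hx, hy, add_zero]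
      | smul c x _ hx => rw [inner_smul_left, hx, mul_zero]
    rw [this _ hmem, mul_zero]
  -- relation for the last vector
  have T4 : ∀ x, inner ℝ (toE p) x = inner ℝ (toE p) (b (Fin.last n)) * inner ℝ (b (Fin.last n)) x := by
    intro x
    rw [← b.sum_inner_mul_inner (toE p) x, Fin.sum_univ_castSucc]
    have : ∀ i : Fin n, inner ℝ (toE p) (b i.castSucc) * inner ℝ (b i.castSucc) x = 0 := by
      intro i
      rw [real_inner_comm, T3 i, zero_mul]
    rw [Finset.sum_eq_zero (fun i _ => this i), zero_add]
  have T5 : |inner ℝ (toE p) (b (Fin.last n))| = ‖toE p‖ := by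
    have h1 := T4 (toE p)
    rw [real_inner_self_eq_norm_sq, real_inner_comm (toE p) (b (Fin.last n)), ← sq] at h1
    have := congrArg Real.sqrt h1
    rw [Real.sqrt_sq hpos.le, Real.sqrt_sq_eq_abs] at this
    exact this.symm
  -- the box
  let ρ : Fin (n + 1) → ℝ := Fin.snoc (α := fun _ => ℝ) (fun i => (supN (A i) : ℝ) / n) (1 / ‖toE p‖)
  have hρ1 : ∀ i : Fin n, ρ i.castSucc = (supN (A i) : ℝ) / n := by intro i; simp [ρ]
  have hρ2 : ρ (Fin.last n) = 1 / ‖toE p‖ := by simp [ρ]
  have hApos : ∀ i, (1 : ℝ) ≤ supN (A i) := by intro i; exact_mod_cast hA.one_le i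
  have hρpos : ∀ i, 0 < ρ i := by
    intro i
    refine Fin.lastCases ?_ ?_ i
    · rw [hρ2]; positivity
    · intro i
      rw [hρ1]
      have := hApos i
      positivity
  have hprod : 1 < ∏ i, ρ i := by
    rw [Fin.prod_univ_castSucc, hρ2]
    simp_rw [hρ1]
    rw [Finset.prod_div_distrib, Finset.prod_const, Finset.card_univ, Fintype.card_fin,
      div_mul_div_comm, mul_one, lt_div_iff₀ (by positivity), one_mul]
    refine lt_of_le_of_lt ?_ hcon
    rw [mul_assoc]
    apply mul_le_mul_of_nonneg_left _ (by positivity)
    have := norm_toE_le p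
    push_cast at this
    exact this
  obtain ⟨x, hx0, hx⟩ := mink b ρ hρpos hprod
  -- x is orthogonal to p
  have hxp : x ⬝ᵥ p = 0 := by
    have h1 := T4 (toE x)
    have h2 : |inner ℝ (toE p) (toE x)| < 1 := by
      rw [h1, abs_mul, T5]
      have := hx (Fin.last n)
      rw [hρ2, lt_div_iff₀ hpos] at this
      rw [mul_comm]
      exact this
    rw [inner_toE] at h2
    have h3 : |p ⬝ᵥ x| < 1 := by exact_mod_cast h2
    rw [dotProduct_comm]
    exact Int.abs_lt_one_iff.1 h3
  have hxlast : inner ℝ (b (Fin.last n)) (toE x) = 0 := by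
    have h1 := T4 (toE x)
    rw [inner_toE, dotProduct_comm, hxp] at h1
    have h2 : inner ℝ (toE p) (b (Fin.last n)) ≠ 0 := by
      intro h
      rw [h, abs_zero] at T5
      linarith
    have h3 : inner ℝ (toE p) (b (Fin.last n)) * inner ℝ (b (Fin.last n)) (toE x) = 0 := by
      rw [← h1]; simp
    exact (mul_eq_zero.1 h3).resolve_left h2
  -- the largest index
  have hne : (Finset.univ.filter (fun i : Fin n => inner ℝ (b i.castSucc) (toE x) ≠ 0)).Nonempty := by
    by_contra hcon2
    rw [Finset.not_nonempty_iff_eq_empty, Finset.filter_eq_empty_iff] at hcon2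
    apply hx0
    have h1 : toE x = 0 := by
      rw [← b.sum_repr' (toE x), Fin.sum_univ_castSucc, hxlast, zero_smul, add_zero]
      apply Finset.sum_eq_zero
      intro i _
      have := hcon2 (Finset.mem_univ i)
      push Not at this
      rw [this, zero_smul]
    funext i
    have h2 : toE x i = (0 : ℝ) := by rw [h1]; rfl
    have h3 : ((x i : ℤ) : ℝ) = 0 := h2
    exact Int.cast_eq_zero.1 h3
  obtain ⟨i0, hi0, hmax⟩ := Finset.exists_max_image _ (fun i => i) hne
  rw [Finset.mem_filter] at hi0
  have hbig : ∀ j, i0 < j → inner ℝ (b j.castSucc) (toE x) = 0 := by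
    intro j hj
    by_contra h
    have := hmax j (by rw [Finset.mem_filter]; exact ⟨Finset.mem_univ _, h⟩)
    exact absurd hj (not_lt.2 this)
  -- the exchanged family
  let A' : Fin n → (Fin (n + 1) → ℤ) := Function.update A i0 x
  have hA'1 : A' i0 = x := Function.update_self _ _ _
  have hA'2 : ∀ i, i ≠ i0 → A' i = A i := fun i hi => Function.update_of_ne hi _ _
  have hli' : LinearIndependent ℤ A' := by
    apply li_int_of_real
    apply li_of_triangular (fun i => toE (A' i)) (fun i => b i.castSucc)
    · intro i j hij
      show inner ℝ (b j.castSucc) (toE (A' i)) = 0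
      by_cases hi : i = i0
      · rw [hi, hA'1]
        exact hbig j (hi ▸ hij)
      · rw [hA'2 i hi, ← hf1]
        apply T1
        exact Fin.castSucc_lt_castSucc_iff.2 hij
    · intro i
      show inner ℝ (b i.castSucc) (toE (A' i)) ≠ 0
      by_cases hi : i = i0
      · rw [hi, hA'1]; exact hi0.2
      · rw [hA'2 i hi, ← hf1]; exact T2 _
  have horth' : ∀ i, A' i ⬝ᵥ p = 0 := by
    intro i
    by_cases hi : i = i0
    · rw [hi, hA'1]; exact hxp
    · rw [hA'2 i hi]; exact hA.orth i
  have hmin' := hmin A' hli' horth'
  have hle : supN (A i0) ≤ supN x := by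
    rw [← Finset.add_sum_erase _ _ (Finset.mem_univ i0),
      ← Finset.add_sum_erase _ (fun i => supN (A' i)) (Finset.mem_univ i0)] at hmin'
    have : ∑ i ∈ Finset.univ.erase i0, supN (A' i) = ∑ i ∈ Finset.univ.erase i0, supN (A i) := by
      apply Finset.sum_congr rfl
      intro i hi
      rw [hA'2 i (Finset.ne_of_mem_erase hi)]
    rw [this, hA'1] at hmin'
    omega
  -- but x is short
  have hshort : (supN x : ℝ) < supN (A i0) := by
    calc (supN x : ℝ) ≤ ‖toE x‖ := supN_le_norm x
      _ = ‖∑ i, inner ℝ (b i) (toE x) • b i‖ := by rw [b.sum_repr']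
      _ ≤ ∑ i, ‖inner ℝ (b i) (toE x) • b i‖ := norm_sum_le _ _
      _ = ∑ i, |inner ℝ (b i) (toE x)| := by
          apply Finset.sum_congr rfl
          intro i _
          rw [norm_smul, b.norm_eq_one, mul_one, Real.norm_eq_abs]
      _ = ∑ i : Fin n, |inner ℝ (b i.castSucc) (toE x)| := by
          rw [Fin.sum_univ_castSucc, hxlast, abs_zero, add_zero]
      _ < ∑ _i : Fin n, (supN (A i0) : ℝ) / n := by
          apply Finset.sum_lt_sum
          · intro i _
            rcases le_or_gt i i0 with h | h
            · have h1 := hx i.castSucc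
              rw [hρ1] at h1
              refine h1.le.trans ?_
              apply div_le_div_of_nonneg_right _ hnr.le
              exact_mod_cast hA.mono h
            · rw [hbig i h, abs_zero]
              positivity
          · refine ⟨i0, Finset.mem_univ _, ?_⟩
            have h1 := hx i0.castSucc
            rw [hρ1] at h1
            exact h1
      _ = supN (A i0) := by
          rw [Finset.sum_const, Finset.card_univ, Fintype.card_fin, nsmul_eq_mul]
          field_simp
  have : (supN (A i0) : ℝ) ≤ supN x := by exact_mod_cast hle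
  linarith

end

end Pool.Agent.H33
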