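import Pool.Agent.H33.SmallCount

set_option autoImplicit false

namespace Pool.Agent.H33

open Matrix

noncomputable section

theorem small_count (s m N : ℕ) (hs : 1 ≤ s) (hN : s + m = N) :
    ∃ C : ℕ, ∀ T B : ℕ, 1 ≤ T → T ≤ B → ∀ Q : Finset (Fin N → ℤ),
      (∀ p ∈ Q, supN p ≤ B ∧ ∃ a : Fin s → Fin N → ℤ, LinearIndependent ℤ a ∧
        (∀ i, a i ⬝ᵥ p = 0) ∧ ∏ i, supN (a i) ≤ T) →
      Q.card ≤ C * T ^ (m + s - 1) * B ^ m := by
  classical
  obtain ⟨s', rfl⟩ : ∃ s', s = s' + 1 := ⟨s - 1, by omega⟩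
  set f : ℕ := (s' + 1).factorial with hf
  set E : ℕ := Fintype.card (Fin (s' + 1) ⊕ Fin m ≃ Fin N) with hE
  refine ⟨E * f ^ m * (3 ^ (m * (s' + 1)) * f ^ s') * (2 * (1 + f) + 1) ^ m, ?_⟩
  intro T B hT hTB Q hQ
  set R : ℕ := f * T with hR
  -- data
  have hdata : ∀ p ∈ Q, ∃ (M : Fin (s' + 1) → Fin N → ℤ) (ε : Fin (s' + 1) ⊕ Fin m ≃ Fin N),
      (MI M ε).det ≠ 0 ∧
      (∀ ε' : Fin (s' + 1) ⊕ Fin m ≃ Fin N, |(MI M ε').det| ≤ |(MI M ε).det|) ∧
      (∀ i, M i ⬝ᵥ p = 0) ∧ ((MI M ε).det).natAbs ≤ R := by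
    intro p hp
    obtain ⟨-, a, ha1, ha2, ha3⟩ := hQ p hp
    obtain ⟨ε0, hε0⟩ := exists_cols hN a ha1
    obtain ⟨ε, -, hε⟩ := Finset.exists_max_image Finset.univ
      (fun ε : Fin (s' + 1) ⊕ Fin m ≃ Fin N => |(MI a ε).det|) ⟨ε0, Finset.mem_univ _⟩
    refine ⟨a, ε, ?_, fun ε' => hε ε' (Finset.mem_univ _), ha2, ?_⟩
    · intro h
      have h1 := hε ε0 (Finset.mem_univ _)
      rw [h, abs_zero] at h1
      have h2 : 0 < |(MI a ε0).det| := abs_pos.2 hε0
      omega
    · refine (det_le_prod a ε).trans ?_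
      exact Nat.mul_le_mul_left _ ha3
  have hne : Nonempty (Fin (s' + 1) ⊕ Fin m ≃ Fin N) := ⟨finSumFinEquiv.trans (finCongr hN)⟩
  choose! M ε hdet hmax horth hdR using hdata
  have hI : ∀ p ∈ Q, ((MI (M p) (ε p)) *ᵥ (fun i => -(p (ε p (Sum.inl i)))) =
      (MJ (M p) (ε p)) *ᵥ (fun j => p (ε p (Sum.inr j)))) := by
    intro p hp
    funext i
    have h1 := horth p hp i
    unfold dotProduct at h1
    rw [← Equiv.sum_comp (ε p), Fintype.sum_sum_type] at h1
    simp only [Matrix.mulVec, dotProduct, MI, MJ, Matrix.of_apply, mul_neg, Finset.sum_neg_distrib]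
    linarith
  have hsub := sub_count m R
  let F1 : (Fin N → ℤ) → (Fin (s' + 1) ⊕ Fin m ≃ Fin N) × AddSubgroup (Fin m → ℤ) := fun p =>
    (ε p, Lam (M p) (ε p))
  let tgt : Finset ((Fin (s' + 1) ⊕ Fin m ≃ Fin N) × AddSubgroup (Fin m → ℤ)) :=
    Finset.univ ×ˢ hsub.1.toFinset
  have hmaps : ∀ p ∈ Q, F1 p ∈ tgt := by
    intro p hp
    simp only [F1, tgt, Finset.mem_product, Finset.mem_univ, true_and, Set.Finite.mem_toFinset]
    have := Lam_index (hdet p hp) (M := M p) (ε := ε p)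
    exact ⟨this.1, this.2.trans (hdR p hp)⟩
  have hfiber : ∀ b ∈ tgt, (Q.filter (fun p => F1 p = b)).card ≤
      3 ^ (m * (s' + 1)) * R ^ s' * (2 * (B + R) + 1) ^ m := by
    rintro ⟨ε0, Λ0⟩ hb
    simp only [tgt, Finset.mem_product, Finset.mem_univ, true_and, Set.Finite.mem_toFinset] at hb
    obtain ⟨hΛ1, hΛ2⟩ := hb
    obtain ⟨hd1, hd2⟩ := dual_count Λ0 hΛ1
    obtain ⟨hb1, hb2⟩ := box_count Λ0 hΛ1 B R hΛ2
    let G : (Fin N → ℤ) → (Fin (s' + 1) → Fin m → ℚ) × (Fin m → ℤ) := fun p =>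
      (fun i j => Ymat (M p) (ε p) i j, fun j => p (ε p (Sum.inr j)))
    let tgt2 : Finset ((Fin (s' + 1) → Fin m → ℚ) × (Fin m → ℤ)) :=
      (Fintype.piFinset fun _ : Fin (s' + 1) => hd1.toFinset) ×ˢ hb1.toFinset
    have hG : ∀ p ∈ Q.filter (fun p => F1 p = (ε0, Λ0)), G p ∈ tgt2 := by
      intro p hp
      rw [Finset.mem_filter] at hp
      obtain ⟨hp, hF⟩ := hp
      simp only [F1, Prod.mk.injEq] at hF
      simp only [G, tgt2, Finset.mem_product, Fintype.mem_piFinset, Set.Finite.mem_toFinset]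
      refine ⟨fun i => ⟨fun j => Ymat_bound (hdet p hp) (hmax p hp) i j, ?_⟩, ?_, ?_⟩
      · intro x hx
        rw [← hF.2, mem_Lam] at hx
        obtain ⟨z, hz⟩ := hx
        refine ⟨-z i, ?_⟩
        rw [Ymat_eq (hdet p hp) hz i]
        push_cast
        rfl
      · rw [← hF.2, mem_Lam]
        exact ⟨_, hI p hp⟩
      · intro j
        have h1 := natAbs_le_supN p (ε p (Sum.inr j))
        have h2 := (hQ p hp).1
        rw [Int.abs_eq_natAbs]
        exact_mod_cast h1.trans h2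
    have hGinj : Set.InjOn G (Q.filter (fun p => F1 p = (ε0, Λ0)) : Set (Fin N → ℤ)) := by
      intro p hp q hq hGG
      rw [Finset.mem_coe, Finset.mem_filter] at hp hq
      obtain ⟨hp, hFp⟩ := hp
      obtain ⟨hq, hFq⟩ := hq
      simp only [F1, Prod.mk.injEq] at hFp hFq
      simp only [G, Prod.mk.injEq] at hGG
      obtain ⟨g1, g2⟩ := hGG
      have hεε : ε p = ε q := hFp.1.trans hFq.1.symm
      have hinr : ∀ j, p (ε p (Sum.inr j)) = q (ε p (Sum.inr j)) := by
        intro j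
        have := congrFun g2 j
        rw [hεε] at this ⊢
        exact this
      have hinl : ∀ i, p (ε p (Sum.inl i)) = q (ε p (Sum.inl i)) := by
        intro i
        have h1 := Ymat_eq (hdet p hp) (hI p hp) i
        have h2 := Ymat_eq (hdet q hq) (hI q hq) i
        have h3 : ∀ j, Ymat (M p) (ε p) i j = Ymat (M q) (ε q) i j := by
          intro j
          exact congrFun (congrFun g1 i) j
        have h4 : ∑ j, Ymat (M p) (ε p) i j * ((p (ε p (Sum.inr j)) : ℤ) : ℚ) =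
            ∑ j, Ymat (M q) (ε q) i j * ((q (ε q (Sum.inr j)) : ℤ) : ℚ) := by
          apply Finset.sum_congr rfl
          intro j _
          rw [h3 j]
          congr 2
          exact congrFun g2 j
        rw [h1, h2] at h4
        push_cast at h4
        rw [neg_neg, neg_neg] at h4
        rw [← hεε] at h4
        exact_mod_cast h4
      funext i
      obtain ⟨u, rfl⟩ := (ε p).surjective i
      rcases u with u | u
      · exact hinl u
      · exact hinr u
    have hcard := Finset.card_le_card_of_injOn G hG hGinj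
    refine hcard.trans ?_
    simp only [tgt2, Finset.card_product, Fintype.card_piFinset, Finset.prod_const,
      Finset.card_univ, Fintype.card_fin]
    rw [← Set.ncard_eq_toFinset_card _ hd1, ← Set.ncard_eq_toFinset_card _ hb1]
    calc (dualSet Λ0).ncard ^ (s' + 1) * (boxPts Λ0 B).ncard
        ≤ (3 ^ m * Λ0.index) ^ (s' + 1) * (boxPts Λ0 B).ncard := by
          apply Nat.mul_le_mul_right
          exact Nat.pow_le_pow_left hd2 _
      _ = 3 ^ (m * (s' + 1)) * Λ0.index ^ s' * ((boxPts Λ0 B).ncard * Λ0.index) := by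
          rw [mul_pow, pow_mul, pow_succ Λ0.index]
          ring
      _ ≤ 3 ^ (m * (s' + 1)) * R ^ s' * (2 * (B + R) + 1) ^ m := by
          apply Nat.mul_le_mul _ hb2
          apply Nat.mul_le_mul_left
          exact Nat.pow_le_pow_left hΛ2 _
  have hmain := Finset.card_le_mul_card_image_of_maps_to hmaps _ hfiber
  have htgt : tgt.card ≤ E * R ^ m := by
    simp only [tgt, Finset.card_product, Finset.card_univ]
    apply Nat.mul_le_mul_left
    rw [← Set.ncard_eq_toFinset_card _ hsub.1]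
    exact hsub.2
  have hB1 : 1 ≤ B := hT.trans hTB
  have hfpos : 1 ≤ f := Nat.factorial_pos _
  have hbox : 2 * (B + R) + 1 ≤ (2 * (1 + f) + 1) * B := by
    have : R ≤ f * B := Nat.mul_le_mul_left _ hTB
    nlinarith
  calc Q.card ≤ 3 ^ (m * (s' + 1)) * R ^ s' * (2 * (B + R) + 1) ^ m * tgt.card := hmain
    _ ≤ 3 ^ (m * (s' + 1)) * R ^ s' * ((2 * (1 + f) + 1) * B) ^ m * (E * R ^ m) := by
        apply Nat.mul_le_mul _ htgt
        apply Nat.mul_le_mul_left
        exact Nat.pow_le_pow_left hbox _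
    _ = E * f ^ m * (3 ^ (m * (s' + 1)) * f ^ s') * (2 * (1 + f) + 1) ^ m *
        T ^ (m + (s' + 1) - 1) * B ^ m := by
        rw [show m + (s' + 1) - 1 = m + s' by omega, hR, mul_pow, mul_pow, mul_pow, pow_add]
        ring

end

end Pool.Agent.H33
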