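import Pool.Agent.H33.Weighted
import Pool.Agent.H33.FrameMink
import Pool.Agent.H33.SmallCountB

set_option autoImplicit false

namespace Pool.Agent.H33

open MvPolynomial Filter Topology

noncomputable section

/-- trivial bound for the number of integer points in a box -/
lemma card_box_le {N : ℕ} (B : ℕ) (Q : Finset (Fin N → ℤ)) (h : ∀ p ∈ Q, supN p ≤ B) :
    Q.card ≤ (2 * B + 1) ^ N := by
  have h1 : Q ⊆ Fintype.piFinset (fun _ : Fin N => Finset.Icc (-(B : ℤ)) B) := by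
    intro p hp
    rw [Fintype.mem_piFinset]
    intro i
    have := (natAbs_le_supN p i).trans (h p hp)
    rw [Finset.mem_Icc]
    omega
  refine (Finset.card_le_card h1).trans ?_
  rw [Fintype.card_piFinset_const, Int.card_Icc]
  apply Nat.pow_le_pow_left
  omega

/-- product of the first `n - k` norms times product of the last `k` norms -/
lemma prod_split {n k : ℕ} (hk : k ≤ n) (A : Fin n → (Fin (n + 1) → ℤ)) :
    (∏ i : Fin (n - k), (supN (A ⟨i.val, by omega⟩) : ℝ)) *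
      ∏ i ∈ Finset.univ.filter (fun i : Fin n => n - k ≤ i.val), (supN (A i) : ℝ) =
      ∏ i, (supN (A i) : ℝ) := by
  classical
  rw [← Finset.prod_filter_mul_prod_filter_not Finset.univ (fun i : Fin n => n - k ≤ i.val), mul_comm]
  congr 1
  apply Finset.prod_bij (fun (i : Fin (n - k)) _ => (⟨i.val, by omega⟩ : Fin n))
  · intro i _
    simp only [Finset.mem_filter, Finset.mem_univ, true_and]
    have := i.2
    omega
  · intro i _ j _ hij
    ext
    simpa using congrArg Fin.val hij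
  · intro i hi
    simp only [Finset.mem_filter, Finset.mem_univ, true_and] at hi
    exact ⟨⟨i.val, by omega⟩, Finset.mem_univ _, rfl⟩
  · intro i _
    rfl

theorem core_count (n k : ℕ) (hn : 1 ≤ n) (hk : k ≤ n) :
    ∃ c : ℝ, 0 ≤ c ∧ ∀ (S : Finset (Ideal (MvPolynomial (Fin (n + 1)) ℚ)))
      (deg : Ideal (MvPolynomial (Fin (n + 1)) ℚ) → ℝ),
      (∀ P ∈ S, P.IsPrime ∧ IsHomog P ∧ HasDeg P k (deg P) ∧
        ∃ y : Fin (k + 1) → MvPolynomial (Fin (n + 1)) ℚ, NN P (k + 1) y) →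
      ∀ B : ℕ, 1 ≤ B → ∀ Q : Finset (Fin (n + 1) → ℤ),
      (∀ p ∈ Q, p ≠ 0 ∧ supN p ≤ B ∧ ∃ P ∈ S, ∀ f ∈ P, eval (fun i => ((p i : ℤ) : ℚ)) f = 0) →
      (∀ p ∈ Q, ∀ q ∈ Q, (∀ i j, p j * q i = p i * q j) → p = q) →
      (Q.card : ℝ) ≤ c * (∑ P ∈ S, deg P) ^ ((n : ℝ) / (n + 1)) * (B : ℝ) ^ (k + 1) := by
  classical
  have hnr : (0 : ℝ) < (n : ℝ) + 1 := by positivity
  obtain ⟨C1, hC1⟩ : ∃ C1 : ℕ, 1 ≤ n - k → ∀ T B : ℕ, 1 ≤ T → T ≤ B → ∀ Q : Finset (Fin (n + 1) → ℤ),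
      (∀ p ∈ Q, supN p ≤ B ∧ ∃ a : Fin (n - k) → Fin (n + 1) → ℤ, LinearIndependent ℤ a ∧
        (∀ i, a i ⬝ᵥ p = 0) ∧ ∏ i, supN (a i) ≤ T) →
      Q.card ≤ C1 * T ^ n * B ^ (k + 1) := by
    by_cases hs : 1 ≤ n - k
    · obtain ⟨C1, hC1⟩ := small_count (n - k) (k + 1) (n + 1) hs (by omega)
      refine ⟨C1, fun _ => ?_⟩
      rw [show k + 1 + (n - k) - 1 = n by omega] at hC1
      exact hC1
    · exact ⟨0, fun h => absurd h hs⟩
  set c2 : ℝ := (n : ℝ) ^ n * (n + 1) * (slC (n + 1) : ℝ) ^ k with hc2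
  have hc2n : 0 ≤ c2 := by positivity
  refine ⟨3 ^ (n + 1) + C1 + c2, by positivity, ?_⟩
  intro S deg hS B hB Q hQ hQp
  have hdeg1 : ∀ P ∈ S, 1 ≤ deg P := by
    intro P hP
    obtain ⟨-, h2, h3, y, h4⟩ := hS P hP
    obtain ⟨d', hd1, hd2⟩ := exists_hasDeg h2 h4
    rw [tendsto_nhds_unique h3 hd2]
    exact hd1
  have hBr : (1 : ℝ) ≤ B := by exact_mod_cast hB
  rcases S.eq_empty_or_nonempty with hSe | ⟨P0, hP0⟩
  · have : Q = ∅ := by
      rw [Finset.eq_empty_iff_forall_notMem]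
      intro p hp
      obtain ⟨-, -, P, hP, -⟩ := hQ p hp
      rw [hSe] at hP
      exact absurd hP (Finset.notMem_empty _)
    rw [this, hSe]
    simp only [Finset.card_empty, Nat.cast_zero, Finset.sum_empty]
    positivity
  set D : ℝ := ∑ P ∈ S, deg P with hD
  have hD1 : 1 ≤ D := by
    calc (1 : ℝ) ≤ deg P0 := hdeg1 P0 hP0
      _ ≤ D := Finset.single_le_sum (f := deg) (fun P hP => by linarith [hdeg1 P hP]) hP0
  set h : ℝ := D ^ ((1 : ℝ) / (n + 1)) with hh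
  have hh1 : 1 ≤ h := Real.one_le_rpow hD1 (by positivity)
  have hhn : D ^ ((n : ℝ) / (n + 1)) = h ^ n := by
    rw [hh, ← Real.rpow_natCast, ← Real.rpow_mul (by linarith)]
    congr 1
    field_simp
  have hhn1 : h ^ (n + 1) = D := by
    rw [hh, ← Real.rpow_natCast, ← Real.rpow_mul (by linarith)]
    rw [show (1 : ℝ) / (n + 1) * ((n + 1 : ℕ) : ℝ) = 1 by push_cast; field_simp]
    rw [Real.rpow_one]
  rw [hhn]
  have hhnpos : 0 ≤ h ^ n := by positivity
  have hBk : (0 : ℝ) ≤ (B : ℝ) ^ (k + 1) := by positivity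
  -- trivial bound
  have htriv : (Q.card : ℝ) ≤ 3 ^ (n + 1) * (B : ℝ) ^ (n + 1) := by
    have h1 := card_box_le B Q (fun p hp => (hQ p hp).2.1)
    have h2 : (2 * B + 1) ^ (n + 1) ≤ (3 * B) ^ (n + 1) := Nat.pow_le_pow_left (by omega) _
    have h3 := h1.trans h2
    rw [mul_pow] at h3
    exact_mod_cast h3
  have htriv2 : ∀ e : ℝ, (B : ℝ) ^ (n - k) ≤ h ^ n →
      (Q.card : ℝ) ≤ 3 ^ (n + 1) * h ^ n * (B : ℝ) ^ (k + 1) := by
    intro _ h1
    calc (Q.card : ℝ) ≤ 3 ^ (n + 1) * (B : ℝ) ^ (n + 1) := htriv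
      _ = 3 ^ (n + 1) * (B : ℝ) ^ (n - k) * (B : ℝ) ^ (k + 1) := by
          rw [mul_assoc, ← pow_add]
          congr 2
          omega
      _ ≤ 3 ^ (n + 1) * h ^ n * (B : ℝ) ^ (k + 1) := by
          apply mul_le_mul_of_nonneg_right _ hBk
          apply mul_le_mul_of_nonneg_left h1 (by positivity)
  have hfin : (Q.card : ℝ) ≤ 3 ^ (n + 1) * h ^ n * (B : ℝ) ^ (k + 1) →
      (Q.card : ℝ) ≤ (3 ^ (n + 1) + C1 + c2) * h ^ n * (B : ℝ) ^ (k + 1) := by
    intro h1
    refine h1.trans ?_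
    apply mul_le_mul_of_nonneg_right _ hBk
    apply mul_le_mul_of_nonneg_right _ hhnpos
    have : (0 : ℝ) ≤ C1 := by positivity
    linarith
  by_cases hs : n - k = 0
  · apply hfin
    apply htriv2 0
    rw [hs, pow_zero]
    exact one_le_pow₀ hh1
  by_cases hBh : (B : ℝ) < h
  · apply hfin
    apply htriv2 0
    calc (B : ℝ) ^ (n - k) ≤ (B : ℝ) ^ n := pow_le_pow_right₀ hBr (by omega)
      _ ≤ h ^ n := pow_le_pow_left₀ (by linarith) hBh.le _
  push Not at hBh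
  set T : ℕ := ⌊h⌋₊ with hT
  have hT1 : 1 ≤ T := Nat.le_floor (by exact_mod_cast hh1)
  have hTh : (T : ℝ) ≤ h := Nat.floor_le (by linarith)
  have hTB : T ≤ B := by
    have : (T : ℝ) ≤ B := hTh.trans hBh
    exact_mod_cast this
  -- frames
  have hfr : ∀ p : Fin (n + 1) → ℤ, ∃ A : Fin n → (Fin (n + 1) → ℤ), p ≠ 0 → (Frame p A ∧
      (∏ i, (supN (A i) : ℝ)) ≤ (n : ℝ) ^ n * (n + 1) * supN p) := by
    intro p
    by_cases hp : p = 0
    · exact ⟨fun _ => 0, fun h => absurd hp h⟩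
    · obtain ⟨A, hA⟩ := exists_frame p hp
      exact ⟨A, fun _ => hA⟩
  choose A hA using hfr
  set Q1 : Finset (Fin (n + 1) → ℤ) :=
    Q.filter (fun p => ∏ i : Fin (n - k), supN (A p ⟨i.val, by omega⟩) ≤ T) with hQ1
  set Q2 : Finset (Fin (n + 1) → ℤ) :=
    Q.filter (fun p => ¬ ∏ i : Fin (n - k), supN (A p ⟨i.val, by omega⟩) ≤ T) with hQ2
  have hcard : Q.card = Q1.card + Q2.card :=
    (Finset.card_filter_add_card_filter_not _).symm
  have hb1 : (Q1.card : ℝ) ≤ C1 * h ^ n * (B : ℝ) ^ (k + 1) := by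
    have h1 := hC1 (by omega) T B hT1 hTB Q1 (by
      intro p hp
      rw [hQ1, Finset.mem_filter] at hp
      obtain ⟨hp1, hp2⟩ := hp
      obtain ⟨h1, h2, -⟩ := hQ p hp1
      obtain ⟨hA1, -⟩ := hA p h1
      refine ⟨h2, fun i => A p ⟨i.val, by omega⟩, ?_, fun i => hA1.orth _, hp2⟩
      apply hA1.li.comp (fun i : Fin (n - k) => (⟨i.val, by omega⟩ : Fin n))
      intro i j hij
      ext
      simpa using congrArg Fin.val hij)
    calc (Q1.card : ℝ) ≤ ((C1 * T ^ n * B ^ (k + 1) : ℕ) : ℝ) := by exact_mod_cast h1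
      _ = C1 * (T : ℝ) ^ n * (B : ℝ) ^ (k + 1) := by push_cast; ring
      _ ≤ C1 * h ^ n * (B : ℝ) ^ (k + 1) := by
          apply mul_le_mul_of_nonneg_right _ hBk
          apply mul_le_mul_of_nonneg_left _ (by positivity)
          exact pow_le_pow_left₀ (by positivity) hTh _
  have hwt : ∀ p ∈ Q2, h ≤ (n : ℝ) ^ n * (n + 1) * B * wt (A p) k := by
    intro p hp
    rw [hQ2, Finset.mem_filter] at hp
    obtain ⟨hp1, hp2⟩ := hp
    obtain ⟨h1, h2, -⟩ := hQ p hp1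
    obtain ⟨hA1, hA2⟩ := hA p h1
    have h3 : h ≤ ∏ i : Fin (n - k), (supN (A p ⟨i.val, by omega⟩) : ℝ) := by
      have h4 : T + 1 ≤ ∏ i : Fin (n - k), supN (A p ⟨i.val, by omega⟩) := by omega
      have h5 : h < T + 1 := Nat.lt_floor_add_one h
      have h6 : ((T + 1 : ℕ) : ℝ) ≤ ∏ i : Fin (n - k), (supN (A p ⟨i.val, by omega⟩) : ℝ) := by
        exact_mod_cast h4
      push_cast at h6
      linarith
    have h4 := prod_split hk (A p)
    have h5 : wt (A p) k *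
        ∏ i ∈ Finset.univ.filter (fun i : Fin n => n - k ≤ i.val), (supN (A p i) : ℝ) = 1 := by
      unfold wt
      rw [← Finset.prod_mul_distrib]
      apply Finset.prod_eq_one
      intro i _
      have := hA1.one_le i
      have h6 : (supN (A p i) : ℝ) ≠ 0 := by
        have : (0 : ℝ) < supN (A p i) := by exact_mod_cast this
        exact this.ne'
      rw [one_div, inv_mul_cancel₀ h6]
    calc h ≤ ∏ i : Fin (n - k), (supN (A p ⟨i.val, by omega⟩) : ℝ) := h3
      _ = (∏ i, (supN (A p i) : ℝ)) * wt (A p) k := by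
          rw [← h4, mul_assoc, mul_comm _ (wt (A p) k), h5, mul_one]
      _ ≤ ((n : ℝ) ^ n * (n + 1) * supN p) * wt (A p) k :=
          mul_le_mul_of_nonneg_right hA2 (wt_nonneg _ _)
      _ ≤ (n : ℝ) ^ n * (n + 1) * B * wt (A p) k := by
          apply mul_le_mul_of_nonneg_right _ (wt_nonneg _ _)
          apply mul_le_mul_of_nonneg_left _ (by positivity)
          exact_mod_cast h2
  have hsum : ∑ p ∈ Q2, wt (A p) k ≤ (slC (n + 1) : ℝ) ^ k * D * (B : ℝ) ^ k := by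
    calc ∑ p ∈ Q2, wt (A p) k
        ≤ ∑ P ∈ S, ∑ p ∈ Q2.filter (fun p => ∀ f ∈ P, eval (fun i => ((p i : ℤ) : ℚ)) f = 0),
            wt (A p) k := by
          have h1 : ∀ p ∈ Q2, wt (A p) k ≤
              ∑ P ∈ S, (if (∀ f ∈ P, eval (fun i => ((p i : ℤ) : ℚ)) f = 0) then
                wt (A p) k else 0) := by
            intro p hp
            rw [hQ2, Finset.mem_filter] at hp
            obtain ⟨-, -, P, hP, hPp⟩ := hQ p hp.1
            have h2 := Finset.single_le_sum (f := fun P : Ideal (MvPolynomial (Fin (n + 1)) ℚ) =>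
              (if (∀ f ∈ P, eval (fun i => ((p i : ℤ) : ℚ)) f = 0) then wt (A p) k else 0))
              (s := S) (fun R _ => by
                show (0 : ℝ) ≤ if _ then _ else _
                split_ifs
                · exact wt_nonneg _ _
                · exact le_rfl) hP
            have h3 : (if (∀ f ∈ P, eval (fun i => ((p i : ℤ) : ℚ)) f = 0) then wt (A p) k else 0) =
              wt (A p) k := if_pos hPp
            rw [h3] at h2
            exact h2
          refine (Finset.sum_le_sum h1).trans ?_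
          rw [Finset.sum_comm]
          apply Finset.sum_le_sum
          intro R _
          rw [← Finset.sum_filter]
      _ ≤ ∑ P ∈ S, (slC (n + 1) : ℝ) ^ k * deg P * (B : ℝ) ^ k := by
          apply Finset.sum_le_sum
          intro P hP
          obtain ⟨g1, g2, g3, y, g4⟩ := hS P hP
          apply weighted_bound A k P g1 g2 y g4 (deg P) g3 B hB
          · intro p hp
            rw [Finset.mem_filter] at hp
            obtain ⟨hp1, hp2⟩ := hp
            rw [hQ2, Finset.mem_filter] at hp1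
            obtain ⟨h1, h2, -⟩ := hQ p hp1.1
            exact ⟨h1, h2, (hA p h1).1, hp2⟩
          · intro p hp q hq
            rw [Finset.mem_filter, hQ2, Finset.mem_filter] at hp hq
            exact hQp p hp.1.1 q hq.1.1
      _ = (slC (n + 1) : ℝ) ^ k * D * (B : ℝ) ^ k := by
          rw [hD, Finset.mul_sum, Finset.sum_mul]
  have hb2 : (Q2.card : ℝ) ≤ c2 * h ^ n * (B : ℝ) ^ (k + 1) := by
    have h1 : (Q2.card : ℝ) * h ≤ (n : ℝ) ^ n * (n + 1) * B * ∑ p ∈ Q2, wt (A p) k := by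
      calc (Q2.card : ℝ) * h = ∑ _p ∈ Q2, h := by rw [Finset.sum_const, nsmul_eq_mul]
        _ ≤ ∑ p ∈ Q2, (n : ℝ) ^ n * (n + 1) * B * wt (A p) k := Finset.sum_le_sum hwt
        _ = (n : ℝ) ^ n * (n + 1) * B * ∑ p ∈ Q2, wt (A p) k := by rw [Finset.mul_sum]
    have h2 : (Q2.card : ℝ) * h ≤ (c2 * h ^ n * (B : ℝ) ^ (k + 1)) * h := by
      calc (Q2.card : ℝ) * h ≤ (n : ℝ) ^ n * (n + 1) * B * ∑ p ∈ Q2, wt (A p) k := h1
        _ ≤ (n : ℝ) ^ n * (n + 1) * B * ((slC (n + 1) : ℝ) ^ k * D * (B : ℝ) ^ k) :=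
            mul_le_mul_of_nonneg_left hsum (by positivity)
        _ = (c2 * h ^ n * (B : ℝ) ^ (k + 1)) * h := by
            rw [← hhn1, hc2]
            ring
    exact le_of_mul_le_mul_right h2 (by linarith)
  rw [hcard]
  push_cast
  have h3n : (0 : ℝ) ≤ 3 ^ (n + 1) * h ^ n * (B : ℝ) ^ (k + 1) := by positivity
  calc (Q1.card : ℝ) + Q2.card ≤ C1 * h ^ n * (B : ℝ) ^ (k + 1) + c2 * h ^ n * (B : ℝ) ^ (k + 1) :=
        add_le_add hb1 hb2
    _ ≤ (3 ^ (n + 1) + C1 + c2) * h ^ n * (B : ℝ) ^ (k + 1) := by nlinarith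

end

end Pool.Agent.H33
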