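import Pool.Agent.H33.SubCount

set_option autoImplicit false

namespace Pool.Agent.H33

noncomputable section

/-- dual vectors in the unit box -/
def dualSet {m : ℕ} (Λ : AddSubgroup (Fin m → ℤ)) : Set (Fin m → ℚ) :=
  {y | (∀ j, |y j| ≤ 1) ∧ ∀ x ∈ Λ, ∃ z : ℤ, ∑ j, y j * (x j : ℚ) = z}

lemma index_smul_mem {m : ℕ} (Λ : AddSubgroup (Fin m → ℤ)) (h : Λ.index ≠ 0) (x : Fin m → ℤ) :
    (fun j => (Λ.index : ℤ) * x j) ∈ Λ := by
  have : Λ.FiniteIndex := ⟨h⟩
  have h1 : Λ.index • x ∈ Λ := AddSubgroup.nsmul_index_mem _ _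
  have h2 : Λ.index • x = fun j => (Λ.index : ℤ) * x j := by
    funext j
    simp
  rwa [h2] at h1

theorem dual_count {m : ℕ} (Λ : AddSubgroup (Fin m → ℤ)) (h : Λ.index ≠ 0) :
    (dualSet Λ).Finite ∧ (dualSet Λ).ncard ≤ 3 ^ m * Λ.index := by
  classical
  have hfi : Λ.FiniteIndex := ⟨h⟩
  have hfin : Finite ((Fin m → ℤ) ⧸ Λ) := AddSubgroup.finite_quotient_of_finiteIndex
  have hftype : Fintype ((Fin m → ℤ) ⧸ Λ) := Fintype.ofFinite _
  set D : ℕ := Λ.index with hD
  have hDne : NeZero D := ⟨h⟩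
  -- numerators
  have hnum : ∀ y : Fin m → ℚ, ∃ t : Fin m → ℤ, y ∈ dualSet Λ → ∀ j, (D : ℚ) * y j = t j := by
    intro y
    by_cases hy : y ∈ dualSet Λ
    · have : ∀ j, ∃ z : ℤ, (D : ℚ) * y j = z := by
        intro j
        obtain ⟨z, hz⟩ := hy.2 _ (index_smul_mem Λ h (Pi.single j 1))
        refine ⟨z, ?_⟩
        rw [← hz, Finset.sum_eq_single j]
        · rw [Pi.single_eq_same]; push_cast; ring
        · intro b _ hb
          rw [Pi.single_eq_of_ne hb]; simp
        · intro h; exact absurd (Finset.mem_univ j) h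
      choose t ht using this
      exact ⟨t, fun _ => ht⟩
    · exact ⟨0, fun h => absurd h hy⟩
  choose t ht using hnum
  -- homs to ZMod D
  let f : (Fin m → ℚ) → ((Fin m → ℤ) →+ ZMod D) := fun y =>
    { toFun := fun x => ((∑ j, t y j * x j : ℤ) : ZMod D)
      map_zero' := by simp
      map_add' := by
        intro a b
        simp [mul_add, Finset.sum_add_distrib] }
  have hf : ∀ y ∈ dualSet Λ, Λ ≤ (f y).ker := by
    intro y hy x hx
    rw [AddMonoidHom.mem_ker]
    obtain ⟨z, hz⟩ := hy.2 x hx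
    show ((∑ j, t y j * x j : ℤ) : ZMod D) = 0
    have h1 : (∑ j, t y j * x j : ℤ) = D * z := by
      have h2 : ((∑ j, t y j * x j : ℤ) : ℚ) = ((D * z : ℤ) : ℚ) := by
        push_cast
        rw [← hz, Finset.mul_sum]
        apply Finset.sum_congr rfl
        intro j _
        rw [← ht y hy j]; ring
      exact_mod_cast h2
    rw [h1]
    simp
  let g : (Fin m → ℚ) → ((Fin m → ℤ) ⧸ Λ →+ ZMod D) := fun y =>
    if hy : y ∈ dualSet Λ then QuotientAddGroup.lift Λ (f y) (hf y hy) else 0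
  have hg : ∀ y ∈ dualSet Λ, ∀ x : Fin m → ℤ, g y (QuotientAddGroup.mk x) =
      ((∑ j, t y j * x j : ℤ) : ZMod D) := by
    intro y hy x
    simp only [g, dif_pos hy]
    rfl
  let ψ : (Fin m → ℚ) → AddChar ((Fin m → ℤ) ⧸ Λ) ℂ := fun y =>
    (ZMod.stdAddChar (N := D)).compAddMonoidHom (g y)
  let F : (Fin m → ℚ) → AddChar ((Fin m → ℤ) ⧸ Λ) ℂ × (Fin m → ℤ) := fun y => (ψ y, fun j => ⌊y j⌋)
  let target : Finset (AddChar ((Fin m → ℤ) ⧸ Λ) ℂ × (Fin m → ℤ)) :=
    (Finset.univ : Finset (AddChar ((Fin m → ℤ) ⧸ Λ) ℂ)) ×ˢ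
      (Fintype.piFinset fun _ : Fin m => Finset.Icc (-1 : ℤ) 1)
  have hmaps : ∀ y ∈ dualSet Λ, F y ∈ (target : Set (AddChar ((Fin m → ℤ) ⧸ Λ) ℂ × (Fin m → ℤ))) := by
    intro y hy
    simp only [target, Finset.coe_product, Set.mem_prod, Finset.mem_coe, Finset.mem_univ, true_and,
      Fintype.mem_piFinset, Finset.mem_Icc]
    intro j
    have := hy.1 j
    rw [abs_le] at this
    constructor
    · rw [Int.le_floor]; push_cast; exact this.1
    · rw [Int.floor_le_iff]; push_cast; linarith [this.2]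
  have hinj : Set.InjOn F (dualSet Λ) := by
    intro y hy y' hy' hFF
    simp only [F, Prod.mk.injEq] at hFF
    obtain ⟨h1, h2⟩ := hFF
    have h3 : g y = g y' := by
      apply AddMonoidHom.ext
      intro x
      have h4 : ψ y x = ψ y' x := by rw [h1]
      exact ZMod.injective_stdAddChar h4
    funext j
    have h5 : (((t y j : ℤ) : ZMod D)) = ((t y' j : ℤ) : ZMod D) := by
      have h6 := hg y hy (Pi.single j 1)
      have h7 := hg y' hy' (Pi.single j 1)
      rw [h3, h7] at h6
      have e : ∀ s : Fin m → ℤ, (∑ i, s i * (Pi.single j 1 : Fin m → ℤ) i) = s j := by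
        intro s
        rw [Finset.sum_eq_single j]
        · rw [Pi.single_eq_same, mul_one]
        · intro b _ hb
          rw [Pi.single_eq_of_ne hb, mul_zero]
        · intro h; exact absurd (Finset.mem_univ j) h
      rw [e, e] at h6
      exact h6.symm
    rw [ZMod.intCast_eq_intCast_iff_dvd_sub] at h5
    obtain ⟨c, hc⟩ := h5
    have h8 : y' j = y j + c := by
      have h9 := ht y hy j
      have h10 := ht y' hy' j
      have hDq : (D : ℚ) ≠ 0 := by exact_mod_cast h
      have h11 : ((t y' j - t y j : ℤ) : ℚ) = ((D * c : ℤ) : ℚ) := by rw [hc]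
      push_cast at h11
      rw [← h9, ← h10] at h11
      have h12 : (D : ℚ) * (y' j - y j - c) = 0 := by linarith
      have h13 := (mul_eq_zero.1 h12).resolve_left hDq
      linarith
    have h14 : ⌊y j⌋ = ⌊y' j⌋ := congrFun h2 j
    rw [h8, Int.floor_add_intCast] at h14
    have : c = 0 := by omega
    rw [h8, this]; simp
  refine ⟨Set.Finite.of_injOn hmaps hinj target.finite_toSet, ?_⟩
  calc (dualSet Λ).ncard ≤ (target : Set _).ncard :=
        Set.ncard_le_ncard_of_injOn F hmaps hinj target.finite_toSet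
    _ = target.card := Set.ncard_coe_finset _
    _ = Fintype.card (AddChar ((Fin m → ℤ) ⧸ Λ) ℂ) * 3 ^ m := by
        simp only [target, Finset.card_product, Finset.card_univ, Fintype.card_piFinset, Int.card_Icc]
        simp
    _ ≤ D * 3 ^ m := by
        apply Nat.mul_le_mul_right
        calc Fintype.card (AddChar ((Fin m → ℤ) ⧸ Λ) ℂ) ≤ Fintype.card ((Fin m → ℤ) ⧸ Λ) :=
              AddChar.card_addChar_le _ _
          _ = D := by rw [hD, AddSubgroup.index_eq_card, Nat.card_eq_fintype_card]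
    _ = 3 ^ m * D := by ring

/-- points of a sublattice in a box -/
def boxPts {m : ℕ} (Λ : AddSubgroup (Fin m → ℤ)) (B : ℕ) : Set (Fin m → ℤ) :=
  {x | x ∈ Λ ∧ ∀ j, |x j| ≤ B}

theorem box_count {m : ℕ} (Λ : AddSubgroup (Fin m → ℤ)) (h : Λ.index ≠ 0) (B R : ℕ)
    (hR : Λ.index ≤ R) :
    (boxPts Λ B).Finite ∧ (boxPts Λ B).ncard * Λ.index ≤ (2 * (B + R) + 1) ^ m := by
  classical
  have hfi : Λ.FiniteIndex := ⟨h⟩
  have hfin : Finite ((Fin m → ℤ) ⧸ Λ) := AddSubgroup.finite_quotient_of_finiteIndex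
  have hftype : Fintype ((Fin m → ℤ) ⧸ Λ) := Fintype.ofFinite _
  have hD0 : (0 : ℤ) < (Λ.index : ℤ) := by
    have := Nat.pos_of_ne_zero h
    exact_mod_cast this
  let big : Finset (Fin m → ℤ) := Fintype.piFinset fun _ : Fin m =>
    Finset.Icc (-((B + R : ℕ) : ℤ)) ((B + R : ℕ) : ℤ)
  have hbig : big.card = (2 * (B + R) + 1) ^ m := by
    simp only [big, Fintype.card_piFinset, Int.card_Icc, Finset.prod_const, Finset.card_univ,
      Fintype.card_fin]
    congr 1
    omega
  have hsub : boxPts Λ B ⊆ (big : Set (Fin m → ℤ)) := by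
    intro x hx
    simp only [big, Finset.mem_coe, Fintype.mem_piFinset, Finset.mem_Icc]
    intro j
    have := hx.2 j
    rw [abs_le] at this
    push_cast
    constructor <;> linarith [this.1, this.2]
  have hfinB : (boxPts Λ B).Finite := Set.Finite.subset big.finite_toSet hsub
  refine ⟨hfinB, ?_⟩
  -- representatives
  let rep : (Fin m → ℤ) ⧸ Λ → (Fin m → ℤ) := fun q j => (Quotient.out q j) % (Λ.index : ℤ)
  have hrep : ∀ q, (QuotientAddGroup.mk (rep q) : (Fin m → ℤ) ⧸ Λ) = q := by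
    intro q
    have h1 : (QuotientAddGroup.mk (Quotient.out q) : (Fin m → ℤ) ⧸ Λ) = q := Quotient.out_eq' q
    rw [← h1, QuotientAddGroup.eq]
    have h2 := index_smul_mem Λ h (fun j => (Quotient.out q j) / (Λ.index : ℤ))
    have h3 : -rep (QuotientAddGroup.mk (Quotient.out q)) + Quotient.out q =
        fun j => (Λ.index : ℤ) * ((Quotient.out q j) / (Λ.index : ℤ)) := by
      rw [h1]
      funext j
      simp only [rep, Pi.add_apply, Pi.neg_apply]
      have := Int.emod_add_mul_ediv (Quotient.out q j) (Λ.index : ℤ)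
      linarith
    rw [h3]
    exact h2
  let F : (Fin m → ℤ) × ((Fin m → ℤ) ⧸ Λ) → (Fin m → ℤ) := fun u => u.1 + rep u.2
  let src : Finset ((Fin m → ℤ) × ((Fin m → ℤ) ⧸ Λ)) := hfinB.toFinset ×ˢ Finset.univ
  have hmaps : ∀ u ∈ src, F u ∈ big := by
    rintro ⟨x, q⟩ hu
    simp only [src, Finset.mem_product, Set.Finite.mem_toFinset, Finset.mem_univ, and_true] at hu
    simp only [F, big, Fintype.mem_piFinset, Finset.mem_Icc, Pi.add_apply]
    intro j
    have h1 := hu.2 j
    rw [abs_le] at h1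
    have h2 := Int.emod_nonneg (Quotient.out q j) hD0.ne'
    have h3 := Int.emod_lt_of_pos (Quotient.out q j) hD0
    have h4 : (Λ.index : ℤ) ≤ R := by exact_mod_cast hR
    simp only [rep]
    push_cast
    constructor <;> linarith [h1.1, h1.2]
  have hinj : Set.InjOn F (src : Set ((Fin m → ℤ) × ((Fin m → ℤ) ⧸ Λ))) := by
    rintro ⟨x, q⟩ hu ⟨x', q'⟩ hu' hFF
    simp only [src, Finset.coe_product, Set.mem_prod, Finset.mem_coe, Set.Finite.mem_toFinset,
      Finset.mem_univ, and_true] at hu hu'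
    simp only [F] at hFF
    have hq : q = q' := by
      rw [← hrep q, ← hrep q', QuotientAddGroup.eq]
      have : -rep q + rep q' = x - x' := by
        have := hFF
        rw [← sub_eq_zero] at this
        rw [← sub_eq_zero]
        rw [← neg_eq_zero]
        rw [← this]
        abel
      rw [this]
      exact Λ.sub_mem hu.1 hu'.1
    subst hq
    have : x = x' := add_right_cancel hFF
    rw [this]
  have hcard := Finset.card_le_card_of_injOn F hmaps hinj
  rw [hbig] at hcard
  simp only [src, Finset.card_product, Finset.card_univ] at hcard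
  have h5 : Fintype.card ((Fin m → ℤ) ⧸ Λ) = Λ.index := by
    rw [AddSubgroup.index_eq_card, Nat.card_eq_fintype_card]
  rw [h5] at hcard
  rw [Set.ncard_eq_toFinset_card _ hfinB]
  exact hcard

end

end Pool.Agent.H33
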