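import Mathlib

set_option autoImplicit false

namespace Pool.Agent.H33

open MeasureTheory InnerProductSpace

noncomputable section

/-- real vector of an integer vector in Euclidean space -/
def toE {N : ℕ} (x : Fin N → ℤ) : EuclideanSpace ℝ (Fin N) := WithLp.toLp 2 (fun j => (x j : ℝ))

theorem mink {N : ℕ} (b : OrthonormalBasis (Fin N) ℝ (EuclideanSpace ℝ (Fin N))) (ρ : Fin N → ℝ)
    (hρ : ∀ i, 0 < ρ i) (hprod : 1 < ∏ i, ρ i) :
    ∃ x : Fin N → ℤ, x ≠ 0 ∧ ∀ i, |inner ℝ (b i) (toE x)| < ρ i := by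
  let s : Set (Fin N → ℝ) := {v | ∀ i, |inner ℝ (b i) (WithLp.toLp 2 v)| < ρ i}
  let box : Set (Fin N → ℝ) := Set.pi Set.univ (fun i => Set.Ioo (-ρ i) (ρ i))
  have hs : s = (fun v : Fin N → ℝ => (WithLp.ofLp (b.repr (WithLp.toLp 2 v)) : Fin N → ℝ)) ⁻¹' box := by
    ext v
    simp only [s, box, Set.mem_ofPred_eq, Set.mem_preimage, Set.mem_pi, Set.mem_univ, true_implies,
      Set.mem_Ioo]
    apply forall_congr'
    intro i
    rw [abs_lt, b.repr_apply_apply]
  have hmp : MeasurePreserving (fun v : Fin N → ℝ => (WithLp.ofLp (b.repr (WithLp.toLp 2 v)) : Fin N → ℝ))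
      volume volume := by
    have h1 := PiLp.volume_preserving_toLp (Fin N)
    have h2 := b.measurePreserving_repr
    have h3 := PiLp.volume_preserving_ofLp (Fin N)
    exact h3.comp (h2.comp h1)
  have hbox : volume box = ENNReal.ofReal (∏ i, (2 * ρ i)) := by
    rw [Real.volume_pi_Ioo, ENNReal.ofReal_prod_of_nonneg (fun i _ => by linarith [hρ i])]
    apply Finset.prod_congr rfl
    intro i _
    congr 1
    ring
  have hvol : volume s = ENNReal.ofReal (∏ i, (2 * ρ i)) := by
    rw [hs, hmp.measure_preimage, hbox]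
    apply MeasurableSet.nullMeasurableSet
    exact MeasurableSet.univ_pi (fun i => measurableSet_Ioo)
  have hsymm : ∀ x ∈ s, -x ∈ s := by
    intro x hx i
    have := hx i
    rw [WithLp.toLp_neg, inner_neg_right, abs_neg]
    exact this
  have hconv : Convex ℝ s := by
    have : s = ⋂ i, {v : Fin N → ℝ | |inner ℝ (b i) (WithLp.toLp 2 v)| < ρ i} := by
      ext v; simp [s]
    rw [this]
    apply convex_iInter
    intro i
    intro v hv w hw α β hα hβ hαβ
    simp only [Set.mem_ofPred_eq] at hv hw ⊢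
    rw [WithLp.toLp_add, WithLp.toLp_smul, WithLp.toLp_smul, inner_add_right, inner_smul_right,
      inner_smul_right]
    calc |α * inner ℝ (b i) (WithLp.toLp 2 v) + β * inner ℝ (b i) (WithLp.toLp 2 w)|
        ≤ |α * inner ℝ (b i) (WithLp.toLp 2 v)| + |β * inner ℝ (b i) (WithLp.toLp 2 w)| := abs_add_le _ _
      _ = α * |inner ℝ (b i) (WithLp.toLp 2 v)| + β * |inner ℝ (b i) (WithLp.toLp 2 w)| := by
          rw [abs_mul, abs_mul, abs_of_nonneg hα, abs_of_nonneg hβ]
      _ < ρ i := by
          rcases eq_or_lt_of_le hα with h0 | h0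
          · have : β = 1 := by linarith
            rw [← h0, this]; linarith
          · have h1 : α * |inner ℝ (b i) (WithLp.toLp 2 v)| < α * ρ i :=
              mul_lt_mul_of_pos_left hv h0
            have h2 : β * |inner ℝ (b i) (WithLp.toLp 2 w)| ≤ β * ρ i :=
              mul_le_mul_of_nonneg_left hw.le hβ
            calc _ < α * ρ i + β * ρ i := by linarith
              _ = ρ i := by rw [← add_mul, hαβ, one_mul]
  have hF := ZSpan.isAddFundamentalDomain' (Pi.basisFun ℝ (Fin N)) volume
  have hFv : volume (ZSpan.fundamentalDomain (Pi.basisFun ℝ (Fin N))) = 1 := by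
    rw [ZSpan.fundamentalDomain_pi_basisFun, volume_pi, Measure.pi_pi]
    simp
  have hcount : Countable (Submodule.span ℤ (Set.range (Pi.basisFun ℝ (Fin N)))).toAddSubgroup := by
    have : Countable (Submodule.span ℤ (Set.range (Pi.basisFun ℝ (Fin N)))) := by
      infer_instance
    exact this
  obtain ⟨x, hx0, hxs⟩ := exists_ne_zero_mem_lattice_of_measure_mul_two_pow_lt_measure
    (L := (Submodule.span ℤ (Set.range (Pi.basisFun ℝ (Fin N)))).toAddSubgroup) hF hsymm hconv (by
      rw [hFv, hvol, one_mul, Module.finrank_fin_fun, Finset.prod_mul_distrib]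
      simp only [Finset.prod_const, Finset.card_univ, Fintype.card_fin]
      rw [show ((2 : ENNReal) ^ N) = ENNReal.ofReal (2 ^ N) by
        rw [ENNReal.ofReal_pow (by norm_num)]; simp]
      apply (ENNReal.ofReal_lt_ofReal_iff (by
        apply mul_pos (by positivity)
        linarith)).2
      have : (0 : ℝ) < 2 ^ N := by positivity
      nlinarith)
  have hxint : ∀ i, ∃ z : ℤ, (z : ℝ) = (x : Fin N → ℝ) i := by
    intro i
    have := ((Pi.basisFun ℝ (Fin N)).mem_span_iff_repr_mem ℤ (x : Fin N → ℝ)).1 x.2 i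
    obtain ⟨z, hz⟩ := this
    refine ⟨z, ?_⟩
    simpa using hz
  choose z hz using hxint
  refine ⟨z, ?_, ?_⟩
  · intro h0
    apply hx0
    ext i
    rw [← hz i, h0]
    simp
  · intro i
    have h1 := hxs i
    have h2 : toE z = WithLp.toLp 2 (x : Fin N → ℝ) := by
      unfold toE
      congr 1
      funext i
      exact hz i
    rw [h2]
    exact h1

end

end Pool.Agent.H33
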