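import Pool.Agent.H33.Weighted
import Pool.Agent.H33.Mink

set_option autoImplicit false

namespace Pool.Agent.H33

open InnerProductSpace

noncomputable section

lemma toE_apply {N : ℕ} (x : Fin N → ℤ) (i : Fin N) : toE x i = (x i : ℝ) := rfl

lemma inner_toE {N : ℕ} (x y : Fin N → ℤ) : inner ℝ (toE x) (toE y) = ((x ⬝ᵥ y : ℤ) : ℝ) := by
  rw [PiLp.inner_apply]
  simp only [toE_apply, dotProduct]
  push_cast
  apply Finset.sum_congr rfl
  intro i _
  simp [mul_comm]

lemma supN_le_norm {N : ℕ} (x : Fin N → ℤ) : (supN x : ℝ) ≤ ‖toE x‖ := by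
  rcases Nat.eq_zero_or_pos (supN x) with h | h
  · rw [h]; simp
  have : ∃ i, (x i).natAbs = supN x := by
    have hne : (Finset.univ : Finset (Fin N)).Nonempty := by
      by_contra hcon
      rw [Finset.not_nonempty_iff_eq_empty] at hcon
      unfold supN at h
      rw [hcon] at h
      simp at h
    obtain ⟨i, -, hi⟩ := Finset.exists_mem_eq_sup Finset.univ hne (fun i => (x i).natAbs)
    exact ⟨i, hi.symm⟩
  obtain ⟨i, hi⟩ := this
  rw [← hi]
  have h1 : ‖toE x i‖ ≤ ‖toE x‖ := PiLp.norm_apply_le (toE x) i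
  rw [toE_apply, Real.norm_eq_abs] at h1
  rw [Nat.cast_natAbs]
  exact_mod_cast h1

lemma norm_toE_le {N : ℕ} (x : Fin N → ℤ) : ‖toE x‖ ≤ N * supN x := by
  rcases Nat.eq_zero_or_pos N with hN | hN
  · subst hN
    have : toE x = 0 := Subsingleton.elim _ _
    rw [this]; simp
  rw [EuclideanSpace.norm_eq, Real.sqrt_le_left (by positivity)]
  calc ∑ i, ‖toE x i‖ ^ 2 ≤ ∑ i : Fin N, (supN x : ℝ) ^ 2 := by
        apply Finset.sum_le_sum
        intro i _
        apply pow_le_pow_left₀ (norm_nonneg _)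
        rw [toE_apply, Real.norm_eq_abs]
        have := natAbs_le_supN x i
        have h2 : ((x i).natAbs : ℝ) ≤ supN x := by exact_mod_cast this
        rw [Nat.cast_natAbs] at h2
        exact_mod_cast h2
    _ = N * (supN x : ℝ) ^ 2 := by simp
    _ ≤ (N * supN x : ℝ) ^ 2 := by
        rw [mul_pow]
        apply mul_le_mul_of_nonneg_right _ (by positivity)
        have : (1 : ℝ) ≤ N := by exact_mod_cast hN
        nlinarith

/-- triangular criterion for linear independence -/
lemma li_of_triangular {m : ℕ} {E : Type*} [NormedAddCommGroup E] [InnerProductSpace ℝ E]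
    (v g : Fin m → E) (h1 : ∀ i j, i < j → inner ℝ (g j) (v i) = 0)
    (h2 : ∀ i, inner ℝ (g i) (v i) ≠ 0) : LinearIndependent ℝ v := by
  rw [Fintype.linearIndependent_iff]
  intro c hc
  by_contra hcon
  push Not at hcon
  obtain ⟨i0, hi0⟩ := hcon
  have hne : (Finset.univ.filter (fun i => c i ≠ 0)).Nonempty :=
    ⟨i0, by rw [Finset.mem_filter]; exact ⟨Finset.mem_univ _, hi0⟩⟩
  obtain ⟨i1, hi1, hmax⟩ := Finset.exists_max_image _ (fun i => i) hne
  rw [Finset.mem_filter] at hi1
  have h3 : inner ℝ (g i1) (∑ i, c i • v i) = 0 := by rw [hc, inner_zero_right]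
  rw [inner_sum, Finset.sum_eq_single i1] at h3
  · rw [inner_smul_right] at h3
    rcases mul_eq_zero.1 h3 with h | h
    · exact hi1.2 h
    · exact h2 i1 h
  · intro i _ hi
    rw [inner_smul_right]
    rcases lt_or_gt_of_ne hi with h | h
    · rw [h1 i i1 h, mul_zero]
    · have : c i = 0 := by
        by_contra hci
        have := hmax i (by rw [Finset.mem_filter]; exact ⟨Finset.mem_univ _, hci⟩)
        exact absurd h (not_lt.2 this)
      rw [this, zero_mul]
  · intro h; exact absurd (Finset.mem_univ i1) h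

/-- real linear independence of `toE` implies integer linear independence -/
lemma li_int_of_real {m N : ℕ} (A : Fin m → Fin N → ℤ)
    (h : LinearIndependent ℝ (fun i => toE (A i))) : LinearIndependent ℤ A := by
  rw [Fintype.linearIndependent_iff] at h ⊢
  intro c hc
  have := h (fun i => (c i : ℝ)) (by
    ext j
    have := congrFun hc j
    simp only [Finset.sum_apply, Pi.smul_apply, smul_eq_mul, Pi.zero_apply] at this
    simp only [PiLp.zero_apply]
    rw [WithLp.ofLp_sum, Finset.sum_apply]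
    simp only [PiLp.smul_apply, toE_apply, smul_eq_mul]
    exact_mod_cast this)
  intro i
  exact_mod_cast this i

lemma li_real_of_int {m N : ℕ} (A : Fin m → Fin N → ℤ)
    (h : LinearIndependent ℤ A) : LinearIndependent ℝ (fun i => toE (A i)) := by
  have h6 : LinearIndependent ℝ (fun i => algebraMap ℤ ℝ ∘ A i) :=
    linearIndependent_algebraMap_comp_iff.2 h
  have h7 := h6.map' (WithLp.linearEquiv 2 ℝ (Fin N → ℝ)).symm.toLinearMap (LinearEquiv.ker _)
  have h8 : (fun i => toE (A i)) = (WithLp.linearEquiv 2 ℝ (Fin N → ℝ)).symm.toLinearMap ∘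
      (fun i => algebraMap ℤ ℝ ∘ A i) := by
    funext i
    ext j
    simp [toE]
  rw [h8]
  exact h7

/-- existence of an independent family orthogonal to `p` -/
lemma exists_family {n : ℕ} (p : Fin (n + 1) → ℤ) (hp : p ≠ 0) :
    ∃ A : Fin n → (Fin (n + 1) → ℤ), LinearIndependent ℤ A ∧ ∀ i, A i ⬝ᵥ p = 0 := by
  obtain ⟨j, hj⟩ : ∃ j, p j ≠ 0 := by
    by_contra hcon
    push Not at hcon
    exact hp (funext hcon)
  refine ⟨fun i => p j • Pi.single (j.succAbove i) 1 - p (j.succAbove i) • Pi.single j 1, ?_, ?_⟩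
  · rw [Fintype.linearIndependent_iff]
    intro c hc i
    have := congrFun hc (j.succAbove i)
    simp only [Finset.sum_apply, Pi.smul_apply, Pi.sub_apply, smul_eq_mul, Pi.zero_apply] at this
    rw [Finset.sum_eq_single i] at this
    · rw [Pi.single_eq_same, Pi.single_eq_of_ne (Fin.succAbove_ne j i)] at this
      simp only [mul_one, mul_zero, sub_zero] at this
      rcases mul_eq_zero.1 this with h | h
      · exact h
      · exact absurd h hj
    · intro b _ hb
      rw [Pi.single_eq_of_ne, Pi.single_eq_of_ne (Fin.succAbove_ne j i)]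
      · simp
      · intro h
        exact hb (Fin.succAbove_right_injective h).symm
    · intro h; exact absurd (Finset.mem_univ i) h
  · intro i
    rw [sub_dotProduct, smul_dotProduct, smul_dotProduct, single_dotProduct, single_dotProduct]
    simp only [smul_eq_mul, one_mul]
    ring

/-- a frame which is minimal: exchange property -/
lemma exists_minimal_family {n : ℕ} (p : Fin (n + 1) → ℤ) (hp : p ≠ 0) :
    ∃ A : Fin n → (Fin (n + 1) → ℤ), Frame p A ∧
      ∀ A' : Fin n → (Fin (n + 1) → ℤ), LinearIndependent ℤ A' → (∀ i, A' i ⬝ᵥ p = 0) →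
        ∑ i, supN (A i) ≤ ∑ i, supN (A' i) := by
  classical
  have hex : ∃ m : ℕ, ∃ A : Fin n → (Fin (n + 1) → ℤ), LinearIndependent ℤ A ∧
      (∀ i, A i ⬝ᵥ p = 0) ∧ ∑ i, supN (A i) = m := by
    obtain ⟨A, h1, h2⟩ := exists_family p hp
    exact ⟨_, A, h1, h2, rfl⟩
  obtain ⟨A, h1, h2, h3⟩ := Nat.find_spec hex
  have hmin : ∀ A' : Fin n → (Fin (n + 1) → ℤ), LinearIndependent ℤ A' → (∀ i, A' i ⬝ᵥ p = 0) →
        ∑ i, supN (A i) ≤ ∑ i, supN (A' i) := by
    intro A' h1' h2'
    rw [h3]
    exact Nat.find_min' hex ⟨A', h1', h2', rfl⟩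
  let τ := Tuple.sort (fun i => supN (A i))
  refine ⟨A ∘ τ, ⟨h1.comp τ τ.injective, fun i => h2 _, ?_⟩, ?_⟩
  · exact Tuple.monotone_sort (fun i => supN (A i))
  · intro A' h1' h2'
    have : ∑ i, supN ((A ∘ τ) i) = ∑ i, supN (A i) := Equiv.sum_comp τ (fun i => supN (A i))
    rw [this]
    exact hmin A' h1' h2'

end

end Pool.Agent.H33
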