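import Pool.Agent.H33.NoetherC

set_option autoImplicit false

namespace Pool.Agent.H33

open MvPolynomial Filter Topology

noncomputable section

variable {K : Type*} [Field K]

/-- polynomial growth bound -/
def PB (g : ℕ → ℕ) (m : ℕ) : Prop := ∃ C : ℕ, ∀ t, g t ≤ C * (t + 1) ^ m

lemma PB_of_step {g g' : ℕ → ℕ} {m : ℕ} (h : ∀ t, g (t + 1) ≤ g t + g' (t + 1)) (h' : PB g' m) :
    PB g (m + 1) := by
  obtain ⟨C, hC⟩ := h'
  refine ⟨g 0 + C, fun t => ?_⟩
  induction t with
  | zero => simp
  | succ t ih =>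
    have h1 := h t
    have h2 := hC (t + 1)
    calc g (t + 1) ≤ (g 0 + C) * (t + 1) ^ (m + 1) + C * (t + 1 + 1) ^ m := by omega
      _ ≤ (g 0 + C) * ((t + 1 + 1) ^ m * (t + 1)) + (g 0 + C) * (t + 1 + 1) ^ m := by
          apply Nat.add_le_add
          · apply Nat.mul_le_mul_left
            rw [pow_succ]
            apply Nat.mul_le_mul_right
            apply Nat.pow_le_pow_left; omega
          · apply Nat.mul_le_mul_right; omega
      _ = (g 0 + C) * (t + 1 + 1) ^ (m + 1) := by rw [pow_succ]; ring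

lemma PB_zero_of_step {g g' : ℕ → ℕ} (h : ∀ t, g (t + 1) ≤ g t + g' (t + 1))
    (h' : ∃ T, ∀ t ≥ T, g' t = 0) : PB g 0 := by
  obtain ⟨T, hT⟩ := h'
  refine ⟨∑ s ∈ Finset.range (T + 1), g s, fun t => ?_⟩
  rw [pow_zero, mul_one]
  rcases Nat.lt_or_ge t (T + 1) with ht | ht
  · exact Finset.single_le_sum (f := g) (fun i _ => Nat.zero_le _) (Finset.mem_range.2 ht)
  · have : g t ≤ g T := by
      have ht' : T ≤ t := by omega
      clear ht
      induction t, ht' using Nat.le_induction with
      | base => exact le_rfl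
      | succ t ht ih =>
        have h1 := h t
        rw [hT (t + 1) (by omega)] at h1
        omega
    exact this.trans (Finset.single_le_sum (f := g) (fun i _ => Nat.zero_le _)
      (Finset.mem_range.2 (by omega)))

lemma hf_step {σ : Type*} [Finite σ] {P : Ideal (MvPolynomial σ K)} (hP : IsHomog P)
    {l : MvPolynomial σ K} (hl : l.IsHomogeneous 1) (hl0 : l ≠ 0) (t : ℕ) :
    hf P (t + 1) ≤ hf P t + hf (P ⊔ Ideal.span {l}) (t + 1) := by
  rw [hf_exact hP hl0 hl t]
  exact Nat.add_le_add_right (hf_antitone (le_colonI P l) t) _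

theorem hf_upper {σ : Type*} [Finite σ] (r : ℕ) : ∀ (P : Ideal (MvPolynomial σ K)), IsHomog P →
    ∀ y : Fin r → MvPolynomial σ K, (∀ i, (y i).IsHomogeneous 1) → (∀ i, y i ≠ 0) →
    (∃ T, ∀ t ≥ T, hf (P ⊔ Ideal.span (Set.range y)) t = 0) →
    (∀ k, r = k + 1 → PB (hf P) k) ∧ (r = 0 → ∃ T, ∀ t ≥ T, hf P t = 0) := by
  induction r with
  | zero =>
    intro P hP y hy hy0 hT
    refine ⟨fun k hk => by omega, fun _ => ?_⟩
    have : Set.range y = ∅ := Set.range_eq_empty y
    rw [this, Ideal.span_empty, sup_bot_eq] at hT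
    exact hT
  | succ r ih =>
    intro P hP y hy hy0 hT
    refine ⟨fun k hk => ?_, fun h => by omega⟩
    obtain rfl : r = k := by omega
    have hP' : IsHomog (P ⊔ Ideal.span {y 0}) := isHomog_sup_span hP (hy 0)
    have e : (P ⊔ Ideal.span {y 0}) ⊔ Ideal.span (Set.range (fun i : Fin r => y i.succ)) =
        P ⊔ Ideal.span (Set.range y) := by
      rw [sup_assoc, ← Ideal.span_union]
      congr 2
      ext x
      simp only [Set.mem_union, Set.mem_singleton_iff, Set.mem_range]
      constructor
      · rintro (rfl | ⟨i, rfl⟩)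
        · exact ⟨0, rfl⟩
        · exact ⟨i.succ, rfl⟩
      · rintro ⟨i, rfl⟩
        refine Fin.cases ?_ ?_ i
        · exact Or.inl rfl
        · intro i; exact Or.inr ⟨i, rfl⟩
    have := ih (P ⊔ Ideal.span {y 0}) hP' (fun i => y i.succ) (fun i => hy _) (fun i => hy0 _)
      (by rw [e]; exact hT)
    rcases Nat.eq_zero_or_pos r with h0 | h0
    · subst h0
      exact PB_zero_of_step (hf_step hP (hy 0) (hy0 0)) (this.2 rfl)
    · obtain ⟨k', rfl⟩ : ∃ k', r = k' + 1 := ⟨r - 1, by omega⟩
      exact PB_of_step (hf_step hP (hy 0) (hy0 0)) (this.1 k' rfl)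

lemma hf_eq_zero_iff {σ : Type*} [Finite σ] {P : Ideal (MvPolynomial σ K)} {t : ℕ} :
    hf P t = 0 ↔ ∀ f : MvPolynomial σ K, f.IsHomogeneous t → f ∈ P := by
  have h := hf_add_hfI P t
  constructor
  · intro h0 f hft
    have h1 : hfI P t = hs σ K t := by omega
    unfold hfI hs at h1
    have h2 := Submodule.eq_of_le_of_finrank_eq (inf_le_left) h1
    have h3 : f ∈ homogeneousSubmodule σ K t := hft
    rw [← h2] at h3
    exact h3.2
  · intro h0
    have : homogeneousSubmodule σ K t ⊓ P.restrictScalars K = homogeneousSubmodule σ K t := by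
      rw [inf_eq_left]
      intro f hf
      exact h0 f hf
    unfold hfI at h
    rw [this] at h
    unfold hs at h
    omega

lemma pow_mem_of_integral {N : ℕ} {P : Ideal (MvPolynomial (Fin N) K)} (hP : IsHomog P) {r : ℕ}
    {y : Fin r → MvPolynomial (Fin N) K} (h : NN P r y) (i : Fin N) :
    ∃ m : ℕ, (X i : MvPolynomial (Fin N) K) ^ m ∈ P ⊔ Ideal.span (Set.range y) := by
  set J := P ⊔ Ideal.span (Set.range y) with hJ
  obtain ⟨w, hwm, hw0⟩ := h.int (Ideal.Quotient.mk P (X i))
  -- J is homogeneous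
  have hJh : IsHomog J := by
    have : ∀ (r : ℕ) (P : Ideal (MvPolynomial (Fin N) K)), IsHomog P →
        ∀ y : Fin r → MvPolynomial (Fin N) K, (∀ i, (y i).IsHomogeneous 1) →
        IsHomog (P ⊔ Ideal.span (Set.range y)) := by
      intro r
      induction r with
      | zero =>
        intro P hP y _
        have : Set.range y = ∅ := Set.range_eq_empty y
        rw [this, Ideal.span_empty, sup_bot_eq]
        exact hP
      | succ r ih =>
        intro P hP y hy
        have := ih (P ⊔ Ideal.span {y 0}) (isHomog_sup_span hP (hy 0)) (fun i => y i.succ)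
          (fun i => hy _)
        have e : (P ⊔ Ideal.span {y 0}) ⊔ Ideal.span (Set.range (fun i : Fin r => y i.succ)) =
            P ⊔ Ideal.span (Set.range y) := by
          rw [sup_assoc, ← Ideal.span_union]
          congr 2
          ext x
          simp only [Set.mem_union, Set.mem_singleton_iff, Set.mem_range]
          constructor
          · rintro (rfl | ⟨i, rfl⟩)
            · exact ⟨0, rfl⟩
            · exact ⟨i.succ, rfl⟩
          · rintro ⟨i, rfl⟩
            refine Fin.cases ?_ ?_ i
            · exact Or.inl rfl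
            · intro i; exact Or.inr ⟨i, rfl⟩
        rwa [e] at this
    exact this r P hP y h.lin
  -- the polynomial over K
  let w0 : Polynomial K := w.map constantCoeff
  have hw0m : w0.Monic := hwm.map _
  have hkey : Polynomial.aeval (X i : MvPolynomial (Fin N) K) w0 ∈ J := by
    rw [← Ideal.Quotient.eq_zero_iff_mem]
    have h1 : ((Ideal.Quotient.mk J).comp (algebraMap K (MvPolynomial (Fin N) K))).comp
        (constantCoeff (σ := Fin r) (R := K)) =
        (Ideal.Quotient.factor (le_sup_left : P ≤ J)).comp (phi P y).toRingHom := by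
      apply MvPolynomial.ringHom_ext
      · intro a
        simp only [RingHom.comp_apply, constantCoeff_C]
        show _ = Ideal.Quotient.factor _ (phi P y (C a))
        rw [show (C a : MvPolynomial (Fin r) K) = algebraMap K _ a from rfl, AlgHom.commutes]
        rfl
      · intro j
        simp only [RingHom.comp_apply, constantCoeff_X, map_zero]
        show _ = Ideal.Quotient.factor _ (phi P y (X j))
        rw [phi_X]
        symm
        exact Ideal.Quotient.eq_zero_iff_mem.2
          (Ideal.mem_sup_right (Ideal.subset_span (Set.mem_range_self j)))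
    have h2 : Ideal.Quotient.mk J (Polynomial.aeval (X i : MvPolynomial (Fin N) K) w0) =
        Ideal.Quotient.factor (le_sup_left : P ≤ J)
          (Polynomial.eval₂ (phi P y).toRingHom (Ideal.Quotient.mk P (X i)) w) := by
      rw [Polynomial.hom_eval₂, ← h1, Polynomial.aeval_def, Polynomial.hom_eval₂]
      simp only [w0]
      rw [Polynomial.eval₂_map]
      rfl
    rw [h2, hw0, map_zero]
  refine ⟨w0.natDegree, ?_⟩
  have h3 := hJh _ hkey w0.natDegree
  have h4 : homogeneousComponent w0.natDegree (Polynomial.aeval (X i : MvPolynomial (Fin N) K) w0) =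
      X i ^ w0.natDegree := by
    rw [Polynomial.aeval_eq_sum_range, map_sum, Finset.sum_eq_single w0.natDegree]
    · rw [map_smul, homogeneousComponent_eq_self]
      · have := hw0m.coeff_natDegree
        rw [this, one_smul]
      · exact isHomogeneous_X_pow i _
    · intro b _ hb
      rw [map_smul, homogeneousComponent_of_mem (isHomogeneous_X_pow i b), if_neg (Ne.symm hb),
        smul_zero]
    · intro h; exact absurd (Finset.mem_range.2 (Nat.lt_succ_self _)) h
  rw [h4] at h3
  exact h3

lemma eventually_zero_of_pow_mem {N : ℕ} {J : Ideal (MvPolynomial (Fin N) K)}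
    (h : ∀ i, ∃ m : ℕ, (X i : MvPolynomial (Fin N) K) ^ m ∈ J) :
    ∃ T, ∀ t ≥ T, hf J t = 0 := by
  choose m hm using h
  refine ⟨∑ i, m i + 1, fun t ht => ?_⟩
  rw [hf_eq_zero_iff]
  intro f hf
  rw [f.as_sum]
  apply Ideal.sum_mem
  intro d hd
  have hd' : d.degree = t := by
    by_contra hcon
    exact (mem_support_iff.1 hd) (hf.coeff_eq_zero hcon)
  obtain ⟨i, hi⟩ : ∃ i, m i ≤ d i := by
    by_contra hcon
    push Not at hcon
    have h1 : d.degree ≤ ∑ i, m i := by
      rw [Finsupp.degree_eq_sum]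
      exact Finset.sum_le_sum (fun i _ => (hcon i).le)
    omega
  have hdd : Finsupp.single i (m i) + (d - Finsupp.single i (m i)) = d := by
    ext j
    simp only [Finsupp.add_apply, Finsupp.tsub_apply, Finsupp.single_apply]
    split_ifs with hij
    · subst hij; omega
    · omega
  have : monomial d (coeff d f) = X i ^ (m i) * monomial (d - Finsupp.single i (m i)) (coeff d f) := by
    rw [X_pow_eq_monomial, monomial_mul, one_mul, hdd]
  rw [this]
  exact Ideal.mul_mem_right _ _ (hm i)

lemma NN_ne_zero {σ : Type*} {P : Ideal (MvPolynomial σ K)} {r : ℕ}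
    {y : Fin r → MvPolynomial σ K} (h : NN P r y) (i : Fin r) : y i ≠ 0 := by
  intro h0
  have h1 : phi P y (X i) = phi P y 0 := by
    rw [phi_X, h0, map_zero, map_zero]
  exact X_ne_zero i (h.inj h1)

theorem NN_PB {N : ℕ} {P : Ideal (MvPolynomial (Fin N) K)} (hP : IsHomog P) {k : ℕ}
    {y : Fin (k + 1) → MvPolynomial (Fin N) K} (h : NN P (k + 1) y) : PB (hf P) k :=
  (hf_upper (k + 1) P hP y h.lin (NN_ne_zero h)
    (eventually_zero_of_pow_mem (pow_mem_of_integral hP h))).1 k rfl

lemma hs_le_hf {N : ℕ} {P : Ideal (MvPolynomial (Fin N) K)} {r : ℕ}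
    {y : Fin r → MvPolynomial (Fin N) K} (h : NN P r y) (t : ℕ) : hs (Fin r) K t ≤ hf P t := by
  unfold hs hf
  have h1 : Module.finrank K ↥((homogeneousSubmodule (Fin r) K t).map (phi P y).toLinearMap) =
      Module.finrank K ↥(homogeneousSubmodule (Fin r) K t) := by
    apply LinearEquiv.finrank_eq
    exact (Submodule.equivMapOfInjective _ h.inj _).symm
  rw [← h1]
  apply Submodule.finrank_mono
  rintro _ ⟨F, hF, rfl⟩
  refine ⟨aeval y F, ?_, rfl⟩
  have hF' : F.IsHomogeneous t := hF
  have := hF'.aeval y h.lin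
  rw [one_mul] at this
  exact this

lemma NN_bot (r : ℕ) : NN (⊥ : Ideal (MvPolynomial (Fin r) K)) r X := by
  refine ⟨fun i => isHomogeneous_X K i, ?_, ?_⟩
  · rw [injective_iff_map_eq_zero]
    intro F hF
    rw [phi_eq_zero, aeval_X_left_apply] at hF
    exact hF
  · apply RingHom.isIntegral_of_surjective
    intro x
    obtain ⟨f, rfl⟩ := Ideal.Quotient.mk_surjective x
    refine ⟨f, ?_⟩
    show phi _ _ _ = _
    rw [phi_apply, aeval_X_left_apply]

lemma isHomog_bot {σ : Type*} : IsHomog (⊥ : Ideal (MvPolynomial σ K)) := by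
  intro f hf t
  rw [Ideal.mem_bot] at hf ⊢
  rw [hf, map_zero]

lemma hf_bot {σ : Type*} [Finite σ] (t : ℕ) : hf (⊥ : Ideal (MvPolynomial σ K)) t = hs σ K t := by
  have := hf_add_hfI (⊥ : Ideal (MvPolynomial σ K)) t
  have h2 : hfI (⊥ : Ideal (MvPolynomial σ K)) t = 0 := by
    unfold hfI
    have : homogeneousSubmodule σ K t ⊓ (⊥ : Ideal (MvPolynomial σ K)).restrictScalars K = ⊥ := by
      rw [Submodule.restrictScalars_bot, inf_bot_eq]
    rw [this]
    exact finrank_bot K _
  omega

lemma hs_pos {σ : Type*} [Finite σ] (i : σ) (t : ℕ) : 1 ≤ hs σ K t := by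
  unfold hs
  rw [Nat.one_le_iff_ne_zero, ← Nat.pos_iff_ne_zero, Module.finrank_pos_iff]
  refine ⟨⟨X i ^ t, isHomogeneous_X_pow i t⟩, 0, ?_⟩
  intro h
  have := congrArg Subtype.val h
  exact pow_ne_zero t (X_ne_zero i) this

lemma choose_le_hs (k : ℕ) : ∀ t, (t + k).choose k ≤ hs (Fin (k + 1)) K t := by
  induction k with
  | zero => intro t; simpa using hs_pos (K := K) (0 : Fin 1) t
  | succ k ih =>
    intro t
    induction t with
    | zero => simpa using hs_pos (K := K) (0 : Fin (k + 2)) 0
    | succ t iht =>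
      have h1 := hf_exact (isHomog_bot (K := K) (σ := Fin (k + 2))) (X_ne_zero 0)
        (isHomogeneous_X K 0) t
      have hcol : colonI (⊥ : Ideal (MvPolynomial (Fin (k + 2)) K)) (X 0) = ⊥ := by
        rw [eq_bot_iff]
        intro g hg
        rw [mem_colonI, Ideal.mem_bot] at hg
        rcases mul_eq_zero.1 hg with h | h
        · exact absurd h (X_ne_zero 0)
        · rw [h]; exact Ideal.zero_mem _
      rw [hcol, hf_bot, hf_bot, bot_sup_eq] at h1
      have hprime : (Ideal.span {(X 0 : MvPolynomial (Fin (k + 2)) K)}).IsPrime := by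
        rw [Ideal.span_singleton_prime (X_ne_zero _)]
        exact X_prime
      have hbotp : (⊥ : Ideal (MvPolynomial (Fin (k + 2)) K)).IsPrime := Ideal.isPrime_bot
      have h2 : NN (Ideal.span {(X 0 : MvPolynomial (Fin (k + 2)) K)}) (k + 1)
          (fun i => X i.succ) := by
        apply NN_minimalPrime (NN_bot (K := K) (k + 2))
        rw [bot_sup_eq, Ideal.minimalPrimes_eq_subsingleton_self]
        rfl
      have h3 := hs_le_hf h2 (t + 1)
      have h4 := ih (t + 1)
      rw [h1]
      have h5 : (t + 1 + (k + 1)).choose (k + 1) = (t + 1 + k).choose k + (t + (k + 1)).choose (k + 1) := by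
        rw [show t + 1 + (k + 1) = (t + 1 + k) + 1 by ring, Nat.choose_succ_succ,
          show t + 1 + k = t + (k + 1) by ring]
      have e2 : hs (Fin (k + 2)) K t = hs (Fin (k + 1 + 1)) K t := rfl
      omega

lemma pow_le_hf {N : ℕ} {P : Ideal (MvPolynomial (Fin N) K)} {k : ℕ}
    {y : Fin (k + 1) → MvPolynomial (Fin N) K} (h : NN P (k + 1) y) (t : ℕ) :
    ((t : ℝ)) ^ k ≤ k.factorial * hf P t := by
  have h1 : ((t + k + 1 - k : ℕ) : ℝ) ^ k ≤ (k.factorial : ℝ) * ((t + k).choose k : ℝ) := by
    have h0 := Nat.pow_le_choose (α := ℝ) k (t + k)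
    rw [div_le_iff₀ (by positivity)] at h0
    rw [mul_comm]
    exact h0
  have h2 : ((t + k).choose k : ℝ) ≤ hf P t := by
    exact_mod_cast (choose_le_hs (K := K) k t).trans (hs_le_hf h t)
  calc ((t : ℝ)) ^ k ≤ ((t + k + 1 - k : ℕ) : ℝ) ^ k := by
        apply pow_le_pow_left₀ (by positivity)
        have : t ≤ t + k + 1 - k := by omega
        exact_mod_cast this
    _ ≤ (k.factorial : ℝ) * ((t + k).choose k : ℝ) := h1
    _ ≤ _ := by
        apply mul_le_mul_of_nonneg_left h2 (by positivity)

end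

end Pool.Agent.H33
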