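import Pool.Agent.H33.HilbertAsym

set_option autoImplicit false

namespace Pool.Agent.H33

open MvPolynomial Filter Topology

noncomputable section

lemma poly_tendsto_of_natDegree_le {p : Polynomial ℝ} {k : ℕ} (h : p.natDegree ≤ k) :
    Tendsto (fun x : ℝ => p.eval x / x ^ k) atTop (𝓝 (p.coeff k)) := by
  rcases Nat.lt_or_eq_of_le h with h | h
  · rw [Polynomial.coeff_eq_zero_of_natDegree_lt h]
    have h1 := Polynomial.div_tendsto_atTop_zero_of_degree_lt p (Polynomial.X ^ k : Polynomial ℝ) (by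
      rw [Polynomial.degree_X_pow]
      exact lt_of_le_of_lt Polynomial.degree_le_natDegree (by exact_mod_cast h))
    simpa using h1
  · by_cases hp : p = 0
    · subst hp; simp
    have h1 := Polynomial.div_tendsto_atTop_leadingCoeff_div_of_degree_eq p
      (Polynomial.X ^ k : Polynomial ℝ) (by
        rw [Polynomial.degree_X_pow, Polynomial.degree_eq_natDegree hp, h])
    have h2 : p.leadingCoeff / (Polynomial.X ^ k : Polynomial ℝ).leadingCoeff = p.coeff k := by
      rw [Polynomial.leadingCoeff_X_pow, div_one, Polynomial.leadingCoeff, h]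
    rw [h2] at h1
    simpa using h1

lemma tendsto_of_evPoly {g : ℕ → ℕ} {k : ℕ} (h1 : EvPoly g) (h2 : PB g k) :
    ∃ e : ℝ, Tendsto (fun t : ℕ => (g t : ℝ) / (t : ℝ) ^ k) atTop (𝓝 e) := by
  obtain ⟨p0, T, hp0⟩ := h1
  obtain ⟨C, hC⟩ := h2
  set p : Polynomial ℝ := p0.map (algebraMap ℚ ℝ) with hp
  have hpe : ∀ t : ℕ, t ≥ T → (g t : ℝ) = p.eval (t : ℝ) := by
    intro t ht
    have := hp0 t ht
    rw [hp]
    have h3 : ((t : ℚ) : ℝ) = (t : ℝ) := by norm_cast
    rw [← h3, ← eq_ratCast (algebraMap ℚ ℝ) (t : ℚ), Polynomial.eval_map_algebraMap,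
      Polynomial.aeval_algebraMap_apply]
    simp only [Polynomial.coe_aeval_eq_eval]
    rw [← this]
    simp
  have hnat : Tendsto (fun t : ℕ => (t : ℝ)) atTop atTop := tendsto_natCast_atTop_atTop
  have hdeg : p.natDegree ≤ k := by
    by_contra hcon
    push Not at hcon
    have h3 := (poly_tendsto_of_natDegree_le (le_refl p.natDegree)).comp hnat
    have h4 : Tendsto (fun t : ℕ => (C : ℝ) * ((t : ℝ) + 1) ^ k / (t : ℝ) ^ p.natDegree) atTop (𝓝 0) := by
      have h5 := Polynomial.div_tendsto_atTop_zero_of_degree_lt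
        (Polynomial.C (C : ℝ) * (Polynomial.X + 1) ^ k : Polynomial ℝ)
        (Polynomial.X ^ p.natDegree : Polynomial ℝ) (by
          rw [Polynomial.degree_X_pow]
          have hd1 : (Polynomial.C (C : ℝ) * (Polynomial.X + 1) ^ k : Polynomial ℝ).natDegree ≤ k := by
            refine (Polynomial.natDegree_C_mul_le _ _).trans ?_
            refine (Polynomial.natDegree_pow_le).trans ?_
            have : (Polynomial.X + 1 : Polynomial ℝ).natDegree ≤ 1 := by
              have := Polynomial.natDegree_X_add_C (1 : ℝ)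
              rw [Polynomial.C_1] at this
              rw [this]
            nlinarith
          refine lt_of_le_of_lt Polynomial.degree_le_natDegree ?_
          exact_mod_cast lt_of_le_of_lt hd1 hcon)
      have h6 := h5.comp hnat
      refine h6.congr (fun t => ?_)
      simp
    have h7 : Tendsto (fun t : ℕ => (g t : ℝ) / (t : ℝ) ^ p.natDegree) atTop (𝓝 0) := by
      apply squeeze_zero _ _ h4
      · intro t; positivity
      · intro t
        apply div_le_div_of_nonneg_right _ (by positivity)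
        exact_mod_cast hC t
    have h8 : Tendsto (fun t : ℕ => (g t : ℝ) / (t : ℝ) ^ p.natDegree) atTop (𝓝 (p.coeff p.natDegree)) := by
      refine h3.congr' ?_
      filter_upwards [eventually_ge_atTop T] with t ht
      simp only [Function.comp]
      rw [hpe t ht]
    have h9 := tendsto_nhds_unique h7 h8
    have h10 : p = 0 := by
      rw [← Polynomial.leadingCoeff_eq_zero, Polynomial.leadingCoeff, ← h9]
    rw [h10] at hcon
    simp at hcon
  refine ⟨p.coeff k, ?_⟩
  have h3 := (poly_tendsto_of_natDegree_le hdeg).comp hnat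
  refine h3.congr' ?_
  filter_upwards [eventually_ge_atTop T] with t ht
  simp only [Function.comp]
  rw [hpe t ht]

lemma pow_succ_le_aux (k t : ℕ) : (t + 1) ^ (k + 1) ≤ t ^ (k + 1) + (k + 1) * (t + 1) ^ k := by
  induction k with
  | zero => simp
  | succ k ih =>
    calc (t + 1) ^ (k + 1 + 1) = (t + 1) * (t + 1) ^ (k + 1) := by ring
      _ ≤ (t + 1) * (t ^ (k + 1) + (k + 1) * (t + 1) ^ k) := Nat.mul_le_mul_left _ ih
      _ = t ^ (k + 1 + 1) + t ^ (k + 1) + (k + 1) * (t + 1) ^ (k + 1) := by ring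
      _ ≤ t ^ (k + 1 + 1) + (t + 1) ^ (k + 1) + (k + 1) * (t + 1) ^ (k + 1) := by
          have := Nat.pow_le_pow_left (Nat.le_succ t) (k + 1)
          have h2 : t ^ (k + 1) ≤ (t + 1) ^ (k + 1) := this
          omega
      _ = t ^ (k + 1 + 1) + (k + 1 + 1) * (t + 1) ^ (k + 1) := by ring

lemma cesaro_le {a b : ℕ → ℝ} {k : ℕ} {D E : ℝ} (hab : ∀ t, a (t + 1) ≤ b (t + 1) - b t)
    (ha : Tendsto (fun t : ℕ => a t / (t : ℝ) ^ k) atTop (𝓝 D))
    (hb : Tendsto (fun t : ℕ => b t / (t : ℝ) ^ (k + 1)) atTop (𝓝 E)) : D ≤ (k + 1) * E := by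
  by_contra hcon
  push Not at hcon
  obtain ⟨D', h1, h2⟩ := exists_between hcon
  -- eventually a t ≥ D' t^k
  have h3 : ∀ᶠ t : ℕ in atTop, D' * (t : ℝ) ^ k ≤ a t := by
    filter_upwards [ha.eventually (lt_mem_nhds h2), eventually_ge_atTop 1] with t ht ht1
    have : (0 : ℝ) < (t : ℝ) ^ k := by
      have : (0 : ℝ) < (t : ℝ) := by exact_mod_cast ht1
      positivity
    rw [lt_div_iff₀ this] at ht
    exact ht.le
  obtain ⟨T, hT⟩ := eventually_atTop.1 h3
  -- WLOG D' ≥ 0 or handle the sign via two cases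
  rcases lt_or_ge D' 0 with hneg | hpos
  · -- then E < 0 ... but a ≥ D' t^k still gives a lower bound with a weaker inequality
    have hstep : ∀ t ≥ T, b T + (D' / (k + 1)) * (((t : ℝ) + 1) ^ (k + 1) - ((T : ℝ) + 1) ^ (k + 1)) ≤ b t := by
      intro t ht
      induction t, ht using Nat.le_induction with
      | base => simp
      | succ t ht ih =>
        have h5 := hT (t + 1) (by omega)
        have h6 := hab t
        have h7 : ((k : ℝ) + 1) * ((t : ℝ) + 1) ^ k ≤ ((t : ℝ) + 1 + 1) ^ (k + 1) - ((t : ℝ) + 1) ^ (k + 1) := by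
          have hg : ∀ (k : ℕ) (x : ℝ), 0 ≤ x → ((k : ℝ) + 1) * x ^ k + x ^ (k + 1) ≤ (x + 1) ^ (k + 1) := by
            intro k x hx
            induction k with
            | zero => simp; linarith
            | succ k ih =>
              have e1 : (x + 1) ^ (k + 1 + 1) = (x + 1) * (x + 1) ^ (k + 1) := by ring
              have h8 : (x + 1) * (((k : ℝ) + 1) * x ^ k + x ^ (k + 1)) ≤ (x + 1) * (x + 1) ^ (k + 1) :=
                mul_le_mul_of_nonneg_left ih (by linarith)
              have h9 : 0 ≤ ((k : ℝ) + 1) * x ^ k := by positivity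
              rw [e1]
              refine le_trans ?_ h8
              push_cast
              have e2 : (x + 1) * (((k : ℝ) + 1) * x ^ k + x ^ (k + 1)) =
                ((k : ℝ) + 1 + 1) * x ^ (k + 1) + x ^ (k + 1 + 1) + ((k : ℝ) + 1) * x ^ k := by ring
              rw [e2]
              linarith
          have := hg k ((t : ℝ) + 1) (by positivity)
          linarith
        have h8 : D' / (k + 1) * (((t : ℝ) + 1 + 1) ^ (k + 1) - ((t : ℝ) + 1) ^ (k + 1)) ≤
            D' * ((t : ℝ) + 1) ^ k := by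
          have h9 : D' / (k + 1) ≤ 0 := div_nonpos_of_nonpos_of_nonneg hneg.le (by positivity)
          have h10 := mul_le_mul_of_nonpos_left h7 h9
          have h11 : D' / (k + 1) * (((k : ℝ) + 1) * ((t : ℝ) + 1) ^ k) = D' * ((t : ℝ) + 1) ^ k := by
            field_simp
          linarith
        push_cast at h5 ⊢
        have e3 : D' / (k + 1) * (((t : ℝ) + 1 + 1) ^ (k + 1) - ((T : ℝ) + 1) ^ (k + 1)) =
          D' / (k + 1) * (((t : ℝ) + 1 + 1) ^ (k + 1) - ((t : ℝ) + 1) ^ (k + 1)) +
          D' / (k + 1) * (((t : ℝ) + 1) ^ (k + 1) - ((T : ℝ) + 1) ^ (k + 1)) := by ring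
        rw [e3]
        linarith
    have hnat : Tendsto (fun t : ℕ => (t : ℝ)) atTop atTop := tendsto_natCast_atTop_atTop
    have hl1 : Tendsto (fun t : ℕ => (((t : ℝ) + 1) / t) ^ (k + 1)) atTop (𝓝 1) := by
      have : Tendsto (fun t : ℕ => ((t : ℝ) + 1) / t) atTop (𝓝 1) := by
        have h5 : Tendsto (fun t : ℕ => 1 + 1 / (t : ℝ)) atTop (𝓝 (1 + 0)) :=
          tendsto_const_nhds.add tendsto_one_div_atTop_nhds_zero_nat
        rw [add_zero] at h5
        refine h5.congr' ?_
        filter_upwards [eventually_ge_atTop 1] with t ht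
        have : (t : ℝ) ≠ 0 := by positivity
        field_simp
      simpa using this.pow (k + 1)
    have hl2 : Tendsto (fun t : ℕ => (b T - (D' / (k + 1)) * ((T : ℝ) + 1) ^ (k + 1)) / (t : ℝ) ^ (k + 1)) atTop (𝓝 0) := by
      apply Tendsto.div_atTop tendsto_const_nhds
      exact (tendsto_pow_atTop (by omega)).comp hnat
    have hl3 : Tendsto (fun t : ℕ => (b T - (D' / (k + 1)) * ((T : ℝ) + 1) ^ (k + 1)) / (t : ℝ) ^ (k + 1) +
        (D' / (k + 1)) * (((t : ℝ) + 1) / t) ^ (k + 1)) atTop (𝓝 (0 + (D' / (k + 1)) * 1)) :=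
      hl2.add (hl1.const_mul _)
    have hle : 0 + (D' / (k + 1)) * 1 ≤ E := by
      apply le_of_tendsto_of_tendsto hl3 hb
      filter_upwards [eventually_ge_atTop T, eventually_ge_atTop 1] with t ht ht1
      have h5 := hstep t ht
      have h6 : (0 : ℝ) < (t : ℝ) ^ (k + 1) := by
        have : (0 : ℝ) < (t : ℝ) := by exact_mod_cast ht1
        positivity
      rw [div_pow, ← mul_div_assoc, ← add_div]
      apply div_le_div_of_nonneg_right _ h6.le
      linarith
    rw [zero_add, mul_one, div_le_iff₀ (by positivity)] at hle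
    linarith
  · have hstep : ∀ t ≥ T, b T + (D' / (k + 1)) * ((t : ℝ) ^ (k + 1) - (T : ℝ) ^ (k + 1)) ≤ b t := by
      intro t ht
      induction t, ht using Nat.le_induction with
      | base => simp
      | succ t ht ih =>
        have h5 := hT (t + 1) (by omega)
        have h6 := hab t
        have h7 : ((t : ℝ) + 1) ^ (k + 1) - (t : ℝ) ^ (k + 1) ≤ ((k : ℝ) + 1) * ((t : ℝ) + 1) ^ k := by
          have := pow_succ_le_aux k t
          have : ((t : ℝ) + 1) ^ (k + 1) ≤ (t : ℝ) ^ (k + 1) + ((k : ℝ) + 1) * ((t : ℝ) + 1) ^ k := by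
            exact_mod_cast this
          linarith
        have h8 : D' / (k + 1) * (((t : ℝ) + 1) ^ (k + 1) - (t : ℝ) ^ (k + 1)) ≤ D' * ((t : ℝ) + 1) ^ k := by
          have h9 : 0 ≤ D' / (k + 1) := by positivity
          have h10 := mul_le_mul_of_nonneg_left h7 h9
          have h11 : D' / (k + 1) * (((k : ℝ) + 1) * ((t : ℝ) + 1) ^ k) = D' * ((t : ℝ) + 1) ^ k := by
            field_simp
          linarith
        push_cast at h5 ⊢
        have e3 : D' / (k + 1) * (((t : ℝ) + 1) ^ (k + 1) - (T : ℝ) ^ (k + 1)) =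
          D' / (k + 1) * (((t : ℝ) + 1) ^ (k + 1) - (t : ℝ) ^ (k + 1)) +
          D' / (k + 1) * ((t : ℝ) ^ (k + 1) - (T : ℝ) ^ (k + 1)) := by ring
        rw [e3]
        linarith
    have hnat : Tendsto (fun t : ℕ => (t : ℝ)) atTop atTop := tendsto_natCast_atTop_atTop
    have hl2 : Tendsto (fun t : ℕ => (b T - (D' / (k + 1)) * (T : ℝ) ^ (k + 1)) / (t : ℝ) ^ (k + 1)) atTop (𝓝 0) := by
      apply Tendsto.div_atTop tendsto_const_nhds
      exact (tendsto_pow_atTop (by omega)).comp hnat
    have hl3 : Tendsto (fun t : ℕ => (b T - (D' / (k + 1)) * (T : ℝ) ^ (k + 1)) / (t : ℝ) ^ (k + 1) +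
        (D' / (k + 1))) atTop (𝓝 (0 + (D' / (k + 1)))) :=
      hl2.add tendsto_const_nhds
    have hle : 0 + (D' / (k + 1)) ≤ E := by
      apply le_of_tendsto_of_tendsto hl3 hb
      filter_upwards [eventually_ge_atTop T, eventually_ge_atTop 1] with t ht ht1
      have h5 := hstep t ht
      have h6 : (0 : ℝ) < (t : ℝ) ^ (k + 1) := by
        have : (0 : ℝ) < (t : ℝ) := by exact_mod_cast ht1
        positivity
      rw [div_add' _ _ _ h6.ne']
      apply div_le_div_of_nonneg_right _ h6.le
      linarith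
    rw [zero_add, div_le_iff₀ (by positivity)] at hle
    linarith

end

end Pool.Agent.H33
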