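import Pool.Agent.H33.Hilbert

set_option autoImplicit false

namespace Pool.Agent.H33

open MvPolynomial

noncomputable section

/-- eventually polynomial -/
def EvPoly (g : ℕ → ℕ) : Prop :=
  ∃ p : Polynomial ℚ, ∃ T : ℕ, ∀ t ≥ T, (g t : ℚ) = p.eval (t : ℚ)

lemma exists_antidiff (q : Polynomial ℚ) :
    ∃ Q : Polynomial ℚ, ∀ x : ℚ, Q.eval (x + 1) - Q.eval x = q.eval x := by
  refine ⟨∑ k ∈ q.support, Polynomial.C (q.coeff k / (k + 1)) * Polynomial.bernoulli (k + 1), ?_⟩
  intro x
  rw [Polynomial.eval_finsetSum, Polynomial.eval_finsetSum, ← Finset.sum_sub_distrib,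
    Polynomial.eval_eq_sum, Polynomial.sum]
  apply Finset.sum_congr rfl
  intro k _
  rw [Polynomial.eval_mul, Polynomial.eval_mul, Polynomial.eval_C, add_comm x 1,
    Polynomial.bernoulli_eval_one_add, Polynomial.eval_C]
  have : (k : ℚ) + 1 ≠ 0 := by positivity
  push_cast
  field_simp
  ring

lemma evPoly_of_diff {g g' : ℕ → ℕ} (hg : ∀ t, g (t + 1) = g t + g' (t + 1)) (h' : EvPoly g') :
    EvPoly g := by
  obtain ⟨q, T, hq⟩ := h'
  obtain ⟨Q, hQ⟩ := exists_antidiff (q.comp (Polynomial.X + 1))
  refine ⟨Q + Polynomial.C ((g T : ℚ) - Q.eval (T : ℚ)), T, ?_⟩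
  intro t ht
  induction t, ht using Nat.le_induction with
  | base => simp
  | succ t ht ih =>
    rw [hg, Nat.cast_add, ih, hq (t + 1) (by omega)]
    have := hQ (t : ℚ)
    rw [Polynomial.eval_comp] at this
    simp only [Polynomial.eval_add, Polynomial.eval_X, Polynomial.eval_one, Polynomial.eval_C] at this ⊢
    push_cast
    linarith

lemma evPoly_shift_add {g g1 g2 : ℕ → ℕ} (hg : ∀ t, g (t + 1) = g1 t + g2 (t + 1))
    (h1 : EvPoly g1) (h2 : EvPoly g2) : EvPoly g := by
  obtain ⟨p1, T1, h1⟩ := h1
  obtain ⟨p2, T2, h2⟩ := h2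
  refine ⟨p1.comp (Polynomial.X - 1) + p2, T1 + T2 + 1, ?_⟩
  intro t ht
  obtain ⟨s, rfl⟩ : ∃ s, t = s + 1 := ⟨t - 1, by omega⟩
  rw [hg, Nat.cast_add, h1 s (by omega), h2 (s + 1) (by omega)]
  simp [Polynomial.eval_comp]

variable {K : Type*} [Field K]

lemma hf_eq_zero_of_X_mem {N : ℕ} {I : Ideal (MvPolynomial (Fin N) K)} (h : ∀ i, X i ∈ I) {t : ℕ}
    (ht : 1 ≤ t) : hf I t = 0 := by
  have h1 := hf_add_hfI I t
  have h2 : hfI I t = hs (Fin N) K t := by
    unfold hfI hs
    have e : homogeneousSubmodule (Fin N) K t ⊓ I.restrictScalars K =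
        homogeneousSubmodule (Fin N) K t := by
      rw [inf_eq_left]
      intro f hf
      have hf' : f.IsHomogeneous t := hf
      change f ∈ I
      rw [f.as_sum]
      apply Ideal.sum_mem
      intro d hd
      have hd' : d.degree = t := by
        by_contra hcon
        exact (mem_support_iff.1 hd) (hf'.coeff_eq_zero hcon)
      have hdeg : d ≠ 0 := by
        intro h0
        rw [h0, map_zero] at hd'
        omega
      obtain ⟨i, hi⟩ : ∃ i, d i ≠ 0 := by
        by_contra hcon
        push Not at hcon
        exact hdeg (Finsupp.ext hcon)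
      have : monomial d (coeff d f) = X i * monomial (d - Finsupp.single i 1) (coeff d f) := by
        have hdd : Finsupp.single i 1 + (d - Finsupp.single i 1) = d := by
          ext j
          simp only [Finsupp.add_apply, Finsupp.tsub_apply, Finsupp.single_apply]
          split_ifs with hij
          · subst hij; omega
          · omega
        rw [X, monomial_mul, one_mul, hdd]
      rw [this]
      exact Ideal.mul_mem_right _ _ (h i)
    rw [e]
  omega

/-- Existence of the Hilbert polynomial. -/
theorem evPoly_hf_aux {N : ℕ} (m : ℕ) (hm : m ≤ N) :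
    ∀ I : Ideal (MvPolynomial (Fin N) K), IsHomog I → (∀ i : Fin N, m ≤ i.val → X i ∈ I) →
      EvPoly (hf I) := by
  induction m with
  | zero =>
    intro I hI hX
    refine ⟨0, 1, ?_⟩
    intro t ht
    rw [hf_eq_zero_of_X_mem (fun i => hX i (Nat.zero_le _)) ht]
    simp
  | succ m ih =>
    intro I
    induction I using IsNoetherian.induction with
    | hgt I hgt =>
      intro hI hX
      set x : MvPolynomial (Fin N) K := X ⟨m, by omega⟩ with hx
      have hx1 : x.IsHomogeneous 1 := isHomogeneous_X _ _
      have hx0 : x ≠ 0 := X_ne_zero _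
      have hq : EvPoly (hf (I ⊔ Ideal.span {x})) := by
        apply ih (by omega)
        · exact isHomog_sup_span hI hx1
        · intro i hi
          rcases Nat.eq_or_lt_of_le hi with h | h
          · have : i = ⟨m, by omega⟩ := by
              ext; exact h.symm
            rw [this]
            exact Ideal.mem_sup_right (Ideal.mem_span_singleton_self x)
          · exact Ideal.mem_sup_left (hX i h)
      by_cases hc : colonI I x = I
      · apply evPoly_of_diff _ hq
        intro t
        have := hf_exact hI hx0 hx1 t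
        rwa [hc] at this
      · have hlt : I < colonI I x := lt_of_le_of_ne (le_colonI I x) (Ne.symm hc)
        have h1 : EvPoly (hf (colonI I x)) := by
          apply hgt _ hlt (isHomog_colonI hI hx1)
          intro i hi
          exact le_colonI I x (hX i hi)
        exact evPoly_shift_add (hf_exact hI hx0 hx1) h1 hq

theorem evPoly_hf {N : ℕ} (I : Ideal (MvPolynomial (Fin N) K)) (hI : IsHomog I) : EvPoly (hf I) :=
  evPoly_hf_aux N le_rfl I hI (fun i hi => absurd i.2 (by omega))

end

end Pool.Agent.H33
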