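import Pool.Agent.H33.HilbertPoly

set_option autoImplicit false

namespace Pool.Agent.H33

open MvPolynomial

noncomputable section

variable {σ τ : Type*} {K : Type*} [Field K]

section deg
variable {B : Type*} [CommRing B]

def TopCoeff (G : Polynomial B) (D : ℕ) (u : B) : Prop := G.natDegree ≤ D ∧ G.coeff D = u

lemma TopCoeff.mul {G G' : Polynomial B} {D D' : ℕ} {u u' : B} (h : TopCoeff G D u)
    (h' : TopCoeff G' D' u') : TopCoeff (G * G') (D + D') (u * u') := by
  refine ⟨Polynomial.natDegree_mul_le_of_le h.1 h'.1, ?_⟩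
  rw [Polynomial.coeff_mul_add_eq_of_natDegree_le h.1 h'.1, h.2, h'.2]

lemma TopCoeff.pow {G : Polynomial B} {u : B} (h : TopCoeff G 1 u) (m : ℕ) :
    TopCoeff (G ^ m) m (u ^ m) := by
  induction m with
  | zero => simp [TopCoeff]
  | succ m ih => rw [pow_succ, pow_succ]; exact ih.mul h

lemma TopCoeff.sum {ι : Type*} (s : Finset ι) {G : ι → Polynomial B} {D : ℕ} {u : ι → B}
    (h : ∀ i ∈ s, TopCoeff (G i) D (u i)) : TopCoeff (∑ i ∈ s, G i) D (∑ i ∈ s, u i) := by
  refine ⟨?_, ?_⟩
  · apply Polynomial.natDegree_sum_le_of_forall_le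
    intro i hi
    exact (h i hi).1
  · rw [Polynomial.finsetSum_coeff]
    exact Finset.sum_congr rfl (fun i hi => (h i hi).2)

lemma TopCoeff.prod {ι : Type*} (s : Finset ι) {G : ι → Polynomial B} {D : ι → ℕ} {u : ι → B}
    (h : ∀ i ∈ s, TopCoeff (G i) (D i) (u i)) :
    TopCoeff (∏ i ∈ s, G i) (∑ i ∈ s, D i) (∏ i ∈ s, u i) := by
  classical
  induction s using Finset.induction_on with
  | empty => simp [TopCoeff]
  | insert a s ha ih =>
    rw [Finset.prod_insert ha, Finset.sum_insert ha, Finset.prod_insert ha]
    exact (h a (Finset.mem_insert_self a s)).mul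
      (ih (fun i hi => h i (Finset.mem_insert_of_mem hi)))

lemma topCoeff_aeval [Algebra K B] {F : MvPolynomial τ K} {D : ℕ} (hF : F.IsHomogeneous D)
    (b c : τ → B) :
    TopCoeff (aeval (fun i => Polynomial.C (b i) + Polynomial.C (c i) * Polynomial.X) F) D
      (aeval c F) := by
  have e1 : aeval (fun i => Polynomial.C (b i) + Polynomial.C (c i) * Polynomial.X) F =
      ∑ d ∈ F.support, aeval (fun i => Polynomial.C (b i) + Polynomial.C (c i) * Polynomial.X)
        (monomial d (coeff d F)) := by
    conv_lhs => rw [F.as_sum, map_sum]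
  have e2 : aeval c F = ∑ d ∈ F.support, aeval c (monomial d (coeff d F)) := by
    conv_lhs => rw [F.as_sum, map_sum]
  rw [e1, e2]
  apply TopCoeff.sum
  intro d hd
  have hdD : d.degree = D := by
    by_contra hcon
    exact (mem_support_iff.1 hd) (hF.coeff_eq_zero hcon)
  rw [aeval_monomial, aeval_monomial]
  have h0 : TopCoeff (algebraMap K (Polynomial B) (coeff d F)) 0 (algebraMap K B (coeff d F)) := by
    rw [IsScalarTower.algebraMap_apply K B (Polynomial B), Polynomial.algebraMap_eq]
    exact ⟨by simp, by simp⟩
  have h1 : TopCoeff (d.prod fun i k => (Polynomial.C (b i) + Polynomial.C (c i) * Polynomial.X) ^ k)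
      (∑ i ∈ d.support, d i) (d.prod fun i k => c i ^ k) := by
    unfold Finsupp.prod
    apply TopCoeff.prod
    intro i _
    apply TopCoeff.pow
    refine ⟨?_, by simp⟩
    exact Polynomial.natDegree_add_le_of_degree_le (by simp) ((Polynomial.natDegree_C_mul_le _ _).trans Polynomial.natDegree_X_le)
  have h2 := h0.mul h1
  rw [zero_add] at h2
  have h3 : ∑ i ∈ d.support, d i = D := by
    rw [← hdD]; rfl
  rwa [h3] at h2

end deg

/-- the `K`-algebra map `K[Y_0..Y_{r-1}] → K[x]/P` given by the tuple `y` -/
def phi (P : Ideal (MvPolynomial σ K)) {r : ℕ} (y : Fin r → MvPolynomial σ K) :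
    MvPolynomial (Fin r) K →ₐ[K] MvPolynomial σ K ⧸ P :=
  (Ideal.Quotient.mkₐ K P).comp (aeval y)

lemma phi_apply (P : Ideal (MvPolynomial σ K)) {r : ℕ} (y : Fin r → MvPolynomial σ K)
    (F : MvPolynomial (Fin r) K) : phi P y F = Ideal.Quotient.mk P (aeval y F) := rfl

lemma phi_eq_zero (P : Ideal (MvPolynomial σ K)) {r : ℕ} (y : Fin r → MvPolynomial σ K)
    (F : MvPolynomial (Fin r) K) : phi P y F = 0 ↔ aeval y F ∈ P := by
  rw [phi_apply, Ideal.Quotient.eq_zero_iff_mem]

lemma phi_X (P : Ideal (MvPolynomial σ K)) {r : ℕ} (y : Fin r → MvPolynomial σ K) (i : Fin r) :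
    phi P y (X i) = Ideal.Quotient.mk P (y i) := by
  rw [phi_apply, aeval_X]

/-- Noether normalisation data: `y` is a tuple of linear forms, algebraically independent modulo `P`
and such that `K[x]/P` is integral over `K[y]`. -/
structure NN (P : Ideal (MvPolynomial σ K)) (r : ℕ) (y : Fin r → MvPolynomial σ K) : Prop where
  lin : ∀ i, (y i).IsHomogeneous 1
  inj : Function.Injective (phi P y)
  int : (phi P y).toRingHom.IsIntegral

lemma aeval_homogeneousComponent {r : ℕ} {y : Fin r → MvPolynomial σ K}
    (hy : ∀ i, (y i).IsHomogeneous 1) (F : MvPolynomial (Fin r) K) (t : ℕ) :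
    aeval y (homogeneousComponent t F) = homogeneousComponent t (aeval y F) := by
  have h1 : ∀ (j : ℕ), (aeval y (homogeneousComponent j F)).IsHomogeneous j := by
    intro j
    have := (homogeneousComponent_isHomogeneous j F).aeval y hy
    simpa using this
  have h2 : aeval y F = ∑ j ∈ Finset.range (F.totalDegree + 1), aeval y (homogeneousComponent j F) := by
    conv_lhs => rw [← sum_homogeneousComponent F, map_sum]
  rw [h2, map_sum]
  have h3 : ∀ j ∈ Finset.range (F.totalDegree + 1),
      homogeneousComponent t (aeval y (homogeneousComponent j F)) =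
        if t = j then aeval y (homogeneousComponent t F) else 0 := by
    intro j _
    rw [homogeneousComponent_of_mem (h1 j)]
    split_ifs with h
    · rw [h]
    · rfl
  rw [Finset.sum_congr rfl h3, Finset.sum_ite_eq]
  split_ifs with h
  · rfl
  · rw [Finset.mem_range, not_lt] at h
    rw [homogeneousComponent_eq_zero _ _ (by omega), map_zero]

/-- one step of linear Noether normalisation -/
lemma step_integral (P : Ideal (MvPolynomial σ K)) {r : ℕ} (y : Fin (r + 1) → MvPolynomial σ K)
    (F : MvPolynomial (Fin (r + 1)) K) {D : ℕ} (hF : F.IsHomogeneous D)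
    (hFP : aeval y F ∈ P) (c : Fin (r + 1) → K) (hc : eval c F ≠ 0) (j : Fin (r + 1)) (hj : c j = 1)
    (hint : (phi P y).toRingHom.IsIntegral) :
    (phi P (fun i : Fin r => y (j.succAbove i) - C (c (j.succAbove i)) * y j)).toRingHom.IsIntegral := by
  set y' : Fin r → MvPolynomial σ K := fun i : Fin r => y (j.succAbove i) - C (c (j.succAbove i)) * y j
    with hy'
  let R := MvPolynomial σ K ⧸ P
  let B : Subalgebra K R := (phi P y').range
  let z : R := Ideal.Quotient.mk P (y j)
  -- elements b_i of B with pi (y i) = b_i + c_i z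
  let b : Fin (r + 1) → B := fun i =>
    Fin.insertNth (α := fun _ => B) j 0 (fun i => ⟨phi P y' (X i), AlgHom.mem_range_self _ _⟩) i
  have hb : ∀ i, Ideal.Quotient.mk P (y i) = (b i : R) + algebraMap K R (c i) * z := by
    intro i
    refine Fin.succAboveCases j ?_ ?_ i
    · simp only [b, Fin.insertNth_apply_same, hj, map_one, one_mul, ZeroMemClass.coe_zero, zero_add]
      rfl
    · intro i
      simp only [b, Fin.insertNth_apply_succAbove]
      rw [phi_X]
      simp only [hy', map_sub, map_mul]
      have : algebraMap K R (c (j.succAbove i)) = Ideal.Quotient.mk P (C (c (j.succAbove i))) := rfl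
      rw [this]
      show _ = _ - _ * z + _ * z
      ring
  -- z is integral over B
  have hz : IsIntegral B z := by
    let G : Polynomial B := aeval (fun i => Polynomial.C (b i) +
      Polynomial.C (algebraMap K B (c i)) * Polynomial.X) F
    have hG := topCoeff_aeval hF b (fun i => algebraMap K B (c i))
    have hGc : G.coeff D = algebraMap K B (eval c F) := by
      rw [hG.2]
      have : aeval (fun i => algebraMap K B (c i)) F = algebraMap K B (aeval c F) := by
        rw [← aeval_algebraMap_apply]
        rfl
      rw [this]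
      rfl
    have hGz : Polynomial.aeval z G = 0 := by
      have h1 : Polynomial.aeval z G = aeval (fun i => Ideal.Quotient.mk P (y i)) F := by
        have h2 : (((Polynomial.aeval (R := B) z).restrictScalars K).comp
            (aeval (fun i => Polynomial.C (b i) + Polynomial.C (algebraMap K B (c i)) * Polynomial.X)))
            = aeval (fun i => Ideal.Quotient.mk P (y i)) := by
          apply MvPolynomial.algHom_ext
          intro i
          simp only [AlgHom.comp_apply, aeval_X, AlgHom.restrictScalars_apply, map_add, map_mul,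
            Polynomial.aeval_C, Polynomial.aeval_X]
          rw [hb i]
          congr 1
        exact congrArg (fun f => f F) h2
      rw [h1]
      have h3 : aeval (fun i => Ideal.Quotient.mk P (y i)) F = phi P y F := by
        have : (aeval (fun i => Ideal.Quotient.mk P (y i)) : MvPolynomial (Fin (r+1)) K →ₐ[K] R) = phi P y := by
          apply MvPolynomial.algHom_ext
          intro i
          rw [aeval_X, phi_X]
        rw [this]
      rw [h3, phi_eq_zero]
      exact hFP
    have hu : eval c F ≠ 0 := hc
    refine ⟨Polynomial.C (algebraMap K B (eval c F)⁻¹) * G, ?_, ?_⟩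
    · apply Polynomial.monic_of_natDegree_le_of_coeff_eq_one D
      · exact (Polynomial.natDegree_C_mul_le _ _).trans hG.1
      · rw [Polynomial.coeff_C_mul, hGc, ← map_mul, inv_mul_cancel₀ hu, map_one]
    · rw [Polynomial.eval₂_mul]
      have : Polynomial.eval₂ (algebraMap B R) z G = 0 := hGz
      rw [this, mul_zero]
  -- hence all pi (y i) are integral over B
  have hyi : ∀ i, IsIntegral B (Ideal.Quotient.mk P (y i)) := by
    intro i
    rw [hb i]
    apply IsIntegral.add
    · exact isIntegral_algebraMap (R := B) (A := R) (x := b i)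
    · apply IsIntegral.mul _ hz
      have : algebraMap K R (c i) = algebraMap B R (algebraMap K B (c i)) := rfl
      rw [this]
      exact isIntegral_algebraMap
  have hphi : ∀ F', IsIntegral B (phi P y F') := by
    intro F'
    induction F' using MvPolynomial.induction_on with
    | C a =>
      have : phi P y (C a) = algebraMap B R (algebraMap K B a) := by
        rw [show (C a : MvPolynomial (Fin (r+1)) K) = algebraMap K _ a from rfl, AlgHom.commutes]
        rfl
      rw [this]
      exact isIntegral_algebraMap
    | add p q hp hq => rw [map_add]; exact hp.add hq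
    | mul_X p i hp => rw [map_mul, phi_X]; exact hp.mul (hyi i)
  -- conclude
  intro x
  obtain ⟨q, hqm, hq0⟩ := hint x
  have hx : IsIntegral (integralClosure B R) x := by
    let f : MvPolynomial (Fin (r + 1)) K →+* integralClosure B R :=
      RingHom.codRestrict (phi P y).toRingHom (integralClosure B R) (fun F' => hphi F')
    refine ⟨q.map f, hqm.map f, ?_⟩
    rw [Polynomial.eval₂_map]
    exact hq0
  have hx2 : IsIntegral B x := isIntegral_trans (R := B) (A := integralClosure B R) x hx
  obtain ⟨q2, hq2m, hq20⟩ := hx2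
  -- lift the coefficients to MvPolynomial (Fin r) K
  have hsurj : Function.Surjective ((phi P y').rangeRestrict) := AlgHom.rangeRestrict_surjective _
  have hlift : q2 ∈ Polynomial.lifts ((phi P y').rangeRestrict : MvPolynomial (Fin r) K →+* B) := by
    rw [Polynomial.lifts_iff_coeff_lifts]
    intro k
    obtain ⟨a, ha⟩ := hsurj (q2.coeff k)
    exact ⟨a, ha⟩
  obtain ⟨q3, hq3, hq3d, hq3m⟩ := Polynomial.lifts_and_natDegree_eq_and_monic hlift hq2m
  refine ⟨q3, hq3m, ?_⟩
  rw [← hq3, Polynomial.eval₂_map] at hq20
  exact hq20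

end

end Pool.Agent.H33
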