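import Pool.Agent.H33.NoetherA

set_option autoImplicit false

namespace Pool.Agent.H33

open MvPolynomial

noncomputable section

variable {K : Type*} [Field K]

lemma eval_scale {r : ℕ} {F : MvPolynomial (Fin r) K} {D : ℕ} (hF : F.IsHomogeneous D) (a : K)
    (c : Fin r → K) : eval (fun i => a * c i) F = a ^ D * eval c F := by
  rw [eval_eq', eval_eq', Finset.mul_sum]
  apply Finset.sum_congr rfl
  intro d hd
  have hdD : d.degree = D := by
    by_contra hcon
    exact (mem_support_iff.1 hd) (hF.coeff_eq_zero hcon)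
  have : ∏ i, (a * c i) ^ d i = a ^ D * ∏ i, c i ^ d i := by
    simp_rw [mul_pow]
    rw [Finset.prod_mul_distrib, Finset.prod_pow_eq_pow_sum]
    congr 2
    rw [← hdD, Finsupp.degree_eq_sum]
  rw [this]
  ring

lemma sub_aeval_mem_span {r : ℕ} (F : MvPolynomial (Fin (r + 1)) K) :
    F - aeval (fun i => if i = 0 then (0 : MvPolynomial (Fin (r + 1)) K) else X i) F ∈
      Ideal.span {(X 0 : MvPolynomial (Fin (r + 1)) K)} := by
  rw [← Ideal.Quotient.eq]
  have : (Ideal.Quotient.mkₐ K (Ideal.span {(X 0 : MvPolynomial (Fin (r + 1)) K)})) =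
      (Ideal.Quotient.mkₐ K (Ideal.span {(X 0 : MvPolynomial (Fin (r + 1)) K)})).comp
        (aeval (fun i => if i = 0 then (0 : MvPolynomial (Fin (r + 1)) K) else X i)) := by
    apply MvPolynomial.algHom_ext
    intro i
    rw [AlgHom.comp_apply, aeval_X]
    split_ifs with h
    · subst h
      rw [map_zero]
      exact Ideal.Quotient.eq_zero_iff_mem.2 (Ideal.mem_span_singleton_self _)
    · rfl
  exact congrArg (fun f => f F) this

theorem exists_NN [Infinite K] {N : ℕ} (P : Ideal (MvPolynomial (Fin N) K)) [hP : P.IsPrime]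
    (hPh : IsHomog P) (l : MvPolynomial (Fin N) K) (hl : l.IsHomogeneous 1) (hlP : l ∉ P) :
    ∃ (r : ℕ) (y : Fin (r + 1) → MvPolynomial (Fin N) K), NN P (r + 1) y ∧ y 0 = l := by
  classical
  have hex : ∃ r : ℕ, ∃ y : Fin (r + 1) → MvPolynomial (Fin N) K,
      (∀ i, (y i).IsHomogeneous 1) ∧ y 0 = l ∧ (phi P y).toRingHom.IsIntegral := by
    refine ⟨N, Fin.cons l X, ?_, by simp, ?_⟩
    · intro i
      refine Fin.cases ?_ ?_ i
      · simpa using hl
      · intro i; simpa using isHomogeneous_X K i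
    · apply RingHom.isIntegral_of_surjective
      intro x
      obtain ⟨f, rfl⟩ := Ideal.Quotient.mk_surjective x
      refine ⟨rename Fin.succ f, ?_⟩
      show phi P _ _ = _
      rw [phi_apply, aeval_rename]
      congr 1
      have : (Fin.cons l X : Fin (N + 1) → MvPolynomial (Fin N) K) ∘ Fin.succ = X := by
        funext i; simp
      rw [this, aeval_X_left_apply]
  obtain ⟨r, ⟨y, hy1, hy0, hyint⟩, hmin⟩ : ∃ r : ℕ, (∃ y : Fin (r + 1) → MvPolynomial (Fin N) K,
      (∀ i, (y i).IsHomogeneous 1) ∧ y 0 = l ∧ (phi P y).toRingHom.IsIntegral) ∧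
      ∀ m < r, ¬ ∃ y : Fin (m + 1) → MvPolynomial (Fin N) K,
      (∀ i, (y i).IsHomogeneous 1) ∧ y 0 = l ∧ (phi P y).toRingHom.IsIntegral :=
    ⟨Nat.find hex, Nat.find_spec hex, fun m hm => Nat.find_min hex hm⟩
  refine ⟨r, y, ⟨hy1, ?_, hyint⟩, hy0⟩
  by_contra hninj
  have hker : ∃ F : MvPolynomial (Fin (r + 1)) K, F ≠ 0 ∧ aeval y F ∈ P := by
    rw [injective_iff_map_eq_zero] at hninj
    push Not at hninj
    obtain ⟨F, hF, hF0⟩ := hninj
    exact ⟨F, hF0, (phi_eq_zero P y F).1 hF⟩
  have hexD : ∃ D : ℕ, ∃ F : MvPolynomial (Fin (r + 1)) K, F ≠ 0 ∧ F.IsHomogeneous D ∧ aeval y F ∈ P := by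
    obtain ⟨F, hF0, hFP⟩ := hker
    have : ∃ D, homogeneousComponent D F ≠ 0 := by
      by_contra hcon
      push Not at hcon
      apply hF0
      rw [← sum_homogeneousComponent F]
      exact Finset.sum_eq_zero (fun i _ => hcon i)
    obtain ⟨D, hD⟩ := this
    refine ⟨D, homogeneousComponent D F, hD, homogeneousComponent_isHomogeneous _ _, ?_⟩
    rw [aeval_homogeneousComponent hy1]
    exact hPh _ hFP _
  obtain ⟨F, hF0, hFh, hFP⟩ := Nat.find_spec hexD
  set D := Nat.find hexD with hD
  -- D ≥ 1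
  have hD1 : D ≠ 0 := by
    intro h0
    rw [h0] at hFh
    have h1 : F = C (coeff 0 F) := by
      have := totalDegree_eq_zero_iff_eq_C.1 ((totalDegree_zero_iff_isHomogeneous _).2 hFh)
      exact this
    rw [h1, aeval_C] at hFP
    have h2 : coeff 0 F ≠ 0 := by
      intro h; rw [h, C_0] at h1; exact hF0 h1
    have h3 : (algebraMap K (MvPolynomial (Fin N) K) (coeff 0 F)⁻¹) *
        (algebraMap K (MvPolynomial (Fin N) K) (coeff 0 F)) ∈ P := P.mul_mem_left _ hFP
    rw [← map_mul, inv_mul_cancel₀ h2, map_one] at h3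
    exact hP.ne_top ((Ideal.eq_top_iff_one P).2 h3)
  -- X 0 does not divide F
  have hndvd : ¬ (X 0 ∣ F) := by
    rintro ⟨F', hF'⟩
    have h1 : F = X 0 * homogeneousComponent (D - 1) F' := by
      have := homogeneousComponent_mul_of_homog (f := (X 0 : MvPolynomial (Fin (r + 1)) K)) (g := F')
        (isHomogeneous_X K 0) (D - 1)
      rw [← hF', Nat.sub_add_cancel (Nat.one_le_iff_ne_zero.2 hD1), homogeneousComponent_eq_self hFh] at this
      exact this
    have h2 : aeval y F = l * aeval y (homogeneousComponent (D - 1) F') := by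
      conv_lhs => rw [h1]
      rw [map_mul, aeval_X, hy0]
    rw [h2] at hFP
    have h3 := (hP.mem_or_mem hFP).resolve_left hlP
    have h4 := Nat.find_min hexD (m := D - 1) (by omega)
    apply h4
    refine ⟨homogeneousComponent (D - 1) F', ?_, homogeneousComponent_isHomogeneous _ _, h3⟩
    intro h5
    rw [h5, mul_zero] at h1
    exact hF0 h1
  set F0 : MvPolynomial (Fin (r + 1)) K :=
    aeval (fun i => if i = 0 then (0 : MvPolynomial (Fin (r + 1)) K) else X i) F with hF0def
  have hF00 : F0 ≠ 0 := by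
    intro h
    have := sub_aeval_mem_span F
    rw [← hF0def, h, sub_zero, Ideal.mem_span_singleton] at this
    exact hndvd this
  have hF0h : F0.IsHomogeneous D := by
    have := hFh.aeval (S := K) (n := 1)
      (fun i => if i = 0 then (0 : MvPolynomial (Fin (r + 1)) K) else X i) (by
        intro i
        split_ifs
        · exact isHomogeneous_zero _ _ _
        · exact isHomogeneous_X K i)
    rwa [one_mul] at this
  obtain ⟨c1, hc1⟩ : ∃ c1, eval c1 F0 ≠ 0 := by
    by_contra hcon
    push Not at hcon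
    exact hF00 (hF0h.eq_zero_of_forall_eval_eq_zero hcon)
  set c2 : Fin (r + 1) → K := fun i => if i = 0 then 0 else c1 i with hc2
  have hevc2 : eval c2 F = eval c1 F0 := by
    rw [hF0def]
    have : (aeval c2 : MvPolynomial (Fin (r + 1)) K →ₐ[K] K) = (aeval c1).comp
      (aeval (fun i => if i = 0 then (0 : MvPolynomial (Fin (r + 1)) K) else X i)) := by
      apply MvPolynomial.algHom_ext
      intro i
      rw [AlgHom.comp_apply, aeval_X, aeval_X, hc2]
      show (if i = 0 then (0 : K) else c1 i) = _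
      split_ifs
      · rw [map_zero]
      · rw [aeval_X]
    exact congrArg (fun f => f F) this
  have hc2F : eval c2 F ≠ 0 := by rw [hevc2]; exact hc1
  have hj : ∃ j, c2 j ≠ 0 := by
    by_contra hcon
    push Not at hcon
    have : c2 = fun i => (0 : K) * c2 i := by
      funext i; rw [hcon i, mul_zero]
    rw [this, eval_scale hFh, zero_pow hD1, zero_mul] at hc2F
    exact hc2F rfl
  obtain ⟨j, hj⟩ := hj
  have hj0 : j ≠ 0 := by
    rintro rfl
    apply hj
    simp [hc2]
  set c : Fin (r + 1) → K := fun i => (c2 j)⁻¹ * c2 i with hc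
  have hcF : eval c F ≠ 0 := by
    rw [hc, eval_scale hFh]
    exact mul_ne_zero (pow_ne_zero _ (inv_ne_zero hj)) hc2F
  have hcj : c j = 1 := inv_mul_cancel₀ hj
  have hc0 : c 0 = 0 := by
    simp [hc, hc2]
  have hr1 : r ≠ 0 := by
    intro h
    apply hj0
    ext
    have := j.2
    simp
    omega
  have hstep := step_integral P y F hFh hFP c hcF j hcj hyint
  obtain ⟨r', hr'⟩ : ∃ r', r = r' + 1 := ⟨r - 1, by omega⟩
  subst hr'
  apply hmin r' (by omega)
  refine ⟨_, ?_, ?_, hstep⟩
  · intro i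
    apply IsHomogeneous.sub
    · exact hy1 _
    · have := (hy1 j).C_mul (c (j.succAbove i))
      exact this
  · show y (j.succAbove 0) - C (c (j.succAbove 0)) * y j = l
    rw [Fin.succAbove_ne_zero_zero hj0, hc0, C_0, zero_mul, sub_zero, hy0]

end

end Pool.Agent.H33
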