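import Pool.Agent.H33.NoetherB

set_option autoImplicit false

namespace Pool.Agent.H33

open MvPolynomial

noncomputable section

variable {K : Type*} [Field K]

section
attribute [local instance] MvPolynomial.gradedAlgebra

lemma isHomog_iff {σ : Type*} (I : Ideal (MvPolynomial σ K)) :
    IsHomog I ↔ I.IsHomogeneous (homogeneousSubmodule σ K) := by
  constructor
  · intro h i f hf
    have := h f hf i
    have e : ((DirectSum.decompose (homogeneousSubmodule σ K) f i : _) : MvPolynomial σ K)
        = homogeneousComponent i f := decomposition.decompose'_apply f i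
    rw [e]
    exact this
  · intro h f hf t
    exact homogeneousComponent_mem_of_mem h hf t

lemma isHomog_minimalPrime {σ : Type*} {I Q : Ideal (MvPolynomial σ K)} (hI : IsHomog I)
    (hQ : Q ∈ I.minimalPrimes) : IsHomog Q := by
  rw [isHomog_iff] at hI ⊢
  have hQp : Q.IsPrime := hQ.1.1
  have h1 : (Ideal.homogeneousCore (homogeneousSubmodule σ K) Q).toIdeal.IsPrime :=
    Ideal.IsPrime.homogeneousCore hQp
  have h2 : I ≤ (Ideal.homogeneousCore (homogeneousSubmodule σ K) Q).toIdeal := by
    have h3 := Ideal.homogeneousCore_mono (homogeneousSubmodule σ K) hQ.1.2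
    have h4 := hI.toIdeal_homogeneousCore_eq_self
    intro x hx
    rw [← h4] at hx
    exact h3 hx
  have h5 := hQ.2 ⟨h1, h2⟩ (Ideal.toIdeal_homogeneousCore_le _ _)
  have h6 : Q = (Ideal.homogeneousCore (homogeneousSubmodule σ K) Q).toIdeal :=
    le_antisymm h5 (Ideal.toIdeal_homogeneousCore_le _ _)
  rw [h6]
  exact (Ideal.homogeneousCore (homogeneousSubmodule σ K) Q).isHomogeneous

end

theorem NN_ringKrullDim {σ : Type*} {P : Ideal (MvPolynomial σ K)} [hP : P.IsPrime] {r : ℕ}
    {y : Fin r → MvPolynomial σ K} (h : NN P r y) :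
    ringKrullDim (MvPolynomial σ K ⧸ P) = r := by
  let _ : Algebra (MvPolynomial (Fin r) K) (MvPolynomial σ K ⧸ P) := (phi P y).toRingHom.toAlgebra
  have : Algebra.IsIntegral (MvPolynomial (Fin r) K) (MvPolynomial σ K ⧸ P) := ⟨h.int⟩
  have : FaithfulSMul (MvPolynomial (Fin r) K) (MvPolynomial σ K ⧸ P) :=
    (faithfulSMul_iff_algebraMap_injective _ _).2 h.inj
  have hA : ringKrullDim (MvPolynomial (Fin r) K) = r := by
    rw [MvPolynomial.ringKrullDim_of_isNoetherianRing, ringKrullDim_eq_zero_of_field]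
    simp
  rw [← hA]
  apply le_antisymm
  · unfold ringKrullDim
    apply Order.krullDim_le_of_strictMono (PrimeSpectrum.comap (algebraMap (MvPolynomial (Fin r) K)
      (MvPolynomial σ K ⧸ P)))
    intro p q hpq
    exact Ideal.IsIntegral.comap_lt_comap (I := p.asIdeal) (J := q.asIdeal) hpq
  · unfold ringKrullDim Order.krullDim
    apply iSup_le
    intro l
    obtain ⟨Q, _, hQp, hQ⟩ := Ideal.exists_ideal_over_prime_of_isIntegral l.last.asIdeal
      (⊥ : Ideal (MvPolynomial σ K ⧸ P)) (by
        intro x hx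
        have hx' : phi P y x = 0 := hx
        rw [← map_zero (phi P y)] at hx'
        rw [h.inj hx']
        exact Ideal.zero_mem _)
    have : Q.LiesOver l.last.asIdeal := ⟨hQ.symm⟩
    obtain ⟨L, hL, -, -⟩ := Ideal.exists_ltSeries_of_hasGoingDown l Q
    rw [← hL]
    exact le_iSup (fun (p : LTSeries (PrimeSpectrum (MvPolynomial σ K ⧸ P))) => (p.length : WithBot ℕ∞)) L

theorem NN_minimalPrime {σ : Type*} {P : Ideal (MvPolynomial σ K)} [hP : P.IsPrime] {r : ℕ}
    {y : Fin (r + 1) → MvPolynomial σ K} (h : NN P (r + 1) y) {Q : Ideal (MvPolynomial σ K)}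
    (hQ : Q ∈ (P ⊔ Ideal.span {y 0}).minimalPrimes) : NN Q r (fun i => y i.succ) := by
  have hQp : Q.IsPrime := hQ.1.1
  have hPQ : P ≤ Q := le_sup_left.trans hQ.1.2
  have hyQ : y 0 ∈ Q := hQ.1.2 (Ideal.mem_sup_right (Ideal.mem_span_singleton_self _))
  let _ : Algebra (MvPolynomial (Fin (r + 1)) K) (MvPolynomial σ K ⧸ P) :=
    (phi P y).toRingHom.toAlgebra
  have : Algebra.IsIntegral (MvPolynomial (Fin (r + 1)) K) (MvPolynomial σ K ⧸ P) := ⟨h.int⟩
  have : FaithfulSMul (MvPolynomial (Fin (r + 1)) K) (MvPolynomial σ K ⧸ P) :=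
    (faithfulSMul_iff_algebraMap_injective _ _).2 h.inj
  -- the prime q of R
  set q : Ideal (MvPolynomial σ K ⧸ P) := Q.map (Ideal.Quotient.mk P) with hq
  have hker : RingHom.ker (Ideal.Quotient.mk P) ≤ Q := by rw [Ideal.mk_ker]; exact hPQ
  have hqp : q.IsPrime := Ideal.map_isPrime_of_surjective Ideal.Quotient.mk_surjective hker
  have hqc : q.comap (Ideal.Quotient.mk P) = Q := by
    rw [hq, Ideal.comap_map_of_surjective _ Ideal.Quotient.mk_surjective]
    rw [sup_eq_left]
    rw [← RingHom.ker_eq_comap_bot]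
    exact hker
  set p1 : Ideal (MvPolynomial (Fin (r + 1)) K) :=
    q.comap (algebraMap (MvPolynomial (Fin (r + 1)) K) (MvPolynomial σ K ⧸ P)) with hp1
  have hp1p : p1.IsPrime := Ideal.comap_isPrime _ _
  have hmemp1 : ∀ F, F ∈ p1 ↔ aeval y F ∈ Q := by
    intro F
    rw [hp1, Ideal.mem_comap]
    show Ideal.Quotient.mk P (aeval y F) ∈ q ↔ _
    rw [← Ideal.mem_comap, hqc]
  have hlo : q.LiesOver p1 := ⟨rfl⟩
  have hX0 : (Ideal.span {(X 0 : MvPolynomial (Fin (r + 1)) K)}).IsPrime := by
    rw [Ideal.span_singleton_prime (X_ne_zero _)]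
    exact X_prime
  have hle : Ideal.span {(X 0 : MvPolynomial (Fin (r + 1)) K)} ≤ p1 := by
    rw [Ideal.span_singleton_le_iff_mem, hmemp1, aeval_X]
    exact hyQ
  obtain ⟨P', hP'q, hP'p, hP'lo⟩ := Ideal.exists_ideal_le_liesOver_of_le q hle
  have h1 : Q ≤ P'.comap (Ideal.Quotient.mk P) := by
    apply hQ.2
    · refine ⟨Ideal.comap_isPrime _ _, ?_⟩
      apply sup_le
      · intro x hx
        rw [Ideal.mem_comap, Ideal.Quotient.eq_zero_iff_mem.2 hx]
        exact Ideal.zero_mem _
      · rw [Ideal.span_singleton_le_iff_mem, Ideal.mem_comap]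
        have : (X 0 : MvPolynomial (Fin (r + 1)) K) ∈ P'.under (MvPolynomial (Fin (r + 1)) K) := by
          rw [← hP'lo.over]
          exact Ideal.mem_span_singleton_self _
        have h2 : phi P y (X 0) ∈ P' := this
        rw [phi_X] at h2
        exact h2
    · intro x hx
      rw [← hqc]
      exact hP'q hx
  have h2 : P' = q := by
    apply le_antisymm hP'q
    intro x hx
    obtain ⟨f, rfl⟩ := Ideal.Quotient.mk_surjective x
    have : f ∈ Q := by
      rw [← hqc]; exact hx
    exact h1 this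
  have h3 : p1 = Ideal.span {(X 0 : MvPolynomial (Fin (r + 1)) K)} := by
    rw [hP'lo.over, h2]
  -- the evaluation killing X 0
  let ψ : MvPolynomial (Fin (r + 1)) K →ₐ[K] MvPolynomial (Fin r) K :=
    aeval (Fin.cases 0 (fun i => X i))
  have hψ0 : ψ (X 0) = 0 := by simp [ψ]
  have hψs : ∀ i : Fin r, ψ (X i.succ) = X i := by intro i; simp [ψ]
  refine ⟨fun i => h.lin _, ?_, ?_⟩
  · rw [injective_iff_map_eq_zero]
    intro F hF
    rw [phi_eq_zero] at hF
    have hF' : aeval y (rename Fin.succ F) ∈ Q := by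
      rw [aeval_rename]
      exact hF
    rw [← hmemp1, h3, Ideal.mem_span_singleton] at hF'
    obtain ⟨G, hG⟩ := hF'
    have h4 : ψ (rename Fin.succ F) = F := by
      have : ψ.comp (rename Fin.succ) = AlgHom.id K _ := by
        apply MvPolynomial.algHom_ext
        intro i
        rw [AlgHom.comp_apply, rename_X, hψs]
        rfl
      exact congrArg (fun f => f F) this
    rw [← h4, hG, map_mul, hψ0, zero_mul]
  · intro x
    obtain ⟨f, rfl⟩ := Ideal.Quotient.mk_surjective x
    obtain ⟨w, hwm, hw0⟩ := h.int (Ideal.Quotient.mk P f)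
    refine ⟨w.map ψ.toRingHom, hwm.map _, ?_⟩
    rw [Polynomial.eval₂_map]
    have h5 : (phi Q (fun i => y i.succ)).toRingHom.comp ψ.toRingHom =
        (Ideal.Quotient.factor hPQ).comp (phi P y).toRingHom := by
      have : (phi Q (fun i => y i.succ)).comp ψ =
          (Ideal.Quotient.factorₐ K hPQ).comp (phi P y) := by
        apply MvPolynomial.algHom_ext
        intro i
        rw [AlgHom.comp_apply, AlgHom.comp_apply, phi_X]
        refine Fin.cases ?_ ?_ i
        · rw [hψ0, map_zero]
          symm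
          exact Ideal.Quotient.eq_zero_iff_mem.2 hyQ
        · intro i
          rw [hψs, phi_X]
          rfl
      exact congrArg (fun f => (f : _ →ₐ[K] _).toRingHom) this
    have h6 : Ideal.Quotient.mk Q f = Ideal.Quotient.factor hPQ (Ideal.Quotient.mk P f) := rfl
    rw [h5, h6, ← Polynomial.hom_eval₂, hw0, map_zero]

end

end Pool.Agent.H33
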