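import Pool.Agent.H33.HilbertLimit

set_option autoImplicit false

namespace Pool.Agent.H33

open MvPolynomial Filter Topology

noncomputable section

variable {K : Type*} [Field K]

/-- `P` (of projective dimension `k`) has degree `d`: `k! * hf P t / t^k → d`. -/
def HasDeg {σ : Type*} (P : Ideal (MvPolynomial σ K)) (k : ℕ) (d : ℝ) : Prop :=
  Tendsto (fun t : ℕ => ((k.factorial : ℝ) * (hf P t : ℝ)) / (t : ℝ) ^ k) atTop (𝓝 d)

theorem exists_hasDeg {N : ℕ} {P : Ideal (MvPolynomial (Fin N) K)} (hP : IsHomog P) {k : ℕ}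
    {y : Fin (k + 1) → MvPolynomial (Fin N) K} (h : NN P (k + 1) y) :
    ∃ d : ℝ, 1 ≤ d ∧ HasDeg P k d := by
  obtain ⟨e, he⟩ := tendsto_of_evPoly (evPoly_hf P hP) (NN_PB hP h)
  refine ⟨k.factorial * e, ?_, ?_⟩
  · have h1 : Tendsto (fun t : ℕ => ((k.factorial : ℝ) * ((hf P t : ℝ) / (t : ℝ) ^ k))) atTop
      (𝓝 (k.factorial * e)) := he.const_mul _
    apply ge_of_tendsto h1
    filter_upwards [eventually_ge_atTop 1] with t ht
    have h2 : (0 : ℝ) < (t : ℝ) ^ k := by
      have : (0 : ℝ) < (t : ℝ) := by exact_mod_cast ht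
      positivity
    rw [← mul_div_assoc, le_div_iff₀ h2, one_mul]
    exact pow_le_hf h t
  · have h1 : Tendsto (fun t : ℕ => ((k.factorial : ℝ) * ((hf P t : ℝ) / (t : ℝ) ^ k))) atTop
      (𝓝 (k.factorial * e)) := he.const_mul _
    refine h1.congr (fun t => ?_)
    rw [mul_div_assoc]

lemma isHomog_inf {σ : Type*} {I J : Ideal (MvPolynomial σ K)} (hI : IsHomog I) (hJ : IsHomog J) :
    IsHomog (I ⊓ J) := fun f hf t => ⟨hI f hf.1 t, hJ f hf.2 t⟩

lemma isHomog_top {σ : Type*} : IsHomog (⊤ : Ideal (MvPolynomial σ K)) := fun _ _ _ => trivial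

lemma hf_inf_add_hf_sup {σ : Type*} [Finite σ] {I J : Ideal (MvPolynomial σ K)} (hI : IsHomog I)
    (hJ : IsHomog J) (t : ℕ) : hf (I ⊓ J) t + hf (I ⊔ J) t = hf I t + hf J t := by
  have h1 := hf_add_hfI I t
  have h2 := hf_add_hfI J t
  have h3 := hf_add_hfI (I ⊓ J) t
  have h4 := hf_add_hfI (I ⊔ J) t
  have h5 := Submodule.finrank_sup_add_finrank_inf_eq (homogeneousSubmodule σ K t ⊓ I.restrictScalars K)
    (homogeneousSubmodule σ K t ⊓ J.restrictScalars K)
  have e1 : (homogeneousSubmodule σ K t ⊓ I.restrictScalars K) ⊓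
      (homogeneousSubmodule σ K t ⊓ J.restrictScalars K) =
      homogeneousSubmodule σ K t ⊓ (I ⊓ J).restrictScalars K := by
    ext x
    simp only [Submodule.mem_inf, Submodule.restrictScalars_mem]
    tauto
  have e2 : (homogeneousSubmodule σ K t ⊓ I.restrictScalars K) ⊔
      (homogeneousSubmodule σ K t ⊓ J.restrictScalars K) =
      homogeneousSubmodule σ K t ⊓ (I ⊔ J).restrictScalars K := by
    apply le_antisymm
    · apply sup_le
      · apply inf_le_inf_left
        intro x hx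
        exact Ideal.mem_sup_left hx
      · apply inf_le_inf_left
        intro x hx
        exact Ideal.mem_sup_right hx
    · rintro x ⟨hx1, hx2⟩
      have hx2' : x ∈ I ⊔ J := hx2
      obtain ⟨a, ha, b, hb, rfl⟩ := Submodule.mem_sup.1 hx2'
      have : a + b = homogeneousComponent t a + homogeneousComponent t b := by
        rw [← map_add]
        exact (homogeneousComponent_eq_self hx1).symm
      rw [this]
      apply Submodule.add_mem_sup
      · exact ⟨homogeneousComponent_mem _ _, hI _ ha _⟩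
      · exact ⟨homogeneousComponent_mem _ _, hJ _ hb _⟩
  rw [e1, e2] at h5
  unfold hfI at *
  omega

lemma colonI_prime {σ : Type*} {P : Ideal (MvPolynomial σ K)} (hP : P.IsPrime)
    {f : MvPolynomial σ K} (hf : f ∉ P) : colonI P f = P := by
  apply le_antisymm _ (le_colonI P f)
  intro g hg
  rw [mem_colonI] at hg
  exact (hP.mem_or_mem hg).resolve_left hf

/-- if `f ∉ P` then `hf (P + f)` has lower order growth -/
lemma tendsto_hf_sup_zero {σ : Type*} [Finite σ] {P J : Ideal (MvPolynomial σ K)} (hP : P.IsPrime)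
    (hPh : IsHomog P) {k : ℕ} {d : ℝ} (hd : HasDeg P k d) {f : MvPolynomial σ K} {a : ℕ}
    (hfa : f.IsHomogeneous a) (hfP : f ∉ P) (hPJ : P ≤ J) (hfJ : f ∈ J) :
    Tendsto (fun t : ℕ => ((k.factorial : ℝ) * (hf J t : ℝ)) / (t : ℝ) ^ k) atTop (𝓝 0) := by
  have hf0 : f ≠ 0 := fun h => hfP (by rw [h]; exact P.zero_mem)
  have h1 : ∀ t, (hf J (t + a) : ℝ) ≤ hf P (t + a) - hf P t := by
    intro t
    have h2 := hf_exact hPh hf0 hfa t
    rw [colonI_prime hP hfP] at h2
    have h3 : hf J (t + a) ≤ hf (P ⊔ Ideal.span {f}) (t + a) := by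
      apply hf_antitone
      apply sup_le hPJ
      rw [Ideal.span_singleton_le_iff_mem]
      exact hfJ
    have h4 : hf J (t + a) + hf P t ≤ hf P (t + a) := by omega
    have h5 : (hf J (t + a) : ℝ) + hf P t ≤ hf P (t + a) := by exact_mod_cast h4
    linarith
  rw [← tendsto_add_atTop_iff_nat a]
  have hd1 := (tendsto_add_atTop_iff_nat a).2 hd
  -- hf P t / (t+a)^k → d too
  have hratio : Tendsto (fun t : ℕ => ((t : ℝ) / ((t + a : ℕ) : ℝ)) ^ k) atTop (𝓝 1) := by
    have : Tendsto (fun t : ℕ => ((t : ℝ) / ((t + a : ℕ) : ℝ))) atTop (𝓝 1) := by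
      have := tendsto_natCast_div_add_atTop (𝕜 := ℝ) (a : ℝ)
      refine this.congr (fun t => ?_)
      push_cast
      rfl
    simpa using this.pow k
  have hd2 : Tendsto (fun t : ℕ => ((k.factorial : ℝ) * (hf P t : ℝ)) / ((t + a : ℕ) : ℝ) ^ k) atTop
      (𝓝 d) := by
    have := hd.mul hratio
    rw [mul_one] at this
    refine this.congr' ?_
    filter_upwards [eventually_ge_atTop 1] with t ht
    have h6 : (t : ℝ) ≠ 0 := by positivity
    rw [div_pow]
    field_simp
  have hd3 := hd1.sub hd2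
  rw [sub_self] at hd3
  apply squeeze_zero _ _ hd3
  · intro t; positivity
  · intro t
    rw [← sub_div]
    apply div_le_div_of_nonneg_right _ (by positivity)
    rw [← mul_sub]
    apply mul_le_mul_of_nonneg_left (h1 t) (by positivity)

lemma exists_homog_not_mem {σ : Type*} {I J : Ideal (MvPolynomial σ K)} (hI : IsHomog I)
    (h : ¬ I ≤ J) : ∃ (f : MvPolynomial σ K) (a : ℕ), f.IsHomogeneous a ∧ f ∈ I ∧ f ∉ J := by
  obtain ⟨f, hf, hfJ⟩ := SetLike.not_le_iff_exists.1 h
  have : ∃ a, homogeneousComponent a f ∉ J := by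
    by_contra hcon
    push Not at hcon
    apply hfJ
    rw [← sum_homogeneousComponent f]
    exact Ideal.sum_mem _ (fun i _ => hcon i)
  obtain ⟨a, ha⟩ := this
  exact ⟨homogeneousComponent a f, a, homogeneousComponent_isHomogeneous _ _, hI _ hf _, ha⟩

lemma hf_top {σ : Type*} [Finite σ] (t : ℕ) : hf (⊤ : Ideal (MvPolynomial σ K)) t = 0 := by
  rw [hf_eq_zero_iff]
  intro f _
  trivial

theorem hasDeg_inf {σ : Type*} [Finite σ] {k : ℕ} (s : Finset (Ideal (MvPolynomial σ K)))
    (deg : Ideal (MvPolynomial σ K) → ℝ)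
    (hs1 : ∀ Q ∈ s, Q.IsPrime ∧ IsHomog Q ∧ HasDeg Q k (deg Q))
    (hs2 : ∀ Q ∈ s, ∀ Q' ∈ s, Q' ≤ Q → Q' = Q) :
    IsHomog (s.inf id) ∧ HasDeg (s.inf id) k (∑ Q ∈ s, deg Q) := by
  classical
  induction s using Finset.induction_on with
  | empty =>
    refine ⟨isHomog_top, ?_⟩
    unfold HasDeg
    simp [hf_top]
  | insert Q s hQ ih =>
    obtain ⟨ih1, ih2⟩ := ih (fun Q' hQ' => hs1 Q' (Finset.mem_insert_of_mem hQ'))
      (fun Q1 h1 Q2 h2 => hs2 Q1 (Finset.mem_insert_of_mem h1) Q2 (Finset.mem_insert_of_mem h2))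
    obtain ⟨hQp, hQh, hQd⟩ := hs1 Q (Finset.mem_insert_self Q s)
    rw [Finset.inf_insert, Finset.sum_insert hQ, id]
    refine ⟨isHomog_inf hQh ih1, ?_⟩
    -- the intersection is not contained in Q
    have hnot : ¬ (s.inf id) ≤ Q := by
      intro hle
      rw [hQp.inf_le'] at hle
      obtain ⟨Q', hQ', hle'⟩ := hle
      have := hs2 Q (Finset.mem_insert_self Q s) Q' (Finset.mem_insert_of_mem hQ') hle'
      rw [this] at hQ'
      exact hQ hQ'
    obtain ⟨f, a, hfa, hfI, hfQ⟩ := exists_homog_not_mem ih1 hnot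
    have h0 := tendsto_hf_sup_zero (J := Q ⊔ s.inf id) hQp hQh hQd hfa hfQ le_sup_left
      (Ideal.mem_sup_right hfI)
    have h1 := (hQd.add ih2).sub h0
    rw [sub_zero] at h1
    refine h1.congr (fun t => ?_)
    have h2 := hf_inf_add_hf_sup hQh ih1 t
    have h3 : (hf (Q ⊓ s.inf id) t : ℝ) + hf (Q ⊔ s.inf id) t = hf Q t + hf (s.inf id) t := by
      exact_mod_cast h2
    rw [← add_div, ← sub_div]
    congr 1
    have h4 : (hf (Q ⊓ s.inf id) t : ℝ) = hf Q t + hf (s.inf id) t - hf (Q ⊔ s.inf id) t := by linarith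
    rw [h4]
    ring

/-- Hyperplane sections do not increase the degree. -/
theorem section_degree {σ : Type*} [Finite σ] {P : Ideal (MvPolynomial σ K)} (hP : P.IsPrime)
    (hPh : IsHomog P) {l : MvPolynomial σ K} (hl : l.IsHomogeneous 1) (hlP : l ∉ P) {k : ℕ} {d : ℝ}
    (hd : HasDeg P (k + 1) d) (s : Finset (Ideal (MvPolynomial σ K)))
    (deg : Ideal (MvPolynomial σ K) → ℝ)
    (hs : ∀ Q ∈ s, Q ∈ (P ⊔ Ideal.span {l}).minimalPrimes ∧ HasDeg Q k (deg Q)) :
    ∑ Q ∈ s, deg Q ≤ d := by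
  have hl0 : l ≠ 0 := fun h => hlP (by rw [h]; exact P.zero_mem)
  have hJh : IsHomog (P ⊔ Ideal.span {l}) := isHomog_sup_span hPh hl
  obtain ⟨h1, h2⟩ := hasDeg_inf s deg
    (fun Q hQ => ⟨(hs Q hQ).1.1.1, isHomog_minimalPrime hJh (hs Q hQ).1, (hs Q hQ).2⟩)
    (fun Q hQ Q' hQ' hle => le_antisymm hle ((hs Q hQ).1.2 (hs Q' hQ').1.1 hle))
  have h3 : (P ⊔ Ideal.span {l}) ≤ s.inf id := by
    apply Finset.le_inf
    intro Q hQ
    exact (hs Q hQ).1.1.2
  have h4 : ∀ t, (k.factorial : ℝ) * (hf (s.inf id) (t + 1) : ℝ) ≤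
      (k.factorial : ℝ) * (hf P (t + 1) : ℝ) - (k.factorial : ℝ) * (hf P t : ℝ) := by
    intro t
    have h5 := hf_exact hPh hl0 hl t
    rw [colonI_prime hP hlP] at h5
    have h6 := hf_antitone h3 (t + 1)
    have h7 : hf (s.inf id) (t + 1) + hf P t ≤ hf P (t + 1) := by omega
    have h8 : (hf (s.inf id) (t + 1) : ℝ) + hf P t ≤ hf P (t + 1) := by exact_mod_cast h7
    rw [← mul_sub]
    apply mul_le_mul_of_nonneg_left _ (by positivity)
    linarith
  have h5 : Tendsto (fun t : ℕ => ((k.factorial : ℝ) * (hf P t : ℝ)) / (t : ℝ) ^ (k + 1)) atTop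
      (𝓝 (d / (k + 1))) := by
    have := Filter.Tendsto.div_const hd ((k : ℝ) + 1)
    refine this.congr (fun t => ?_)
    rw [Nat.factorial_succ]
    have : (k : ℝ) + 1 ≠ 0 := by positivity
    push_cast
    field_simp
  have h6 := cesaro_le (a := fun t => (k.factorial : ℝ) * (hf (s.inf id) t : ℝ))
    (b := fun t => (k.factorial : ℝ) * (hf P t : ℝ)) h4 h2 h5
  have : (k : ℝ) + 1 ≠ 0 := by positivity
  rw [mul_div_cancel₀ _ this] at h6
  exact h6

/-- A prime of projective dimension 0 has at most one rational zero. -/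
theorem zero_dim_unique {N : ℕ} {P : Ideal (MvPolynomial (Fin N) K)} (hP : P.IsPrime)
    (hPh : IsHomog P) {y : Fin 1 → MvPolynomial (Fin N) K} (h : NN P 1 y)
    {p p' : Fin N → K} (hp0 : p ≠ 0) (hp : ∀ f ∈ P, eval p f = 0) (hp' : ∀ f ∈ P, eval p' f = 0)
    (i j : Fin N) : p j * p' i = p i * p' j := by
  obtain ⟨d, -, hd⟩ := exists_hasDeg hPh h
  -- every homogeneous polynomial vanishing at p is in P
  have key : ∀ (f : MvPolynomial (Fin N) K) (a : ℕ), f.IsHomogeneous a → eval p f = 0 → f ∈ P := by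
    intro f a hfa hfp
    by_contra hfP
    have h1 := tendsto_hf_sup_zero (J := P ⊔ Ideal.span {f}) hP hPh hd hfa hfP le_sup_left
      (Ideal.mem_sup_right (Ideal.mem_span_singleton_self f))
    simp only [Nat.factorial_zero, Nat.cast_one, one_mul, pow_zero, div_one] at h1
    have h2 : ∀ᶠ t : ℕ in atTop, (hf (P ⊔ Ideal.span {f}) t : ℝ) < 1 :=
      h1.eventually (gt_mem_nhds one_pos)
    obtain ⟨T, hT⟩ := eventually_atTop.1 h2
    have h3 : hf (P ⊔ Ideal.span {f}) (T + 1) = 0 := by
      have := hT (T + 1) (by omega)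
      have h4 : hf (P ⊔ Ideal.span {f}) (T + 1) < 1 := by exact_mod_cast this
      omega
    rw [hf_eq_zero_iff] at h3
    apply hp0
    funext m
    have h4 := h3 (X m ^ (T + 1)) (isHomogeneous_X_pow m _)
    obtain ⟨a, ha, b, hb, hab⟩ := Submodule.mem_sup.1 h4
    obtain ⟨u, rfl⟩ := Ideal.mem_span_singleton.1 hb
    have h5 := congrArg (eval p) hab
    rw [map_add, map_mul, hp a ha, hfp, zero_mul, zero_add, map_pow, eval_X] at h5
    exact (pow_eq_zero_iff (by omega)).1 h5.symm
  have h1 := key (C (p j) * X i - C (p i) * X j) 1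
    ((isHomogeneous_C_mul_X _ _).sub (isHomogeneous_C_mul_X _ _)) (by simp; ring)
  have h2 := hp' _ h1
  simp only [map_sub, map_mul, eval_C, eval_X] at h2
  linear_combination h2

lemma hs_one {N : ℕ} : hs (Fin N) K 1 = N := by
  unfold hs
  rw [homogeneousSubmodule_one_eq_span_X]
  have := finrank_span_eq_card (R := K) (b := (X : Fin N → MvPolynomial (Fin N) K))
    (MvPolynomial.linearIndependent_X _ _)
  rw [this]
  simp

/-- The number of independent linear forms in `P` is at most `N - r`. -/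
theorem linear_forms_bound {N : ℕ} {P : Ideal (MvPolynomial (Fin N) K)} {r : ℕ}
    {y : Fin r → MvPolynomial (Fin N) K} (h : NN P r y) {m : ℕ}
    (a : Fin m → Fin N → K) (ha : LinearIndependent K a)
    (haP : ∀ i, (∑ j, C (a i j) * X j : MvPolynomial (Fin N) K) ∈ P) : m + r ≤ N := by
  have h1 := hf_add_hfI P 1
  rw [hs_one] at h1
  have h2 := hs_le_hf h 1
  rw [hs_one] at h2
  have h3 : m ≤ hfI P 1 := by
    let L : (Fin N → K) →ₗ[K] MvPolynomial (Fin N) K :=
      { toFun := fun a => ∑ j, C (a j) * X j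
        map_add' := by
          intro a b
          simp only [Pi.add_apply, C_add, add_mul, Finset.sum_add_distrib]
        map_smul' := by
          intro c a
          simp only [Pi.smul_apply, smul_eq_mul, C_mul, RingHom.id_apply, Finset.smul_sum]
          apply Finset.sum_congr rfl
          intro j _
          rw [smul_eq_C_mul, mul_assoc] }
    have hLinj : Function.Injective L := by
      rw [injective_iff_map_eq_zero]
      intro a ha
      funext j
      have h4 : coeff (Finsupp.single j 1) (L a) = a j := by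
        show coeff (Finsupp.single j 1) (∑ i, C (a i) * X i) = a j
        rw [coeff_sum, Finset.sum_eq_single j]
        · rw [coeff_C_mul, coeff_X, if_pos rfl, mul_one]
        · intro b _ hb
          rw [coeff_C_mul, coeff_X, if_neg, mul_zero]
          intro h5
          exact hb (Finsupp.single_left_injective one_ne_zero h5)
        · intro h; exact absurd (Finset.mem_univ j) h
      rw [ha] at h4
      simpa using h4.symm
    have hli : LinearIndependent K (fun i => L (a i)) := ha.map' L (LinearMap.ker_eq_bot.2 hLinj)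
    unfold hfI
    have h5 : Module.finrank K ↥(Submodule.span K (Set.range (fun i => L (a i)))) = m := by
      rw [finrank_span_eq_card hli, Fintype.card_fin]
    rw [← h5]
    apply Submodule.finrank_mono
    rw [Submodule.span_le]
    rintro _ ⟨i, rfl⟩
    refine ⟨?_, haP i⟩
    show IsHomogeneous _ 1
    apply IsHomogeneous.sum
    intro j _
    exact isHomogeneous_C_mul_X _ _
  omega

end

end Pool.Agent.H33
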