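import Mathlib

set_option autoImplicit false

namespace Pool.Agent.H33

open Finset

/-- sup norm of an integer vector, as a natural number -/
def supN {N : ℕ} (a : Fin N → ℤ) : ℕ := Finset.univ.sup (fun i => (a i).natAbs)

lemma natAbs_le_supN {N : ℕ} (a : Fin N → ℤ) (i : Fin N) : (a i).natAbs ≤ supN a :=
  Finset.le_sup (f := fun i => (a i).natAbs) (Finset.mem_univ i)

lemma supN_le_iff {N : ℕ} (a : Fin N → ℤ) (n : ℕ) : supN a ≤ n ↔ ∀ i, (a i).natAbs ≤ n := by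
  simp [supN, Finset.sup_le_iff]

lemma supN_eq_zero {N : ℕ} (a : Fin N → ℤ) : supN a = 0 ↔ a = 0 := by
  constructor
  · intro h
    have h' : supN a ≤ 0 := by omega
    rw [supN_le_iff] at h'
    funext i
    have := h' i
    simpa using this
  · rintro rfl
    simp [supN]

lemma supN_pos {N : ℕ} {a : Fin N → ℤ} (h : a ≠ 0) : 1 ≤ supN a := by
  rcases Nat.eq_zero_or_pos (supN a) with h0 | h0
  · exact absurd ((supN_eq_zero a).1 h0) h
  · exact h0

lemma natAbs_dot_le {N : ℕ} (a p : Fin N → ℤ) : (a ⬝ᵥ p).natAbs ≤ N * (supN a * supN p) := by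
  unfold dotProduct
  calc (∑ i, a i * p i).natAbs ≤ ∑ i, (a i * p i).natAbs := by
        exact Int.natAbs_sum_le _ _
    _ ≤ ∑ i : Fin N, supN a * supN p := by
        apply Finset.sum_le_sum
        intro i _
        rw [Int.natAbs_mul]
        exact Nat.mul_le_mul (natAbs_le_supN a i) (natAbs_le_supN p i)
    _ = N * (supN a * supN p) := by simp

/-- the constant in the slicing lemma -/
def slC (N : ℕ) : ℕ := 2 * (3 ^ N * (2 * N + 1))

theorem slicing {N : ℕ} (W : Submodule ℤ (Fin N → ℤ))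
    (hsat : ∀ (j : ℤ) (a : Fin N → ℤ), j ≠ 0 → j • a ∈ W → a ∈ W)
    (B : ℕ) (hB : 1 ≤ B) (Q : Finset (Fin N → ℤ))
    (hQW : ∀ p ∈ Q, ∀ w ∈ W, w ⬝ᵥ p = 0)
    (hQB : ∀ p ∈ Q, supN p ≤ B)
    (hQex : ∀ p ∈ Q, ∃ a : Fin N → ℤ, a ∉ W ∧ a ⬝ᵥ p = 0) :
    ∃ (H : Finset (Fin N → ℤ)) (φ : (Fin N → ℤ) → (Fin N → ℤ)),
      (∀ p ∈ Q, φ p ∈ H ∧ (φ p) ⬝ᵥ p = 0 ∧
        (∀ a : Fin N → ℤ, a ∉ W → a ⬝ᵥ p = 0 → supN (φ p) ≤ supN a)) ∧
      (∀ h ∈ H, h ∉ W) ∧
      ∑ h ∈ H, (1 / (supN h : ℝ)) ≤ slC N * B := by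
  classical
  rcases Q.eq_empty_or_nonempty with rfl | hne
  · refine ⟨∅, id, by simp, by simp, ?_⟩
    simp
    positivity
  -- minimal vectors
  have hmin : ∀ p ∈ Q, ∃ a : Fin N → ℤ, a ∉ W ∧ a ⬝ᵥ p = 0 ∧
      ∀ b : Fin N → ℤ, b ∉ W → b ⬝ᵥ p = 0 → supN a ≤ supN b := by
    intro p hp
    have hex : ∃ n : ℕ, ∃ a : Fin N → ℤ, a ∉ W ∧ a ⬝ᵥ p = 0 ∧ supN a = n := by
      obtain ⟨a, ha, ha'⟩ := hQex p hp
      exact ⟨supN a, a, ha, ha', rfl⟩
    obtain ⟨a, ha, ha', han⟩ := Nat.find_spec hex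
    refine ⟨a, ha, ha', fun b hb hb' => ?_⟩
    rw [han]
    exact Nat.find_min' hex ⟨b, hb, hb', rfl⟩
  choose! α hαW hαp hαmin using hmin
  -- the setoid
  let r : (Fin N → ℤ) → (Fin N → ℤ) → Prop := fun a b => ∃ j j' : ℤ, j ≠ 0 ∧ j' ≠ 0 ∧ j • a - j' • b ∈ W
  have hr_refl : ∀ a, r a a := fun a => ⟨1, 1, one_ne_zero, one_ne_zero, by simp⟩
  have hr_symm : ∀ a b, r a b → r b a := by
    rintro a b ⟨j, j', hj, hj', h⟩
    refine ⟨j', j, hj', hj, ?_⟩
    have := W.neg_mem h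
    simpa using this
  have hr_trans : ∀ a b c, r a b → r b c → r a c := by
    rintro a b c ⟨j, j', hj, hj', h⟩ ⟨l, l', hl, hl', h'⟩
    refine ⟨l * j, j' * l', mul_ne_zero hl hj, mul_ne_zero hj' hl', ?_⟩
    have h1 := W.smul_mem l h
    have h2 := W.smul_mem j' h'
    have h3 := W.add_mem h1 h2
    have : l • (j • a - j' • b) + j' • (l • b - l' • c) = (l * j) • a - (j' * l') • c := by
      simp only [smul_sub, smul_smul]
      rw [mul_comm l j']
      abel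
    rwa [this] at h3
  let S : Setoid (Fin N → ℤ) := ⟨r, hr_refl, fun {a b} => hr_symm a b, fun {a b c} => hr_trans a b c⟩
  -- choose representative point for each class
  have hrep : ∀ c : Quotient S, (∃ p ∈ Q, (Quotient.mk S (α p)) = c) → ∃ p ∈ Q, (Quotient.mk S (α p)) = c :=
    fun c h => h
  choose! ρ hρQ hρ using hrep
  let φ : (Fin N → ℤ) → (Fin N → ℤ) := fun p => α (ρ (Quotient.mk S (α p)))
  have hφ : ∀ p ∈ Q, ∃ p' ∈ Q, φ p = α p' ∧ r (α p') (α p) := by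
    intro p hp
    have hex : ∃ p' ∈ Q, (Quotient.mk S (α p')) = Quotient.mk S (α p) := ⟨p, hp, rfl⟩
    refine ⟨ρ (Quotient.mk S (α p)), hρQ _ hex, rfl, ?_⟩
    exact Quotient.exact (hρ _ hex)
  have hdot : ∀ p ∈ Q, ∀ a b : Fin N → ℤ, r a b → b ⬝ᵥ p = 0 → a ⬝ᵥ p = 0 := by
    rintro p hp a b ⟨j, j', hj, hj', h⟩ hb
    have h1 := hQW p hp _ h
    rw [sub_dotProduct, smul_dotProduct, smul_dotProduct, hb, smul_zero, sub_zero, smul_eq_mul] at h1
    exact (mul_eq_zero.1 h1).resolve_left hj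
  have hφ2 : ∀ p ∈ Q, (φ p) ⬝ᵥ p = 0 ∧
      (∀ a : Fin N → ℤ, a ∉ W → a ⬝ᵥ p = 0 → supN (φ p) ≤ supN a) := by
    intro p hp
    obtain ⟨p', hp', h1, h2⟩ := hφ p hp
    refine ⟨?_, ?_⟩
    · rw [h1]; exact hdot p hp _ _ h2 (hαp p hp)
    · intro a ha ha'
      rw [h1]
      calc supN (α p') ≤ supN (α p) := by
            apply hαmin p' hp' _ (hαW p hp)
            exact hdot p' hp' _ _ (hr_symm _ _ h2) (hαp p' hp')
        _ ≤ supN a := hαmin p hp a ha ha'
  have hφinj : ∀ p ∈ Q, ∀ q ∈ Q, r (φ p) (φ q) → φ p = φ q := by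
    intro p hp q hq h
    have hexp : ∃ p' ∈ Q, (Quotient.mk S (α p')) = Quotient.mk S (α p) := ⟨p, hp, rfl⟩
    have hexq : ∃ p' ∈ Q, (Quotient.mk S (α p')) = Quotient.mk S (α q) := ⟨q, hq, rfl⟩
    have e : Quotient.mk S (φ p) = Quotient.mk S (φ q) := Quotient.sound h
    have e1 : Quotient.mk S (φ p) = Quotient.mk S (α p) := hρ _ hexp
    have e2 : Quotient.mk S (φ q) = Quotient.mk S (α q) := hρ _ hexq
    have e3 : Quotient.mk S (α p) = Quotient.mk S (α q) := by rw [← e1, e, e2]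
    show α (ρ (Quotient.mk S (α p))) = α (ρ (Quotient.mk S (α q)))
    rw [e3]
  -- the point with the largest minimum
  obtain ⟨p0, hp0, hp0max⟩ := Finset.exists_max_image Q (fun p => supN (φ p)) hne
  set R : ℕ := supN (φ p0) with hR
  have hφW : ∀ p ∈ Q, φ p ∉ W := by
    intro p hp
    obtain ⟨p', hp', h1, h2⟩ := hφ p hp
    rw [h1]; exact hαW p' hp'
  have hRpos : 1 ≤ R := supN_pos (fun h => hφW p0 hp0 (by rw [h]; exact W.zero_mem))
  let H : Finset (Fin N → ℤ) := Q.image φ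
  refine ⟨H, φ, fun p hp => ⟨Finset.mem_image_of_mem φ hp, hφ2 p hp⟩, ?_, ?_⟩
  · intro h hh
    obtain ⟨p, hp, rfl⟩ := Finset.mem_image.1 hh
    exact hφW p hp
  -- the counting
  have hH1 : ∀ h ∈ H, 1 ≤ supN h ∧ supN h ≤ R ∧ h ∉ W := by
    intro h hh
    obtain ⟨p, hp, rfl⟩ := Finset.mem_image.1 hh
    refine ⟨supN_pos (fun h => hφW p hp (by rw [h]; exact W.zero_mem)), hp0max p hp, hφW p hp⟩
  let T : Finset ((_ : (Fin N → ℤ)) × ℕ) := H.sigma (fun h => Finset.Icc 1 (R / supN h))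
  let D : Finset ((Fin N → ℤ) × ℤ) :=
    (Fintype.piFinset fun _ : Fin N => Finset.Icc (-1 : ℤ) 1) ×ˢ
      Finset.Icc (-((N * (R * B) : ℕ) : ℤ)) ((N * (R * B) : ℕ) : ℤ)
  have hcardD : D.card = 3 ^ N * (2 * (N * (R * B)) + 1) := by
    simp only [D, Finset.card_product, Fintype.card_piFinset, Int.card_Icc]
    simp
    have : ((N : ℤ) * (R * B) + 1 + N * (R * B)).toNat = ((2 * (N * (R * B)) + 1 : ℕ) : ℤ).toNat := by
      congr 1
      push_cast; ring
    rw [this, Int.toNat_natCast]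
  let F : ((_ : (Fin N → ℤ)) × ℕ) → (Fin N → ℤ) × ℤ := fun x =>
    (fun i => ((x.2 : ℤ) * x.1 i) / (R : ℤ), (x.2 : ℤ) * (x.1 ⬝ᵥ p0))
  have hTbound : ∀ x ∈ T, ∀ i, (((x.2 : ℤ) * x.1 i)).natAbs ≤ R := by
    intro x hx i
    obtain ⟨hx1, hx2⟩ := Finset.mem_sigma.1 hx
    rw [Finset.mem_Icc] at hx2
    rw [Int.natAbs_mul, Int.natAbs_natCast]
    calc x.2 * (x.1 i).natAbs ≤ (R / supN x.1) * supN x.1 := Nat.mul_le_mul hx2.2 (natAbs_le_supN _ _)
      _ ≤ R := Nat.div_mul_le_self _ _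
  have hmaps : ∀ x ∈ T, F x ∈ D := by
    intro x hx
    have hb := hTbound x hx
    have hRz : (0 : ℤ) < (R : ℤ) := by exact_mod_cast hRpos
    simp only [F, D, Finset.mem_product, Fintype.mem_piFinset, Finset.mem_Icc]
    refine ⟨fun i => ?_, ?_⟩
    · have hbi := hb i
      have h1 : -(R : ℤ) ≤ (x.2 : ℤ) * x.1 i ∧ (x.2 : ℤ) * x.1 i ≤ R := by
        constructor <;> omega
      constructor
      · rw [Int.le_ediv_iff_mul_le hRz]; linarith [h1.1]
      · apply Int.le_of_lt_add_one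
        rw [Int.ediv_lt_iff_lt_mul hRz]; linarith [h1.2]
    · have hd : ((x.2 : ℤ) * (x.1 ⬝ᵥ p0)) = ((x.2 : ℤ) • x.1) ⬝ᵥ p0 := by
        rw [smul_dotProduct, smul_eq_mul]
      have h2 : (((x.2 : ℤ) • x.1) ⬝ᵥ p0).natAbs ≤ N * (R * B) := by
        refine (natAbs_dot_le _ _).trans ?_
        apply Nat.mul_le_mul_left
        apply Nat.mul_le_mul
        · rw [supN_le_iff]
          intro i
          simpa using hb i
        · exact hQB p0 hp0
      rw [hd]
      constructor <;> omega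
  have hinj : Set.InjOn F (T : Set ((_ : (Fin N → ℤ)) × ℕ)) := by
    intro x hx y hy hxy
    rw [Finset.mem_coe] at hx hy
    obtain ⟨hx1, hx2⟩ := Finset.mem_sigma.1 hx
    obtain ⟨hy1, hy2⟩ := Finset.mem_sigma.1 hy
    rw [Finset.mem_Icc] at hx2 hy2
    simp only [F, Prod.mk.injEq] at hxy
    obtain ⟨hcell, hval⟩ := hxy
    have hRz : (0 : ℤ) < (R : ℤ) := by exact_mod_cast hRpos
    have hW : (x.2 : ℤ) • x.1 - (y.2 : ℤ) • y.1 ∈ W := by
      by_contra hnW
      have hdot0 : ((x.2 : ℤ) • x.1 - (y.2 : ℤ) • y.1) ⬝ᵥ p0 = 0 := by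
        rw [sub_dotProduct, smul_dotProduct, smul_dotProduct, smul_eq_mul, smul_eq_mul, hval, sub_self]
      have h1 := (hφ2 p0 hp0).2 _ hnW hdot0
      have h2 : supN ((x.2 : ℤ) • x.1 - (y.2 : ℤ) • y.1) ≤ R - 1 := by
        rw [supN_le_iff]
        intro i
        have hc := congrFun hcell i
        simp only [Pi.sub_apply, Pi.smul_apply, smul_eq_mul]
        have ex := Int.emod_add_mul_ediv ((x.2 : ℤ) * x.1 i) R
        have ey := Int.emod_add_mul_ediv ((y.2 : ℤ) * y.1 i) R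
        have bx1 := Int.emod_nonneg ((x.2 : ℤ) * x.1 i) hRz.ne'
        have bx2 := Int.emod_lt_of_pos ((x.2 : ℤ) * x.1 i) hRz
        have by1 := Int.emod_nonneg ((y.2 : ℤ) * y.1 i) hRz.ne'
        have by2 := Int.emod_lt_of_pos ((y.2 : ℤ) * y.1 i) hRz
        rw [hc] at ex
        omega
      omega
    have hxr : r x.1 y.1 := ⟨x.2, y.2, by omega, by omega, hW⟩
    obtain ⟨p, hp, hpx⟩ := Finset.mem_image.1 hx1
    obtain ⟨q, hq, hqy⟩ := Finset.mem_image.1 hy1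
    have h1 : x.1 = y.1 := by
      rw [← hpx, ← hqy] at hxr ⊢
      exact hφinj p hp q hq hxr
    have h2 : x.2 = y.2 := by
      by_contra hne2
      rw [h1, ← sub_smul] at hW
      apply (hH1 y.1 hy1).2.2
      apply hsat _ _ _ hW
      intro h0
      apply hne2
      have : (x.2 : ℤ) = y.2 := by linarith
      exact_mod_cast this
    exact Sigma.ext h1 (by rw [h2])
  have hcard : T.card ≤ D.card := Finset.card_le_card_of_injOn F hmaps hinj
  have hTcard : T.card = ∑ h ∈ H, (R / supN h) := by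
    simp only [T, Finset.card_sigma, Nat.card_Icc]
    simp
  have hsum : ∑ h ∈ H, ((R : ℝ) / (2 * (supN h : ℝ))) ≤ (T.card : ℝ) := by
    rw [hTcard]
    push_cast
    apply Finset.sum_le_sum
    intro h hh
    obtain ⟨h1, h2, h3⟩ := hH1 h hh
    have h1' : (0 : ℝ) < supN h := by exact_mod_cast h1
    rw [div_le_iff₀ (by positivity)]
    have h4 : R < supN h * (R / supN h) + supN h := by
      have := Nat.lt_mul_div_succ R (show 0 < supN h by omega)
      rw [mul_add, mul_one] at this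
      exact this
    have h5 : 1 ≤ R / supN h := (Nat.one_le_div_iff (by omega)).2 h2
    have h6 : R ≤ (R / supN h) * (2 * supN h) := by nlinarith
    exact_mod_cast h6
  have hRr : (0 : ℝ) < R := by exact_mod_cast hRpos
  have hBr : (1 : ℝ) ≤ B := by exact_mod_cast hB
  have hfin : ∑ h ∈ H, (1 / (supN h : ℝ)) = (2 / R) * ∑ h ∈ H, ((R : ℝ) / (2 * (supN h : ℝ))) := by
    rw [Finset.mul_sum]
    apply Finset.sum_congr rfl
    intro h hh
    have h1' : (0 : ℝ) < supN h := by exact_mod_cast (hH1 h hh).1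
    field_simp
  rw [hfin]
  have hTD : (T.card : ℝ) ≤ 3 ^ N * (2 * (N * (R * B)) + 1) := by
    have : (T.card : ℝ) ≤ (D.card : ℝ) := by exact_mod_cast hcard
    rw [hcardD] at this
    push_cast at this
    exact this
  have hR1 : (1 : ℝ) ≤ R := by exact_mod_cast hRpos
  calc (2 / R) * ∑ h ∈ H, ((R : ℝ) / (2 * (supN h : ℝ))) ≤ (2 / R) * (3 ^ N * (2 * (N * (R * B)) + 1)) := by
        apply mul_le_mul_of_nonneg_left (hsum.trans hTD) (by positivity)
    _ ≤ (2 / R) * (3 ^ N * (2 * (N * (R * B)) + R * B)) := by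
        apply mul_le_mul_of_nonneg_left _ (by positivity)
        apply mul_le_mul_of_nonneg_left _ (by positivity)
        nlinarith
    _ = slC N * B := by
        unfold slC
        push_cast
        field_simp

end Pool.Agent.H33
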