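import Pool.Agent.H33.DualCount
import Pool.Agent.H33.Slicing

set_option autoImplicit false

namespace Pool.Agent.H33

open Matrix

noncomputable section

/-- the square block -/
def MI {s m N : ℕ} (M : Fin s → Fin N → ℤ) (ε : Fin s ⊕ Fin m ≃ Fin N) : Matrix (Fin s) (Fin s) ℤ :=
  Matrix.of (fun i j => M i (ε (Sum.inl j)))

/-- the complementary block -/
def MJ {s m N : ℕ} (M : Fin s → Fin N → ℤ) (ε : Fin s ⊕ Fin m ≃ Fin N) : Matrix (Fin s) (Fin m) ℤ :=
  Matrix.of (fun i j => M i (ε (Sum.inr j)))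

lemma exists_cols {s m N : ℕ} (hN : s + m = N) (M : Fin s → Fin N → ℤ)
    (hM : LinearIndependent ℤ M) : ∃ ε : Fin s ⊕ Fin m ≃ Fin N, (MI M ε).det ≠ 0 := by
  classical
  -- rational matrix
  let A : Matrix (Fin s) (Fin N) ℚ := Matrix.of (fun i j => ((M i j : ℤ) : ℚ))
  have hrows : LinearIndependent ℚ A.row := by
    have h6 : LinearIndependent ℚ (fun i => algebraMap ℤ ℚ ∘ M i) :=
      linearIndependent_algebraMap_comp_iff.2 hM
    exact h6
  have hrank : A.rank = s := by
    have := LinearIndependent.rank_matrix hrows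
    simpa using this
  have hspan : Module.finrank ℚ (Submodule.span ℚ (Set.range A.col)) = s := by
    rw [← Matrix.rank_eq_finrank_span_cols, hrank]
  obtain ⟨κ, a, ha1, ha2, ha3⟩ := exists_linearIndependent' ℚ A.col
  have hκ : Finite κ := Finite.of_injective a ha1
  have hκf : Fintype κ := Fintype.ofFinite κ
  have hcard : Fintype.card κ = s := by
    rw [← hspan, ← ha2, finrank_span_eq_card ha3]
  let e : Fin s ≃ κ := (Fintype.equivFinOfCardEq hcard).symm
  let c : Fin s → Fin N := a ∘ e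
  have hc : Function.Injective c := ha1.comp e.injective
  have hcli : LinearIndependent ℚ (fun j => A.col (c j)) := ha3.comp e e.injective
  -- complement
  have hcardc : Fintype.card {x : Fin N // x ∉ Set.range c} = m := by
    rw [Fintype.card_subtype_compl]
    have : Fintype.card {x : Fin N // x ∈ Set.range c} = s := by
      have := Fintype.card_congr (Equiv.ofInjective c hc)
      rw [Fintype.card_fin] at this
      convert this.symm
    rw [this, Fintype.card_fin]
    omega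
  let e2 : Fin m ≃ {x : Fin N // x ∉ Set.range c} := (Fintype.equivFinOfCardEq hcardc).symm
  let ε : Fin s ⊕ Fin m ≃ Fin N :=
    (Equiv.sumCongr (Equiv.ofInjective c hc) e2).trans (Equiv.sumCompl (fun x => x ∈ Set.range c))
  refine ⟨ε, ?_⟩
  have hεc : ∀ j, ε (Sum.inl j) = c j := by
    intro j
    simp [ε]
  have h1 : IsUnit (((MI M ε).map (Int.castRingHom ℚ))) := by
    rw [← Matrix.linearIndependent_cols_iff_isUnit]
    have : ((MI M ε).map (Int.castRingHom ℚ)).col = fun j => A.col (c j) := by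
      funext j i
      simp [MI, A, Matrix.col, hεc]
    rw [this]
    exact hcli
  rw [Matrix.isUnit_iff_isUnit_det, ← RingHom.mapMatrix_apply, ← RingHom.map_det] at h1
  intro h0
  rw [h0, map_zero] at h1
  exact not_isUnit_zero h1

/-- the lattice of admissible `p_J` -/
def Lam {s m N : ℕ} (M : Fin s → Fin N → ℤ) (ε : Fin s ⊕ Fin m ≃ Fin N) :
    AddSubgroup (Fin m → ℤ) :=
  ((MI M ε).mulVecLin.toAddMonoidHom.range).comap (MJ M ε).mulVecLin.toAddMonoidHom

/-- the rational matrix expressing `p_I` through `p_J` -/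
def Ymat {s m N : ℕ} (M : Fin s → Fin N → ℤ) (ε : Fin s ⊕ Fin m ≃ Fin N) (i : Fin s) (j : Fin m) :
    ℚ := -((((MI M ε).updateCol i (fun i' => MJ M ε i' j)).det : ℤ) : ℚ) / (((MI M ε).det : ℤ) : ℚ)

lemma mem_Lam {s m N : ℕ} {M : Fin s → Fin N → ℤ} {ε : Fin s ⊕ Fin m ≃ Fin N} {x : Fin m → ℤ} :
    x ∈ Lam M ε ↔ ∃ z : Fin s → ℤ, (MI M ε) *ᵥ z = (MJ M ε) *ᵥ x := Iff.rfl

lemma Ymat_bound {s m N : ℕ} {M : Fin s → Fin N → ℤ} {ε : Fin s ⊕ Fin m ≃ Fin N}
    (h0 : (MI M ε).det ≠ 0)
    (hmax : ∀ ε' : Fin s ⊕ Fin m ≃ Fin N, |(MI M ε').det| ≤ |(MI M ε).det|) (i : Fin s) (j : Fin m) :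
    |Ymat M ε i j| ≤ 1 := by
  classical
  unfold Ymat
  rw [abs_div, abs_neg]
  have hpos : (0 : ℚ) < |(((MI M ε).det : ℤ) : ℚ)| := by
    rw [abs_pos]; exact_mod_cast h0
  rw [div_le_one hpos]
  have h1 := hmax ((Equiv.swap (Sum.inl i) (Sum.inr j)).trans ε)
  have h2 : MI M ((Equiv.swap (Sum.inl i) (Sum.inr j)).trans ε) =
      (MI M ε).updateCol i (fun i' => MJ M ε i' j) := by
    ext a c
    rw [Matrix.updateCol_apply]
    simp only [MI, MJ, Matrix.of_apply, Equiv.trans_apply]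
    by_cases hc : c = i
    · rw [if_pos hc, hc, Equiv.swap_apply_left]
    · rw [if_neg hc, Equiv.swap_apply_of_ne_of_ne]
      · intro h; exact hc (Sum.inl_injective h)
      · intro h; exact Sum.inl_ne_inr h
  rw [h2] at h1
  exact_mod_cast h1

lemma Ymat_eq {s m N : ℕ} {M : Fin s → Fin N → ℤ} {ε : Fin s ⊕ Fin m ≃ Fin N}
    (h0 : (MI M ε).det ≠ 0) {x : Fin m → ℤ} {z : Fin s → ℤ}
    (h : (MI M ε) *ᵥ z = (MJ M ε) *ᵥ x) (i : Fin s) :
    ∑ j, Ymat M ε i j * (x j : ℚ) = -(z i : ℚ) := by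
  classical
  have h1 : (MI M ε).cramer ((MI M ε) *ᵥ z) = (MI M ε).det • z := by
    rw [Matrix.cramer_eq_adjugate_mulVec, Matrix.mulVec_mulVec, Matrix.adjugate_mul,
      Matrix.smul_mulVec, Matrix.one_mulVec]
  have h2 : (MI M ε).cramer ((MJ M ε) *ᵥ x) i =
      ∑ j, ((MI M ε).updateCol i (fun i' => MJ M ε i' j)).det * x j := by
    have h3 : (MJ M ε) *ᵥ x = ∑ j, x j • (fun i' => MJ M ε i' j) := by
      funext i'
      simp only [Matrix.mulVec, dotProduct, Finset.sum_apply, Pi.smul_apply, smul_eq_mul]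
      apply Finset.sum_congr rfl
      intro j _
      ring
    rw [h3, map_sum, Finset.sum_apply]
    apply Finset.sum_congr rfl
    intro j _
    rw [map_smul, Pi.smul_apply, smul_eq_mul, Matrix.cramer_apply, mul_comm]
  rw [h] at h1
  rw [h1] at h2
  have h3 : (((MI M ε).det : ℤ) : ℚ) ≠ 0 := by exact_mod_cast h0
  unfold Ymat
  have h4 : ∑ j, -((((MI M ε).updateCol i (fun i' => MJ M ε i' j)).det : ℤ) : ℚ) /
      (((MI M ε).det : ℤ) : ℚ) * (x j : ℚ) =
      -((∑ j, ((MI M ε).updateCol i (fun i' => MJ M ε i' j)).det * x j : ℤ) : ℚ) /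
      (((MI M ε).det : ℤ) : ℚ) := by
    push_cast
    rw [← Finset.sum_neg_distrib, Finset.sum_div]
    apply Finset.sum_congr rfl
    intro j _
    ring
  rw [h4, ← h2]
  simp only [Pi.smul_apply, smul_eq_mul]
  rw [Int.cast_mul]
  field_simp

lemma Lam_index {s m N : ℕ} {M : Fin s → Fin N → ℤ} {ε : Fin s ⊕ Fin m ≃ Fin N}
    (h0 : (MI M ε).det ≠ 0) :
    (Lam M ε).index ≠ 0 ∧ (Lam M ε).index ≤ ((MI M ε).det).natAbs := by
  classical
  have hinj : Function.Injective (MI M ε).mulVecLin := by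
    intro x y hxy
    have h1 : (MI M ε) *ᵥ x = (MI M ε) *ᵥ y := hxy
    have h2 := congrArg (fun v => (MI M ε).adjugate *ᵥ v) h1
    simp only [Matrix.mulVec_mulVec, Matrix.adjugate_mul, Matrix.smul_mulVec,
      Matrix.one_mulVec] at h2
    exact smul_right_injective _ h0 h2
  set R : AddSubgroup (Fin s → ℤ) := (MI M ε).mulVecLin.toAddMonoidHom.range with hR
  have hidx : R.index = ((MI M ε).det).natAbs := by
    let bN : Module.Basis (Fin s) ℤ (LinearMap.range (MI M ε).mulVecLin) :=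
      (Pi.basisFun ℤ (Fin s)).map (LinearEquiv.ofInjective (MI M ε).mulVecLin hinj)
    have h1 := Submodule.natAbs_det_basis_change (Pi.basisFun ℤ (Fin s))
      (LinearMap.range (MI M ε).mulVecLin) bN
    have h2 : ((Pi.basisFun ℤ (Fin s)).det ((↑) ∘ bN)) = (MI M ε).det := by
      rw [Pi.basisFun_det_apply, ← Matrix.det_transpose]
      congr 1
      ext i j
      simp [bN, Matrix.transpose_apply, Matrix.of_apply]
    rw [h2] at h1
    rw [h1]
    rfl
  have hRne : R.index ≠ 0 := by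
    rw [hidx]
    exact Int.natAbs_ne_zero.2 h0
  unfold Lam
  rw [AddSubgroup.index_comap, ← hidx]
  have hRfi : R.FiniteIndex := ⟨hRne⟩
  refine ⟨?_, ?_⟩
  · have := AddSubgroup.relIndex_dvd_index_of_normal R (MJ M ε).mulVecLin.toAddMonoidHom.range
    intro h
    rw [hR] at this
    rw [h] at this
    rw [← hR] at this
    exact hRne (Nat.eq_zero_of_zero_dvd this)
  · have := AddSubgroup.relIndex_dvd_index_of_normal R (MJ M ε).mulVecLin.toAddMonoidHom.range
    exact Nat.le_of_dvd (Nat.pos_of_ne_zero hRne) this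

lemma det_le_prod {s m N : ℕ} (M : Fin s → Fin N → ℤ) (ε : Fin s ⊕ Fin m ≃ Fin N) :
    ((MI M ε).det).natAbs ≤ s.factorial * ∏ i, supN (M i) := by
  classical
  rw [Matrix.det_apply]
  calc (∑ σ : Equiv.Perm (Fin s), Equiv.Perm.sign σ • ∏ i, MI M ε (σ i) i).natAbs
      ≤ ∑ σ : Equiv.Perm (Fin s), (Equiv.Perm.sign σ • ∏ i, MI M ε (σ i) i).natAbs :=
        Int.natAbs_sum_le _ _
    _ ≤ ∑ _σ : Equiv.Perm (Fin s), ∏ i, supN (M i) := by
        apply Finset.sum_le_sum
        intro σ _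
        have h1 : (Equiv.Perm.sign σ • ∏ i, MI M ε (σ i) i).natAbs = (∏ i, MI M ε (σ i) i).natAbs := by
          rcases Int.units_eq_one_or (Equiv.Perm.sign σ) with h | h
          · rw [h, one_smul]
          · rw [h, Units.neg_smul, one_smul, Int.natAbs_neg]
        have h2 : (∏ i, MI M ε (σ i) i).natAbs = ∏ i, (MI M ε (σ i) i).natAbs :=
          map_prod Int.natAbsHom _ _
        rw [h1, h2]
        rw [← Equiv.prod_comp σ (fun i => supN (M i))]
        apply Finset.prod_le_prod' 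
        intro i _
        exact natAbs_le_supN (M (σ i)) _
    _ = s.factorial * ∏ i, supN (M i) := by
        rw [Finset.sum_const, Finset.card_univ, Fintype.card_perm, Fintype.card_fin, smul_eq_mul]

end

end Pool.Agent.H33
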