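import Mathlib

set_option autoImplicit false

namespace Pool.Agent.H33

noncomputable section

/-- subgroups of `ℤ^m` of nonzero index at most `T` -/
def subSet (m T : ℕ) : Set (AddSubgroup (Fin m → ℤ)) := {Λ | Λ.index ≠ 0 ∧ Λ.index ≤ T}

/-- `x ↦ (0, x)` -/
def consZ (m : ℕ) : (Fin m → ℤ) →+ (Fin (m + 1) → ℤ) where
  toFun x := Fin.cons 0 x
  map_zero' := by
    funext i
    refine Fin.cases ?_ ?_ i <;> simp
  map_add' := by
    intro x y
    funext i
    refine Fin.cases ?_ ?_ i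
    · simp
    · intro i; simp

/-- projection to the 0-th coordinate -/
def headZ (m : ℕ) : (Fin (m + 1) → ℤ) →+ ℤ := Pi.evalAddMonoidHom (fun _ => ℤ) 0

lemma consZ_range (m : ℕ) : (consZ m).range = (headZ m).ker := by
  ext x
  rw [AddMonoidHom.mem_range, AddMonoidHom.mem_ker]
  constructor
  · rintro ⟨y, rfl⟩
    show (Fin.cons 0 y : Fin (m + 1) → ℤ) 0 = 0
    simp
  · intro h
    refine ⟨Fin.tail x, ?_⟩
    have h' : x 0 = 0 := h
    show Fin.cons 0 (Fin.tail x) = x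
    rw [← h', Fin.cons_self_tail]

lemma headZ_surj (m : ℕ) : Function.Surjective (headZ m) := by
  intro z
  refine ⟨Fin.cons z 0, ?_⟩
  show (Fin.cons z 0 : Fin (m + 1) → ℤ) 0 = z
  simp

lemma index_formula {m : ℕ} (Λ : AddSubgroup (Fin (m + 1) → ℤ)) :
    Λ.index = (Λ.map (headZ m)).index * (Λ.comap (consZ m)).index := by
  rw [AddSubgroup.index_comap, consZ_range, AddSubgroup.index_map,
    AddMonoidHom.range_eq_top.2 (headZ_surj m), AddSubgroup.index_top, mul_one]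
  have h1 : Λ.relIndex (Λ ⊔ (headZ m).ker) = Λ.relIndex (headZ m).ker :=
    AddSubgroup.relIndex_sup_left (headZ m).ker Λ
  rw [← h1, mul_comm]
  exact (AddSubgroup.relIndex_mul_index le_sup_left).symm

lemma dvd_of_mem {H : AddSubgroup ℤ} {x : ℤ} (hx : x ∈ H) : (H.index : ℤ) ∣ x := by
  obtain ⟨a, ha⟩ := Int.subgroup_cyclic H
  rw [← AddSubgroup.zmultiples_eq_closure] at ha
  subst ha
  rw [Int.index_zmultiples]
  rw [AddSubgroup.mem_zmultiples_iff] at hx
  obtain ⟨k, hk⟩ := hx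
  rw [Int.natAbs_dvd, ← hk]
  exact ⟨k, by rw [smul_eq_mul, mul_comm]⟩

lemma exists_lift {m : ℕ} (Λ : AddSubgroup (Fin (m + 1) → ℤ)) (h : (Λ.map (headZ m)).index ≠ 0) :
    ∃ v : Fin m → ℤ, (Fin.cons ((Λ.map (headZ m)).index : ℤ) v : Fin (m + 1) → ℤ) ∈ Λ := by
  have : (Λ.map (headZ m)).FiniteIndex := ⟨h⟩
  have h1 : (Λ.map (headZ m)).index • (1 : ℤ) ∈ Λ.map (headZ m) := AddSubgroup.nsmul_index_mem _ _
  obtain ⟨x, hx, hx2⟩ := h1
  refine ⟨Fin.tail x, ?_⟩
  have h2 : x 0 = ((Λ.map (headZ m)).index : ℤ) := by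
    have : x 0 = (Λ.map (headZ m)).index • (1 : ℤ) := hx2
    simpa using this
  rw [← h2, Fin.cons_self_tail]
  exact hx

lemma le_of_data {m : ℕ} {Λ Λ' : AddSubgroup (Fin (m + 1) → ℤ)} {v v' : Fin m → ℤ}
    (h1 : Λ.comap (consZ m) = Λ'.comap (consZ m))
    (h2 : (Λ.map (headZ m)).index = (Λ'.map (headZ m)).index)
    (hv : (Fin.cons ((Λ.map (headZ m)).index : ℤ) v : Fin (m + 1) → ℤ) ∈ Λ)
    (hv' : (Fin.cons ((Λ'.map (headZ m)).index : ℤ) v' : Fin (m + 1) → ℤ) ∈ Λ')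
    (h3 : v - v' ∈ Λ.comap (consZ m)) : Λ ≤ Λ' := by
  intro x hx
  obtain ⟨c, hc⟩ := dvd_of_mem (H := Λ.map (headZ m)) ⟨x, hx, rfl⟩
  have hc' : x 0 = ((Λ.map (headZ m)).index : ℤ) * c := hc
  -- cons d v ∈ Λ'
  have h4 : (Fin.cons ((Λ.map (headZ m)).index : ℤ) v : Fin (m + 1) → ℤ) ∈ Λ' := by
    have h5 : consZ m (v - v') ∈ Λ' := by
      rw [h1] at h3; exact h3
    have h6 := Λ'.add_mem hv' h5
    have h7 : (Fin.cons ((Λ'.map (headZ m)).index : ℤ) v' : Fin (m + 1) → ℤ) + consZ m (v - v') =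
        (Fin.cons ((Λ.map (headZ m)).index : ℤ) v : Fin (m + 1) → ℤ) := by
      rw [h2]
      funext i
      refine Fin.cases ?_ ?_ i
      · show _ + (Fin.cons 0 (v - v') : Fin (m + 1) → ℤ) 0 = _
        simp
      · intro i
        show _ + (Fin.cons 0 (v - v') : Fin (m + 1) → ℤ) i.succ = _
        simp
    rwa [h7] at h6
  have h8 : x - c • (Fin.cons ((Λ.map (headZ m)).index : ℤ) v : Fin (m + 1) → ℤ) ∈ Λ :=
    Λ.sub_mem hx (Λ.zsmul_mem hv c)
  have h9 : x - c • (Fin.cons ((Λ.map (headZ m)).index : ℤ) v : Fin (m + 1) → ℤ) =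
      consZ m (Fin.tail x - c • v) := by
    funext i
    refine Fin.cases ?_ ?_ i
    · show x 0 - c * _ = (Fin.cons 0 (Fin.tail x - c • v) : Fin (m + 1) → ℤ) 0
      simp only [Fin.cons_zero]
      rw [hc']; ring
    · intro i
      show x i.succ - c * _ = (Fin.cons 0 (Fin.tail x - c • v) : Fin (m + 1) → ℤ) i.succ
      simp only [Fin.cons_succ]
      rfl
  rw [h9] at h8
  have h10 : Fin.tail x - c • v ∈ Λ'.comap (consZ m) := by rw [← h1]; exact h8
  have h11 : consZ m (Fin.tail x - c • v) ∈ Λ' := h10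
  rw [← h9] at h11
  have h12 := Λ'.add_mem h11 (Λ'.zsmul_mem h4 c)
  simpa using h12

theorem sub_count (m T : ℕ) : (subSet m T).Finite ∧ (subSet m T).ncard ≤ T ^ m := by
  classical
  induction m with
  | zero =>
    have hsub : Subsingleton (AddSubgroup (Fin 0 → ℤ)) := by
      constructor
      intro a b
      ext x
      have : x = 0 := Subsingleton.elim _ _
      rw [this]
      exact iff_of_true a.zero_mem b.zero_mem
    refine ⟨Set.toFinite _, ?_⟩
    rw [pow_zero]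
    exact Set.ncard_le_one_of_subsingleton _
  | succ m ih =>
    obtain ⟨ihf, ihc⟩ := ih
    -- the encoding
    have henc : ∀ Λ₁ : AddSubgroup (Fin m → ℤ), ∃ c : (Fin m → ℤ) → ℕ, Λ₁.index ≠ 0 →
        (∀ v, c v < Λ₁.index) ∧ (∀ v w, c v = c w → v - w ∈ Λ₁) := by
      intro Λ₁
      by_cases h : Λ₁.index = 0
      · exact ⟨fun _ => 0, fun h' => absurd h h'⟩
      · have hfi : Λ₁.FiniteIndex := ⟨h⟩
        have : Finite ((Fin m → ℤ) ⧸ Λ₁) := AddSubgroup.finite_quotient_of_finiteIndex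
        let e := Finite.equivFin ((Fin m → ℤ) ⧸ Λ₁)
        refine ⟨fun v => (e (QuotientAddGroup.mk v)).val, fun _ => ⟨fun v => ?_, fun v w hvw => ?_⟩⟩
        · exact (e (QuotientAddGroup.mk v)).2
        · have h1 : e (QuotientAddGroup.mk v) = e (QuotientAddGroup.mk w) := Fin.ext hvw
          have h2 := e.injective h1
          rw [QuotientAddGroup.eq] at h2
          have h3 := Λ₁.neg_mem h2
          simpa [sub_eq_add_neg, add_comm] using h3
    choose c hc using henc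
    have hv : ∀ Λ : AddSubgroup (Fin (m + 1) → ℤ), ∃ v : Fin m → ℤ, (Λ.map (headZ m)).index ≠ 0 →
        (Fin.cons ((Λ.map (headZ m)).index : ℤ) v : Fin (m + 1) → ℤ) ∈ Λ := by
      intro Λ
      by_cases h : (Λ.map (headZ m)).index = 0
      · exact ⟨0, fun h' => absurd h h'⟩
      · obtain ⟨v, hv⟩ := exists_lift Λ h
        exact ⟨v, fun _ => hv⟩
    choose v hv using hv
    let F : AddSubgroup (Fin (m + 1) → ℤ) → AddSubgroup (Fin m → ℤ) × ℕ := fun Λ =>
      (Λ.comap (consZ m), ((Λ.map (headZ m)).index - 1) * (Λ.comap (consZ m)).index +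
        c (Λ.comap (consZ m)) (v Λ))
    have hbasic : ∀ Λ ∈ subSet (m + 1) T, (Λ.map (headZ m)).index ≠ 0 ∧
        (Λ.comap (consZ m)).index ≠ 0 ∧
        (Λ.map (headZ m)).index * (Λ.comap (consZ m)).index ≤ T := by
      intro Λ hΛ
      obtain ⟨h1, h2⟩ := hΛ
      rw [index_formula] at h1 h2
      exact ⟨left_ne_zero_of_mul h1, right_ne_zero_of_mul h1, h2⟩
    have hmaps : ∀ Λ ∈ subSet (m + 1) T, F Λ ∈ (subSet m T) ×ˢ (Set.Iio T) := by
      intro Λ hΛ
      obtain ⟨h1, h2, h3⟩ := hbasic Λ hΛ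
      refine ⟨⟨h2, ?_⟩, ?_⟩
      · refine le_trans ?_ h3
        exact Nat.le_mul_of_pos_left _ (Nat.pos_of_ne_zero h1)
      · show ((Λ.map (headZ m)).index - 1) * (Λ.comap (consZ m)).index + _ < T
        have h4 := (hc (Λ.comap (consZ m)) h2).1 (v Λ)
        obtain ⟨d, hd⟩ : ∃ d, (Λ.map (headZ m)).index = d + 1 := ⟨_, (Nat.succ_pred_eq_of_pos
          (Nat.pos_of_ne_zero h1)).symm⟩
        rw [hd] at h3 ⊢
        rw [Nat.add_sub_cancel]
        have : (d + 1) * (Λ.comap (consZ m)).index = d * (Λ.comap (consZ m)).index +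
          (Λ.comap (consZ m)).index := by ring
        omega
    have hinj : Set.InjOn F (subSet (m + 1) T) := by
      intro Λ hΛ Λ' hΛ' hFF
      obtain ⟨h1, h2, h3⟩ := hbasic Λ hΛ
      obtain ⟨h1', h2', h3'⟩ := hbasic Λ' hΛ'
      simp only [F, Prod.mk.injEq] at hFF
      obtain ⟨e1, e2⟩ := hFF
      rw [← e1] at e2
      have b1 := (hc (Λ.comap (consZ m)) h2).1 (v Λ)
      have b2 := (hc (Λ.comap (consZ m)) h2).1 (v Λ')
      have hpos : 0 < (Λ.comap (consZ m)).index := Nat.pos_of_ne_zero h2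
      have e3 : (Λ.map (headZ m)).index - 1 = (Λ'.map (headZ m)).index - 1 := by
        have q1 : ((Λ.comap (consZ m)).index * ((Λ.map (headZ m)).index - 1) +
            c (Λ.comap (consZ m)) (v Λ)) / (Λ.comap (consZ m)).index =
            ((Λ.comap (consZ m)).index * ((Λ'.map (headZ m)).index - 1) +
            c (Λ.comap (consZ m)) (v Λ')) / (Λ.comap (consZ m)).index := by
          rw [mul_comm, e2, mul_comm]
        rw [Nat.mul_add_div hpos, Nat.div_eq_of_lt b1, Nat.mul_add_div hpos,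
          Nat.div_eq_of_lt b2] at q1
        omega
      have e4 : (Λ.map (headZ m)).index = (Λ'.map (headZ m)).index := by omega
      have e5 : c (Λ.comap (consZ m)) (v Λ) = c (Λ.comap (consZ m)) (v Λ') := by
        rw [e3] at e2; omega
      have e6 := (hc (Λ.comap (consZ m)) h2).2 _ _ e5
      have e7 := (hc (Λ.comap (consZ m)) h2).2 _ _ e5.symm
      apply le_antisymm
      · exact le_of_data e1 e4 (hv Λ h1) (hv Λ' h1') e6
      · exact le_of_data e1.symm e4.symm (hv Λ' h1') (hv Λ h1) (by rw [← e1]; exact e7)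
    have hfin : ((subSet m T) ×ˢ (Set.Iio T)).Finite := ihf.prod (Set.finite_Iio T)
    refine ⟨Set.Finite.of_injOn hmaps hinj hfin, ?_⟩
    calc (subSet (m + 1) T).ncard ≤ ((subSet m T) ×ˢ (Set.Iio T)).ncard :=
          Set.ncard_le_ncard_of_injOn F hmaps hinj hfin
      _ = (subSet m T).ncard * (Set.Iio T).ncard := Set.ncard_prod
      _ ≤ T ^ m * T := by
          apply Nat.mul_le_mul ihc
          rw [Set.ncard_eq_toFinset_card']
          simp
      _ = T ^ (m + 1) := by rw [pow_succ]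

end

end Pool.Agent.H33
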