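import Mathlib

set_option autoImplicit false

open Finset

namespace Pool.Agent.H33.Vmv

/-- Coercion of integer vectors to rational vectors. -/
def toQ {d : ℕ} (g : Fin d → ℤ) : Fin d → ℚ := fun l => (g l : ℚ)

theorem toQ_add {d : ℕ} (g h : Fin d → ℤ) : toQ (g + h) = toQ g + toQ h := by
  funext l; simp [toQ]

theorem toQ_sub {d : ℕ} (g h : Fin d → ℤ) : toQ (g - h) = toQ g - toQ h := by
  funext l; simp [toQ]

theorem toQ_zsmul {d : ℕ} (n : ℤ) (g : Fin d → ℤ) : toQ (n • g) = (n : ℚ) • toQ g := by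
  funext l; simp [toQ]

theorem toQ_inj {d : ℕ} {g h : Fin d → ℤ} (e : toQ g = toQ h) : g = h := by
  funext l
  have := congrFun e l
  simpa [toQ] using this

/-- The rational span of a set of integer vectors. -/
noncomputable def qspan {d : ℕ} (A : Finset (Fin d → ℤ)) : Submodule ℚ (Fin d → ℚ) :=
  Submodule.span ℚ (toQ '' (A : Set (Fin d → ℤ)))

theorem toQ_mem_qspan_of_closure {d : ℕ} (A : Finset (Fin d → ℤ)) {g : Fin d → ℤ}
    (hg : g ∈ AddSubgroup.closure (A : Set (Fin d → ℤ))) : toQ g ∈ qspan A := by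
  induction hg using AddSubgroup.closure_induction with
  | mem x hx => exact Submodule.subset_span ⟨x, hx, rfl⟩
  | zero =>
    have : toQ (0 : Fin d → ℤ) = 0 := by funext l; simp [toQ]
    rw [this]; exact Submodule.zero_mem _
  | add x y _ _ hx hy => rw [toQ_add]; exact Submodule.add_mem _ hx hy
  | neg x _ hx =>
    have : toQ (-x) = -toQ x := by funext l; simp [toQ]
    rw [this]; exact Submodule.neg_mem _ hx

/-- Reduction of a vector modulo a family of small vectors spanning its rational span. -/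
theorem exists_reduction {d : ℕ} (A' : Finset (Fin d → ℤ)) (b : Fin d → ℤ) (hb0 : ∀ l, 0 ≤ b l)
    (hb : ∀ g ∈ A', ∀ l, |g l| ≤ b l) (v : Fin d → ℤ) (hv : toQ v ∈ qspan A') :
    ∃ u : Fin d → ℤ, u ∈ AddSubgroup.closure (A' : Set (Fin d → ℤ)) ∧
      ∀ l, |(v - u) l| ≤ (d : ℤ) * b l := by
  classical
  obtain ⟨B, hBsub, hBspan, hBli⟩ :=
    exists_linearIndependent ℚ (toQ '' (A' : Set (Fin d → ℤ)))
  have hBfin : B.Finite := (Set.Finite.image _ A'.finite_toSet).subset hBsub
  obtain ⟨B', rfl⟩ : ∃ B' : Finset (Fin d → ℚ), (B' : Set (Fin d → ℚ)) = B :=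
    ⟨hBfin.toFinset, by simp⟩
  have hcard : B'.card ≤ d := by
    have h1 := hBli.fintype_card_le_finrank
    rw [Module.finrank_fin_fun] at h1
    simpa using h1
  -- lift
  have hlift : ∀ u : Fin d → ℚ, ∃ g : Fin d → ℤ, u ∈ B' → (g ∈ A' ∧ toQ g = u) := by
    intro u
    by_cases hu : u ∈ B'
    · obtain ⟨g, hg, hgu⟩ := hBsub hu
      exact ⟨g, fun _ => ⟨hg, hgu⟩⟩
    · exact ⟨0, fun h => absurd h hu⟩
  choose lift hlift using hlift
  have hv2 : toQ v ∈ Submodule.span ℚ (B' : Set (Fin d → ℚ)) := by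
    rw [hBspan]; exact hv
  rw [Submodule.mem_span_finset] at hv2
  obtain ⟨r, -, hr⟩ := hv2
  refine ⟨∑ u ∈ B', ⌊r u⌋ • lift u, ?_, ?_⟩
  · apply AddSubgroup.sum_mem
    intro u hu
    apply AddSubgroup.zsmul_mem
    exact AddSubgroup.subset_closure (hlift u hu).1
  · intro l
    have hval : ((v - ∑ u ∈ B', ⌊r u⌋ • lift u) l : ℚ) =
        ∑ u ∈ B', Int.fract (r u) * (lift u l : ℚ) := by
      have h1 : (v l : ℚ) = ∑ u ∈ B', r u * (lift u l : ℚ) := by
        have h2 := congrFun hr l
        rw [Finset.sum_apply] at h2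
        have h3 : toQ v l = (v l : ℚ) := rfl
        rw [← h3, ← h2]
        apply Finset.sum_congr rfl
        intro u hu
        rw [Pi.smul_apply, smul_eq_mul]
        congr 1
        have := congrFun (hlift u hu).2 l
        exact this.symm
      rw [Pi.sub_apply, Finset.sum_apply]
      push_cast
      rw [h1, ← Finset.sum_sub_distrib]
      apply Finset.sum_congr rfl
      intro u _
      rw [Pi.smul_apply, smul_eq_mul]
      push_cast
      have := Int.self_sub_floor (r u)
      rw [← this]; ring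
    have hbound : |((v - ∑ u ∈ B', ⌊r u⌋ • lift u) l : ℚ)| ≤ ((d : ℤ) * b l : ℤ) := by
      rw [hval]
      calc |∑ u ∈ B', Int.fract (r u) * (lift u l : ℚ)|
          ≤ ∑ u ∈ B', |Int.fract (r u) * (lift u l : ℚ)| := Finset.abs_sum_le_sum_abs _ _
        _ ≤ ∑ u ∈ B', (b l : ℚ) := by
            apply Finset.sum_le_sum
            intro u hu
            rw [abs_mul]
            have h1 : |Int.fract (r u)| ≤ 1 := by
              rw [abs_of_nonneg (Int.fract_nonneg _)]
              exact (Int.fract_lt_one _).le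
            have h2 : |(lift u l : ℚ)| ≤ (b l : ℚ) := by
              have := hb _ (hlift u hu).1 l
              exact_mod_cast this
            calc |Int.fract (r u)| * |(lift u l : ℚ)| ≤ 1 * |(lift u l : ℚ)| :=
                  mul_le_mul_of_nonneg_right h1 (abs_nonneg _)
              _ ≤ (b l : ℚ) := by rw [one_mul]; exact h2
        _ = (B'.card : ℚ) * (b l : ℚ) := by rw [Finset.sum_const, nsmul_eq_mul]
        _ ≤ ((d : ℤ) * b l : ℤ) := by
            push_cast
            have h4 : (0 : ℚ) ≤ (b l : ℚ) := by exact_mod_cast hb0 l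
            have h5 : (B'.card : ℚ) ≤ (d : ℚ) := by exact_mod_cast hcard
            exact mul_le_mul_of_nonneg_right h5 h4
    exact_mod_cast hbound

/-- The lattice step: passing to a sublattice of index (at least) `q` divides the number of points
in a box by `q`, provided the box is shrunk by the factor `d + 1` and the points still span. -/
theorem lattice_step {d : ℕ} (A A' : Finset (Fin d → ℤ)) (b : Fin d → ℤ) (hb0 : ∀ l, 0 ≤ b l)
    (L : AddSubgroup (Fin d → ℤ)) (φ : (Fin d → ℤ) →+ ℤ) (M : ℤ)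
    (hA : ∀ g, g ∈ A ↔ (∀ l, |g l| ≤ ((d : ℤ) + 1) * b l) ∧ g ∈ L)
    (hA' : ∀ g, g ∈ A' ↔ (∀ l, |g l| ≤ b l) ∧ g ∈ L ∧ M ∣ φ g)
    (hspan : qspan A' = qspan A)
    (g0 : Fin d → ℤ) (hg0 : g0 ∈ AddSubgroup.closure (A : Set (Fin d → ℤ))) (q : ℕ)
    (hq : ∀ t : ℤ, M ∣ t * φ g0 → (q : ℤ) ∣ t) :
    q * A'.card ≤ A.card := by
  classical
  have hAL : AddSubgroup.closure (A : Set (Fin d → ℤ)) ≤ L := by
    rw [AddSubgroup.closure_le]
    intro g hg
    exact ((hA g).1 hg).2
  have hA'L : AddSubgroup.closure (A' : Set (Fin d → ℤ)) ≤ L := by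
    rw [AddSubgroup.closure_le]
    intro g hg
    exact ((hA' g).1 hg).2.1
  have hA'M : ∀ g ∈ AddSubgroup.closure (A' : Set (Fin d → ℤ)), M ∣ φ g := by
    intro g hg
    induction hg using AddSubgroup.closure_induction with
    | mem x hx => exact ((hA' x).1 hx).2.2
    | zero => simp
    | add x y _ _ hx hy => rw [map_add]; exact dvd_add hx hy
    | neg x _ hx => rw [map_neg]; exact (dvd_neg).2 hx
  have hred : ∀ t : ℕ, ∃ u : Fin d → ℤ, u ∈ AddSubgroup.closure (A' : Set (Fin d → ℤ)) ∧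
      ∀ l, |((t : ℤ) • g0 - u) l| ≤ (d : ℤ) * b l := by
    intro t
    apply exists_reduction A' b hb0 (fun g hg l => ((hA' g).1 hg).1 l)
    rw [hspan]
    exact toQ_mem_qspan_of_closure A (AddSubgroup.zsmul_mem _ hg0 _)
  choose u hu1 hu2 using hred
  have hcard : q * A'.card = (Finset.range q ×ˢ A').card := by
    rw [Finset.card_product, Finset.card_range]
  rw [hcard]
  apply Finset.card_le_card_of_injOn (fun p : ℕ × (Fin d → ℤ) => ((p.1 : ℤ) • g0 - u p.1) + p.2)
  · rintro ⟨t, g⟩ hp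
    rw [Finset.mem_coe, Finset.mem_product] at hp
    have hg := (hA' g).1 hp.2
    rw [Finset.mem_coe, hA]
    refine ⟨?_, ?_⟩
    · intro l
      have h1 := hu2 t l
      have h2 := hg.1 l
      show |(((t : ℤ) • g0 - u t) + g) l| ≤ _
      rw [Pi.add_apply]
      calc |((t : ℤ) • g0 - u t) l + g l| ≤ |((t : ℤ) • g0 - u t) l| + |g l| := abs_add_le _ _
        _ ≤ (d : ℤ) * b l + b l := add_le_add h1 h2
        _ = ((d : ℤ) + 1) * b l := by ring
    · apply L.add_mem _ hg.2.1
      apply L.sub_mem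
      · exact L.zsmul_mem (hAL hg0) _
      · exact hA'L (hu1 t)
  · rintro ⟨t, g⟩ hp ⟨t', g'⟩ hp' heq
    rw [Finset.mem_coe, Finset.mem_product, Finset.mem_range] at hp hp'
    simp only at heq hp hp'
    have hg := (hA' g).1 hp.2
    have hg' := (hA' g').1 hp'.2
    have h1 := congrArg φ heq
    simp only [map_add, map_sub, map_zsmul, smul_eq_mul] at h1
    have h2 : M ∣ ((t : ℤ) - t') * φ g0 := by
      have e1 : ((t : ℤ) - t') * φ g0 = φ (u t) - φ (u t') + (φ g' - φ g) := by linarith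
      rw [e1]
      exact dvd_add (dvd_sub (hA'M _ (hu1 t)) (hA'M _ (hu1 t'))) (dvd_sub hg'.2.2 hg.2.2)
    have h3 := hq _ h2
    have h4 : t = t' := by
      have h5 : |(t : ℤ) - t'| < q := by
        rw [abs_lt]; constructor <;> omega
      have h6 := Int.eq_zero_of_abs_lt_dvd h3 h5
      omega
    subst h4
    have h7 : g = g' := by
      have := add_left_cancel heq
      exact this
    rw [h7]

end Pool.Agent.H33.Vmv
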