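import Mathlib

set_option autoImplicit false

open Finset

namespace Pool.Agent.H33.Vmv

/-- Two tuples with the same multiset of values differ by a permutation of the index set. -/
theorem exists_perm_of_map_eq {ι : Type*} [Fintype ι] (x y : ι → ℤ)
    (h : (univ : Finset ι).val.map x = (univ : Finset ι).val.map y) :
    ∃ σ : Equiv.Perm ι, y = x ∘ σ := by
  classical
  have hcard : ∀ a : ℤ, Fintype.card {i // y i = a} = Fintype.card {i // x i = a} := by
    intro a
    have h1 : ∀ z : ι → ℤ, Fintype.card {i // z i = a} =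
        Multiset.count a ((univ : Finset ι).val.map z) := by
      intro z
      rw [Fintype.card_subtype, Multiset.count_map]
      rw [Finset.card_def, Finset.filter_val]
      congr 1
      exact Multiset.filter_congr (fun i _ => eq_comm)
    rw [h1 y, h1 x, h]
  have e : ∀ a : ℤ, {i // y i = a} ≃ {i // x i = a} := fun a => Fintype.equivOfCardEq (hcard a)
  let σ : Equiv.Perm ι :=
    (Equiv.sigmaFiberEquiv y).symm.trans ((Equiv.sigmaCongrRight e).trans (Equiv.sigmaFiberEquiv x))
  refine ⟨σ, ?_⟩
  funext i
  simp only [Function.comp]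
  have : x (σ i) = y i := by
    simp only [σ, Equiv.trans_apply, Equiv.sigmaFiberEquiv, Equiv.coe_fn_symm_mk,
      Equiv.sigmaCongrRight_apply, Equiv.coe_fn_mk]
    exact (e (y i) ⟨i, rfl⟩).2
  exact this.symm

/-- Newton: equal power sums up to `k` give equal elementary symmetric functions up to `k`. -/
theorem esymm_eq_of_psum_eq {ι : Type*} [Fintype ι] (x y : ι → ℤ) (k : ℕ)
    (h : ∀ j, 1 ≤ j → j ≤ k → ∑ i, x i ^ j = ∑ i, y i ^ j) :
    ∀ j, j ≤ k → MvPolynomial.aeval x (MvPolynomial.esymm ι ℤ j) =
      MvPolynomial.aeval y (MvPolynomial.esymm ι ℤ j) := by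
  intro j
  induction j using Nat.strong_induction_on with
  | _ j ih =>
    intro hj
    rcases Nat.eq_zero_or_pos j with h0 | h0
    · subst h0; simp
    · have key : ∀ z : ι → ℤ, (j : ℤ) * MvPolynomial.aeval z (MvPolynomial.esymm ι ℤ j) =
          (-1) ^ (j + 1) * ∑ a ∈ antidiagonal j with a.1 < j,
            (-1) ^ a.1 * MvPolynomial.aeval z (MvPolynomial.esymm ι ℤ a.1) * ∑ i, z i ^ a.2 := by
        intro z
        have := congrArg (MvPolynomial.aeval z) (MvPolynomial.mul_esymm_eq_sum ι ℤ j)
        simpa [MvPolynomial.psum, map_sum, map_mul, map_pow] using this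
      have hx := key x
      have hy := key y
      have hs : ∑ a ∈ antidiagonal j with a.1 < j,
            (-1) ^ a.1 * MvPolynomial.aeval x (MvPolynomial.esymm ι ℤ a.1) * ∑ i, x i ^ a.2 =
          ∑ a ∈ antidiagonal j with a.1 < j,
            (-1) ^ a.1 * MvPolynomial.aeval y (MvPolynomial.esymm ι ℤ a.1) * ∑ i, y i ^ a.2 := by
        apply Finset.sum_congr rfl
        intro a ha
        rw [Finset.mem_filter, Finset.HasAntidiagonal.mem_antidiagonal] at ha
        rw [ih a.1 ha.2 (by omega), h a.2 (by omega) (by omega)]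
      rw [hs, ← hy] at hx
      exact mul_left_cancel₀ (by exact_mod_cast h0.ne') hx

/-- The monic polynomial with the given roots. -/
noncomputable def rootPoly {ι : Type*} [Fintype ι] (x : ι → ℤ) : Polynomial ℤ :=
  ∏ i, (Polynomial.X - Polynomial.C (x i))

theorem rootPoly_coeff {ι : Type*} [Fintype ι] (x : ι → ℤ) {l : ℕ} (hl : l ≤ Fintype.card ι) :
    (rootPoly x).coeff l =
      (-1) ^ (Fintype.card ι - l) * MvPolynomial.aeval x (MvPolynomial.esymm ι ℤ (Fintype.card ι - l)) := by
  classical
  have h := Multiset.prod_X_sub_C_coeff ((univ : Finset ι).val.map x) (k := l)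
    (by simpa using hl)
  rw [MvPolynomial.aeval_esymm_eq_multiset_esymm]
  rw [Multiset.map_map, Multiset.card_map, Finset.card_val, Finset.card_univ] at h
  exact h

theorem rootPoly_natDegree {ι : Type*} [Fintype ι] (x : ι → ℤ) :
    (rootPoly x).natDegree = Fintype.card ι := by
  classical
  rw [rootPoly, Polynomial.natDegree_prod_of_monic _ _ (fun i _ => Polynomial.monic_X_sub_C _)]
  simp only [Polynomial.natDegree_X_sub_C, Finset.sum_const, Finset.card_univ, smul_eq_mul, mul_one]

theorem rootPoly_eval {ι : Type*} [Fintype ι] (x : ι → ℤ) (t : ℤ) :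
    (rootPoly x).eval t = ∏ i, (t - x i) := by
  simp [rootPoly, Polynomial.eval_prod]

theorem rootPoly_roots {ι : Type*} [Fintype ι] (x : ι → ℤ) :
    (rootPoly x).roots = (univ : Finset ι).val.map x := by
  classical
  have := Polynomial.roots_multiset_prod_X_sub_C ((univ : Finset ι).val.map x)
  rw [Multiset.map_map] at this
  exact this

/-- Newton and Vieta: at most `k` variables are determined by their first `k` power sums. -/
theorem map_eq_of_psum_eq {ι : Type*} [Fintype ι] (x y : ι → ℤ) (k : ℕ) (hk : Fintype.card ι ≤ k)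
    (h : ∀ j, 1 ≤ j → j ≤ k → ∑ i, x i ^ j = ∑ i, y i ^ j) :
    (univ : Finset ι).val.map x = (univ : Finset ι).val.map y := by
  have he := esymm_eq_of_psum_eq x y k h
  have hp : rootPoly x = rootPoly y := by
    ext l
    rcases le_or_gt l (Fintype.card ι) with hl | hl
    · rw [rootPoly_coeff x hl, rootPoly_coeff y hl, he _ (by omega)]
    · rw [Polynomial.coeff_eq_zero_of_natDegree_lt (by rw [rootPoly_natDegree]; exact hl),
        Polynomial.coeff_eq_zero_of_natDegree_lt (by rw [rootPoly_natDegree]; exact hl)]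
  rw [← rootPoly_roots x, ← rootPoly_roots y, hp]

/-- If two `s`-tuples agree on `I`, the complement of `I` has at most `k` elements and the first `k`
power sums agree, then the tuples are permutations of each other. -/
theorem perm_of_agree {s : ℕ} (x y : Fin s → ℤ) (k : ℕ) (I : Finset (Fin s))
    (hI : s ≤ k + I.card) (hagree : ∀ i ∈ I, x i = y i)
    (h : ∀ j, 1 ≤ j → j ≤ k → ∑ i, x i ^ j = ∑ i, y i ^ j) :
    ∃ σ : Equiv.Perm (Fin s), y = x ∘ σ := by
  classical
  apply exists_perm_of_map_eq
  have hc : Fintype.card {i : Fin s // i ∉ I} ≤ k := by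
    have : Fintype.card {i : Fin s // i ∉ I} = s - I.card := by
      rw [Fintype.card_subtype_compl]
      simp
    omega
  have hrest := map_eq_of_psum_eq (fun i : {i : Fin s // i ∉ I} => x i)
    (fun i : {i : Fin s // i ∉ I} => y i) k hc (by
      intro j hj hjk
      have h1 := h j hj hjk
      have split : ∀ z : Fin s → ℤ, ∑ i, z i ^ j = ∑ i ∈ I, z i ^ j +
          ∑ i : {i : Fin s // i ∉ I}, z i ^ j := by
        intro z
        rw [← Finset.sum_add_sum_compl I]
        congr 1
        rw [← Finset.sum_subtype (Iᶜ) (by intro i; simp) (fun i => z i ^ j)]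
      rw [split x, split y] at h1
      have h2 : ∑ i ∈ I, x i ^ j = ∑ i ∈ I, y i ^ j :=
        Finset.sum_congr rfl (fun i hi => by rw [hagree i hi])
      linarith)
  -- reassemble
  have split : ∀ z : Fin s → ℤ, (univ : Finset (Fin s)).val.map z = I.val.map z +
      (univ : Finset {i : Fin s // i ∉ I}).val.map (fun i : {i : Fin s // i ∉ I} => z i.1) := by
    intro z
    have h1 : (univ : Finset (Fin s)).val = I.val + (Iᶜ).val := by
      rw [← Finset.union_compl I, ← Finset.disjUnion_eq_union _ _ disjoint_compl_right,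
        Finset.disjUnion_val]
    rw [h1, Multiset.map_add]
    congr 1
    have h2 : (Iᶜ).val = (univ : Finset {i : Fin s // i ∉ I}).val.map
        (fun i : {i : Fin s // i ∉ I} => i.1) := by
      have h3 : (Iᶜ : Finset (Fin s)) =
          (univ : Finset {i : Fin s // i ∉ I}).map (Function.Embedding.subtype _) := by
        ext i; simp
      rw [h3, Finset.map_val]; rfl
    rw [h2, Multiset.map_map]; rfl
  rw [split x, split y, hrest]
  congr 1
  exact Multiset.map_congr rfl (fun i hi => hagree i (by simpa using hi))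

/-- Coefficients of a product of linear factors with roots in `[1, X]`. -/
theorem abs_rootPoly_coeff_le {s : ℕ} (x : Fin s → ℤ) (X : ℕ)
    (hx : ∀ i, 1 ≤ x i ∧ x i ≤ X) {l : ℕ} (hl : l ≤ s) :
    |(rootPoly x).coeff l| ≤ 2 ^ s * (X : ℤ) ^ (s - l) := by
  classical
  rw [rootPoly_coeff x (by simpa using hl), Fintype.card_fin, abs_mul, abs_pow, abs_neg, abs_one,
    one_pow, one_mul]
  rw [MvPolynomial.aeval_esymm_eq_multiset_esymm, Finset.esymm_map_val]
  calc |∑ t ∈ powersetCard (s - l) univ, ∏ i ∈ t, x i|
      ≤ ∑ t ∈ powersetCard (s - l) (univ : Finset (Fin s)), |∏ i ∈ t, x i| :=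
        Finset.abs_sum_le_sum_abs _ _
    _ ≤ ∑ t ∈ powersetCard (s - l) (univ : Finset (Fin s)), (X : ℤ) ^ (s - l) := by
        apply Finset.sum_le_sum
        intro t ht
        rw [Finset.abs_prod]
        rw [Finset.mem_powersetCard] at ht
        calc ∏ i ∈ t, |x i| ≤ ∏ i ∈ t, (X : ℤ) := by
              apply Finset.prod_le_prod
              · intro i _; exact abs_nonneg _
              · intro i _
                rw [abs_of_nonneg (by linarith [(hx i).1])]
                exact (hx i).2
          _ = (X : ℤ) ^ (s - l) := by rw [Finset.prod_const, ht.2]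
    _ ≤ 2 ^ s * (X : ℤ) ^ (s - l) := by
        rw [Finset.sum_const, nsmul_eq_mul]
        apply mul_le_mul_of_nonneg_right _ (by positivity)
        have : (powersetCard (s - l) (univ : Finset (Fin s))).card ≤ 2 ^ s := by
          rw [Finset.card_powersetCard, Finset.card_univ, Fintype.card_fin]
          exact Nat.choose_le_two_pow _ _
        exact_mod_cast this

/-- Evaluation of the polynomial with coefficient vector `g` at `t`. -/
def ev {d : ℕ} (t : ℤ) (g : Fin d → ℤ) : ℤ := ∑ l : Fin d, g l * t ^ (l : ℕ)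

/-- The difference of the two root polynomials of a solution has low degree. -/
theorem exists_diff {k d : ℕ} (x y : Fin (k + d) → ℤ) (X : ℕ)
    (hx : ∀ i, 1 ≤ x i ∧ x i ≤ X) (hy : ∀ i, 1 ≤ y i ∧ y i ≤ X)
    (h : ∀ j, 1 ≤ j → j ≤ k → ∑ i, x i ^ j = ∑ i, y i ^ j) :
    ∃ f : Fin d → ℤ, (∀ t : ℤ, ∏ i, (t - x i) - ∏ i, (t - y i) = ev t f) ∧
      ∀ l : Fin d, |f l| ≤ 2 ^ (k + d + 1) * (X : ℤ) ^ (k + d - (l : ℕ)) := by
  classical
  have he := esymm_eq_of_psum_eq x y k h
  refine ⟨fun l => (rootPoly x).coeff l - (rootPoly y).coeff l, ?_, ?_⟩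
  · intro t
    rw [← rootPoly_eval x, ← rootPoly_eval y, ← Polynomial.eval_sub]
    have hdeg : (rootPoly x - rootPoly y).natDegree < d ∨ d = 0 ∧ rootPoly x - rootPoly y = 0 := by
      have hco : ∀ l, d ≤ l → (rootPoly x - rootPoly y).coeff l = 0 := by
        intro l hl
        rw [Polynomial.coeff_sub, sub_eq_zero]
        rcases le_or_gt l (k + d) with hl2 | hl2
        · rw [rootPoly_coeff x (by simpa using hl2), rootPoly_coeff y (by simpa using hl2),
            he _ (by simp only [Fintype.card_fin]; omega)]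
        · rw [Polynomial.coeff_eq_zero_of_natDegree_lt (by rw [rootPoly_natDegree]; simpa using hl2),
            Polynomial.coeff_eq_zero_of_natDegree_lt (by rw [rootPoly_natDegree]; simpa using hl2)]
      rcases Nat.eq_zero_or_pos d with hd | hd
      · right
        refine ⟨hd, ?_⟩
        ext l
        rw [hco l (by omega)]; simp
      · left
        by_contra hcon
        push Not at hcon
        have := hco _ hcon
        have h0 : rootPoly x - rootPoly y = 0 := by
          rwa [Polynomial.coeff_natDegree, Polynomial.leadingCoeff_eq_zero] at this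
        rw [h0] at hcon
        simp at hcon
        omega
    rcases hdeg with hdeg | ⟨hd, h0⟩
    · rw [Polynomial.eval_eq_sum_range' hdeg, ev, Finset.sum_range]
      simp
    · subst hd
      rw [h0]; simp [ev]
  · intro l
    have hl : (l : ℕ) ≤ k + d := by have := l.2; omega
    have h1 := abs_rootPoly_coeff_le x X hx hl
    have h2 := abs_rootPoly_coeff_le y X hy hl
    calc |(rootPoly x).coeff l - (rootPoly y).coeff l|
        ≤ |(rootPoly x).coeff l| + |(rootPoly y).coeff l| := abs_sub _ _
      _ ≤ 2 ^ (k + d) * (X : ℤ) ^ (k + d - (l : ℕ)) + 2 ^ (k + d) * (X : ℤ) ^ (k + d - (l : ℕ)) :=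
          add_le_add h1 h2
      _ = 2 ^ (k + d + 1) * (X : ℤ) ^ (k + d - (l : ℕ)) := by ring

end Pool.Agent.H33.Vmv
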