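import Mathlib

set_option autoImplicit false

open Finset

namespace Pool.Agent.H33.Vmv

/-- Push the entries of a vector on a list, one after the other. -/
def pushes : (m : ℕ) → (Fin m → ℤ) → List ℤ → List ℤ
  | 0, _, w => w
  | m + 1, v, w => pushes m (Fin.tail v) (v 0 :: w)

theorem pushes_length : ∀ (m : ℕ) (v : Fin m → ℤ) (w : List ℤ),
    (pushes m v w).length = m + w.length
  | 0, _, w => by simp [pushes]
  | m + 1, v, w => by
    rw [pushes, pushes_length m]
    simp only [List.length_cons]; omega

theorem mem_pushes : ∀ (m : ℕ) (v : Fin m → ℤ) (w : List ℤ) (t : ℤ),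
    t ∈ pushes m v w ↔ t ∈ w ∨ ∃ i, v i = t
  | 0, v, w, t => by simp [pushes]
  | m + 1, v, w, t => by
    rw [pushes, mem_pushes m]
    rw [List.mem_cons]
    constructor
    · rintro ((h | h) | ⟨i, hi⟩)
      · exact Or.inr ⟨0, h.symm⟩
      · exact Or.inl h
      · exact Or.inr ⟨i.succ, hi⟩
    · rintro (h | ⟨i, hi⟩)
      · exact Or.inl (Or.inr h)
      · refine Fin.cases (fun h => Or.inl (Or.inl h.symm)) (fun j h => Or.inr ⟨j, h⟩) i hi

theorem alive_of_pushes (alive : List ℤ → Prop) (h3 : ∀ y w, alive (y :: w) → alive w) :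
    ∀ (m : ℕ) (v : Fin m → ℤ) (w : List ℤ), alive (pushes m v w) → alive w
  | 0, _, _, h => h
  | m + 1, v, w, h => h3 _ _ (alive_of_pushes alive h3 m (Fin.tail v) (v 0 :: w) h)

open Classical in
/-- Counting sequences by a potential: every step either has at most `D` choices or decreases the
potential. -/
theorem count_seq {X D n : ℕ} (hX : 1 ≤ X) (Y : Finset ℤ) (hY : Y.card ≤ X)
    (alive : List ℤ → Prop) (Φ : List ℤ → ℕ)
    (h1 : ∀ w, w.length ≤ n → alive w → 1 ≤ Φ w)
    (h2 : ∀ w, w.length < n → alive w → ∃ Dt : Finset ℤ, Dt.card ≤ D ∧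
      ∀ y ∈ Y, alive (y :: w) → (y ∈ Dt ∧ Φ (y :: w) ≤ Φ w) ∨ Φ (y :: w) + 1 ≤ Φ w)
    (h3 : ∀ y w, alive (y :: w) → alive w) :
    ∀ (m : ℕ) (w : List ℤ), m + w.length ≤ n →
      ((Fintype.piFinset fun _ : Fin m => Y).filter (fun v => alive (pushes m v w))).card ≤
        (D + 1) ^ m * X ^ (Φ w - 1) := by
  intro m
  induction m with
  | zero =>
    intro w _
    calc ((Fintype.piFinset fun _ : Fin 0 => Y).filter (fun v => alive (pushes 0 v w))).card
        ≤ (Fintype.piFinset fun _ : Fin 0 => Y).card := Finset.card_filter_le _ _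
      _ = 1 := by simp
      _ ≤ (D + 1) ^ 0 * X ^ (Φ w - 1) := by
        rw [pow_zero, one_mul]; exact Nat.one_le_pow _ _ hX
  | succ m ih =>
    intro w hw
    by_cases hal : alive w
    · obtain ⟨Dt, hDt, hstep⟩ := h2 w (by omega) hal
      set S := (Fintype.piFinset fun _ : Fin (m + 1) => Y).filter
        (fun v => alive (pushes (m + 1) v w)) with hS
      set c : ℤ → ℕ := fun y => ((Fintype.piFinset fun _ : Fin m => Y).filter
        (fun v => alive (pushes m v (y :: w)))).card with hc
      set B := (D + 1) ^ m * X ^ (Φ w - 1) with hB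
      have hfib : S.card = ∑ y ∈ Y, (S.filter (fun v => v 0 = y)).card := by
        apply Finset.card_eq_sum_card_fiberwise
        intro v hv
        rw [Finset.mem_coe, hS, Finset.mem_filter, Fintype.mem_piFinset] at hv
        exact hv.1 0
      have hle : ∀ y ∈ Y, (S.filter (fun v => v 0 = y)).card ≤ c y := by
        intro y _
        apply Finset.card_le_card_of_injOn (fun v => Fin.tail v)
        · intro v hv
          rw [Finset.mem_coe, Finset.mem_filter, hS, Finset.mem_filter, Fintype.mem_piFinset] at hv
          rw [Finset.mem_coe, Finset.mem_filter, Fintype.mem_piFinset]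
          refine ⟨fun i => hv.1.1 i.succ, ?_⟩
          have := hv.1.2
          rw [pushes, hv.2] at this
          exact this
        · intro v hv v' hv' heq
          rw [Finset.mem_coe, Finset.mem_filter] at hv hv'
          funext i
          refine Fin.cases ?_ (fun j => ?_) i
          · rw [hv.2, hv'.2]
          · exact congrFun heq j
      have hcD : ∀ y ∈ Y, c y ≤ B := by
        intro y hy
        by_cases hay : alive (y :: w)
        · have h4 := ih (y :: w) (by simp only [List.length_cons]; omega)
          refine h4.trans ?_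
          apply Nat.mul_le_mul_left
          apply Nat.pow_le_pow_right hX
          rcases hstep y hy hay with ⟨_, h5⟩ | h5 <;> omega
        · have : c y = 0 := by
            rw [hc]
            simp only [Finset.card_eq_zero, Finset.filter_eq_empty_iff]
            intro v _ h6
            exact hay (alive_of_pushes alive h3 m v (y :: w) h6)
          rw [this]; exact Nat.zero_le _
      have hcF : ∀ y ∈ Y, y ∉ Dt → c y * X ≤ B := by
        intro y hy hyD
        by_cases hay : alive (y :: w)
        · have h4 := ih (y :: w) (by simp only [List.length_cons]; omega)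
          have h5 : Φ (y :: w) + 1 ≤ Φ w := by
            rcases hstep y hy hay with ⟨h5, _⟩ | h5
            · exact absurd h5 hyD
            · exact h5
          have h6 := h1 (y :: w) (by simp only [List.length_cons]; omega) hay
          calc c y * X ≤ ((D + 1) ^ m * X ^ (Φ (y :: w) - 1)) * X := Nat.mul_le_mul_right _ h4
            _ = (D + 1) ^ m * X ^ (Φ (y :: w) - 1 + 1) := by rw [pow_succ]; ring
            _ ≤ B := by
              apply Nat.mul_le_mul_left
              apply Nat.pow_le_pow_right hX
              omega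
        · have : c y = 0 := by
            rw [hc]
            simp only [Finset.card_eq_zero, Finset.filter_eq_empty_iff]
            intro v _ h6
            exact hay (alive_of_pushes alive h3 m v (y :: w) h6)
          rw [this, zero_mul]; exact Nat.zero_le _
      have hsum1 : ∑ y ∈ Y.filter (· ∈ Dt), c y ≤ D * B := by
        calc ∑ y ∈ Y.filter (· ∈ Dt), c y ≤ ∑ y ∈ Y.filter (· ∈ Dt), B :=
              Finset.sum_le_sum (fun y hy => hcD y (Finset.mem_filter.1 hy).1)
          _ = (Y.filter (· ∈ Dt)).card * B := by rw [Finset.sum_const, smul_eq_mul]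
          _ ≤ D * B := by
            apply Nat.mul_le_mul_right
            refine le_trans (Finset.card_le_card ?_) hDt
            intro y hy
            exact (Finset.mem_filter.1 hy).2
      have hsum2 : ∑ y ∈ Y.filter (fun y => y ∉ Dt), c y ≤ B := by
        have h7 : (∑ y ∈ Y.filter (fun y => y ∉ Dt), c y) * X ≤ B * X := by
          calc (∑ y ∈ Y.filter (fun y => y ∉ Dt), c y) * X
              = ∑ y ∈ Y.filter (fun y => y ∉ Dt), c y * X := Finset.sum_mul _ _ _
            _ ≤ ∑ y ∈ Y.filter (fun y => y ∉ Dt), B :=
              Finset.sum_le_sum (fun y hy => hcF y (Finset.mem_filter.1 hy).1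
                (Finset.mem_filter.1 hy).2)
            _ = (Y.filter (fun y => y ∉ Dt)).card * B := by rw [Finset.sum_const, smul_eq_mul]
            _ ≤ X * B := Nat.mul_le_mul_right _ ((Finset.card_filter_le _ _).trans hY)
            _ = B * X := Nat.mul_comm _ _
        exact Nat.le_of_mul_le_mul_right h7 hX
      calc S.card = ∑ y ∈ Y, (S.filter (fun v => v 0 = y)).card := hfib
        _ ≤ ∑ y ∈ Y, c y := Finset.sum_le_sum hle
        _ = ∑ y ∈ Y.filter (· ∈ Dt), c y + ∑ y ∈ Y.filter (fun y => y ∉ Dt), c y :=
            (Finset.sum_filter_add_sum_filter_not _ _ _).symm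
        _ ≤ D * B + B := add_le_add hsum1 hsum2
        _ = (D + 1) ^ (m + 1) * X ^ (Φ w - 1) := by rw [hB, pow_succ]; ring
    · have : ((Fintype.piFinset fun _ : Fin (m + 1) => Y).filter
          (fun v => alive (pushes (m + 1) v w))).card = 0 := by
        simp only [Finset.card_eq_zero, Finset.filter_eq_empty_iff]
        intro v _ h6
        exact hal (alive_of_pushes alive h3 (m + 1) v w h6)
      rw [this]; exact Nat.zero_le _

end Pool.Agent.H33.Vmv
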