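import Mathlib
import Pool.Agent.H33.VmvNewton
import Pool.Agent.H33.VmvLattice
import Pool.Agent.H33.VmvSeq

set_option autoImplicit false

open Finset

namespace Pool.Agent.H33.Vmv

theorem gcd_lcm_dvd_two (a b c : ℕ) :
    Nat.gcd (Nat.lcm a b) c ∣ Nat.lcm (Nat.gcd a c) (Nat.gcd b c) := by
  rcases Nat.eq_zero_or_pos a with ha | ha
  · subst ha
    rw [Nat.lcm_zero_left, Nat.gcd_zero_left]
    exact Nat.dvd_lcm_left _ _
  rcases Nat.eq_zero_or_pos b with hb | hb
  · subst hb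
    rw [Nat.lcm_zero_right, Nat.gcd_zero_left]
    exact Nat.dvd_lcm_right _ _
  rcases Nat.eq_zero_or_pos c with hc | hc
  · subst hc
    simp
  have h1 : Nat.gcd (Nat.lcm a b) c ≠ 0 := (Nat.gcd_pos_of_pos_right _ hc).ne'
  have h2 : Nat.lcm (Nat.gcd a c) (Nat.gcd b c) ≠ 0 :=
    (Nat.lcm_pos (Nat.gcd_pos_of_pos_right _ hc) (Nat.gcd_pos_of_pos_right _ hc)).ne'
  rw [← Nat.factorization_le_iff_dvd h1 h2]
  rw [Nat.factorization_gcd (Nat.lcm_pos ha hb).ne' hc.ne',
    Nat.factorization_lcm ha.ne' hb.ne',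
    Nat.factorization_lcm (Nat.gcd_pos_of_pos_right _ hc).ne' (Nat.gcd_pos_of_pos_right _ hc).ne',
    Nat.factorization_gcd ha.ne' hc.ne', Nat.factorization_gcd hb.ne' hc.ne']
  intro p
  simp only [Finsupp.inf_apply, Finsupp.sup_apply]
  exact le_of_eq (inf_sup_right _ _ _)

theorem gcd_lcm_dvd {ι : Type*} (s : Finset ι) (f : ι → ℕ) (c : ℕ) :
    Nat.gcd (s.lcm f) c ∣ s.lcm (fun i => Nat.gcd (f i) c) := by
  classical
  induction s using Finset.induction_on with
  | empty => simp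
  | insert i s hi ih =>
    rw [Finset.lcm_insert, Finset.lcm_insert]
    refine (gcd_lcm_dvd_two (f i) (s.lcm f) c).trans ?_
    exact lcm_dvd_lcm dvd_rfl ih

/-- The evaluation map as an additive homomorphism. -/
def evHom {d : ℕ} (t : ℤ) : (Fin d → ℤ) →+ ℤ where
  toFun := ev t
  map_zero' := by simp [ev]
  map_add' := by
    intro g h
    simp only [ev, Pi.add_apply, ← Finset.sum_add_distrib]
    exact Finset.sum_congr rfl (fun l _ => by ring)

theorem evHom_apply {d : ℕ} (t : ℤ) (g : Fin d → ℤ) : evHom t g = ev t g := rfl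

theorem sub_dvd_ev_sub {d : ℕ} (t u : ℤ) (g : Fin d → ℤ) : (t - u) ∣ ev t g - ev u g := by
  rw [ev, ev, ← Finset.sum_sub_distrib]
  apply Finset.dvd_sum
  intro l _
  rw [← mul_sub]
  exact Dvd.dvd.mul_left (sub_dvd_pow_sub_pow _ _ _) _

theorem exists_gen {d : ℕ} (A : Finset (Fin d → ℤ)) (t : ℤ) :
    ∃ N : ℕ, (∃ g ∈ AddSubgroup.closure (A : Set (Fin d → ℤ)), ev t g = N) ∧
      ∀ g ∈ AddSubgroup.closure (A : Set (Fin d → ℤ)), (N : ℤ) ∣ ev t g := by
  obtain ⟨c, hc⟩ := Int.subgroup_cyclic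
    ((AddSubgroup.closure (A : Set (Fin d → ℤ))).map (evHom t))
  have hcm : c ∈ (AddSubgroup.closure (A : Set (Fin d → ℤ))).map (evHom t) := by
    rw [hc]; exact AddSubgroup.subset_closure (Set.mem_singleton c)
  obtain ⟨g, hg, hgc⟩ := hcm
  refine ⟨c.natAbs, ?_, ?_⟩
  · rcases le_total 0 c with h0 | h0
    · refine ⟨g, hg, ?_⟩
      rw [Int.natAbs_of_nonneg h0]; exact hgc
    · refine ⟨-g, AddSubgroup.neg_mem _ hg, ?_⟩
      have : ev t (-g) = -ev t g := (evHom t).map_neg g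
      rw [this, Int.ofNat_natAbs_of_nonpos h0]
      have h1 : ev t g = c := hgc
      rw [h1]
  · intro h hh
    have : ev t h ∈ AddSubgroup.closure {c} := by
      rw [← hc]; exact ⟨h, hh, rfl⟩
    rw [AddSubgroup.mem_closure_singleton] at this
    obtain ⟨m, hm⟩ := this
    rw [← hm, smul_eq_mul, Int.natAbs_dvd]
    exact Dvd.intro_left m rfl

/-- The positive generator of the group of values at `t` of the group generated by `A`. -/
noncomputable def gen {d : ℕ} (A : Finset (Fin d → ℤ)) (t : ℤ) : ℕ := (exists_gen A t).choose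

theorem gen_mem {d : ℕ} (A : Finset (Fin d → ℤ)) (t : ℤ) :
    ∃ g ∈ AddSubgroup.closure (A : Set (Fin d → ℤ)), ev t g = gen A t :=
  (exists_gen A t).choose_spec.1

theorem gen_dvd {d : ℕ} (A : Finset (Fin d → ℤ)) (t : ℤ) (g : Fin d → ℤ)
    (hg : g ∈ AddSubgroup.closure (A : Set (Fin d → ℤ))) : (gen A t : ℤ) ∣ ev t g :=
  (exists_gen A t).choose_spec.2 g hg

theorem gcd_gen_dvd {d : ℕ} (A : Finset (Fin d → ℤ)) (y u : ℤ) :
    Nat.gcd (y - u).natAbs (gen A y) ∣ gen A u := by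
  obtain ⟨g, hg, hgu⟩ := gen_mem A u
  have h1 : ((Nat.gcd (y - u).natAbs (gen A y) : ℕ) : ℤ) ∣ (y - u) := by
    rw [← Int.dvd_natAbs]
    exact_mod_cast Nat.gcd_dvd_left _ _
  have h2 : ((Nat.gcd (y - u).natAbs (gen A y) : ℕ) : ℤ) ∣ ev y g := by
    refine dvd_trans ?_ (gen_dvd A y g hg)
    exact_mod_cast Nat.gcd_dvd_right _ _
  have h3 : ((Nat.gcd (y - u).natAbs (gen A y) : ℕ) : ℤ) ∣ ev u g := by
    have := dvd_sub h2 (h1.trans (sub_dvd_ev_sub y u g))
    simpa using this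
  rw [hgu] at h3
  exact_mod_cast h3

/-- The determined values are few. -/
theorem card_det {a : ℕ} (x : Fin a → ℤ) (N : Fin a → ℕ) (hN : ∀ i, N i ≠ 0) (X : ℕ) :
    ((Finset.Icc (1 : ℤ) X).filter
      (fun y => X ≤ univ.lcm (fun i => Nat.gcd (y - x i).natAbs (N i)))).card ≤
      ∏ i, (N i).divisors.card := by
  classical
  rw [← Fintype.card_piFinset]
  apply Finset.card_le_card_of_injOn (fun y => fun i => Nat.gcd (y - x i).natAbs (N i))
  · intro y _
    rw [Finset.mem_coe, Fintype.mem_piFinset]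
    intro i
    rw [Nat.mem_divisors]
    exact ⟨Nat.gcd_dvd_right _ _, hN i⟩
  · intro y hy y' hy' heq
    rw [Finset.mem_coe, Finset.mem_filter, Finset.mem_Icc] at hy hy'
    simp only at heq
    have h1 : univ.lcm (fun i => Nat.gcd (y - x i).natAbs (N i)) ∣ (y - y').natAbs := by
      apply Finset.lcm_dvd
      intro i _
      have e1 : ((Nat.gcd (y - x i).natAbs (N i) : ℕ) : ℤ) ∣ (y - x i) := by
        rw [← Int.dvd_natAbs]; exact_mod_cast Nat.gcd_dvd_left _ _
      have e2 : ((Nat.gcd (y - x i).natAbs (N i) : ℕ) : ℤ) ∣ (y' - x i) := by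
        have := congrFun heq i
        rw [this, ← Int.dvd_natAbs]; exact_mod_cast Nat.gcd_dvd_left _ _
      have e3 := dvd_sub e1 e2
      have e4 : y - x i - (y' - x i) = y - y' := by ring
      rw [e4, ← Int.dvd_natAbs] at e3
      exact_mod_cast e3
    by_contra hne
    have h2 : (y - y').natAbs ≠ 0 := by
      rw [Int.natAbs_ne_zero]; exact sub_ne_zero.2 hne
    have h3 := Nat.le_of_dvd (Nat.pos_of_ne_zero h2) h1
    have h4 : (y - y').natAbs < X := by
      omega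
    omega

end Pool.Agent.H33.Vmv
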