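import Mathlib
import Pool.Agent.H33.VmvDet

set_option autoImplicit false

open Finset

namespace Pool.Agent.H33.Vmv

section Good

variable {d a : ℕ} (n X γ : ℕ) (x : Fin a → ℤ) (H : Fin d → ℕ)

/-- The small polynomials compatible with the data `x` and the list `w`. -/
noncomputable def Aset (w : List ℤ) : Finset (Fin d → ℤ) := by
  classical
  exact (Fintype.piFinset fun l => Finset.Icc (-(((d : ℤ) + 1) ^ (n - w.length) * (H l : ℤ)))
    (((d : ℤ) + 1) ^ (n - w.length) * (H l : ℤ))).filter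
      (fun g => ∀ y ∈ w, ∀ i, (y - x i) ∣ ev y g)

theorem mem_Aset (w : List ℤ) (g : Fin d → ℤ) :
    g ∈ Aset n x H w ↔ (∀ l, |g l| ≤ ((d : ℤ) + 1) ^ (n - w.length) * (H l : ℤ)) ∧
      ∀ y ∈ w, ∀ i, (y - x i) ∣ ev y g := by
  classical
  rw [Aset, Finset.mem_filter, Fintype.mem_piFinset]
  simp only [Finset.mem_Icc, abs_le]

theorem Aset_cons_subset (y : ℤ) (w : List ℤ) (hw : w.length < n) :
    Aset n x H (y :: w) ⊆ Aset n x H w := by
  intro g hg
  rw [mem_Aset] at hg ⊢
  refine ⟨fun l => (hg.1 l).trans ?_, fun y' hy' => hg.2 y' (List.mem_cons_of_mem _ hy')⟩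
  apply mul_le_mul_of_nonneg_right _ (by positivity)
  apply pow_le_pow_right₀ (by linarith [Int.natCast_nonneg d])
  simp only [List.length_cons]; omega

/-- The potential. -/
noncomputable def Pot (w : List ℤ) : ℕ :=
  Nat.log (X ^ γ) (Aset n x H w).card + Module.finrank ℚ (qspan (Aset n x H w))

/-- A list is alive if it is compatible with a true difference polynomial. -/
def Alive (Bd : ℕ) (w : List ℤ) : Prop :=
  ∃ f : Fin d → ℤ, (∀ l, |f l| ≤ (H l : ℤ)) ∧
    (∀ i, ev (x i) f ≠ 0 ∧ (ev (x i) f).natAbs ≤ Bd) ∧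
    ∀ y ∈ w, (∀ i, (y - x i) ∣ ev y f) ∧ (∀ i, y ≠ x i) ∧
      X ^ (γ + 1) ≤ (univ : Finset (Fin a)).lcm (fun i => (y - x i).natAbs)

theorem Alive.tail {Bd : ℕ} {y : ℤ} {w : List ℤ} (h : Alive X γ x H Bd (y :: w)) :
    Alive X γ x H Bd w := by
  obtain ⟨f, h1, h2, h3⟩ := h
  exact ⟨f, h1, h2, fun y' hy' => h3 y' (List.mem_cons_of_mem _ hy')⟩

theorem Alive.mem_Aset' {Bd : ℕ} {w : List ℤ} {f : Fin d → ℤ} (h1 : ∀ l, |f l| ≤ (H l : ℤ))
    (h3 : ∀ y ∈ w, ∀ i, (y - x i) ∣ ev y f) : f ∈ Aset n x H w := by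
  rw [mem_Aset]
  refine ⟨fun l => (h1 l).trans ?_, h3⟩
  have : (1 : ℤ) ≤ ((d : ℤ) + 1) ^ (n - w.length) :=
    one_le_pow₀ (by linarith [Int.natCast_nonneg d])
  nlinarith [Int.natCast_nonneg (H l)]

theorem Pot_pos {Bd : ℕ} (ha : 0 < a) {w : List ℤ} (h : Alive X γ x H Bd w) :
    1 ≤ Pot n X γ x H w := by
  obtain ⟨f, h1, h2, h3⟩ := h
  have hf : f ∈ Aset n x H w := Alive.mem_Aset' n x H (Bd := Bd) h1 (fun y hy => (h3 y hy).1)
  have hne : qspan (Aset n x H w) ≠ ⊥ := by
    intro hb
    have h4 : toQ f ∈ qspan (Aset n x H w) := Submodule.subset_span ⟨f, hf, rfl⟩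
    rw [hb, Submodule.mem_bot] at h4
    have h5 : f = 0 := toQ_inj (by rw [h4]; funext l; simp [toQ])
    apply (h2 ⟨0, ha⟩).1
    rw [h5]; simp [ev]
  have := Submodule.one_le_finrank_iff.2 hne
  rw [Pot]; omega

theorem lcm_dvd_iff_all (y : ℤ) (v : ℤ) :
    (((univ : Finset (Fin a)).lcm (fun i => (y - x i).natAbs) : ℕ) : ℤ) ∣ v ↔
      ∀ i, (y - x i) ∣ v := by
  rw [Int.natCast_dvd, Finset.lcm_dvd_iff]
  simp only [Finset.mem_univ, forall_true_left, Int.natAbs_dvd_natAbs]

theorem Pot_step {Bd : ℕ} (hγ : 1 ≤ γ) (hX : 2 ≤ X) {w : List ℤ}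
    (hw : w.length < n) (y : ℤ) (h : Alive X γ x H Bd (y :: w))
    (hy : ¬ X ≤ (univ : Finset (Fin a)).lcm
      (fun i => Nat.gcd (y - x i).natAbs (gen (Aset n x H w) (x i)))) :
    Pot n X γ x H (y :: w) + 1 ≤ Pot n X γ x H w := by
  classical
  have hsub := Aset_cons_subset n x H y w hw
  obtain ⟨f, hf1, hf2, hf3⟩ := h
  have hf : f ∈ Aset n x H (y :: w) :=
    Alive.mem_Aset' n x H (Bd := Bd) hf1 (fun y hy => (hf3 y hy).1)
  have hcardpos : 0 < (Aset n x H (y :: w)).card := Finset.card_pos.2 ⟨f, hf⟩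
  have hspanle : qspan (Aset n x H (y :: w)) ≤ qspan (Aset n x H w) :=
    Submodule.span_mono (Set.image_mono (by exact_mod_cast hsub))
  have hrk := Submodule.finrank_mono hspanle
  have hbase : 1 < X ^ γ := Nat.one_lt_pow (by omega) (by omega)
  rcases hrk.lt_or_eq with hlt | heq
  · have hlog : Nat.log (X ^ γ) (Aset n x H (y :: w)).card ≤
        Nat.log (X ^ γ) (Aset n x H w).card := Nat.log_mono_right (Finset.card_le_card hsub)
    rw [Pot, Pot]; omega
  · have hspan : qspan (Aset n x H (y :: w)) = qspan (Aset n x H w) :=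
      Submodule.eq_of_le_of_finrank_eq hspanle heq
    -- the modulus
    obtain ⟨-, hyne, hM⟩ := hf3 y List.mem_cons_self
    set M : ℕ := (univ : Finset (Fin a)).lcm (fun i => (y - x i).natAbs) with hMdef
    set c : ℕ := gen (Aset n x H w) y with hcdef
    have hMpos : 0 < M := lt_of_lt_of_le (by positivity) hM
    obtain ⟨g0, hg0, hg0c⟩ := gen_mem (Aset n x H w) y
    have hG : 0 < Nat.gcd M c := Nat.gcd_pos_of_pos_left _ hMpos
    have hGlt : Nat.gcd M c < X := by
      have h1 : Nat.gcd M c ∣ (univ : Finset (Fin a)).lcm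
          (fun i => Nat.gcd (y - x i).natAbs (gen (Aset n x H w) (x i))) := by
        refine (gcd_lcm_dvd _ _ _).trans ?_
        apply Finset.lcm_dvd
        intro i _
        refine dvd_trans ?_ (Finset.dvd_lcm (Finset.mem_univ i))
        exact Nat.dvd_gcd (Nat.gcd_dvd_left _ _) (gcd_gen_dvd _ _ _)
      have h2 : (univ : Finset (Fin a)).lcm
          (fun i => Nat.gcd (y - x i).natAbs (gen (Aset n x H w) (x i))) ≠ 0 := by
        intro h0
        rw [Finset.lcm_eq_zero_iff] at h0
        obtain ⟨i, -, hi⟩ := h0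
        have h3 := Nat.eq_zero_of_gcd_eq_zero_left hi
        rw [Int.natAbs_eq_zero, sub_eq_zero] at h3
        exact hyne i h3
      have h3 := Nat.le_of_dvd (Nat.pos_of_ne_zero h2) h1
      omega
    set q : ℕ := M / Nat.gcd M c with hq
    have hqM : q * Nat.gcd M c = M := Nat.div_mul_cancel (Nat.gcd_dvd_left _ _)
    have hqbig : X ^ γ ≤ q := by
      have h1 : X ^ γ * X ≤ q * X := by
        calc X ^ γ * X = X ^ (γ + 1) := by rw [pow_succ]
          _ ≤ M := hM
          _ = q * Nat.gcd M c := hqM.symm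
          _ ≤ q * X := Nat.mul_le_mul_left _ hGlt.le
      exact Nat.le_of_mul_le_mul_right h1 (by omega)
    have hstep : q * (Aset n x H (y :: w)).card ≤ (Aset n x H w).card := by
      let L : AddSubgroup (Fin d → ℤ) :=
        { carrier := {g | ∀ y ∈ w, ∀ i, (y - x i) ∣ ev y g}
          zero_mem' := by
            intro y _ i
            have : ev y (0 : Fin d → ℤ) = 0 := (evHom y).map_zero
            rw [this]; exact dvd_zero _
          add_mem' := by
            intro g h hg hh y hy i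
            have : ev y (g + h) = ev y g + ev y h := (evHom y).map_add g h
            rw [this]; exact dvd_add (hg y hy i) (hh y hy i)
          neg_mem' := by
            intro g hg y hy i
            have : ev y (-g) = -ev y g := (evHom y).map_neg g
            rw [this]; exact (dvd_neg).2 (hg y hy i) }
      apply lattice_step (Aset n x H w) (Aset n x H (y :: w))
        (fun l => ((d : ℤ) + 1) ^ (n - (w.length + 1)) * (H l : ℤ))
        (fun l => by positivity) L (evHom y) (M : ℤ)
      · intro g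
        rw [mem_Aset]
        have e : n - w.length = (n - (w.length + 1)) + 1 := by omega
        constructor
        · rintro ⟨h1, h2⟩
          refine ⟨fun l => ?_, h2⟩
          have := h1 l
          rw [e, pow_succ] at this
          calc |g l| ≤ _ := this
            _ = _ := by ring
        · rintro ⟨h1, h2⟩
          refine ⟨fun l => ?_, h2⟩
          have := h1 l
          rw [e, pow_succ]
          calc |g l| ≤ _ := this
            _ = _ := by ring
      · intro g
        rw [mem_Aset]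
        simp only [List.length_cons, List.mem_cons, forall_eq_or_imp, evHom_apply]
        rw [hMdef, lcm_dvd_iff_all]
        constructor
        · rintro ⟨h1, h2, h3⟩
          exact ⟨h1, h3, h2⟩
        · rintro ⟨h1, h3, h2⟩
          exact ⟨h1, h2, h3⟩
      · exact hspan
      · exact hg0
      · intro t ht
        rw [evHom_apply, hg0c] at ht
        have h1 : M ∣ t.natAbs * c := by
          have := Int.natAbs_dvd_natAbs.2 ht
          rwa [Int.natAbs_natCast, Int.natAbs_mul, Int.natAbs_natCast] at this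
        have h2 : q ∣ t.natAbs := by
          have h3 : q ∣ t.natAbs * (c / Nat.gcd M c) := by
            rw [← Nat.mul_dvd_mul_iff_right hG, hqM, mul_assoc,
              Nat.div_mul_cancel (Nat.gcd_dvd_right _ _)]
            exact h1
          exact (Nat.coprime_div_gcd_div_gcd hG).dvd_of_dvd_mul_right h3
        rw [Int.natCast_dvd]; exact h2
    have hlog : Nat.log (X ^ γ) (Aset n x H (y :: w)).card + 1 ≤
        Nat.log (X ^ γ) (Aset n x H w).card := by
      rw [← Nat.log_mul_base hbase hcardpos.ne']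
      apply Nat.log_mono_right
      calc (Aset n x H (y :: w)).card * X ^ γ ≤ (Aset n x H (y :: w)).card * q :=
            Nat.mul_le_mul_left _ hqbig
        _ = q * (Aset n x H (y :: w)).card := Nat.mul_comm _ _
        _ ≤ _ := hstep
    rw [Pot, Pot, heq]; omega

theorem Pot_mono {w : List ℤ} (hw : w.length < n) (y : ℤ) :
    Pot n X γ x H (y :: w) ≤ Pot n X γ x H w := by
  have hsub := Aset_cons_subset n x H y w hw
  have hspanle : qspan (Aset n x H (y :: w)) ≤ qspan (Aset n x H w) :=
    Submodule.span_mono (Set.image_mono (by exact_mod_cast hsub))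
  have hrk := Submodule.finrank_mono hspanle
  have hlog : Nat.log (X ^ γ) (Aset n x H (y :: w)).card ≤
      Nat.log (X ^ γ) (Aset n x H w).card := Nat.log_mono_right (Finset.card_le_card hsub)
  rw [Pot, Pot]; omega

theorem gen_bound {Bd : ℕ} {w : List ℤ} (h : Alive X γ x H Bd w) (i : Fin a) :
    gen (Aset n x H w) (x i) ≠ 0 ∧ gen (Aset n x H w) (x i) ≤ Bd := by
  obtain ⟨f, hf1, hf2, hf3⟩ := h
  have hf : f ∈ Aset n x H w :=
    Alive.mem_Aset' n x H (Bd := Bd) hf1 (fun y hy => (hf3 y hy).1)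
  have h1 := gen_dvd (Aset n x H w) (x i) f (AddSubgroup.subset_closure hf)
  rw [Int.natCast_dvd] at h1
  have h2 : (ev (x i) f).natAbs ≠ 0 := by
    rw [Int.natAbs_ne_zero]; exact (hf2 i).1
  refine ⟨?_, (Nat.le_of_dvd (Nat.pos_of_ne_zero h2) h1).trans (hf2 i).2⟩
  intro h0
  rw [h0, zero_dvd_iff] at h1
  exact h2 h1

open Classical in
/-- Counting alive sequences. -/
theorem count_alive {Bd T : ℕ} (hγ : 1 ≤ γ) (hX : 2 ≤ X) (ha : 0 < a)
    (hT : ∀ N : ℕ, N ≠ 0 → N ≤ Bd → N.divisors.card ≤ T) :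
    ((Fintype.piFinset fun _ : Fin n => Finset.Icc (1 : ℤ) X).filter
      (fun v => Alive X γ x H Bd (pushes n v []))).card ≤
      (T ^ a + 1) ^ n * X ^ (Pot n X γ x H [] - 1) := by
  apply count_seq (X := X) (D := T ^ a) (n := n) (by omega) (Finset.Icc (1 : ℤ) X) (by simp)
    (Alive X γ x H Bd) (Pot n X γ x H)
  · intro w _ h
    exact Pot_pos n X γ x H ha h
  · intro w hw h
    refine ⟨(Finset.Icc (1 : ℤ) X).filter (fun y => X ≤ univ.lcm
      (fun i => Nat.gcd (y - x i).natAbs (gen (Aset n x H w) (x i)))), ?_, ?_⟩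
    · refine (card_det x _ (fun i => (gen_bound n X γ x H h i).1) X).trans ?_
      calc ∏ i, (gen (Aset n x H w) (x i)).divisors.card ≤ ∏ _i : Fin a, T := by
            apply Finset.prod_le_prod
            · intro i _; exact Nat.zero_le _
            · intro i _
              exact hT _ (gen_bound n X γ x H h i).1 (gen_bound n X γ x H h i).2
        _ = T ^ a := by simp
    · intro y hy hal
      by_cases hd : X ≤ (univ : Finset (Fin a)).lcm
          (fun i => Nat.gcd (y - x i).natAbs (gen (Aset n x H w) (x i)))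
      · exact Or.inl ⟨Finset.mem_filter.2 ⟨hy, hd⟩, Pot_mono n X γ x H hw y⟩
      · exact Or.inr (Pot_step n X γ x H hγ hX hw y hal hd)
  · intro y w h
    exact h.tail X γ x H
  · simp

end Good

end Pool.Agent.H33.Vmv
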