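import Mathlib
import Pool.Agent.H33.VmvGood

set_option autoImplicit false

open Finset

namespace Pool.Agent.H33.Vmv

/-- The box `[1, X]^n`. -/
noncomputable def box (n X : ℕ) : Finset (Fin n → ℤ) := Fintype.piFinset fun _ => Finset.Icc (1 : ℤ) X

theorem mem_box {n X : ℕ} {x : Fin n → ℤ} : x ∈ box n X ↔ ∀ i, 1 ≤ x i ∧ x i ≤ X := by
  simp [box]

theorem card_box (n X : ℕ) : (box n X).card = X ^ n := by
  simp [box]

/-- Equal power sums up to `k`. -/
def PS {s : ℕ} (k : ℕ) (x y : Fin s → ℤ) : Prop :=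
  ∀ j, 1 ≤ j → j ≤ k → ∑ i, x i ^ j = ∑ i, y i ^ j

/-- The box sizes. -/
def Hs (s d X : ℕ) : Fin d → ℕ := fun l => 2 ^ (s + 1) * X ^ (s - (l : ℕ))

theorem card_Aset_nil {a d : ℕ} (n : ℕ) (x : Fin a → ℤ) (H : Fin d → ℕ) :
    (Aset n x H []).card ≤ ∏ l, (2 * ((d + 1) ^ n * H l) + 1) := by
  classical
  rw [Aset]
  refine (Finset.card_filter_le _ _).trans ?_
  rw [Fintype.card_piFinset]
  apply le_of_eq
  apply Finset.prod_congr rfl
  intro l _
  rw [Int.card_Icc]
  simp only [List.length_nil, Nat.sub_zero]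
  have : (((d : ℤ) + 1) ^ n * (H l : ℤ) + 1 - -(((d : ℤ) + 1) ^ n * (H l : ℤ))) =
      ((2 * ((d + 1) ^ n * H l) + 1 : ℕ) : ℤ) := by push_cast; ring
  rw [this, Int.toNat_natCast]

theorem Pot_nil {a d s X γ : ℕ} (hγ : 1 ≤ γ) (x : Fin a → ℤ)
    (hX : (2 * ((d + 1) ^ s * 2 ^ (s + 1)) + 1) ^ d < X) :
    Pot s X γ x (Hs s d X) [] ≤ (∑ l : Fin d, (s - (l : ℕ))) / γ + d := by
  classical
  set N := ∑ l : Fin d, (s - (l : ℕ)) with hN
  set C1 := 2 * ((d + 1) ^ s * 2 ^ (s + 1)) + 1 with hC1
  have hX1 : 1 ≤ X := by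
    have : 1 ≤ C1 ^ d := Nat.one_le_pow _ _ (by omega)
    omega
  have hcard : (Aset s x (Hs s d X) []).card < X ^ (N + 1) := by
    calc (Aset s x (Hs s d X) []).card ≤ ∏ l, (2 * ((d + 1) ^ s * Hs s d X l) + 1) :=
          card_Aset_nil s x _
      _ ≤ ∏ l : Fin d, (C1 * X ^ (s - (l : ℕ))) := by
          apply Finset.prod_le_prod
          · intro l _; exact Nat.zero_le _
          · intro l _
            have h1 : 1 ≤ X ^ (s - (l : ℕ)) := Nat.one_le_pow _ _ hX1
            have e : 2 * ((d + 1) ^ s * Hs s d X l) + 1 =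
                (2 * ((d + 1) ^ s * 2 ^ (s + 1))) * X ^ (s - (l : ℕ)) + 1 := by
              rw [Hs]; ring
            rw [e, hC1, add_mul, one_mul]
            omega
      _ = C1 ^ d * X ^ N := by
          rw [Finset.prod_mul_distrib, Finset.prod_const, Finset.card_univ, Fintype.card_fin,
            Finset.prod_pow_eq_pow_sum]
      _ < X * X ^ N := Nat.mul_lt_mul_of_pos_right hX (by positivity)
      _ = X ^ (N + 1) := by rw [pow_succ]; ring
  have hlog : Nat.log (X ^ γ) (Aset s x (Hs s d X) []).card ≤ N / γ := by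
    rcases Nat.eq_zero_or_pos (Aset s x (Hs s d X) []).card with h0 | h0
    · rw [h0]; simp
    · have : Nat.log (X ^ γ) (Aset s x (Hs s d X) []).card < N / γ + 1 := by
        apply Nat.log_lt_of_lt_pow h0.ne'
        refine hcard.trans_le ?_
        rw [← pow_mul]
        apply Nat.pow_le_pow_right hX1
        have := Nat.lt_div_mul_add (a := N) (b := γ) (by omega)
        rw [Nat.mul_add, mul_one]
        have e : γ * (N / γ) = N / γ * γ := Nat.mul_comm _ _
        omega
      omega
  have hrk : Module.finrank ℚ (qspan (Aset s x (Hs s d X) [])) ≤ d := by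
    have := Submodule.finrank_le (qspan (Aset s x (Hs s d X) []))
    rwa [Module.finrank_fin_fun] at this
  rw [Pot]; omega

/-- Restriction to the first `a` coordinates. -/
def fst {s : ℕ} (a : ℕ) (h : a ≤ s) (x : Fin s → ℤ) : Fin a → ℤ := fun i => x (Fin.castLE h i)

/-- A fibre bound for maps on pairs for which the first component is determined up to permutation. -/
theorem card_fiber_fst {s : ℕ} (S : Finset ((Fin s → ℤ) × (Fin s → ℤ)))
    (hS : ∀ p ∈ S, ∀ p' ∈ S, p.2 = p'.2 ∧ ∃ σ : Equiv.Perm (Fin s), p'.1 = p.1 ∘ σ) :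
    S.card ≤ s.factorial := by
  classical
  rcases S.eq_empty_or_nonempty with h | ⟨p0, hp0⟩
  · rw [h]; simp
  · have hsub : S ⊆ (univ : Finset (Equiv.Perm (Fin s))).image
        (fun σ : Equiv.Perm (Fin s) => ((p0.1 ∘ σ : Fin s → ℤ), p0.2)) := by
      intro p hp
      obtain ⟨h1, σ, hσ⟩ := hS p0 hp0 p hp
      rw [Finset.mem_image]
      exact ⟨σ, Finset.mem_univ _, Prod.ext hσ.symm h1⟩
    calc S.card ≤ _ := Finset.card_le_card hsub
      _ ≤ (univ : Finset (Equiv.Perm (Fin s))).card := Finset.card_image_le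
      _ = s.factorial := by rw [Finset.card_univ, Fintype.card_perm, Fintype.card_fin]

theorem card_fiber_snd {s : ℕ} (S : Finset ((Fin s → ℤ) × (Fin s → ℤ)))
    (hS : ∀ p ∈ S, ∀ p' ∈ S, p.1 = p'.1 ∧ ∃ σ : Equiv.Perm (Fin s), p'.2 = p.2 ∘ σ) :
    S.card ≤ s.factorial := by
  classical
  rcases S.eq_empty_or_nonempty with h | ⟨p0, hp0⟩
  · rw [h]; simp
  · have hsub : S ⊆ (univ : Finset (Equiv.Perm (Fin s))).image
        (fun σ : Equiv.Perm (Fin s) => (p0.1, (p0.2 ∘ σ : Fin s → ℤ))) := by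
      intro p hp
      obtain ⟨h1, σ, hσ⟩ := hS p0 hp0 p hp
      rw [Finset.mem_image]
      exact ⟨σ, Finset.mem_univ _, Prod.ext h1 hσ.symm⟩
    calc S.card ≤ _ := Finset.card_le_card hsub
      _ ≤ (univ : Finset (Equiv.Perm (Fin s))).card := Finset.card_image_le
      _ = s.factorial := by rw [Finset.card_univ, Fintype.card_perm, Fintype.card_fin]

open Classical in
/-- The good solutions with initial block in `U`. -/
noncomputable def goodSet (k s X a γ : ℕ) (h : a ≤ s) (U : Finset (Fin a → ℤ)) :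
    Finset ((Fin s → ℤ) × (Fin s → ℤ)) :=
  (box s X ×ˢ box s X).filter (fun p => PS k p.1 p.2 ∧ (∀ i j, p.1 i ≠ p.2 j) ∧
    (∀ j, X ^ (γ + 1) ≤ (univ : Finset (Fin a)).lcm (fun i => (p.2 j - fst a h p.1 i).natAbs)) ∧
    fst a h p.1 ∈ U)

open Classical in
/-- The bad solutions. -/
noncomputable def badSet (k s X a γ : ℕ) (h : a ≤ s) (j : Fin s) :
    Finset ((Fin s → ℤ) × (Fin s → ℤ)) :=
  (box s X ×ˢ box s X).filter (fun p => PS k p.1 p.2 ∧ (∀ i j, p.1 i ≠ p.2 j) ∧
    (univ : Finset (Fin a)).lcm (fun i => (p.2 j - fst a h p.1 i).natAbs) < X ^ (γ + 1))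

open Classical in
theorem card_goodSet {k d X a γ T : ℕ} (h : a ≤ k + d) (hd : d ≤ a) (ha : 0 < a) (hγ : 1 ≤ γ)
    (U : Finset (Fin a → ℤ))
    (hX : (2 * ((d + 1) ^ (k + d) * 2 ^ (k + d + 1)) + 1) ^ d < X)
    (hT : ∀ N : ℕ, N ≠ 0 → N ≤ X ^ (k + d) → N.divisors.card ≤ T) :
    (goodSet k (k + d) X a γ h U).card ≤ (k + d).factorial *
      (U.card * ((T ^ a + 1) ^ (k + d) *
        X ^ ((∑ l : Fin d, (k + d - (l : ℕ))) / γ + d - 1))) := by
  have hX2 : 2 ≤ X := by
    have : 1 ≤ (2 * ((d + 1) ^ (k + d) * 2 ^ (k + d + 1)) + 1) ^ d :=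
      Nat.one_le_pow _ _ (by omega)
    omega
  set s := k + d with hs
  set S := goodSet k s X a γ h U with hS
  let F : (Fin s → ℤ) × (Fin s → ℤ) → (Fin a → ℤ) × (Fin s → ℤ) := fun p => (fst a h p.1, p.2)
  have hmem : ∀ p ∈ S, (p.1 ∈ box s X ∧ p.2 ∈ box s X) ∧ PS k p.1 p.2 ∧ (∀ i j, p.1 i ≠ p.2 j) ∧
      (∀ j, X ^ (γ + 1) ≤ (univ : Finset (Fin a)).lcm
        (fun i => (p.2 j - fst a h p.1 i).natAbs)) ∧ fst a h p.1 ∈ U := by
    intro p hp
    rw [hS, goodSet, Finset.mem_filter, Finset.mem_product] at hp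
    exact hp
  have h1 : S.card ≤ s.factorial * (S.image F).card := by
    apply Finset.card_le_mul_card_image
    intro b _
    apply card_fiber_fst
    intro p hp p' hp'
    rw [Finset.mem_filter] at hp hp'
    have hpm := hmem p hp.1
    have hpm' := hmem p' hp'.1
    have e : F p = F p' := by rw [hp.2, hp'.2]
    have e1 : fst a h p.1 = fst a h p'.1 := (Prod.ext_iff.1 e).1
    have e2 : p.2 = p'.2 := (Prod.ext_iff.1 e).2
    refine ⟨e2, ?_⟩
    apply perm_of_agree p.1 p'.1 k ((univ : Finset (Fin a)).map (Fin.castLEEmb h))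
    · rw [Finset.card_map, Finset.card_univ, Fintype.card_fin]; omega
    · intro i hi
      rw [Finset.mem_map] at hi
      obtain ⟨i', -, rfl⟩ := hi
      exact congrFun e1 i'
    · intro j hj hjk
      rw [hpm.2.1 j hj hjk, hpm'.2.1 j hj hjk, e2]
  refine h1.trans (Nat.mul_le_mul_left _ ?_)
  -- the image
  have himg : S.image F ⊆ U.biUnion (fun u =>
      ((Fintype.piFinset fun _ : Fin s => Finset.Icc (1 : ℤ) X).filter
        (fun v => Alive X γ u (Hs s d X) (X ^ s) (pushes s v []))).image (fun v => (u, v))) := by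
    intro b hb
    rw [Finset.mem_image] at hb
    obtain ⟨p, hp, rfl⟩ := hb
    have hpm := hmem p hp
    rw [Finset.mem_biUnion]
    refine ⟨fst a h p.1, hpm.2.2.2.2, ?_⟩
    · rw [Finset.mem_image]
      refine ⟨p.2, ?_, rfl⟩
      rw [Finset.mem_filter]
      refine ⟨hpm.1.2, ?_⟩
      obtain ⟨f, hf1, hf2⟩ := exists_diff (k := k) (d := d) p.1 p.2 X (mem_box.1 hpm.1.1)
        (mem_box.1 hpm.1.2) hpm.2.1
      refine ⟨f, ?_, ?_, ?_⟩
      · intro l
        have := hf2 l
        rw [Hs]
        push_cast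
        exact this
      · intro i
        have e := hf1 (fst a h p.1 i)
        have z : ∏ i', (fst a h p.1 i - p.1 i') = 0 := by
          apply Finset.prod_eq_zero (Finset.mem_univ (Fin.castLE h i))
          rw [fst, sub_self]
        rw [z, zero_sub] at e
        rw [← e]
        constructor
        · rw [neg_ne_zero, Finset.prod_ne_zero_iff]
          intro j _
          rw [sub_ne_zero]
          exact hpm.2.2.1 _ _
        · rw [Int.natAbs_neg]
          have hp : (∏ j, (fst a h p.1 i - p.2 j)).natAbs =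
              ∏ j, (fst a h p.1 i - p.2 j).natAbs := map_prod Int.natAbsHom _ Finset.univ
          rw [hp]
          calc ∏ j, (fst a h p.1 i - p.2 j).natAbs ≤ ∏ _j : Fin s, X := by
                apply Finset.prod_le_prod
                · intro j _; exact Nat.zero_le _
                · intro j _
                  have b1 := mem_box.1 hpm.1.1 (Fin.castLE h i)
                  have b2 := mem_box.1 hpm.1.2 j
                  have b3 : fst a h p.1 i = p.1 (Fin.castLE h i) := rfl
                  rw [b3]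
                  omega
            _ = X ^ s := by simp
      · intro y hy
        rw [mem_pushes] at hy
        rcases hy with hy | ⟨j, rfl⟩
        · simp at hy
        · refine ⟨?_, ?_, ?_⟩
          · intro i
            have e := hf1 (p.2 j)
            have z : ∏ j', (p.2 j - p.2 j') = 0 := by
              apply Finset.prod_eq_zero (Finset.mem_univ j)
              rw [sub_self]
            rw [z, sub_zero] at e
            rw [← e]
            exact Finset.dvd_prod_of_mem (fun i' => p.2 j - p.1 i')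
              (Finset.mem_univ (Fin.castLE h i))
          · intro i
            exact (hpm.2.2.1 _ _).symm
          · exact hpm.2.2.2.1 j
  calc (S.image F).card ≤ _ := Finset.card_le_card himg
    _ ≤ ∑ u ∈ U, (((Fintype.piFinset fun _ : Fin s => Finset.Icc (1 : ℤ) X).filter
        (fun v => Alive X γ u (Hs s d X) (X ^ s) (pushes s v []))).image
          (fun v => (u, v))).card := Finset.card_biUnion_le
    _ ≤ ∑ u ∈ U, ((T ^ a + 1) ^ s * X ^ ((∑ l : Fin d, (s - (l : ℕ))) / γ + d - 1)) := by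
        apply Finset.sum_le_sum
        intro u _
        refine Finset.card_image_le.trans ?_
        refine (count_alive s X γ u (Hs s d X) hγ hX2 ha hT).trans ?_
        apply Nat.mul_le_mul_left
        apply Nat.pow_le_pow_right (by omega)
        have := Pot_nil (s := s) (d := d) hγ u hX
        omega
    _ = U.card * ((T ^ a + 1) ^ s * X ^ ((∑ l : Fin d, (s - (l : ℕ))) / γ + d - 1)) := by
        rw [Finset.sum_const, smul_eq_mul]

open Classical in
/-- Few pairs `(u, t)` with small least common multiple of the differences. -/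
theorem card_badPairs (a X Z T : ℕ) (hT : ∀ N : ℕ, N ≠ 0 → N < Z → N.divisors.card ≤ T) :
    ((box a X ×ˢ Finset.Icc (1 : ℤ) X).filter (fun p => (∀ i, p.1 i ≠ p.2) ∧
      (univ : Finset (Fin a)).lcm (fun i => (p.2 - p.1 i).natAbs) < Z)).card ≤
      X * (Z * (2 * T) ^ a) := by
  have hsub : ((box a X ×ˢ Finset.Icc (1 : ℤ) X).filter (fun p => (∀ i, p.1 i ≠ p.2) ∧
      (univ : Finset (Fin a)).lcm (fun i => (p.2 - p.1 i).natAbs) < Z)) ⊆
      (Finset.Icc (1 : ℤ) X).biUnion (fun t => (Finset.Ico 1 Z).biUnion (fun L =>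
        (Fintype.piFinset fun _ : Fin a => (L.divisors.image (fun m : ℕ => t - (m : ℤ))) ∪
          (L.divisors.image (fun m : ℕ => t + (m : ℤ)))).image (fun u => (u, t)))) := by
    intro p hp
    rw [Finset.mem_filter, Finset.mem_product] at hp
    obtain ⟨⟨hp1, hp2⟩, hne, hlt⟩ := hp
    have hL0 : (univ : Finset (Fin a)).lcm (fun i => (p.2 - p.1 i).natAbs) ≠ 0 := by
      intro h0
      rw [Finset.lcm_eq_zero_iff] at h0
      obtain ⟨i, -, hi⟩ := h0
      rw [Int.natAbs_eq_zero, sub_eq_zero] at hi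
      exact hne i hi.symm
    rw [Finset.mem_biUnion]
    refine ⟨p.2, hp2, ?_⟩
    rw [Finset.mem_biUnion]
    refine ⟨(univ : Finset (Fin a)).lcm (fun i => (p.2 - p.1 i).natAbs), ?_, ?_⟩
    · rw [Finset.mem_Ico]; omega
    · rw [Finset.mem_image]
      refine ⟨p.1, ?_, rfl⟩
      rw [Fintype.mem_piFinset]
      intro i
      have hdiv : (p.2 - p.1 i).natAbs ∈
          ((univ : Finset (Fin a)).lcm (fun i => (p.2 - p.1 i).natAbs)).divisors := by
        rw [Nat.mem_divisors]
        exact ⟨Finset.dvd_lcm (Finset.mem_univ i), hL0⟩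
      rw [Finset.mem_union, Finset.mem_image, Finset.mem_image]
      rcases le_total 0 (p.2 - p.1 i) with h | h
      · left
        refine ⟨_, hdiv, ?_⟩
        rw [Int.natAbs_of_nonneg h]; ring
      · right
        refine ⟨_, hdiv, ?_⟩
        rw [Int.ofNat_natAbs_of_nonpos h]; ring
  calc _ ≤ _ := Finset.card_le_card hsub
    _ ≤ ∑ t ∈ Finset.Icc (1 : ℤ) X, ((Finset.Ico 1 Z).biUnion (fun L =>
        (Fintype.piFinset fun _ : Fin a => (L.divisors.image (fun m : ℕ => t - (m : ℤ))) ∪
          (L.divisors.image (fun m : ℕ => t + (m : ℤ)))).image (fun u => (u, t)))).card :=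
        Finset.card_biUnion_le
    _ ≤ ∑ t ∈ Finset.Icc (1 : ℤ) X, (Z * (2 * T) ^ a) := by
        apply Finset.sum_le_sum
        intro t _
        refine Finset.card_biUnion_le.trans ?_
        calc ∑ L ∈ Finset.Ico 1 Z, ((Fintype.piFinset fun _ : Fin a =>
              (L.divisors.image (fun m : ℕ => t - (m : ℤ))) ∪
              (L.divisors.image (fun m : ℕ => t + (m : ℤ)))).image (fun u => (u, t))).card
            ≤ ∑ L ∈ Finset.Ico 1 Z, (2 * T) ^ a := by
              apply Finset.sum_le_sum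
              intro L hL
              rw [Finset.mem_Ico] at hL
              refine Finset.card_image_le.trans ?_
              rw [Fintype.card_piFinset, Finset.prod_const, Finset.card_univ, Fintype.card_fin]
              apply Nat.pow_le_pow_left
              refine (Finset.card_union_le _ _).trans ?_
              have h1 := hT L (by omega) hL.2
              have h2 := Finset.card_image_le (s := L.divisors) (f := fun m : ℕ => t - (m : ℤ))
              have h3 := Finset.card_image_le (s := L.divisors) (f := fun m : ℕ => t + (m : ℤ))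
              omega
          _ = (Z - 1) * (2 * T) ^ a := by
              rw [Finset.sum_const, Nat.card_Ico, smul_eq_mul]
          _ ≤ Z * (2 * T) ^ a := Nat.mul_le_mul_right _ (Nat.sub_le _ _)
    _ = X * (Z * (2 * T) ^ a) := by
        rw [Finset.sum_const, Int.card_Icc, smul_eq_mul]; simp

open Classical in
/-- The initial blocks close to some point. -/
noncomputable def nearSet (a X Z : ℕ) : Finset (Fin a → ℤ) :=
  (box a X).filter (fun u => ∃ t ∈ Finset.Icc (1 : ℤ) X, (∀ i, u i ≠ t) ∧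
    (univ : Finset (Fin a)).lcm (fun i => (t - u i).natAbs) < Z)

open Classical in
theorem card_nearSet (a X Z T : ℕ) (hT : ∀ N : ℕ, N ≠ 0 → N < Z → N.divisors.card ≤ T) :
    (nearSet a X Z).card ≤ X * (Z * (2 * T) ^ a) := by
  refine le_trans ?_ (card_badPairs a X Z T hT)
  refine le_trans (Finset.card_le_card ?_) (Finset.card_image_le (f := Prod.fst))
  intro u hu
  rw [nearSet, Finset.mem_filter] at hu
  obtain ⟨hb, t, ht, hne, hlt⟩ := hu
  rw [Finset.mem_image]
  exact ⟨(u, t), Finset.mem_filter.2 ⟨Finset.mem_product.2 ⟨hb, ht⟩, hne, hlt⟩, rfl⟩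

open Classical in
theorem card_badSet {s k d X a γ T : ℕ} (hs : s = k + d) (h : a ≤ s) (hd : 1 ≤ d)
    (hγ : γ + 1 ≤ s) (hX : 1 ≤ X) (j : Fin s)
    (hT : ∀ N : ℕ, N ≠ 0 → N ≤ X ^ s → N.divisors.card ≤ T) :
    (badSet k s X a γ h j).card ≤ s.factorial *
      ((X * (X ^ (γ + 1) * (2 * T) ^ a)) * (X ^ (s - a) * X ^ (d - 1))) := by
  -- a set `J` of `d` indices containing `j`
  obtain ⟨J, hjJ, hJcard⟩ : ∃ J : Finset (Fin s), j ∈ J ∧ J.card = d := by
    obtain ⟨J, hJ1, -, hJ2⟩ := Finset.exists_subsuperset_card_eq (s := {j})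
      (t := (univ : Finset (Fin s))) (n := d) (Finset.subset_univ _) (by simpa using hd)
      (by rw [Finset.card_univ, Fintype.card_fin]; omega)
    exact ⟨J, by simpa using hJ1, hJ2⟩
  set I : Finset (Fin s) := (univ : Finset (Fin a)).map (Fin.castLEEmb h) with hI
  set S := badSet k s X a γ h j with hS
  have hmem : ∀ p ∈ S, (p.1 ∈ box s X ∧ p.2 ∈ box s X) ∧ PS k p.1 p.2 ∧ (∀ i j, p.1 i ≠ p.2 j) ∧
      (univ : Finset (Fin a)).lcm (fun i => (p.2 j - fst a h p.1 i).natAbs) < X ^ (γ + 1) := by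
    intro p hp
    rw [hS, badSet, Finset.mem_filter, Finset.mem_product] at hp
    exact hp
  let F : (Fin s → ℤ) × (Fin s → ℤ) →
      ((Fin a → ℤ) × ℤ) × (({i : Fin s // i ∉ I} → ℤ) × ({i : Fin s // i ∈ J.erase j} → ℤ)) :=
    fun p => ((fst a h p.1, p.2 j), (fun i => p.1 i, fun i => p.2 i))
  have h1 : S.card ≤ s.factorial * (S.image F).card := by
    apply Finset.card_le_mul_card_image
    intro b _
    apply card_fiber_snd
    intro p hp p' hp'
    rw [Finset.mem_filter] at hp hp'
    have hpm := hmem p hp.1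
    have hpm' := hmem p' hp'.1
    have e : F p = F p' := by rw [hp.2, hp'.2]
    have e0 := Prod.ext_iff.1 e
    have e1 : fst a h p.1 = fst a h p'.1 := (Prod.ext_iff.1 e0.1).1
    have e2 : p.2 j = p'.2 j := (Prod.ext_iff.1 e0.1).2
    have e3 : (fun i : {i : Fin s // i ∉ I} => p.1 i) = (fun i : {i : Fin s // i ∉ I} => p'.1 i) :=
      (Prod.ext_iff.1 e0.2).1
    have e4 : (fun i : {i : Fin s // i ∈ J.erase j} => p.2 i) =
        (fun i : {i : Fin s // i ∈ J.erase j} => p'.2 i) := (Prod.ext_iff.1 e0.2).2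
    have e5 : p.1 = p'.1 := by
      funext i
      by_cases hi : i ∈ I
      · rw [hI, Finset.mem_map] at hi
        obtain ⟨i', -, rfl⟩ := hi
        exact congrFun e1 i'
      · exact congrFun e3 ⟨i, hi⟩
    refine ⟨e5, ?_⟩
    apply perm_of_agree p.2 p'.2 k J
    · rw [hJcard, hs]
    · intro i hi
      by_cases hij : i = j
      · rw [hij]; exact e2
      · exact congrFun e4 ⟨i, Finset.mem_erase.2 ⟨hij, hi⟩⟩
    · intro l hl hlk
      rw [← hpm.2.1 l hl hlk, ← hpm'.2.1 l hl hlk, e5]
  refine h1.trans (Nat.mul_le_mul_left _ ?_)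
  set BP := ((box a X ×ˢ Finset.Icc (1 : ℤ) X).filter (fun p => (∀ i, p.1 i ≠ p.2) ∧
      (univ : Finset (Fin a)).lcm (fun i => (p.2 - p.1 i).natAbs) < X ^ (γ + 1))) with hBP
  have himg : S.image F ⊆ BP ×ˢ ((Fintype.piFinset fun _ : {i : Fin s // i ∉ I} =>
      Finset.Icc (1 : ℤ) X) ×ˢ (Fintype.piFinset fun _ : {i : Fin s // i ∈ J.erase j} =>
      Finset.Icc (1 : ℤ) X)) := by
    intro b hb
    rw [Finset.mem_image] at hb
    obtain ⟨p, hp, rfl⟩ := hb
    have hpm := hmem p hp
    have hb1 := mem_box.1 hpm.1.1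
    have hb2 := mem_box.1 hpm.1.2
    rw [Finset.mem_product, Finset.mem_product]
    refine ⟨?_, ?_, ?_⟩
    · rw [hBP, Finset.mem_filter, Finset.mem_product]
      refine ⟨⟨mem_box.2 (fun i => hb1 _), Finset.mem_Icc.2 (hb2 j)⟩, ?_, hpm.2.2.2⟩
      intro i
      exact hpm.2.2.1 _ _
    · rw [Fintype.mem_piFinset]; intro i; exact Finset.mem_Icc.2 (hb1 _)
    · rw [Fintype.mem_piFinset]; intro i; exact Finset.mem_Icc.2 (hb2 _)
  calc (S.image F).card ≤ _ := Finset.card_le_card himg
    _ = BP.card * (X ^ (s - a) * X ^ (d - 1)) := by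
        rw [Finset.card_product, Finset.card_product, Fintype.card_piFinset,
          Fintype.card_piFinset]
        simp only [Int.card_Icc, Finset.prod_const, Finset.card_univ]
        have c1 : Fintype.card {i : Fin s // i ∉ I} = s - a := by
          rw [Fintype.card_subtype_compl, Fintype.card_coe, Fintype.card_fin, hI, Finset.card_map,
            Finset.card_univ, Fintype.card_fin]
        have c2 : Fintype.card {i : Fin s // i ∈ J.erase j} = d - 1 := by
          rw [Fintype.card_coe, Finset.card_erase_of_mem hjJ, hJcard]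
        rw [c1, c2]
        simp
    _ ≤ (X * (X ^ (γ + 1) * (2 * T) ^ a)) * (X ^ (s - a) * X ^ (d - 1)) := by
        apply Nat.mul_le_mul_right
        apply card_badPairs
        intro N hN hNlt
        apply hT N hN
        refine hNlt.le.trans ?_
        exact Nat.pow_le_pow_right hX hγ

end Pool.Agent.H33.Vmv
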