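import Mathlib
import Pool.Agent.H33.VmvCount

set_option autoImplicit false

open Finset

namespace Pool.Agent.H33.Vmv

open Classical in
/-- Solutions without common values. -/
noncomputable def nset (k s X : ℕ) : Finset ((Fin s → ℤ) × (Fin s → ℤ)) :=
  (box s X ×ˢ box s X).filter (fun p => PS k p.1 p.2 ∧ ∀ i j, p.1 i ≠ p.2 j)

open Classical in
/-- Off-diagonal solutions. -/
noncomputable def offd (k s X : ℕ) : Finset ((Fin s → ℤ) × (Fin s → ℤ)) :=
  (box s X ×ˢ box s X).filter (fun p => PS k p.1 p.2 ∧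
    (univ : Finset (Fin s)).val.map p.1 ≠ (univ : Finset (Fin s)).val.map p.2)

theorem two_sum (k : ℕ) : ∀ d : ℕ,
    2 * ∑ l : Fin d, (k + d - (l : ℕ)) = 2 * d * k + d ^ 2 + d
  | 0 => by simp
  | d + 1 => by
    rw [Fin.sum_univ_succ]
    have e : ∀ l : Fin d, k + (d + 1) - ((Fin.succ l : Fin (d + 1)) : ℕ) = k + d - (l : ℕ) := by
      intro l; simp only [Fin.val_succ]; omega
    simp only [e, Fin.val_zero, Nat.sub_zero]
    rw [mul_add, two_sum k d]
    ring

theorem div_bound {t w e N : ℕ} (h1 : w ≤ 2 * t + e + 1) (h2 : 2 * t ≤ w + e + 1) (htw : t ≤ w)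
    (hN : 4 * N + (e + 1) ^ 2 + 1 ≤ w ^ 2) : N / t < w - t := by
  apply Nat.div_lt_of_lt_mul
  obtain ⟨v, rfl⟩ := Nat.exists_eq_add_of_le htw
  rw [Nat.add_sub_cancel_left]
  zify at h1 h2 hN ⊢
  have h3 : ((v : ℤ) - t) ^ 2 ≤ ((e : ℤ) + 1) ^ 2 := by
    apply sq_le_sq' <;> linarith
  nlinarith

/-- Descending through the levels. -/
theorem exists_level {s : ℕ} (M : Fin s → ℕ) (X t0 : ℕ) (h0 : ∀ j, X ^ (t0 + 1) ≤ M j) :
    ∀ n : ℕ, (∀ j, X ^ (t0 + n + 1) ≤ M j) ∨ ∃ t, t0 ≤ t ∧ t < t0 + n ∧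
      (∀ j, X ^ (t + 1) ≤ M j) ∧ ∃ j, M j < X ^ (t + 2)
  | 0 => Or.inl h0
  | n + 1 => by
    rcases exists_level M X t0 h0 n with h | ⟨t, h1, h2, h3⟩
    · by_cases hc : ∀ j, X ^ (t0 + (n + 1) + 1) ≤ M j
      · exact Or.inl hc
      · push Not at hc
        exact Or.inr ⟨t0 + n, by omega, by omega, h, hc⟩
    · exact Or.inr ⟨t, h1, by omega, h3⟩

theorem nset_bound (k d δ : ℕ) (hd : 1 ≤ d) (hδ : δ + 1 ≤ k)
    (h : 4 * d * k + 2 * d ^ 2 + 2 * d + (d + δ) ^ 2 + 1 ≤ (k - δ - 1) ^ 2) :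
    ∃ C E : ℕ, ∀ X T : ℕ, 1 ≤ X → 1 ≤ T →
      (∀ N : ℕ, N ≠ 0 → N ≤ X ^ (k + d) → N.divisors.card ≤ T) →
      (nset k (k + d) X).card ≤ C * X ^ (k + d - δ) * T ^ E := by
  classical
  obtain ⟨w, hw⟩ : ∃ w, w = k - δ - 1 := ⟨_, rfl⟩
  obtain ⟨e, he⟩ : ∃ e, e = d + δ - 1 := ⟨_, rfl⟩
  rw [← hw] at h
  have he1 : d + δ = e + 1 := by omega
  have hwe : e + 2 ≤ w := by
    by_contra hcon
    have h1 : w ≤ e + 1 := by omega
    have h2 : w ^ 2 ≤ (e + 1) ^ 2 := Nat.pow_le_pow_left h1 2
    rw [he1] at h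
    omega
  set t0 := (w - e) / 2 with ht0
  set t1 := t0 + e with ht1
  set a := t1 + 2 with ha
  set N := ∑ l : Fin d, (k + d - (l : ℕ)) with hN
  have h2N : 2 * N = 2 * d * k + d ^ 2 + d := two_sum k d
  have h4N : 4 * N + (e + 1) ^ 2 + 1 ≤ w ^ 2 := by
    have : 4 * N = 4 * d * k + 2 * d ^ 2 + 2 * d := by
      calc 4 * N = 2 * (2 * N) := by ring
        _ = _ := by rw [h2N]; ring
    rw [← he1]
    omega
  have hdiv : ∀ t, t0 ≤ t → t ≤ t1 → N / t < w - t := fun t h1 h2 =>
    div_bound (e := e) (by omega) (by omega) (by omega) h4N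
  have ht01 : 1 ≤ t0 := by omega
  have has : a ≤ k + d := by omega
  set C0 := (2 * ((d + 1) ^ (k + d) * 2 ^ (k + d + 1)) + 1) ^ d with hC0
  set s := k + d with hs
  set E := a * (s + 1) with hE
  refine ⟨C0 ^ (2 * s) + s.factorial * 2 ^ s + e * (s.factorial * (2 ^ a * 2 ^ s)) +
    s * (s.factorial * 2 ^ a), E, ?_⟩
  intro X T hX hT hTd
  set Q := X ^ (s - δ) * T ^ E with hQ
  have hXT : 1 ≤ Q := Nat.mul_pos (Nat.pow_pos hX) (Nat.pow_pos hT)
  rcases le_or_gt X C0 with hXC | hXC
  · -- small `X`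
    have h1 : (nset k s X).card ≤ C0 ^ (2 * s) := by
      calc (nset k s X).card ≤ (box s X ×ˢ box s X).card := Finset.card_filter_le _ _
        _ = X ^ (2 * s) := by rw [Finset.card_product, card_box, ← pow_add]; congr 1; omega
        _ ≤ C0 ^ (2 * s) := Nat.pow_le_pow_left hXC _
    calc (nset k s X).card ≤ C0 ^ (2 * s) := h1
      _ ≤ (C0 ^ (2 * s) + s.factorial * 2 ^ s + e * (s.factorial * (2 ^ a * 2 ^ s)) +
          s * (s.factorial * 2 ^ a)) * 1 := by omega
      _ ≤ (C0 ^ (2 * s) + s.factorial * 2 ^ s + e * (s.factorial * (2 ^ a * 2 ^ s)) +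
          s * (s.factorial * 2 ^ a)) * Q := Nat.mul_le_mul_left _ hXT
      _ = _ := by rw [hQ]; ring
  · -- large `X`
    have hsub : nset k s X ⊆ (goodSet k s X a t1 has (box a X) ∪
        (Finset.Ico t0 t1).biUnion (fun t => goodSet k s X a t has (nearSet a X (X ^ (t + 2))))) ∪
        (univ : Finset (Fin s)).biUnion (fun j => badSet k s X a t0 has j) := by
      intro p hp
      rw [nset, Finset.mem_filter, Finset.mem_product] at hp
      have hu : fst a has p.1 ∈ box a X := by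
        rw [mem_box]; intro i; exact mem_box.1 hp.1.1 _
      rw [Finset.mem_union, Finset.mem_union]
      by_cases hg : ∀ j, X ^ (t0 + 1) ≤ (univ : Finset (Fin a)).lcm
          (fun i => (p.2 j - fst a has p.1 i).natAbs)
      · left
        rcases exists_level _ X t0 hg e with h1 | ⟨t, h1, h2, h3, j, hj⟩
        · left
          rw [goodSet, Finset.mem_filter, Finset.mem_product]
          exact ⟨hp.1, hp.2.1, hp.2.2, h1, hu⟩
        · right
          rw [Finset.mem_biUnion]
          refine ⟨t, Finset.mem_Ico.2 ⟨h1, h2⟩, ?_⟩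
          rw [goodSet, Finset.mem_filter, Finset.mem_product]
          refine ⟨hp.1, hp.2.1, hp.2.2, h3, ?_⟩
          rw [nearSet, Finset.mem_filter]
          exact ⟨hu, p.2 j, Finset.mem_Icc.2 (mem_box.1 hp.1.2 j), fun i => hp.2.2 _ _, hj⟩
      · right
        push Not at hg
        obtain ⟨j, hj⟩ := hg
        rw [Finset.mem_biUnion]
        refine ⟨j, Finset.mem_univ _, ?_⟩
        rw [badSet, Finset.mem_filter, Finset.mem_product]
        exact ⟨hp.1, hp.2.1, hp.2.2, hj⟩
    have hTs : (T ^ a + 1) ^ s ≤ 2 ^ s * T ^ (a * s) := by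
      have : 1 ≤ T ^ a := Nat.pow_pos hT
      calc (T ^ a + 1) ^ s ≤ (2 * T ^ a) ^ s := Nat.pow_le_pow_left (by omega) _
        _ = 2 ^ s * T ^ (a * s) := by rw [mul_pow, ← pow_mul]
    have htop : (goodSet k s X a t1 has (box a X)).card ≤ s.factorial * 2 ^ s * Q := by
      refine (card_goodSet (T := T) has (by omega) (by omega) (by omega) _ hXC hTd).trans ?_
      have h2 : X ^ a * X ^ (N / t1 + d - 1) ≤ X ^ (s - δ) := by
        rw [← pow_add]
        apply Nat.pow_le_pow_right hX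
        have := hdiv t1 (by omega) le_rfl
        omega
      have h3 : T ^ (a * s) ≤ T ^ E := Nat.pow_le_pow_right hT (Nat.mul_le_mul_left _ (by omega))
      rw [card_box]
      calc s.factorial * (X ^ a * ((T ^ a + 1) ^ s * X ^ (N / t1 + d - 1)))
          = s.factorial * ((T ^ a + 1) ^ s * (X ^ a * X ^ (N / t1 + d - 1))) := by ring
        _ ≤ s.factorial * ((2 ^ s * T ^ (a * s)) * X ^ (s - δ)) :=
            Nat.mul_le_mul_left _ (Nat.mul_le_mul hTs h2)
        _ ≤ s.factorial * ((2 ^ s * T ^ E) * X ^ (s - δ)) :=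
            Nat.mul_le_mul_left _ (Nat.mul_le_mul_right _ (Nat.mul_le_mul_left _ h3))
        _ = s.factorial * 2 ^ s * Q := by rw [hQ]; ring
    have hlev : ∀ t ∈ Finset.Ico t0 t1, (goodSet k s X a t has (nearSet a X (X ^ (t + 2)))).card ≤
        s.factorial * (2 ^ a * 2 ^ s) * Q := by
      intro t ht
      rw [Finset.mem_Ico] at ht
      refine (card_goodSet (T := T) has (by omega) (by omega) (by omega) _ hXC hTd).trans ?_
      have hnear : (nearSet a X (X ^ (t + 2))).card ≤ X * (X ^ (t + 2) * (2 * T) ^ a) := by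
        apply card_nearSet
        intro N' hN' hlt
        apply hTd N' hN'
        exact hlt.le.trans (Nat.pow_le_pow_right hX (by omega))
      have h2 : X * X ^ (t + 2) * X ^ (N / t + d - 1) ≤ X ^ (s - δ) := by
        rw [← pow_succ', ← pow_add]
        apply Nat.pow_le_pow_right hX
        have := hdiv t ht.1 ht.2.le
        omega
      have h3 : T ^ a * T ^ (a * s) = T ^ E := by rw [← pow_add]; congr 1; rw [hE]; ring
      calc s.factorial * ((nearSet a X (X ^ (t + 2))).card *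
            ((T ^ a + 1) ^ s * X ^ (N / t + d - 1)))
          ≤ s.factorial * ((X * (X ^ (t + 2) * (2 * T) ^ a)) *
            ((2 ^ s * T ^ (a * s)) * X ^ (N / t + d - 1))) :=
            Nat.mul_le_mul_left _ (Nat.mul_le_mul hnear (Nat.mul_le_mul_right _ hTs))
        _ = s.factorial * (2 ^ a * 2 ^ s) * (X * X ^ (t + 2) * X ^ (N / t + d - 1)) *
            (T ^ a * T ^ (a * s)) := by rw [mul_pow]; ring
        _ ≤ s.factorial * (2 ^ a * 2 ^ s) * X ^ (s - δ) * (T ^ a * T ^ (a * s)) :=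
            Nat.mul_le_mul_right _ (Nat.mul_le_mul_left _ h2)
        _ = s.factorial * (2 ^ a * 2 ^ s) * Q := by rw [h3, hQ]; ring
    have hbad : ∀ j, (badSet k s X a t0 has j).card ≤ s.factorial * 2 ^ a * Q := by
      intro j
      refine (card_badSet (T := T) hs has hd (by omega) hX j hTd).trans ?_
      have h1 : T ^ a ≤ T ^ E := Nat.pow_le_pow_right hT (Nat.le_mul_of_pos_right _ (by omega))
      have h2 : X * X ^ (t0 + 1) * (X ^ (s - a) * X ^ (d - 1)) = X ^ (s - δ) := by
        have e : s - δ = 1 + (t0 + 1) + ((s - a) + (d - 1)) := by omega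
        rw [e, pow_add X (1 + (t0 + 1)) _, pow_add X 1 (t0 + 1), pow_add X (s - a) (d - 1),
          pow_one]
      calc s.factorial * ((X * (X ^ (t0 + 1) * (2 * T) ^ a)) * (X ^ (s - a) * X ^ (d - 1)))
          = s.factorial * (2 ^ a * T ^ a * (X * X ^ (t0 + 1) * (X ^ (s - a) * X ^ (d - 1)))) := by
            rw [mul_pow]; ring
        _ = s.factorial * (2 ^ a * T ^ a * X ^ (s - δ)) := by rw [h2]
        _ ≤ s.factorial * (2 ^ a * T ^ E * X ^ (s - δ)) :=
            Nat.mul_le_mul_left _ (Nat.mul_le_mul_right _ (Nat.mul_le_mul_left _ h1))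
        _ = s.factorial * 2 ^ a * Q := by rw [hQ]; ring
    calc (nset k s X).card ≤ _ := Finset.card_le_card hsub
      _ ≤ ((goodSet k s X a t1 has (box a X)).card + ∑ t ∈ Finset.Ico t0 t1,
          (goodSet k s X a t has (nearSet a X (X ^ (t + 2)))).card) +
          ∑ j : Fin s, (badSet k s X a t0 has j).card := by
          refine (Finset.card_union_le _ _).trans (add_le_add ?_ Finset.card_biUnion_le)
          exact (Finset.card_union_le _ _).trans (Nat.add_le_add_left Finset.card_biUnion_le _)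
      _ ≤ (s.factorial * 2 ^ s * Q + ∑ _t ∈ Finset.Ico t0 t1,
          s.factorial * (2 ^ a * 2 ^ s) * Q) + ∑ _j : Fin s, s.factorial * 2 ^ a * Q :=
          add_le_add (add_le_add htop (Finset.sum_le_sum hlev))
            (Finset.sum_le_sum (fun j _ => hbad j))
      _ = (s.factorial * 2 ^ s + e * (s.factorial * (2 ^ a * 2 ^ s)) +
          s * (s.factorial * 2 ^ a)) * Q := by
          rw [Finset.sum_const, Finset.sum_const, Finset.card_univ, Fintype.card_fin,
            smul_eq_mul, smul_eq_mul, Nat.card_Ico, ht1, Nat.add_sub_cancel_left]; ring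
      _ ≤ (C0 ^ (2 * s) + s.factorial * 2 ^ s + e * (s.factorial * (2 ^ a * 2 ^ s)) +
          s * (s.factorial * 2 ^ a)) * Q := Nat.mul_le_mul_right _ (by omega)
      _ = _ := by rw [hQ]; ring

theorem map_eq_of_perm {s : ℕ} (x : Fin s → ℤ) (σ : Equiv.Perm (Fin s)) :
    (univ : Finset (Fin s)).val.map (x ∘ σ) = (univ : Finset (Fin s)).val.map x := by
  rw [← Multiset.map_map]
  congr 1
  have := Finset.map_univ_equiv σ
  have h2 := congrArg Finset.val this
  rw [Finset.map_val] at h2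
  exact h2

theorem map_succAbove {s : ℕ} (x : Fin (s + 1) → ℤ) (i : Fin (s + 1)) :
    (univ : Finset (Fin (s + 1))).val.map x =
      x i ::ₘ (univ : Finset (Fin s)).val.map (fun l => x (i.succAbove l)) := by
  rw [Fin.univ_succAbove s i, Finset.cons_val, Multiset.map_cons, Finset.map_val, Multiset.map_map]
  rfl

theorem offd_small {k s X : ℕ} (h : s ≤ k) : offd k s X = ∅ := by
  classical
  apply Finset.eq_empty_of_forall_notMem
  intro p hp
  rw [offd, Finset.mem_filter] at hp
  exact hp.2.2 (map_eq_of_psum_eq p.1 p.2 k (by simpa using h) hp.2.1)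

theorem offd_succ (k s X : ℕ) : (offd k (s + 1) X).card ≤
    (nset k (s + 1) X).card + (s + 1) * (s + 1) * (X * (offd k s X).card) := by
  classical
  have hsub : offd k (s + 1) X ⊆ nset k (s + 1) X ∪
      (univ : Finset (Fin (s + 1) × Fin (s + 1))).biUnion
        (fun q => (offd k (s + 1) X).filter (fun p => p.1 q.1 = p.2 q.2)) := by
    intro p hp
    rw [Finset.mem_union]
    by_cases hne : ∀ i j, p.1 i ≠ p.2 j
    · left
      rw [nset, Finset.mem_filter]
      rw [offd, Finset.mem_filter] at hp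
      exact ⟨hp.1, hp.2.1, hne⟩
    · right
      push Not at hne
      obtain ⟨i, j, hij⟩ := hne
      rw [Finset.mem_biUnion]
      exact ⟨(i, j), Finset.mem_univ _, Finset.mem_filter.2 ⟨hp, hij⟩⟩
  have hpart : ∀ q : Fin (s + 1) × Fin (s + 1),
      ((offd k (s + 1) X).filter (fun p => p.1 q.1 = p.2 q.2)).card ≤ X * (offd k s X).card := by
    intro q
    have : X * (offd k s X).card = (Finset.Icc (1 : ℤ) X ×ˢ offd k s X).card := by
      rw [Finset.card_product]; simp
    rw [this]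
    apply Finset.card_le_card_of_injOn (fun p : (Fin (s + 1) → ℤ) × (Fin (s + 1) → ℤ) =>
      (p.1 q.1, ((fun l => p.1 (q.1.succAbove l) : Fin s → ℤ),
        (fun l => p.2 (q.2.succAbove l) : Fin s → ℤ))))
    · intro p hp
      rw [Finset.mem_coe, Finset.mem_filter, offd, Finset.mem_filter, Finset.mem_product] at hp
      obtain ⟨⟨⟨hb1, hb2⟩, hps, hne⟩, hq⟩ := hp
      rw [mem_box] at hb1 hb2
      rw [Finset.mem_coe, Finset.mem_product]
      refine ⟨Finset.mem_Icc.2 (hb1 _), ?_⟩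
      rw [offd, Finset.mem_filter, Finset.mem_product]
      refine ⟨⟨mem_box.2 (fun l => hb1 _), mem_box.2 (fun l => hb2 _)⟩, ?_, ?_⟩
      · intro j hj hjk
        have := hps j hj hjk
        rw [Fin.sum_univ_succAbove _ q.1, Fin.sum_univ_succAbove (fun i => p.2 i ^ j) q.2, hq]
          at this
        exact add_left_cancel this
      · intro heq
        apply hne
        rw [map_succAbove p.1 q.1, map_succAbove p.2 q.2, hq]
        simp only at heq
        rw [heq]
    · intro p hp p' hp' heq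
      rw [Finset.mem_coe, Finset.mem_filter] at hp hp'
      simp only [Prod.mk.injEq] at heq
      obtain ⟨h1, h2, h3⟩ := heq
      apply Prod.ext
      · funext i
        rcases Fin.eq_self_or_eq_succAbove q.1 i with rfl | ⟨l, rfl⟩
        · exact h1
        · exact congrFun h2 l
      · funext i
        rcases Fin.eq_self_or_eq_succAbove q.2 i with hi | ⟨l, rfl⟩
        · rw [hi, ← hp.2, ← hp'.2]; exact h1
        · exact congrFun h3 l
  calc (offd k (s + 1) X).card ≤ _ := Finset.card_le_card hsub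
    _ ≤ (nset k (s + 1) X).card + ((univ : Finset (Fin (s + 1) × Fin (s + 1))).biUnion
        (fun q => (offd k (s + 1) X).filter (fun p => p.1 q.1 = p.2 q.2))).card :=
        Finset.card_union_le _ _
    _ ≤ (nset k (s + 1) X).card +
        ∑ _q : Fin (s + 1) × Fin (s + 1), X * (offd k s X).card := by
        apply Nat.add_le_add_left
        exact Finset.card_biUnion_le.trans (Finset.sum_le_sum (fun q _ => hpart q))
    _ = _ := by
        rw [Finset.sum_const, Finset.card_univ, Fintype.card_prod, Fintype.card_fin, smul_eq_mul]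

theorem offd_bound (k d δ : ℕ) (hδ : δ + 1 ≤ k)
    (h : 4 * d * k + 2 * d ^ 2 + 2 * d + (d + δ) ^ 2 + 1 ≤ (k - δ - 1) ^ 2) :
    ∀ s, s ≤ k + d → ∃ C E : ℕ, ∀ X T : ℕ, 1 ≤ X → 1 ≤ T →
      (∀ N : ℕ, N ≠ 0 → N ≤ X ^ (k + d) → N.divisors.card ≤ T) →
      (offd k s X).card ≤ C * X ^ (s - δ) * T ^ E := by
  intro s
  induction s with
  | zero =>
    intro _
    refine ⟨0, 0, fun X T _ _ _ => ?_⟩
    rw [offd_small (Nat.zero_le _)]; simp
  | succ s ih =>
    intro hs
    rcases le_or_gt (s + 1) k with hsk | hsk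
    · refine ⟨0, 0, fun X T _ _ _ => ?_⟩
      rw [offd_small hsk]; simp
    · obtain ⟨C, E, hCE⟩ := ih (by omega)
      obtain ⟨d', hd'⟩ : ∃ d', s + 1 = k + d' := ⟨s + 1 - k, by omega⟩
      have hd1 : 1 ≤ d' := by omega
      have hdd : d' ≤ d := by omega
      have hcond : 4 * d' * k + 2 * d' ^ 2 + 2 * d' + (d' + δ) ^ 2 + 1 ≤ (k - δ - 1) ^ 2 := by
        have e1 : (d' + δ) ^ 2 ≤ (d + δ) ^ 2 := Nat.pow_le_pow_left (by omega) 2
        have e2 : d' ^ 2 ≤ d ^ 2 := Nat.pow_le_pow_left hdd 2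
        have e3 : 4 * d' * k ≤ 4 * d * k := by gcongr
        omega
      obtain ⟨C1, E1, hCE1⟩ := nset_bound k d' δ hd1 (by omega) hcond
      refine ⟨C1 + (s + 1) * (s + 1) * C, E1 + E, ?_⟩
      intro X T hX hT hTd
      have h1 := hCE X T hX hT hTd
      have h2 := hCE1 X T hX hT (fun N hN hNX => hTd N hN
        (hNX.trans (Nat.pow_le_pow_right hX (by omega))))
      rw [← hd'] at h2
      have hδs : δ ≤ s := by omega
      have hT1 : T ^ E1 ≤ T ^ (E1 + E) := Nat.pow_le_pow_right hT (by omega)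
      have hT2 : T ^ E ≤ T ^ (E1 + E) := Nat.pow_le_pow_right hT (by omega)
      have hXs : X * X ^ (s - δ) = X ^ (s + 1 - δ) := by
        rw [← pow_succ']; congr 1; omega
      calc (offd k (s + 1) X).card
          ≤ (nset k (s + 1) X).card + (s + 1) * (s + 1) * (X * (offd k s X).card) :=
            offd_succ k s X
        _ ≤ C1 * X ^ (s + 1 - δ) * T ^ E1 +
            (s + 1) * (s + 1) * (X * (C * X ^ (s - δ) * T ^ E)) := by
            apply add_le_add h2
            apply Nat.mul_le_mul_left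
            exact Nat.mul_le_mul_left _ h1
        _ = C1 * X ^ (s + 1 - δ) * T ^ E1 +
            (s + 1) * (s + 1) * C * (X * X ^ (s - δ)) * T ^ E := by ring
        _ = C1 * X ^ (s + 1 - δ) * T ^ E1 +
            (s + 1) * (s + 1) * C * X ^ (s + 1 - δ) * T ^ E := by rw [hXs]
        _ ≤ C1 * X ^ (s + 1 - δ) * T ^ (E1 + E) +
            (s + 1) * (s + 1) * C * X ^ (s + 1 - δ) * T ^ (E1 + E) :=
            add_le_add (Nat.mul_le_mul_left _ hT1) (Nat.mul_le_mul_left _ hT2)
        _ = (C1 + (s + 1) * (s + 1) * C) * X ^ (s + 1 - δ) * T ^ (E1 + E) := by ring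

end Pool.Agent.H33.Vmv
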