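import Mathlib
import Pool.Agent.H33.VmvGood
import Pool.Agent.H33.VmvCount
import Pool.Agent.H30.Vino2.NT

/-!
The potential argument: counting alive sequences by the number of points of a lattice in a box.
-/

set_option autoImplicit false

open Finset

namespace Pool.Agent.H33.Vmv

open Pool.Agent.H30.Vino (ds ds_pos)
open Pool.Agent.H30.Vino2 (Ik Tk Tk_pow_le Ik_dvd sum_inv_Tk hsum)

/-- A nonzero polynomial of degree less than `d` does not vanish at `a ≥ d` distinct points. -/
theorem exists_ev_ne_zero {d a : ℕ} (hda : d ≤ a) (x : Fin a → ℤ) (hx : Function.Injective x)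
    (g : Fin d → ℤ) (hg : g ≠ 0) : ∃ i, ev (x i) g ≠ 0 := by
  by_contra hcon
  push Not at hcon
  apply hg
  apply Matrix.eq_zero_of_forall_index_sum_mul_pow_eq_zero
    (f := fun i : Fin d => x (Fin.castLE hda i))
  · exact hx.comp (Fin.castLE_injective hda)
  · intro j
    exact hcon (Fin.castLE hda j)

/-- Few candidates for a given polynomial. -/
theorem card_cand {X : ℕ} (c : ℤ) (v : ℤ) (hv : v ≠ 0) :
    ((Finset.Icc (1 : ℤ) X).filter (fun y => (y - c) ∣ v)).card ≤ 2 * v.natAbs.divisors.card := by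
  classical
  have h1 : ((Finset.Icc (1 : ℤ) X).filter (fun y => (y - c) ∣ v)) ⊆
      (v.natAbs.divisors.image (fun m : ℕ => c + (m : ℤ))) ∪
        (v.natAbs.divisors.image (fun m : ℕ => c - (m : ℤ))) := by
    intro y hy
    rw [Finset.mem_filter] at hy
    have h2 : (y - c).natAbs ∈ v.natAbs.divisors := by
      rw [Nat.mem_divisors]
      exact ⟨Int.natAbs_dvd_natAbs.2 hy.2, Int.natAbs_ne_zero.2 hv⟩
    rw [Finset.mem_union, Finset.mem_image, Finset.mem_image]
    rcases le_total 0 (y - c) with h | h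
    · left
      refine ⟨_, h2, ?_⟩
      rw [Int.natAbs_of_nonneg h]; ring
    · right
      refine ⟨_, h2, ?_⟩
      rw [Int.ofNat_natAbs_of_nonpos h]; ring
  refine (Finset.card_le_card h1).trans ((Finset.card_union_le _ _).trans ?_)
  have h2 := Finset.card_image_le (s := v.natAbs.divisors) (f := fun m : ℕ => c + (m : ℤ))
  have h3 := Finset.card_image_le (s := v.natAbs.divisors) (f := fun m : ℕ => c - (m : ℤ))
  omega

section Pot2

variable {d a : ℕ} (n X : ℕ) (x : Fin a → ℕ) (H : Fin d → ℕ)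

/-- The base points as integers. -/
def xz (x : Fin a → ℕ) : Fin a → ℤ := fun i => (x i : ℤ)

/-- A list is alive if it is compatible with a true difference polynomial. -/
def Alive2 (Bd : ℕ) (w : List ℤ) : Prop :=
  ∃ f : Fin d → ℤ, (∀ l, |f l| ≤ (H l : ℤ)) ∧
    (∀ i, ev (xz x i) f ≠ 0 ∧ (ev (xz x i) f).natAbs ≤ Bd) ∧
    ∀ y ∈ w, (∀ i, (y - xz x i) ∣ ev y f) ∧ ∀ i, y ≠ xz x i

theorem Alive2.tail {Bd : ℕ} {y : ℤ} {w : List ℤ} (h : Alive2 x H Bd (y :: w)) :
    Alive2 x H Bd w := by
  obtain ⟨f, h1, h2, h3⟩ := h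
  exact ⟨f, h1, h2, fun y' hy' => h3 y' (List.mem_cons_of_mem _ hy')⟩

/-- The fixed number attached to a small polynomial and the base points. -/
noncomputable def Bz (z0 : Fin d → ℤ) : ℕ :=
  (∏ i, (ev (xz x i) z0).natAbs) * ∏ i, ∏ j, (if i = j then 1 else ds (x i) (x j))

theorem Bz_pos (hx : Function.Injective x) {z0 : Fin d → ℤ} (hz : ∀ i, ev (xz x i) z0 ≠ 0) :
    0 < Bz x z0 := by
  unfold Bz
  apply Nat.mul_pos
  · exact Finset.prod_pos (fun i _ => Int.natAbs_pos.2 (hz i))
  · apply Finset.prod_pos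
    intro i _
    apply Finset.prod_pos
    intro j _
    split_ifs with h
    · exact one_pos
    · exact ds_pos (fun e => h (hx e))

theorem dvd_Bz (z0 : Fin d → ℤ) (i : Fin a) : (ev (xz x i) z0).natAbs ∣ Bz x z0 := by
  unfold Bz
  exact Dvd.dvd.mul_right (Finset.dvd_prod_of_mem _ (Finset.mem_univ i)) _

theorem ds_dvd_Bz (z0 : Fin d → ℤ) (i j : Fin a) (hij : i ≠ j) : ds (x i) (x j) ∣ Bz x z0 := by
  unfold Bz
  apply Dvd.dvd.mul_left
  refine dvd_trans ?_ (Finset.dvd_prod_of_mem _ (Finset.mem_univ i))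
  have h := Finset.dvd_prod_of_mem (fun j => if i = j then 1 else ds (x i) (x j))
    (Finset.mem_univ j)
  simpa [hij] using h

theorem Bz_le {Bd : ℕ} {z0 : Fin d → ℤ} (hz : ∀ i, (ev (xz x i) z0).natAbs ≤ Bd)
    (hxX : ∀ i, x i ∈ Finset.Icc 1 X) (hX : 1 ≤ X) : Bz x z0 ≤ Bd ^ a * X ^ (a * a) := by
  unfold Bz
  apply Nat.mul_le_mul
  · calc ∏ i, (ev (xz x i) z0).natAbs ≤ ∏ _i : Fin a, Bd :=
          Finset.prod_le_prod (fun i _ => Nat.zero_le _) (fun i _ => hz i)
      _ = Bd ^ a := by simp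
  · calc ∏ i, ∏ j, (if i = j then 1 else ds (x i) (x j)) ≤ ∏ _i : Fin a, ∏ _j : Fin a, X := by
          apply Finset.prod_le_prod (fun i _ => Nat.zero_le _)
          intro i _
          apply Finset.prod_le_prod (fun j _ => Nat.zero_le _)
          intro j _
          split_ifs with h
          · exact hX
          · exact Pool.Agent.H30.Vino.ds_le (hxX i) (hxX j)
      _ = X ^ (a * a) := by simp [pow_mul]

/-- The index of the sublattice at a step preserving the rank. -/
theorem index_step (hx : Function.Injective x) {w : List ℤ} (hw : w.length < n) (y : ℕ)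
    {z0 : Fin d → ℤ} (hz0 : z0 ∈ Aset n (xz x) H w) (hz : ∀ i, ev (xz x i) z0 ≠ 0)
    (heq : Module.finrank ℚ (qspan (Aset n (xz x) H ((y : ℤ) :: w))) =
      Module.finrank ℚ (qspan (Aset n (xz x) H w))) :
    Ik x (Bz x z0) y * (Aset n (xz x) H ((y : ℤ) :: w)).card ≤ (Aset n (xz x) H w).card := by
  classical
  have hsub := Aset_cons_subset n (xz x) H y w hw
  have hspanle : qspan (Aset n (xz x) H ((y : ℤ) :: w)) ≤ qspan (Aset n (xz x) H w) :=
    Submodule.span_mono (Set.image_mono (by exact_mod_cast hsub))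
  have hspan : qspan (Aset n (xz x) H ((y : ℤ) :: w)) = qspan (Aset n (xz x) H w) :=
    Submodule.eq_of_le_of_finrank_eq hspanle heq
  set M : ℕ := (univ : Finset (Fin a)).lcm (fun i => ((y : ℤ) - xz x i).natAbs) with hMdef
  let L : AddSubgroup (Fin d → ℤ) :=
    { carrier := {g | ∀ y ∈ w, ∀ i, (y - xz x i) ∣ ev y g}
      zero_mem' := by
        intro y _ i
        have : ev y (0 : Fin d → ℤ) = 0 := (evHom y).map_zero
        rw [this]; exact dvd_zero _
      add_mem' := by
        intro g h hg hh y hy i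
        have : ev y (g + h) = ev y g + ev y h := (evHom y).map_add g h
        rw [this]; exact dvd_add (hg y hy i) (hh y hy i)
      neg_mem' := by
        intro g hg y hy i
        have : ev y (-g) = -ev y g := (evHom y).map_neg g
        rw [this]; exact (dvd_neg).2 (hg y hy i) }
  apply lattice_step (Aset n (xz x) H w) (Aset n (xz x) H ((y : ℤ) :: w))
    (fun l => ((d : ℤ) + 1) ^ (n - (w.length + 1)) * (H l : ℤ))
    (fun l => by positivity) L (evHom (y : ℤ)) (M : ℤ)
  · intro g
    rw [mem_Aset]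
    have e : n - w.length = (n - (w.length + 1)) + 1 := by omega
    constructor
    · rintro ⟨h1, h2⟩
      refine ⟨fun l => ?_, h2⟩
      have := h1 l
      rw [e, pow_succ] at this
      calc |g l| ≤ _ := this
        _ = _ := by ring
    · rintro ⟨h1, h2⟩
      refine ⟨fun l => ?_, h2⟩
      have := h1 l
      rw [e, pow_succ]
      calc |g l| ≤ _ := this
        _ = _ := by ring
  · intro g
    rw [mem_Aset]
    simp only [List.length_cons, List.mem_cons, forall_eq_or_imp, evHom_apply]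
    rw [hMdef, lcm_dvd_iff_all]
    constructor
    · rintro ⟨h1, h2, h3⟩
      exact ⟨h1, h3, h2⟩
    · rintro ⟨h1, h3, h2⟩
      exact ⟨h1, h2, h3⟩
  · exact hspan
  · exact AddSubgroup.subset_closure hz0
  · intro t ht
    rw [evHom_apply, hMdef, lcm_dvd_iff_all] at ht
    rw [Int.natCast_dvd]
    apply Ik_dvd (Bz_pos x hx hz) (fun i j hij => ds_dvd_Bz x z0 i j hij)
      (fun i => (ev (xz x i) z0).natAbs) (fun i => dvd_Bz x z0 i)
    intro i
    have h1 : ((y : ℤ) - xz x i) ∣ t * ev (xz x i) z0 := by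
      have h2 := sub_dvd_ev_sub (y : ℤ) (xz x i) z0
      have h3 := dvd_sub (ht i) (Dvd.dvd.mul_left h2 t)
      have e : t * ev (y : ℤ) z0 - t * (ev (y : ℤ) z0 - ev (xz x i) z0) =
          t * ev (xz x i) z0 := by ring
      rwa [e] at h3
    have h4 := Int.natAbs_dvd_natAbs.2 h1
    rw [Int.natAbs_mul] at h4
    exact h4

theorem ev_natAbs_le {t : ℤ} (ht : 1 ≤ t ∧ t ≤ X) (g : Fin d → ℤ) (B : ℕ)
    (hg : ∀ l, |g l| * (X : ℤ) ^ (l : ℕ) ≤ B) : (ev t g).natAbs ≤ d * B := by
  have h1 : |ev t g| ≤ (d : ℤ) * B := by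
    rw [ev]
    refine (Finset.abs_sum_le_sum_abs _ _).trans ?_
    calc ∑ l : Fin d, |g l * t ^ (l : ℕ)| ≤ ∑ _l : Fin d, (B : ℤ) := by
          apply Finset.sum_le_sum
          intro l _
          rw [abs_mul, abs_pow]
          refine le_trans ?_ (hg l)
          apply mul_le_mul_of_nonneg_left _ (abs_nonneg _)
          apply pow_le_pow_left₀ (abs_nonneg _)
          rw [abs_of_nonneg (by linarith)]
          exact ht.2
      _ = (d : ℤ) * B := by simp
  have h2 : ((ev t g).natAbs : ℤ) ≤ ((d * B : ℕ) : ℤ) := by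
    rw [Int.natCast_natAbs]; push_cast; exact h1
  exact_mod_cast h2

open Classical in
/-- The double count at a step lowering the rank. -/
theorem sum_card_le (hda : d ≤ a) (hx : Function.Injective x) {w : List ℤ} (hw : w.length < n)
    (D : ℕ) (hD : ∀ g ∈ Aset n (xz x) H w, ∀ i, ev (xz x i) g ≠ 0 →
      (ev (xz x i) g).natAbs.divisors.card ≤ D)
    (Y : Finset ℤ) (hY : Y ⊆ Finset.Icc (1 : ℤ) X)
    (hal : ∀ y ∈ Y, ∃ f ∈ Aset n (xz x) H (y :: w), f ≠ 0) :
    ∑ y ∈ Y, (Aset n (xz x) H (y :: w)).card ≤ 4 * D * (Aset n (xz x) H w).card := by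
  have h0 : ∀ w' : List ℤ, (0 : Fin d → ℤ) ∈ Aset n (xz x) H w' := by
    intro w'
    rw [mem_Aset]
    refine ⟨fun l => ?_, fun y _ i => ?_⟩
    · simp only [Pi.zero_apply, abs_zero]; positivity
    · have : ev y (0 : Fin d → ℤ) = 0 := (evHom y).map_zero
      rw [this]; exact dvd_zero _
  have h1 : ∀ y ∈ Y, (Aset n (xz x) H (y :: w)).card ≤
      2 * ∑ g ∈ (Aset n (xz x) H w).erase 0, if g ∈ Aset n (xz x) H (y :: w) then 1 else 0 := by
    intro y hy
    obtain ⟨f, hf, hf0⟩ := hal y hy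
    rw [← Finset.sum_filter, ← Finset.card_eq_sum_ones]
    have h2 : (Aset n (xz x) H (y :: w)).erase 0 ⊆
        ((Aset n (xz x) H w).erase 0).filter (fun g => g ∈ Aset n (xz x) H (y :: w)) := by
      intro g hg
      rw [Finset.mem_erase] at hg
      rw [Finset.mem_filter, Finset.mem_erase]
      exact ⟨⟨hg.1, Aset_cons_subset n (xz x) H y w hw hg.2⟩, hg.2⟩
    have h3 := Finset.card_le_card h2
    have h4 : 1 ≤ ((Aset n (xz x) H (y :: w)).erase 0).card :=
      Finset.card_pos.2 ⟨f, Finset.mem_erase.2 ⟨hf0, hf⟩⟩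
    rw [Finset.card_erase_of_mem (h0 _)] at h3 h4
    omega
  calc ∑ y ∈ Y, (Aset n (xz x) H (y :: w)).card
      ≤ ∑ y ∈ Y, 2 * ∑ g ∈ (Aset n (xz x) H w).erase 0,
          (if g ∈ Aset n (xz x) H (y :: w) then 1 else 0) := Finset.sum_le_sum h1
    _ = 2 * ∑ g ∈ (Aset n (xz x) H w).erase 0, ∑ y ∈ Y,
          (if g ∈ Aset n (xz x) H (y :: w) then 1 else 0) := by
        rw [← Finset.mul_sum, Finset.sum_comm]
    _ ≤ 2 * ∑ g ∈ (Aset n (xz x) H w).erase 0, 2 * D := by
        apply Nat.mul_le_mul_left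
        apply Finset.sum_le_sum
        intro g hg
        rw [Finset.mem_erase] at hg
        obtain ⟨i, hi⟩ := exists_ev_ne_zero hda (xz x)
          (fun i j h => hx (by simpa [xz] using h)) g hg.1
        rw [← Finset.sum_filter, ← Finset.card_eq_sum_ones]
        refine le_trans (Finset.card_le_card ?_) ((card_cand (X := X) (xz x i) _ hi).trans
          (Nat.mul_le_mul_left 2 (hD g hg.2 i hi)))
        intro y hy
        rw [Finset.mem_filter] at hy ⊢
        refine ⟨hY hy.1, ?_⟩
        rw [mem_Aset] at hy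
        have h5 := hy.2.2 y List.mem_cons_self i
        have h6 := sub_dvd_ev_sub y (xz x i) g
        have h7 := dvd_sub h5 h6
        have e : ev y g - (ev y g - ev (xz x i) g) = ev (xz x i) g := by ring
        rwa [e] at h7
    _ ≤ 4 * D * (Aset n (xz x) H w).card := by
        rw [Finset.sum_const, smul_eq_mul]
        have := Finset.card_le_card (Finset.erase_subset 0 (Aset n (xz x) H w))
        calc 2 * (((Aset n (xz x) H w).erase 0).card * (2 * D))
            = 4 * D * ((Aset n (xz x) H w).erase 0).card := by ring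
          _ ≤ _ := Nat.mul_le_mul_left _ this

end Pot2

end Pool.Agent.H33.Vmv
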