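import Mathlib
import Pool.Agent.H33.VmvPot

/-!
The recursion for the number of alive sequences.
-/

set_option autoImplicit false

open Finset

namespace Pool.Agent.H33.Vmv

open Pool.Agent.H30.Vino (ds ds_pos)
open Pool.Agent.H30.Vino2 (Ik Tk Tk_pow_le Ik_dvd sum_inv_Tk hsum)

section Rec

variable {d a : ℕ} (n X : ℕ) (x : Fin a → ℕ) (H : Fin d → ℕ) (Bd : ℕ)

open Classical in
/-- The number of alive extensions of length `m`. -/
noncomputable def Ecount (m : ℕ) (w : List ℤ) : ℕ :=
  ((Fintype.piFinset fun _ : Fin m => Finset.Icc (1 : ℤ) X).filter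
    (fun v => Alive2 x H Bd (pushes m v w))).card

open Classical in
theorem Ecount_succ (m : ℕ) (w : List ℤ) : Ecount X x H Bd (m + 1) w ≤
    ∑ y ∈ (Finset.Icc (1 : ℤ) X).filter (fun y => Alive2 x H Bd (y :: w)),
      Ecount X x H Bd m (y :: w) := by
  set S := (Fintype.piFinset fun _ : Fin (m + 1) => Finset.Icc (1 : ℤ) X).filter
    (fun v => Alive2 x H Bd (pushes (m + 1) v w)) with hS
  have hfib : S.card = ∑ y ∈ (Finset.Icc (1 : ℤ) X).filter (fun y => Alive2 x H Bd (y :: w)),
      (S.filter (fun v => v 0 = y)).card := by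
    apply Finset.card_eq_sum_card_fiberwise
    intro v hv
    rw [Finset.mem_coe, hS, Finset.mem_filter, Fintype.mem_piFinset] at hv
    rw [Finset.mem_coe, Finset.mem_filter]
    refine ⟨hv.1 0, ?_⟩
    have h1 := hv.2
    rw [pushes] at h1
    exact alive_of_pushes (Alive2 x H Bd) (fun _ _ h => h.tail x H) m _ _ h1
  show S.card ≤ _
  rw [hfib]
  apply Finset.sum_le_sum
  intro y _
  apply Finset.card_le_card_of_injOn (fun v => Fin.tail v)
  · intro v hv
    rw [Finset.mem_coe, Finset.mem_filter, hS, Finset.mem_filter, Fintype.mem_piFinset] at hv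
    rw [Finset.mem_coe, Finset.mem_filter, Fintype.mem_piFinset]
    refine ⟨fun i => hv.1.1 i.succ, ?_⟩
    have := hv.1.2
    rw [pushes, hv.2] at this
    exact this
  · intro v hv v' hv' heq
    rw [Finset.mem_coe, Finset.mem_filter] at hv hv'
    funext i
    refine Fin.cases ?_ (fun j => ?_) i
    · rw [hv.2, hv'.2]
    · exact congrFun heq j

theorem Alive2.mem_Aset {w : List ℤ} {f : Fin d → ℤ} (h1 : ∀ l, |f l| ≤ (H l : ℤ))
    (h3 : ∀ y ∈ w, ∀ i, (y - xz x i) ∣ ev y f) : f ∈ Aset n (xz x) H w :=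
  Alive.mem_Aset' n (xz x) H (Bd := 0) h1 h3

theorem one_le_finrank {w : List ℤ} {f : Fin d → ℤ} (hf : f ∈ Aset n (xz x) H w) (hf0 : f ≠ 0) :
    1 ≤ Module.finrank ℚ (qspan (Aset n (xz x) H w)) := by
  apply Submodule.one_le_finrank_iff.2
  intro hb
  have h4 : toQ f ∈ qspan (Aset n (xz x) H w) := Submodule.subset_span ⟨f, hf, rfl⟩
  rw [hb, Submodule.mem_bot] at h4
  exact hf0 (toQ_inj (by rw [h4]; funext l; simp [toQ]))

theorem pot_main (hda : d ≤ a) (ha : 0 < a) (hX : 1 ≤ X) (hx : Function.Injective x)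
    (hxX : ∀ i, x i ∈ Finset.Icc 1 X) (D Bmax : ℕ) (hD1 : 1 ≤ D)
    (hD : ∀ m : ℕ, 0 < m → m ≤ Bmax → m.divisors.card ≤ D)
    (hB1 : Bd ^ a * X ^ (a * a) ≤ Bmax)
    (hB2 : ∀ g : Fin d → ℤ, (∀ l, |g l| ≤ ((d : ℤ) + 1) ^ n * H l) →
      ∀ i, (ev (xz x i) g).natAbs ≤ Bmax)
    (K : ℝ) (hK : (a : ℝ) * ((D : ℝ) ^ a * (2 * hsum X)) + 4 * D ≤ K) :
    ∀ (m : ℕ) (w : List ℤ), m + w.length ≤ n → Alive2 x H Bd w →
      (Ecount X x H Bd m w : ℝ) ^ a ≤ K ^ (m * a) *
        ((X : ℝ) ^ ((a - 1) * (Module.finrank ℚ (qspan (Aset n (xz x) H w)) - 1)) *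
          (Aset n (xz x) H w).card) := by
  classical
  have hX1 : (1 : ℝ) ≤ X := by exact_mod_cast hX
  have hD1' : (1 : ℝ) ≤ D := by exact_mod_cast hD1
  have hS1 : 0 ≤ (a : ℝ) * ((D : ℝ) ^ a * (2 * hsum X)) := by
    have : 0 ≤ hsum X := Finset.sum_nonneg (fun n _ => Pool.Agent.H30.Vino2.one_div_max_nonneg n)
    positivity
  have hK0 : 0 ≤ K := by linarith
  intro m
  induction m with
  | zero =>
    intro w _ hal
    obtain ⟨f, hf1, hf2, hf3⟩ := hal
    have hf : f ∈ Aset n (xz x) H w :=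
      Alive2.mem_Aset n x H hf1 (fun y hy => (hf3 y hy).1)
    have h1 : (1 : ℝ) ≤ (Aset n (xz x) H w).card := by
      exact_mod_cast Finset.card_pos.2 ⟨f, hf⟩
    have h2 : (Ecount X x H Bd 0 w : ℝ) ≤ 1 := by
      have h3 : Ecount X x H Bd 0 w ≤ 1 := by
        calc Ecount X x H Bd 0 w ≤ (Fintype.piFinset fun _ : Fin 0 => Finset.Icc (1 : ℤ) X).card :=
              Finset.card_filter_le _ _
          _ = 1 := by simp
      exact_mod_cast h3
    have h4 : (Ecount X x H Bd 0 w : ℝ) ^ a ≤ 1 := pow_le_one₀ (by positivity) h2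
    have h5 : (1 : ℝ) ≤ (X : ℝ) ^ ((a - 1) *
        (Module.finrank ℚ (qspan (Aset n (xz x) H w)) - 1)) := one_le_pow₀ hX1
    rw [zero_mul, pow_zero, one_mul]
    nlinarith
  | succ m ih =>
    intro w hw hal
    obtain ⟨f, hf1, hf2, hf3⟩ := hal
    have hf : f ∈ Aset n (xz x) H w :=
      Alive2.mem_Aset n x H hf1 (fun y hy => (hf3 y hy).1)
    have hwn : w.length < n := by omega
    set r := Module.finrank ℚ (qspan (Aset n (xz x) H w)) with hr
    set Aw : ℝ := ((Aset n (xz x) H w).card : ℝ) with hAw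
    set Q : ℝ := K ^ (m * a) * ((X : ℝ) ^ ((a - 1) * (r - 1)) * Aw) with hQ
    have hQ0 : 0 ≤ Q := by positivity
    set R : ℝ := Q ^ ((a : ℝ)⁻¹) with hR
    have hR0 : 0 ≤ R := Real.rpow_nonneg hQ0 _
    have hRa : R ^ a = Q := Real.rpow_inv_natCast_pow hQ0 ha.ne'
    set Yal := (Finset.Icc (1 : ℤ) X).filter (fun y => Alive2 x H Bd (y :: w)) with hYal
    set P : ℤ → Prop := fun y => Module.finrank ℚ (qspan (Aset n (xz x) H (y :: w))) = r with hP
    have hsplit : (∑ y ∈ Yal, (Ecount X x H Bd m (y :: w) : ℝ)) =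
        ∑ y ∈ Yal.filter P, (Ecount X x H Bd m (y :: w) : ℝ) +
        ∑ y ∈ Yal.filter (fun y => ¬ P y), (Ecount X x H Bd m (y :: w) : ℝ) :=
      (Finset.sum_filter_add_sum_filter_not _ _ _).symm
    have hih : ∀ y ∈ Yal, (Ecount X x H Bd m (y :: w) : ℝ) ^ a ≤ K ^ (m * a) *
        ((X : ℝ) ^ ((a - 1) * (Module.finrank ℚ (qspan (Aset n (xz x) H (y :: w))) - 1)) *
          (Aset n (xz x) H (y :: w)).card) := by
      intro y hy
      apply ih
      · simp only [List.length_cons]; omega
      · exact (Finset.mem_filter.1 hy).2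
    have hmem : ∀ y ∈ Yal, ∃ g ∈ Aset n (xz x) H (y :: w), g ≠ 0 := by
      intro y hy
      obtain ⟨g, hg1, hg2, hg3⟩ := (Finset.mem_filter.1 hy).2
      refine ⟨g, Alive2.mem_Aset n x H hg1 (fun y hy => (hg3 y hy).1), ?_⟩
      intro h0
      apply (hg2 ⟨0, ha⟩).1
      rw [h0]; exact (evHom _).map_zero
    have hz : ∀ i, ev (xz x i) f ≠ 0 := fun i => (hf2 i).1
    -- the steps preserving the rank
    have hsum1 : ∑ y ∈ Yal.filter P, (Ecount X x H Bd m (y :: w) : ℝ) ≤
        R * ((a : ℝ) * ((D : ℝ) ^ a * (2 * hsum X))) := by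
      have h1 : ∀ y ∈ Yal.filter P, (Ecount X x H Bd m (y :: w) : ℝ) ≤
          R * ((1 : ℝ) / (Tk x (Bz x f) y.toNat : ℝ)) := by
        intro y hy
        obtain ⟨hy1, hyP⟩ := Finset.mem_filter.1 hy
        have hy2 := (Finset.mem_filter.1 hy1).1
        rw [Finset.mem_Icc] at hy2
        obtain ⟨g, hg1, hg2, hg3⟩ := (Finset.mem_filter.1 hy1).2
        obtain ⟨yn, rfl⟩ : ∃ yn : ℕ, (yn : ℤ) = y := ⟨y.toNat, by omega⟩
        rw [Int.toNat_natCast]
        have h2 := index_step n x H hx hwn yn hf hz hyP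
        have hds : ∀ j, 0 < ds yn (x j) := by
          intro j
          apply ds_pos
          intro e
          apply (hg3 _ List.mem_cons_self).2 j
          rw [e]; rfl
        have h3 := Tk_pow_le (Bz_pos x hx hz) hds
        have h4 : (Tk x (Bz x f) yn : ℝ) ^ a * ((Aset n (xz x) H ((yn : ℤ) :: w)).card : ℝ) ≤
            Aw := by
          have h5 : Tk x (Bz x f) yn ^ a * (Aset n (xz x) H ((yn : ℤ) :: w)).card ≤
              (Aset n (xz x) H w).card := (Nat.mul_le_mul_right _ h3).trans h2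
          rw [hAw]
          exact_mod_cast h5
        have hT1 : (1 : ℝ) ≤ (Tk x (Bz x f) yn : ℝ) := by
          have : 1 ≤ Tk x (Bz x f) yn := by unfold Tk; exact le_max_left _ _
          exact_mod_cast this
        have h6 := hih _ hy1
        rw [hyP] at h6
        rw [mul_one_div, le_div_iff₀ (by linarith)]
        apply le_of_pow_le_pow_left₀ ha.ne' hR0
        rw [mul_pow, hRa, hQ]
        calc (Ecount X x H Bd m ((yn : ℤ) :: w) : ℝ) ^ a * (Tk x (Bz x f) yn : ℝ) ^ a
            ≤ (K ^ (m * a) * ((X : ℝ) ^ ((a - 1) * (r - 1)) *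
              (Aset n (xz x) H ((yn : ℤ) :: w)).card)) * (Tk x (Bz x f) yn : ℝ) ^ a :=
              mul_le_mul_of_nonneg_right h6 (by positivity)
          _ = (K ^ (m * a) * (X : ℝ) ^ ((a - 1) * (r - 1))) *
              ((Tk x (Bz x f) yn : ℝ) ^ a * (Aset n (xz x) H ((yn : ℤ) :: w)).card) := by ring
          _ ≤ (K ^ (m * a) * (X : ℝ) ^ ((a - 1) * (r - 1))) * Aw :=
              mul_le_mul_of_nonneg_left h4 (by positivity)
          _ = _ := by ring
      refine (Finset.sum_le_sum h1).trans ?_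
      rw [← Finset.mul_sum]
      apply mul_le_mul_of_nonneg_left _ hR0
      have h7 : ∑ y ∈ Yal.filter P, (1 : ℝ) / (Tk x (Bz x f) y.toNat : ℝ) ≤
          ∑ y ∈ (Finset.Icc 1 X).filter (fun y => ∀ k, y ≠ x k),
            (1 : ℝ) / (Tk x (Bz x f) y : ℝ) := by
        rw [← Finset.sum_image (s := Yal.filter P) (g := Int.toNat)
          (f := fun y => (1 : ℝ) / (Tk x (Bz x f) y : ℝ))]
        · apply Finset.sum_le_sum_of_subset_of_nonneg
          · intro y hy
            obtain ⟨y', hy', rfl⟩ := Finset.mem_image.1 hy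
            obtain ⟨hy1, hyP⟩ := Finset.mem_filter.1 hy'
            have hy2 := (Finset.mem_filter.1 hy1).1
            rw [Finset.mem_Icc] at hy2
            obtain ⟨g, hg1, hg2, hg3⟩ := (Finset.mem_filter.1 hy1).2
            rw [Finset.mem_filter, Finset.mem_Icc]
            refine ⟨by omega, ?_⟩
            intro k hk
            apply (hg3 _ List.mem_cons_self).2 k
            unfold xz
            omega
          · intro y _ _
            positivity
        · intro y hy y' hy' e
          have h8 := (Finset.mem_filter.1 (Finset.mem_filter.1 hy).1).1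
          have h9 := (Finset.mem_filter.1 (Finset.mem_filter.1 hy').1).1
          rw [Finset.mem_Icc] at h8 h9
          omega
      refine h7.trans ((sum_inv_Tk ha (Bz_pos x hx hz) hxX).trans ?_)
      have hτ : ((Bz x f).divisors.card : ℝ) ≤ D := by
        have := hD (Bz x f) (Bz_pos x hx hz)
          ((Bz_le X x (fun i => (hf2 i).2) hxX hX).trans hB1)
        exact_mod_cast this
      have : 0 ≤ hsum X := Finset.sum_nonneg (fun n _ => Pool.Agent.H30.Vino2.one_div_max_nonneg n)
      apply mul_le_mul_of_nonneg_left _ (by positivity)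
      apply mul_le_mul_of_nonneg_right _ (by positivity)
      exact pow_le_pow_left₀ (by positivity) hτ a
    -- the steps lowering the rank
    have hsum2 : ∑ y ∈ Yal.filter (fun y => ¬ P y), (Ecount X x H Bd m (y :: w) : ℝ) ≤
        R * (4 * D) := by
      set Y2 := Yal.filter (fun y => ¬ P y) with hY2
      have hcard : Y2.card ≤ X := by
        have h1 := (Finset.card_filter_le Yal (fun y => ¬ P y)).trans
          (Finset.card_filter_le (Finset.Icc (1 : ℤ) X) _)
        simpa using h1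
      have h2 : (∑ y ∈ Y2, (Ecount X x H Bd m (y :: w) : ℝ)) ^ a ≤
          (X : ℝ) ^ (a - 1) * ∑ y ∈ Y2, (Ecount X x H Bd m (y :: w) : ℝ) ^ a := by
        rcases Y2.eq_empty_or_nonempty with h0 | h0
        · rw [h0]; simp [ha.ne']
        · have h3 := pow_sum_div_card_le_sum_pow (s := Y2)
            (f := fun y => (Ecount X x H Bd m (y :: w) : ℝ)) (fun y _ => by positivity) (a - 1)
          have hc0 : (0 : ℝ) < (Y2.card : ℝ) := by exact_mod_cast Finset.card_pos.2 h0
          rw [div_le_iff₀ (by positivity), Nat.sub_add_cancel ha] at h3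
          refine h3.trans ?_
          rw [mul_comm]
          apply mul_le_mul_of_nonneg_right _ (Finset.sum_nonneg fun y _ => by positivity)
          apply pow_le_pow_left₀ hc0.le
          exact_mod_cast hcard
      have h3 : (X : ℝ) ^ (a - 1) * ∑ y ∈ Y2, (Ecount X x H Bd m (y :: w) : ℝ) ^ a ≤
          K ^ (m * a) * (X : ℝ) ^ ((a - 1) * (r - 1)) *
            ∑ y ∈ Y2, ((Aset n (xz x) H (y :: w)).card : ℝ) := by
        rw [Finset.mul_sum, Finset.mul_sum]
        apply Finset.sum_le_sum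
        intro y hy
        obtain ⟨hy1, hyP⟩ := Finset.mem_filter.1 hy
        have h4 := hih y hy1
        obtain ⟨g, hg, hg0⟩ := hmem y hy1
        have h5 := one_le_finrank n x H hg hg0
        have h6 : Module.finrank ℚ (qspan (Aset n (xz x) H (y :: w))) ≤ r := by
          apply Submodule.finrank_mono
          exact Submodule.span_mono (Set.image_mono
            (by exact_mod_cast Aset_cons_subset n (xz x) H y w hwn))
        have h7 : Module.finrank ℚ (qspan (Aset n (xz x) H (y :: w))) ≤ r - 1 := by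
          have : Module.finrank ℚ (qspan (Aset n (xz x) H (y :: w))) ≠ r := hyP
          omega
        set r' := Module.finrank ℚ (qspan (Aset n (xz x) H (y :: w))) with hr'
        calc (X : ℝ) ^ (a - 1) * (Ecount X x H Bd m (y :: w) : ℝ) ^ a
            ≤ (X : ℝ) ^ (a - 1) * (K ^ (m * a) * ((X : ℝ) ^ ((a - 1) * (r' - 1)) *
              (Aset n (xz x) H (y :: w)).card)) :=
              mul_le_mul_of_nonneg_left h4 (by positivity)
          _ = K ^ (m * a) * (X : ℝ) ^ ((a - 1) * r') *
              (Aset n (xz x) H (y :: w)).card := by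
              have e : (a - 1) * r' = (a - 1) + (a - 1) * (r' - 1) := by
                obtain ⟨t, ht⟩ := Nat.exists_eq_add_of_le h5
                rw [ht, Nat.add_sub_cancel_left]; ring
              rw [e, pow_add]; ring
          _ ≤ K ^ (m * a) * (X : ℝ) ^ ((a - 1) * (r - 1)) *
              (Aset n (xz x) H (y :: w)).card := by
              apply mul_le_mul_of_nonneg_right _ (by positivity)
              apply mul_le_mul_of_nonneg_left _ (by positivity)
              exact pow_le_pow_right₀ hX1 (Nat.mul_le_mul_left _ h7)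
      have h8 : ∑ y ∈ Y2, ((Aset n (xz x) H (y :: w)).card : ℝ) ≤ 4 * D * Aw := by
        have h9 := sum_card_le n X x H hda hx hwn D (by
          intro g hg i hi
          apply hD _ (Int.natAbs_pos.2 hi)
          apply hB2
          intro l
          rw [mem_Aset] at hg
          refine (hg.1 l).trans ?_
          apply mul_le_mul_of_nonneg_right _ (by positivity)
          exact pow_le_pow_right₀ (by linarith [Int.natCast_nonneg d]) (Nat.sub_le _ _)) Y2
          (fun y hy => (Finset.mem_filter.1 (Finset.mem_filter.1 hy).1).1)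
          (fun y hy => hmem y (Finset.mem_filter.1 hy).1)
        rw [hAw]
        exact_mod_cast h9
      apply le_of_pow_le_pow_left₀ ha.ne' (by positivity)
      refine h2.trans (h3.trans ?_)
      have h10 : (1 : ℝ) ≤ 4 * D := by linarith
      calc K ^ (m * a) * (X : ℝ) ^ ((a - 1) * (r - 1)) *
            ∑ y ∈ Y2, ((Aset n (xz x) H (y :: w)).card : ℝ)
          ≤ K ^ (m * a) * (X : ℝ) ^ ((a - 1) * (r - 1)) * (4 * D * Aw) :=
            mul_le_mul_of_nonneg_left h8 (by positivity)
        _ = Q * (4 * D) := by rw [hQ]; ring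
        _ ≤ Q * (4 * D) ^ a := by
            apply mul_le_mul_of_nonneg_left _ hQ0
            exact le_self_pow₀ h10 ha.ne'
        _ = (R * (4 * D)) ^ a := by rw [mul_pow R (4 * (D : ℝ)), hRa]
    have htot : (Ecount X x H Bd (m + 1) w : ℝ) ≤ K * R := by
      have h1 : (Ecount X x H Bd (m + 1) w : ℝ) ≤
          ∑ y ∈ Yal, (Ecount X x H Bd m (y :: w) : ℝ) := by
        exact_mod_cast Ecount_succ X x H Bd m w
      calc (Ecount X x H Bd (m + 1) w : ℝ) ≤ _ := h1
        _ = _ := hsplit
        _ ≤ R * ((a : ℝ) * ((D : ℝ) ^ a * (2 * hsum X))) + R * (4 * D) :=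
            add_le_add hsum1 hsum2
        _ = ((a : ℝ) * ((D : ℝ) ^ a * (2 * hsum X)) + 4 * D) * R := by ring
        _ ≤ K * R := mul_le_mul_of_nonneg_right hK hR0
    calc (Ecount X x H Bd (m + 1) w : ℝ) ^ a ≤ (K * R) ^ a :=
          pow_le_pow_left₀ (by positivity) htot a
      _ = K ^ a * Q := by rw [mul_pow, hRa]
      _ = K ^ ((m + 1) * a) * ((X : ℝ) ^ ((a - 1) * (r - 1)) * Aw) := by
          rw [hQ, add_mul, one_mul, pow_add]; ring

end Rec

end Pool.Agent.H33.Vmv
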