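import Mathlib
import Pool.Agent.H33.VmvRec
import Pool.Agent.H33.VmvMain
import Pool.Agent.H30.Vino2.Bounds

/-!
Counting solutions without common values.
-/

set_option autoImplicit false

open Finset

namespace Pool.Agent.H33.Vmv

open Pool.Agent.H30.Vino2 (hsum)

open Classical in
/-- Solutions without common values for which the chosen `x`-coordinates are distinct. -/
noncomputable def goodE (k s X a : ℕ) (e : Fin a ↪ Fin s) : Finset ((Fin s → ℤ) × (Fin s → ℤ)) :=
  (nset k s X).filter (fun p => Function.Injective (fun i => p.1 (e i)))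

open Classical in
/-- Injective base points. -/
noncomputable def Uset (a X : ℕ) : Finset (Fin a → ℕ) :=
  (Fintype.piFinset fun _ : Fin a => Finset.Icc 1 X).filter (fun u => Function.Injective u)

theorem card_Uset_le (a X : ℕ) : (Uset a X).card ≤ X ^ a := by
  classical
  refine (Finset.card_filter_le _ _).trans ?_
  simp

theorem card_goodE {k d X a : ℕ} (e : Fin a ↪ Fin (k + d)) (hd : d ≤ a) :
    (goodE k (k + d) X a e).card ≤ (k + d).factorial *
      ∑ u ∈ Uset a X, Ecount X u (Hs (k + d) d X) (X ^ (k + d)) (k + d) [] := by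
  classical
  set S := goodE k (k + d) X a e with hS
  let F : (Fin (k + d) → ℤ) × (Fin (k + d) → ℤ) → (Fin a → ℕ) × (Fin (k + d) → ℤ) :=
    fun p => (fun i => (p.1 (e i)).toNat, p.2)
  have hmem : ∀ p ∈ S, (p.1 ∈ box (k + d) X ∧ p.2 ∈ box (k + d) X) ∧ PS k p.1 p.2 ∧
      (∀ i j, p.1 i ≠ p.2 j) ∧ Function.Injective (fun i => p.1 (e i)) := by
    intro p hp
    rw [hS, goodE, Finset.mem_filter, nset, Finset.mem_filter, Finset.mem_product] at hp
    exact ⟨hp.1.1, hp.1.2.1, hp.1.2.2, hp.2⟩
  have h1 : S.card ≤ (k + d).factorial * (S.image F).card := by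
    apply Finset.card_le_mul_card_image
    intro b _
    apply card_fiber_fst
    intro p hp p' hp'
    rw [Finset.mem_filter] at hp hp'
    have hpm := hmem p hp.1
    have hpm' := hmem p' hp'.1
    have e0 : F p = F p' := by rw [hp.2, hp'.2]
    have e1 : (fun i => (p.1 (e i)).toNat) = (fun i => (p'.1 (e i)).toNat) :=
      (Prod.ext_iff.1 e0).1
    have e2 : p.2 = p'.2 := (Prod.ext_iff.1 e0).2
    refine ⟨e2, ?_⟩
    apply perm_of_agree p.1 p'.1 k ((univ : Finset (Fin a)).map e)
    · rw [Finset.card_map, Finset.card_univ, Fintype.card_fin]; omega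
    · intro i hi
      rw [Finset.mem_map] at hi
      obtain ⟨i', -, rfl⟩ := hi
      have h2 := congrFun e1 i'
      have h3 := mem_box.1 hpm.1.1 (e i')
      have h4 := mem_box.1 hpm'.1.1 (e i')
      omega
    · intro j hj hjk
      rw [hpm.2.1 j hj hjk, hpm'.2.1 j hj hjk, e2]
  refine h1.trans (Nat.mul_le_mul_left _ ?_)
  have himg : S.image F ⊆ (Uset a X).biUnion (fun u =>
      ((Fintype.piFinset fun _ : Fin (k + d) => Finset.Icc (1 : ℤ) X).filter
        (fun v => Alive2 u (Hs (k + d) d X) (X ^ (k + d)) (pushes (k + d) v []))).image (fun v => (u, v))) := by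
    intro b hb
    rw [Finset.mem_image] at hb
    obtain ⟨p, hp, rfl⟩ := hb
    have hpm := hmem p hp
    have hb1 := mem_box.1 hpm.1.1
    have hb2 := mem_box.1 hpm.1.2
    have hcast : ∀ i, ((p.1 (e i)).toNat : ℤ) = p.1 (e i) := by
      intro i
      have := hb1 (e i)
      omega
    rw [Finset.mem_biUnion]
    refine ⟨fun i => (p.1 (e i)).toNat, ?_, ?_⟩
    · rw [Uset, Finset.mem_filter, Fintype.mem_piFinset]
      refine ⟨?_, ?_⟩
      · intro i
        have := hb1 (e i)
        rw [Finset.mem_Icc]
        omega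
      · intro i j hij
        apply hpm.2.2.2
        have h2 := hcast i
        have h3 := hcast j
        simp only at hij ⊢
        omega
    · rw [Finset.mem_image]
      refine ⟨p.2, ?_, rfl⟩
      rw [Finset.mem_filter]
      refine ⟨hpm.1.2, ?_⟩
      obtain ⟨f, hf1, hf2⟩ := exists_diff (k := k) (d := d) p.1 p.2 X hb1 hb2 hpm.2.1
      have hxz : ∀ i, xz (fun i => (p.1 (e i)).toNat) i = p.1 (e i) := fun i => hcast i
      refine ⟨f, ?_, ?_, ?_⟩
      · intro l
        have := hf2 l
        rw [Hs]
        push_cast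
        exact this
      · intro i
        rw [hxz]
        have e3 := hf1 (p.1 (e i))
        have z : ∏ i', (p.1 (e i) - p.1 i') = 0 := by
          apply Finset.prod_eq_zero (Finset.mem_univ (e i))
          rw [sub_self]
        rw [z, zero_sub] at e3
        rw [← e3]
        constructor
        · rw [neg_ne_zero, Finset.prod_ne_zero_iff]
          intro j _
          rw [sub_ne_zero]
          exact hpm.2.2.1 _ _
        · rw [Int.natAbs_neg]
          have hp : (∏ j, (p.1 (e i) - p.2 j)).natAbs =
              ∏ j, (p.1 (e i) - p.2 j).natAbs := map_prod Int.natAbsHom _ Finset.univ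
          rw [hp]
          calc ∏ j, (p.1 (e i) - p.2 j).natAbs ≤ ∏ _j : Fin (k + d), X := by
                apply Finset.prod_le_prod
                · intro j _; exact Nat.zero_le _
                · intro j _
                  have b1 := hb1 (e i)
                  have b2 := hb2 j
                  omega
            _ = X ^ (k + d) := by simp
      · intro y hy
        rw [mem_pushes] at hy
        rcases hy with hy | ⟨j, rfl⟩
        · simp at hy
        · refine ⟨?_, ?_⟩
          · intro i
            rw [hxz]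
            have e3 := hf1 (p.2 j)
            have z : ∏ j', (p.2 j - p.2 j') = 0 := by
              apply Finset.prod_eq_zero (Finset.mem_univ j)
              rw [sub_self]
            rw [z, sub_zero] at e3
            rw [← e3]
            exact Finset.dvd_prod_of_mem (fun i' => p.2 j - p.1 i') (Finset.mem_univ (e i))
          · intro i
            rw [hxz]
            exact (hpm.2.2.1 _ _).symm
  calc (S.image F).card ≤ _ := Finset.card_le_card himg
    _ ≤ ∑ u ∈ Uset a X, (((Fintype.piFinset fun _ : Fin (k + d) => Finset.Icc (1 : ℤ) X).filter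
        (fun v => Alive2 u (Hs (k + d) d X) (X ^ (k + d)) (pushes (k + d) v []))).image
          (fun v => (u, v))).card := Finset.card_biUnion_le
    _ ≤ ∑ u ∈ Uset a X, Ecount X u (Hs (k + d) d X) (X ^ (k + d)) (k + d) [] := by
        apply Finset.sum_le_sum
        intro u _
        exact Finset.card_image_le

theorem exists_embedding {s a : ℕ} (x : Fin s → ℤ) (h : a ≤ ((univ : Finset (Fin s)).image x).card) :
    ∃ e : Fin a ↪ Fin s, Function.Injective (fun i => x (e i)) := by
  classical
  obtain ⟨T, hT, hTc⟩ := Finset.exists_subset_card_eq h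
  have hpre : ∀ t : T, ∃ j : Fin s, x j = t := by
    intro t
    have := hT t.2
    rw [Finset.mem_image] at this
    obtain ⟨j, -, hj⟩ := this
    exact ⟨j, hj⟩
  choose g hg using hpre
  let φ : Fin a ≃ T := (Finset.equivFinOfCardEq hTc).symm
  have hinj : Function.Injective (fun i => x (g (φ i))) := by
    intro i j hij
    simp only [hg] at hij
    exact φ.injective (Subtype.ext hij)
  refine ⟨⟨fun i => g (φ i), fun i j hij => hinj (by simp only at hij ⊢; rw [hij])⟩, hinj⟩

open Classical in
/-- Tuples with few distinct values. -/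
theorem card_few (s X a : ℕ) (hX : 1 ≤ X) :
    ((box s X).filter (fun x => ((univ : Finset (Fin s)).image x).card < a)).card ≤
      (a - 1) ^ s * X ^ (a - 1) := by
  have hc : (a - 1) ^ s * X ^ (a - 1) = ((univ : Finset (Fin s → Fin (a - 1))) ×ˢ
      box (a - 1) X).card := by
    rw [Finset.card_product, card_box, Finset.card_univ, Fintype.card_fun, Fintype.card_fin,
      Fintype.card_fin]
  rw [hc]
  refine le_trans (Finset.card_le_card ?_) (Finset.card_image_le
    (f := fun q : (Fin s → Fin (a - 1)) × (Fin (a - 1) → ℤ) => fun j => q.2 (q.1 j)))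
  intro x hx
  rw [Finset.mem_filter] at hx
  obtain ⟨hb, hlt⟩ := hx
  set T := (univ : Finset (Fin s)).image x with hT
  have hTc : T.card ≤ a - 1 := by omega
  let φ : T ≃ Fin T.card := T.equivFin
  have hxT : ∀ j, x j ∈ T := fun j => Finset.mem_image_of_mem x (Finset.mem_univ j)
  rw [Finset.mem_image]
  refine ⟨(fun j => Fin.castLE hTc (φ ⟨x j, hxT j⟩),
    fun i => if h : (i : ℕ) < T.card then (φ.symm ⟨i, h⟩ : ℤ) else 1), ?_, ?_⟩
  · rw [Finset.mem_product]
    refine ⟨Finset.mem_univ _, ?_⟩
    rw [mem_box]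
    intro i
    dsimp only
    split_ifs with h
    · have h3 : ∀ z ∈ T, 1 ≤ z ∧ z ≤ (X : ℤ) := by
        intro z hz
        rw [hT, Finset.mem_image] at hz
        obtain ⟨j, -, rfl⟩ := hz
        exact mem_box.1 hb j
      exact h3 _ (φ.symm ⟨i, h⟩).2
    · exact ⟨le_rfl, by exact_mod_cast hX⟩
  · funext j
    dsimp only
    have h : ((Fin.castLE hTc (φ ⟨x j, hxT j⟩) : Fin (a - 1)) : ℕ) < T.card := by
      rw [Fin.val_castLE]; exact (φ ⟨x j, hxT j⟩).2
    rw [dif_pos h]
    have e : (⟨((Fin.castLE hTc (φ ⟨x j, hxT j⟩) : Fin (a - 1)) : ℕ), h⟩ : Fin T.card) =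
        φ ⟨x j, hxT j⟩ := by
      apply Fin.ext; rw [Fin.val_castLE]
    rw [e, Equiv.symm_apply_apply]

open Classical in
theorem card_fewSet {k d X a : ℕ} (hX : 1 ≤ X) :
    ((nset k (k + d) X).filter
      (fun p => ((univ : Finset (Fin (k + d))).image p.1).card < a)).card ≤
      (k + d).factorial * (((a - 1) ^ (k + d) * X ^ (a - 1)) * X ^ d) := by
  set s := k + d with hs
  set S := (nset k s X).filter
      (fun p => ((univ : Finset (Fin s)).image p.1).card < a) with hS
  have hds : d ≤ s := by omega
  have hmem : ∀ p ∈ S, (p.1 ∈ box s X ∧ p.2 ∈ box s X) ∧ PS k p.1 p.2 ∧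
      (∀ i j, p.1 i ≠ p.2 j) ∧ ((univ : Finset (Fin s)).image p.1).card < a := by
    intro p hp
    rw [hS, Finset.mem_filter, nset, Finset.mem_filter, Finset.mem_product] at hp
    exact ⟨hp.1.1, hp.1.2.1, hp.1.2.2, hp.2⟩
  let F : (Fin s → ℤ) × (Fin s → ℤ) → (Fin s → ℤ) × (Fin d → ℤ) :=
    fun p => (p.1, fst d hds p.2)
  have h1 : S.card ≤ s.factorial * (S.image F).card := by
    apply Finset.card_le_mul_card_image
    intro b _
    apply card_fiber_snd
    intro p hp p' hp'
    rw [Finset.mem_filter] at hp hp'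
    have hpm := hmem p hp.1
    have hpm' := hmem p' hp'.1
    have e0 : F p = F p' := by rw [hp.2, hp'.2]
    have e1 : p.1 = p'.1 := (Prod.ext_iff.1 e0).1
    have e2 : fst d hds p.2 = fst d hds p'.2 := (Prod.ext_iff.1 e0).2
    refine ⟨e1, ?_⟩
    apply perm_of_agree p.2 p'.2 k ((univ : Finset (Fin d)).map (Fin.castLEEmb hds))
    · rw [Finset.card_map, Finset.card_univ, Fintype.card_fin]
    · intro i hi
      rw [Finset.mem_map] at hi
      obtain ⟨i', -, rfl⟩ := hi
      exact congrFun e2 i'
    · intro j hj hjk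
      rw [← hpm.2.1 j hj hjk, ← hpm'.2.1 j hj hjk, e1]
  refine h1.trans (Nat.mul_le_mul_left _ ?_)
  have h2 : S.image F ⊆ ((box s X).filter
      (fun x => ((univ : Finset (Fin s)).image x).card < a)) ×ˢ box d X := by
    intro b hb
    rw [Finset.mem_image] at hb
    obtain ⟨p, hp, rfl⟩ := hb
    have hpm := hmem p hp
    rw [Finset.mem_product, Finset.mem_filter]
    refine ⟨⟨hpm.1.1, hpm.2.2.2⟩, ?_⟩
    rw [mem_box]
    intro i
    exact mem_box.1 hpm.1.2 _
  refine (Finset.card_le_card h2).trans ?_
  rw [Finset.card_product, card_box]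
  exact Nat.mul_le_mul_right _ (card_few s X a hX)

theorem card_nset_le {k d X a : ℕ} (hd : d ≤ a) (hX : 1 ≤ X) :
    (nset k (k + d) X).card ≤ Fintype.card (Fin a ↪ Fin (k + d)) * ((k + d).factorial *
      ∑ u ∈ Uset a X, Ecount X u (Hs (k + d) d X) (X ^ (k + d)) (k + d) []) +
      (k + d).factorial * (((a - 1) ^ (k + d) * X ^ (a - 1)) * X ^ d) := by
  classical
  set s := k + d with hs
  have hsub : nset k s X ⊆ ((univ : Finset (Fin a ↪ Fin s)).biUnion (fun e => goodE k s X a e)) ∪
      ((nset k s X).filter (fun p => ((univ : Finset (Fin s)).image p.1).card < a)) := by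
    intro p hp
    rw [Finset.mem_union]
    by_cases h : ((univ : Finset (Fin s)).image p.1).card < a
    · exact Or.inr (Finset.mem_filter.2 ⟨hp, h⟩)
    · left
      obtain ⟨e, he⟩ := exists_embedding p.1 (not_lt.1 h)
      rw [Finset.mem_biUnion]
      refine ⟨e, Finset.mem_univ _, ?_⟩
      rw [goodE, Finset.mem_filter]
      exact ⟨hp, he⟩
  refine (Finset.card_le_card hsub).trans ((Finset.card_union_le _ _).trans ?_)
  apply add_le_add _ (card_fewSet hX)
  refine Finset.card_biUnion_le.trans ?_
  calc ∑ e : Fin a ↪ Fin s, (goodE k s X a e).card ≤ ∑ _e : Fin a ↪ Fin s, (s.factorial *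
        ∑ u ∈ Uset a X, Ecount X u (Hs s d X) (X ^ s) s []) :=
        Finset.sum_le_sum (fun e _ => card_goodE e hd)
    _ = _ := by rw [Finset.sum_const, Finset.card_univ, smul_eq_mul]

end Pool.Agent.H33.Vmv
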