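import Mathlib
import Pool.Agent.H33.VmvSol

/-!
Exponents.
-/

set_option autoImplicit false

open Finset

namespace Pool.Agent.H33.Vmv

open Pool.Agent.H30.Vino2 (hsum tau_le hsum_le)

/-- The exponent for one block of base points. -/
noncomputable def theta (k d a : ℕ) : ℝ :=
  (((a - 1) * (d - 1) + ∑ l : Fin d, (k + d - (l : ℕ)) : ℕ) : ℝ) / a

theorem card_Aset_nil_le {a d s X : ℕ} (hX1 : 1 ≤ X) (x : Fin a → ℤ) :
    (Aset s x (Hs s d X) []).card ≤ (2 * ((d + 1) ^ s * 2 ^ (s + 1)) + 1) ^ d *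
      X ^ (∑ l : Fin d, (s - (l : ℕ))) := by
  set C1 := 2 * ((d + 1) ^ s * 2 ^ (s + 1)) + 1 with hC1
  calc (Aset s x (Hs s d X) []).card ≤ ∏ l, (2 * ((d + 1) ^ s * Hs s d X l) + 1) :=
        card_Aset_nil s x _
    _ ≤ ∏ l : Fin d, (C1 * X ^ (s - (l : ℕ))) := by
        apply Finset.prod_le_prod
        · intro l _; exact Nat.zero_le _
        · intro l _
          have h1 : 1 ≤ X ^ (s - (l : ℕ)) := Nat.one_le_pow _ _ hX1
          have e : 2 * ((d + 1) ^ s * Hs s d X l) + 1 =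
              (2 * ((d + 1) ^ s * 2 ^ (s + 1))) * X ^ (s - (l : ℕ)) + 1 := by
            rw [Hs]; ring
          rw [e, hC1, add_mul, one_mul]
          omega
    _ = C1 ^ d * X ^ (∑ l : Fin d, (s - (l : ℕ))) := by
        rw [Finset.prod_mul_distrib, Finset.prod_const, Finset.card_univ, Fintype.card_fin,
          Finset.prod_pow_eq_pow_sum]

theorem Ecount_bound (k d a : ℕ) (hd1 : 1 ≤ d) (hda : d ≤ a) (ε : ℝ) (hε : 0 < ε) :
    ∃ C : ℝ, 0 ≤ C ∧ ∀ X : ℕ, 1 ≤ X → ∀ u ∈ Uset a X,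
      (Ecount X u (Hs (k + d) d X) (X ^ (k + d)) (k + d) [] : ℝ) ≤
        C * (X : ℝ) ^ (theta k d a + ε) := by
  classical
  obtain ⟨s, hs⟩ : ∃ s, s = k + d := ⟨_, rfl⟩
  rw [← hs]
  have ha : 0 < a := by omega
  have hs1 : 1 ≤ s := by omega
  set c0 : ℕ := d * ((d + 1) ^ s * 2 ^ (s + 1)) with hc0
  have hc0pos : 1 ≤ c0 := Nat.mul_pos hd1 (by positivity)
  set E0 : ℕ := s * a + a * a with hE0
  have hE0s : s ≤ E0 := by nlinarith
  set ε₁ : ℝ := ε / ((s + 1) * (a + 1)) with hε₁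
  have hε₁pos : 0 < ε₁ := by positivity
  obtain ⟨C₁, hC₁, h1⟩ := tau_le E0 ε₁ hε₁pos
  obtain ⟨C₂, hC₂, h2⟩ := hsum_le ε₁ hε₁pos
  set C₃ : ℝ := C₁ * (c0 : ℝ) ^ ε₁ + 1 with hC₃
  have hC₃0 : 0 ≤ C₃ := by positivity
  set C₄ : ℝ := (a : ℝ) * (C₃ ^ a * (2 * C₂)) + 4 * C₃ with hC₄
  have hC₄0 : 0 ≤ C₄ := by positivity
  set C₅ : ℝ := ((2 * ((d + 1) ^ s * 2 ^ (s + 1)) + 1 : ℕ) : ℝ) ^ d with hC₅
  have hC₅1 : 1 ≤ C₅ := by
    rw [hC₅]
    apply one_le_pow₀
    exact_mod_cast (Nat.le_add_left 1 _)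
  refine ⟨C₄ ^ s * C₅, by positivity, ?_⟩
  intro X hX u hu
  have hX1 : (1 : ℝ) ≤ X := by exact_mod_cast hX
  have hX0 : (0 : ℝ) < X := by linarith
  by_cases hal : Alive2 u (Hs s d X) (X ^ s) []
  · rw [Uset, Finset.mem_filter, Fintype.mem_piFinset] at hu
    set Dr : ℝ := C₁ * ((c0 * X : ℕ) : ℝ) ^ ε₁ with hDr
    have hDr0 : 0 ≤ Dr := by positivity
    set D : ℕ := ⌊Dr⌋₊ + 1 with hD
    have hXε : (1 : ℝ) ≤ (X : ℝ) ^ ε₁ := Real.one_le_rpow hX1 hε₁pos.le
    have hDle : (D : ℝ) ≤ C₃ * (X : ℝ) ^ ε₁ := by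
      rw [hD]
      push_cast
      have h3 : (⌊Dr⌋₊ : ℝ) ≤ Dr := Nat.floor_le hDr0
      have h4 : Dr = C₁ * (c0 : ℝ) ^ ε₁ * (X : ℝ) ^ ε₁ := by
        rw [hDr]
        push_cast
        rw [Real.mul_rpow (by positivity) (by positivity)]
        ring
      rw [hC₃, add_mul, one_mul, ← h4]
      linarith
    set K : ℝ := (a : ℝ) * ((D : ℝ) ^ a * (2 * hsum X)) + 4 * D with hK
    have hh0 : 0 ≤ hsum X :=
      Finset.sum_nonneg (fun n _ => Pool.Agent.H30.Vino2.one_div_max_nonneg n)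
    have hK0 : 0 ≤ K := by positivity
    have hKle : K ≤ C₄ * (X : ℝ) ^ (ε₁ * (a + 1)) := by
      have h3 : (D : ℝ) ^ a ≤ C₃ ^ a * (X : ℝ) ^ (ε₁ * a) := by
        calc (D : ℝ) ^ a ≤ (C₃ * (X : ℝ) ^ ε₁) ^ a := pow_le_pow_left₀ (by positivity) hDle a
          _ = C₃ ^ a * (X : ℝ) ^ (ε₁ * a) := by
            rw [mul_pow, ← Real.rpow_natCast ((X : ℝ) ^ ε₁) a, ← Real.rpow_mul hX0.le]
      have h4 : (D : ℝ) ^ a * (2 * hsum X) ≤
          C₃ ^ a * (2 * C₂) * (X : ℝ) ^ (ε₁ * (a + 1)) := by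
        calc (D : ℝ) ^ a * (2 * hsum X)
            ≤ (C₃ ^ a * (X : ℝ) ^ (ε₁ * a)) * (2 * (C₂ * (X : ℝ) ^ ε₁)) := by
              apply mul_le_mul h3 _ (by positivity) (by positivity)
              have := h2 X hX
              linarith
          _ = C₃ ^ a * (2 * C₂) * ((X : ℝ) ^ (ε₁ * a) * (X : ℝ) ^ ε₁) := by ring
          _ = C₃ ^ a * (2 * C₂) * (X : ℝ) ^ (ε₁ * (a + 1)) := by
              rw [← Real.rpow_add hX0]
              congr 2
              ring
      have h5 : (D : ℝ) ≤ C₃ * (X : ℝ) ^ (ε₁ * (a + 1)) := by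
        refine hDle.trans (mul_le_mul_of_nonneg_left ?_ hC₃0)
        apply Real.rpow_le_rpow_of_exponent_le hX1
        have : (0 : ℝ) ≤ a := by positivity
        nlinarith
      calc K ≤ (a : ℝ) * (C₃ ^ a * (2 * C₂) * (X : ℝ) ^ (ε₁ * (a + 1))) +
            4 * (C₃ * (X : ℝ) ^ (ε₁ * (a + 1))) := by
            rw [hK]
            apply add_le_add
            · exact mul_le_mul_of_nonneg_left h4 (by positivity)
            · linarith
        _ = _ := by rw [hC₄]; ring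
    have hmain := pot_main s X u (Hs s d X) (X ^ s) hda ha hX hu.2 hu.1 D ((c0 * X) ^ E0)
      (by omega)
      (by
        intro m hm hmle
        have h3 := h1 (c0 * X) (Nat.mul_pos hc0pos hX) m hm hmle
        have h4 : m.divisors.card ≤ ⌊Dr⌋₊ := Nat.le_floor h3
        omega)
      (by
        calc (X ^ s) ^ a * X ^ (a * a) = X ^ E0 := by rw [← pow_mul, ← pow_add]
          _ ≤ (c0 * X) ^ E0 := Nat.pow_le_pow_left (Nat.le_mul_of_pos_left X hc0pos) _)
      (by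
        intro g hg i
        have hui := Finset.mem_Icc.1 (hu.1 i)
        have h3 : (ev (xz u i) g).natAbs ≤ d * (((d + 1) ^ s * 2 ^ (s + 1)) * X ^ s) := by
          apply ev_natAbs_le X
          · unfold xz
            exact ⟨by exact_mod_cast hui.1, by exact_mod_cast hui.2⟩
          · intro l
            have hl : (l : ℕ) ≤ s := by have := l.2; omega
            calc |g l| * (X : ℤ) ^ (l : ℕ)
                ≤ (((d : ℤ) + 1) ^ s * Hs s d X l) * (X : ℤ) ^ (l : ℕ) :=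
                  mul_le_mul_of_nonneg_right (hg l) (by positivity)
              _ = ((d : ℤ) + 1) ^ s * 2 ^ (s + 1) * ((X : ℤ) ^ (s - (l : ℕ)) * (X : ℤ) ^ (l : ℕ)) := by
                  rw [Hs]; push_cast; ring
              _ = (((((d + 1) ^ s * 2 ^ (s + 1)) * X ^ s : ℕ)) : ℤ) := by
                  rw [← pow_add, Nat.sub_add_cancel hl]; push_cast; ring
        calc (ev (xz u i) g).natAbs ≤ d * (((d + 1) ^ s * 2 ^ (s + 1)) * X ^ s) := h3
          _ = c0 * X ^ s := by rw [hc0]; ring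
          _ ≤ c0 ^ E0 * X ^ E0 := by
              apply Nat.mul_le_mul
              · exact Nat.le_self_pow (by omega) c0
              · exact Nat.pow_le_pow_right hX hE0s
          _ = (c0 * X) ^ E0 := (mul_pow c0 X E0).symm)
      K le_rfl s [] (by simp) hal
    set N := ∑ l : Fin d, (s - (l : ℕ)) with hN
    have hr : Module.finrank ℚ (qspan (Aset s (xz u) (Hs s d X) [])) ≤ d := by
      have := Submodule.finrank_le (qspan (Aset s (xz u) (Hs s d X) []))
      rwa [Module.finrank_fin_fun] at this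
    have hA : ((Aset s (xz u) (Hs s d X) []).card : ℝ) ≤ C₅ * (X : ℝ) ^ N := by
      have := card_Aset_nil_le (a := a) (d := d) (s := s) hX (xz u)
      rw [hC₅]
      exact_mod_cast this
    have hθ : ((X : ℝ) ^ (theta k d a)) ^ a = (X : ℝ) ^ ((a - 1) * (d - 1)) * (X : ℝ) ^ N := by
      rw [← Real.rpow_natCast, ← Real.rpow_mul hX0.le, theta, div_mul_cancel₀ _ (by positivity),
        Real.rpow_natCast, ← hs, pow_add]
    have hfin : (Ecount X u (Hs s d X) (X ^ s) s [] : ℝ) ≤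
        C₄ ^ s * (X : ℝ) ^ (ε₁ * (a + 1) * s) * C₅ * (X : ℝ) ^ (theta k d a) := by
      apply le_of_pow_le_pow_left₀ ha.ne' (by positivity)
      refine hmain.trans ?_
      have h6 : K ^ (s * a) ≤ (C₄ ^ s * (X : ℝ) ^ (ε₁ * (a + 1) * s)) ^ a := by
        rw [pow_mul]
        apply pow_le_pow_left₀ (by positivity)
        calc K ^ s ≤ (C₄ * (X : ℝ) ^ (ε₁ * (a + 1))) ^ s := pow_le_pow_left₀ hK0 hKle s
          _ = C₄ ^ s * (X : ℝ) ^ (ε₁ * (a + 1) * s) := by
            rw [mul_pow, ← Real.rpow_natCast ((X : ℝ) ^ (ε₁ * (a + 1))) s,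
              ← Real.rpow_mul hX0.le]
      have h7 : (X : ℝ) ^ ((a - 1) *
          (Module.finrank ℚ (qspan (Aset s (xz u) (Hs s d X) [])) - 1)) ≤
          (X : ℝ) ^ ((a - 1) * (d - 1)) :=
        pow_le_pow_right₀ hX1 (Nat.mul_le_mul_left _ (by omega))
      calc K ^ (s * a) * ((X : ℝ) ^ ((a - 1) *
            (Module.finrank ℚ (qspan (Aset s (xz u) (Hs s d X) [])) - 1)) *
            ((Aset s (xz u) (Hs s d X) []).card : ℝ))
          ≤ (C₄ ^ s * (X : ℝ) ^ (ε₁ * (a + 1) * s)) ^ a *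
            ((X : ℝ) ^ ((a - 1) * (d - 1)) * (C₅ * (X : ℝ) ^ N)) := by
            apply mul_le_mul h6 _ (by positivity) (by positivity)
            exact mul_le_mul h7 hA (by positivity) (by positivity)
        _ = (C₄ ^ s * (X : ℝ) ^ (ε₁ * (a + 1) * s)) ^ a * C₅ *
            ((X : ℝ) ^ ((a - 1) * (d - 1)) * (X : ℝ) ^ N) := by ring
        _ ≤ (C₄ ^ s * (X : ℝ) ^ (ε₁ * (a + 1) * s)) ^ a * C₅ ^ a *
            ((X : ℝ) ^ ((a - 1) * (d - 1)) * (X : ℝ) ^ N) := by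
            apply mul_le_mul_of_nonneg_right _ (by positivity)
            apply mul_le_mul_of_nonneg_left _ (by positivity)
            exact le_self_pow₀ hC₅1 ha.ne'
        _ = (C₄ ^ s * (X : ℝ) ^ (ε₁ * (a + 1) * s) * C₅ * (X : ℝ) ^ (theta k d a)) ^ a := by
            rw [← hθ]; ring
    refine hfin.trans ?_
    calc C₄ ^ s * (X : ℝ) ^ (ε₁ * (a + 1) * s) * C₅ * (X : ℝ) ^ (theta k d a)
        = C₄ ^ s * C₅ * ((X : ℝ) ^ (theta k d a) * (X : ℝ) ^ (ε₁ * (a + 1) * s)) := by ring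
      _ = C₄ ^ s * C₅ * (X : ℝ) ^ (theta k d a + ε₁ * (a + 1) * s) := by
          rw [← Real.rpow_add hX0]
      _ ≤ C₄ ^ s * C₅ * (X : ℝ) ^ (theta k d a + ε) := by
          apply mul_le_mul_of_nonneg_left _ (by positivity)
          apply Real.rpow_le_rpow_of_exponent_le hX1
          have h8 : ε₁ * (a + 1) * s ≤ ε := by
            rw [hε₁, div_mul_eq_mul_div, div_mul_eq_mul_div, div_le_iff₀ (by positivity)]
            have h9 : (0 : ℝ) ≤ s := by positivity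
            have h10 : (0 : ℝ) ≤ a := by positivity
            nlinarith [mul_nonneg hε.le (add_nonneg h10 zero_le_one)]
          linarith
  · have h0 : Ecount X u (Hs s d X) (X ^ s) s [] = 0 := by
      unfold Ecount
      simp only [Finset.card_eq_zero, Finset.filter_eq_empty_iff]
      intro v _ h6
      exact hal (alive_of_pushes (Alive2 u (Hs s d X) (X ^ s))
        (fun _ _ h => h.tail u (Hs s d X)) s v [] h6)
    rw [h0, Nat.cast_zero]
    positivity

theorem nset_rpow (k d a : ℕ) (hd1 : 1 ≤ d) (hda : d ≤ a) (ε : ℝ) (hε : 0 < ε) :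
    ∃ C : ℝ, 0 ≤ C ∧ ∀ X : ℕ, 1 ≤ X →
      ((nset k (k + d) X).card : ℝ) ≤ C * (X : ℝ) ^ ((a : ℝ) + theta k d a + ε) := by
  obtain ⟨C, hC0, hC⟩ := Ecount_bound k d a hd1 hda ε hε
  set c1 : ℝ := (Fintype.card (Fin a ↪ Fin (k + d)) : ℝ) * ((k + d).factorial : ℝ) with hc1
  set c2 : ℝ := ((k + d).factorial : ℝ) * ((a - 1 : ℕ) : ℝ) ^ (k + d) with hc2
  refine ⟨c1 * C + c2, by positivity, ?_⟩
  intro X hX
  have hX1 : (1 : ℝ) ≤ X := by exact_mod_cast hX
  have hX0 : (0 : ℝ) < X := by linarith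
  have ha : 0 < a := by omega
  have h1 : ((nset k (k + d) X).card : ℝ) ≤ c1 *
      ∑ u ∈ Uset a X, (Ecount X u (Hs (k + d) d X) (X ^ (k + d)) (k + d) [] : ℝ) +
      c2 * ((X : ℝ) ^ (a - 1) * (X : ℝ) ^ d) := by
    have h2 := card_nset_le (k := k) (d := d) (X := X) hda hX
    have h3 : ((nset k (k + d) X).card : ℝ) ≤
        (Fintype.card (Fin a ↪ Fin (k + d)) * ((k + d).factorial *
        ∑ u ∈ Uset a X, Ecount X u (Hs (k + d) d X) (X ^ (k + d)) (k + d) []) +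
        (k + d).factorial * (((a - 1) ^ (k + d) * X ^ (a - 1)) * X ^ d) : ℕ) := by
      exact_mod_cast h2
    refine h3.trans (le_of_eq ?_)
    rw [hc1, hc2]
    push_cast
    ring
  have h4 : ∑ u ∈ Uset a X, (Ecount X u (Hs (k + d) d X) (X ^ (k + d)) (k + d) [] : ℝ) ≤
      C * (X : ℝ) ^ ((a : ℝ) + theta k d a + ε) := by
    calc ∑ u ∈ Uset a X, (Ecount X u (Hs (k + d) d X) (X ^ (k + d)) (k + d) [] : ℝ)
        ≤ ∑ u ∈ Uset a X, C * (X : ℝ) ^ (theta k d a + ε) :=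
          Finset.sum_le_sum (fun u hu => hC X hX u hu)
      _ = ((Uset a X).card : ℝ) * (C * (X : ℝ) ^ (theta k d a + ε)) := by
          rw [Finset.sum_const, nsmul_eq_mul]
      _ ≤ (X : ℝ) ^ a * (C * (X : ℝ) ^ (theta k d a + ε)) := by
          apply mul_le_mul_of_nonneg_right _ (by positivity)
          exact_mod_cast card_Uset_le a X
      _ = C * (X : ℝ) ^ ((a : ℝ) + theta k d a + ε) := by
          rw [add_assoc, Real.rpow_add hX0 (a : ℝ) (theta k d a + ε), Real.rpow_natCast]; ring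
  have h5 : (X : ℝ) ^ (a - 1) * (X : ℝ) ^ d ≤ (X : ℝ) ^ ((a : ℝ) + theta k d a + ε) := by
    rw [← pow_add, ← Real.rpow_natCast]
    apply Real.rpow_le_rpow_of_exponent_le hX1
    have h6 : ((d - 1 : ℕ) : ℝ) ≤ theta k d a := by
      rw [theta, le_div_iff₀ (by exact_mod_cast ha)]
      have h7 : (d - 1) * a ≤ (a - 1) * (d - 1) + ∑ l : Fin d, (k + d - (l : ℕ)) := by
        have h8 : d ≤ ∑ l : Fin d, (k + d - (l : ℕ)) := by
          have h9 : (k + d - ((⟨0, by omega⟩ : Fin d) : ℕ)) ≤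
              ∑ l : Fin d, (k + d - (l : ℕ)) :=
            Finset.single_le_sum (f := fun l : Fin d => (k + d - (l : ℕ)))
              (fun l _ => Nat.zero_le _) (Finset.mem_univ _)
          simp only [Nat.sub_zero] at h9
          omega
        obtain ⟨b, rfl⟩ := Nat.exists_eq_add_of_le ha
        obtain ⟨d', rfl⟩ := Nat.exists_eq_add_of_le hd1
        rw [Nat.add_sub_cancel_left, show 0 + 1 + b - 1 = b by omega]
        nlinarith
      exact_mod_cast h7
    have h10 : ((a - 1 + d : ℕ) : ℝ) = (a : ℝ) + ((d - 1 : ℕ) : ℝ) := by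
      have : a - 1 + d = a + (d - 1) := by omega
      rw [this]; push_cast; ring
    rw [h10]
    linarith
  calc ((nset k (k + d) X).card : ℝ) ≤ _ := h1
    _ ≤ c1 * (C * (X : ℝ) ^ ((a : ℝ) + theta k d a + ε)) +
        c2 * (X : ℝ) ^ ((a : ℝ) + theta k d a + ε) :=
        add_le_add (mul_le_mul_of_nonneg_left h4 (by positivity))
          (mul_le_mul_of_nonneg_left h5 (by positivity))
    _ = _ := by ring

theorem theta_succ (k d a : ℕ) (hd1 : 1 ≤ d) (ha : 0 < a) :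
    1 + theta k d a ≤ theta k (d + 1) a := by
  have ha' : (0 : ℝ) < a := by exact_mod_cast ha
  rw [theta, theta, le_div_iff₀ ha', add_mul, one_mul, div_mul_cancel₀ _ ha'.ne']
  have h1 : a + ((a - 1) * (d - 1) + ∑ l : Fin d, (k + d - (l : ℕ))) ≤
      (a - 1) * (d + 1 - 1) + ∑ l : Fin (d + 1), (k + (d + 1) - (l : ℕ)) := by
    have h2 : ∑ l : Fin (d + 1), (k + (d + 1) - (l : ℕ)) =
        (k + (d + 1)) + ∑ l : Fin d, (k + d - (l : ℕ)) := by
      rw [Fin.sum_univ_succ]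
      congr 1
      apply Finset.sum_congr rfl
      intro l _
      simp only [Fin.val_succ]
      omega
    rw [h2]
    obtain ⟨b, hb⟩ : ∃ b, a = b + 1 := ⟨a - 1, by omega⟩
    obtain ⟨d', hd'⟩ : ∃ d', d = d' + 1 := ⟨d - 1, by omega⟩
    have e1 : a - 1 = b := by omega
    have e2 : d - 1 = d' := by omega
    have e3 : d + 1 - 1 = d' + 1 := by omega
    rw [e1, e2, e3, hb, mul_add, mul_one]
    omega
  exact_mod_cast h1

theorem offd_theta (k a : ℕ) (ha : 0 < a) (ε : ℝ) (hε : 0 < ε) :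
    ∀ d : ℕ, 1 ≤ d → d ≤ a → ∃ C : ℝ, 0 ≤ C ∧ ∀ X : ℕ, 1 ≤ X →
      ((offd k (k + d) X).card : ℝ) ≤ C * (X : ℝ) ^ ((a : ℝ) + theta k d a + ε) := by
  intro d
  induction d with
  | zero => intro h; omega
  | succ d ih =>
    intro _ hda
    obtain ⟨C1, hC10, hC1⟩ := nset_rpow k (d + 1) a (by omega) hda ε hε
    rcases Nat.eq_zero_or_pos d with hd0 | hd0
    · subst hd0
      refine ⟨C1, hC10, fun X hX => ?_⟩
      have h1 := offd_succ k k X
      rw [offd_small (le_refl k)] at h1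
      have h2 : (offd k (k + (0 + 1)) X).card ≤ (nset k (k + (0 + 1)) X).card := by
        simpa using h1
      refine le_trans ?_ (hC1 X hX)
      exact_mod_cast h2
    · obtain ⟨C, hC0, hC⟩ := ih hd0 (by omega)
      refine ⟨C1 + ((k + d + 1 : ℕ) : ℝ) * ((k + d + 1 : ℕ) : ℝ) * C, by positivity,
        fun X hX => ?_⟩
      have hX1 : (1 : ℝ) ≤ X := by exact_mod_cast hX
      have hX0 : (0 : ℝ) < X := by linarith
      have h1 : ((offd k (k + (d + 1)) X).card : ℝ) ≤ ((nset k (k + (d + 1)) X).card : ℝ) +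
          ((k + d + 1 : ℕ) : ℝ) * ((k + d + 1 : ℕ) : ℝ) * (X * ((offd k (k + d) X).card : ℝ)) := by
        have := offd_succ k (k + d) X
        exact_mod_cast this
      have h2 : (X : ℝ) * ((offd k (k + d) X).card : ℝ) ≤
          C * (X : ℝ) ^ ((a : ℝ) + theta k (d + 1) a + ε) := by
        calc (X : ℝ) * ((offd k (k + d) X).card : ℝ)
            ≤ X * (C * (X : ℝ) ^ ((a : ℝ) + theta k d a + ε)) :=
              mul_le_mul_of_nonneg_left (hC X hX) hX0.le
          _ = C * (X : ℝ) ^ (1 + ((a : ℝ) + theta k d a + ε)) := by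
              rw [Real.rpow_add hX0 1 ((a : ℝ) + theta k d a + ε), Real.rpow_one]; ring
          _ ≤ _ := by
              apply mul_le_mul_of_nonneg_left _ hC0
              apply Real.rpow_le_rpow_of_exponent_le hX1
              have := theta_succ k d a hd0 ha
              linarith
      calc ((offd k (k + (d + 1)) X).card : ℝ) ≤ _ := h1
        _ ≤ C1 * (X : ℝ) ^ ((a : ℝ) + theta k (d + 1) a + ε) +
            ((k + d + 1 : ℕ) : ℝ) * ((k + d + 1 : ℕ) : ℝ) *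
              (C * (X : ℝ) ^ ((a : ℝ) + theta k (d + 1) a + ε)) :=
            add_le_add (hC1 X hX) (mul_le_mul_of_nonneg_left h2 (by positivity))
        _ = _ := by ring

theorem theta_eq (k d a : ℕ) (hd : 1 ≤ d) (ha : 0 < a) :
    (a : ℝ) + theta k d a =
      (a : ℝ) + d - 1 + ((d : ℝ) * k + d * (d - 1) / 2 + 1) / a := by
  have ha' : (a : ℝ) ≠ 0 := by exact_mod_cast ha.ne'
  have h1 := two_sum k d
  have h2 : (2 : ℝ) * ((∑ l : Fin d, (k + d - (l : ℕ)) : ℕ) : ℝ) = 2 * d * k + d ^ 2 + d := by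
    exact_mod_cast h1
  rw [theta, Nat.cast_add, Nat.cast_mul, Nat.cast_sub ha, Nat.cast_sub hd]
  generalize ((∑ l : Fin d, (k + d - (l : ℕ)) : ℕ) : ℝ) = S at h2 ⊢
  have h3 : S = d * k + d ^ 2 / 2 + d / 2 := by linarith
  rw [h3, Nat.cast_one]
  field_simp
  ring

end Pool.Agent.H33.Vmv
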