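import Mathlib
import Pool.Agent.H33.VmvMain
import Pool.Agent.H33.VmvDivisor

set_option autoImplicit false

open Finset

namespace Pool.Agent.H33.Vmv

/-- The maximum of the divisor function up to `N ^ s`, in the form used here. -/
theorem exists_T (E s : ℕ) (ε : ℝ) (hε : 0 < ε) : ∃ C1 : ℝ, 0 ≤ C1 ∧ ∀ N : ℕ, 1 ≤ N →
    ∃ T : ℕ, 1 ≤ T ∧ (∀ n : ℕ, n ≠ 0 → n ≤ N ^ s → n.divisors.card ≤ T) ∧
      (T : ℝ) ^ E ≤ C1 * (N : ℝ) ^ ε := by
  obtain ⟨m, hm⟩ := exists_nat_gt ((s : ℝ) / ε)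
  have hm0 : 0 < m := by
    have : (0 : ℝ) ≤ (s : ℝ) / ε := by positivity
    have : (0 : ℝ) < m := lt_of_le_of_lt this hm
    exact_mod_cast this
  obtain ⟨C, hC0, hC⟩ := card_divisors_pow_le (E * m)
  refine ⟨C, by positivity, fun N hN => ?_⟩
  have hne : (Finset.Icc 1 (N ^ s)).Nonempty :=
    ⟨1, Finset.mem_Icc.2 ⟨le_rfl, Nat.one_le_pow _ _ hN⟩⟩
  obtain ⟨n0, hn0, hsup⟩ := Finset.exists_mem_eq_sup (Finset.Icc 1 (N ^ s)) hne
    (fun n => n.divisors.card)
  rw [Finset.mem_Icc] at hn0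
  refine ⟨(Finset.Icc 1 (N ^ s)).sup (fun n => n.divisors.card), ?_, ?_, ?_⟩
  · have h1 := Finset.le_sup (f := fun n : ℕ => n.divisors.card)
      (Finset.mem_Icc.2 ⟨le_rfl, Nat.one_le_pow s N hN⟩)
    simpa using h1
  · intro n hn hle
    exact Finset.le_sup (f := fun n : ℕ => n.divisors.card)
      (Finset.mem_Icc.2 ⟨Nat.one_le_iff_ne_zero.2 hn, hle⟩)
  · rw [hsup]
    have h1 : (n0.divisors.card : ℝ) ^ (E * m) ≤ (C : ℝ) * (N : ℝ) ^ s := by
      have := (hC n0 hn0.1).trans (Nat.mul_le_mul_left C hn0.2)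
      exact_mod_cast this
    have hC1 : (1 : ℝ) ≤ C := by exact_mod_cast hC0
    have hN1 : (1 : ℝ) ≤ N := by exact_mod_cast hN
    have h2 : ((n0.divisors.card : ℝ) ^ E) ^ m ≤ ((C : ℝ) * (N : ℝ) ^ ε) ^ m := by
      rw [← pow_mul, mul_pow]
      refine h1.trans (mul_le_mul ?_ ?_ (by positivity) (by positivity))
      · exact le_self_pow₀ hC1 hm0.ne'
      · rw [← Real.rpow_natCast, ← Real.rpow_natCast, ← Real.rpow_mul (by positivity)]
        apply Real.rpow_le_rpow_of_exponent_le hN1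
        rw [div_lt_iff₀ hε] at hm
        linarith
    exact le_of_pow_le_pow_left₀ hm0.ne' (by positivity) h2

theorem offd_rpow (k d δ : ℕ) (hδ : δ + 1 ≤ k)
    (h : 4 * d * k + 2 * d ^ 2 + 2 * d + (d + δ) ^ 2 + 1 ≤ (k - δ - 1) ^ 2) (ε : ℝ) (hε : 0 < ε) :
    ∃ C : ℝ, 0 ≤ C ∧ ∀ N : ℕ, 1 ≤ N →
      ((offd k (k + d) N).card : ℝ) ≤ C * (N : ℝ) ^ (((k + d : ℕ) : ℝ) - δ + ε) := by
  obtain ⟨C, E, hCE⟩ := offd_bound k d δ hδ h (k + d) le_rfl
  obtain ⟨C1, hC1, hT⟩ := exists_T E (k + d) ε hε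
  refine ⟨C * C1, by positivity, fun N hN => ?_⟩
  obtain ⟨T, hT1, hT2, hT3⟩ := hT N hN
  have h1 := hCE N T hN hT1 hT2
  have hN0 : (0 : ℝ) < N := by exact_mod_cast hN
  calc ((offd k (k + d) N).card : ℝ) ≤ ((C * N ^ (k + d - δ) * T ^ E : ℕ) : ℝ) := by
        exact_mod_cast h1
    _ = C * ((N : ℝ) ^ (k + d - δ) * (T : ℝ) ^ E) := by push_cast; ring
    _ ≤ C * ((N : ℝ) ^ (k + d - δ) * (C1 * (N : ℝ) ^ ε)) := by
        apply mul_le_mul_of_nonneg_left _ (by positivity)
        exact mul_le_mul_of_nonneg_left hT3 (by positivity)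
    _ = C * C1 * ((N : ℝ) ^ (k + d - δ) * (N : ℝ) ^ ε) := by ring
    _ = C * C1 * (N : ℝ) ^ (((k + d : ℕ) : ℝ) - δ + ε) := by
        rw [Real.rpow_add hN0, ← Real.rpow_natCast, Nat.cast_sub (by omega)]

/-- Two values agreeing: few tuples. -/
theorem card_two_equal (s N : ℕ) (i j : Fin s) (hij : i ≠ j) :
    ((Fintype.piFinset fun _ : Fin s => Finset.Icc 1 N).filter (fun x => x i = x j)).card ≤
      N ^ (s - 1) := by
  classical
  have hc : (Fintype.piFinset fun _ : {l : Fin s // l ≠ j} => Finset.Icc 1 N).card =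
      N ^ (s - 1) := by
    rw [Fintype.card_piFinset, Finset.prod_const, Finset.card_univ]
    have : Fintype.card {l : Fin s // l ≠ j} = s - 1 := by
      rw [Fintype.card_subtype_compl, Fintype.card_fin, Fintype.card_subtype_eq]
    rw [this]; simp
  rw [← hc]
  apply Finset.card_le_card_of_injOn (fun x => fun l : {l : Fin s // l ≠ j} => x l)
  · intro x hx
    rw [Finset.mem_coe, Finset.mem_filter, Fintype.mem_piFinset] at hx
    rw [Finset.mem_coe, Fintype.mem_piFinset]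
    exact fun l => hx.1 l
  · intro x hx x' hx' heq
    rw [Finset.mem_coe, Finset.mem_filter] at hx hx'
    funext l
    by_cases hl : l = j
    · rw [hl, ← hx.2, ← hx'.2]
      exact congrFun heq ⟨i, hij⟩
    · exact congrFun heq ⟨l, hl⟩

theorem card_injective_ge (s N : ℕ) :
    N ^ s ≤ ((Fintype.piFinset fun _ : Fin s => Finset.Icc 1 N).filter
      (fun x => Function.Injective x)).card + s * s * N ^ (s - 1) := by
  classical
  set B := (Fintype.piFinset fun _ : Fin s => Finset.Icc 1 N) with hB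
  have hBc : B.card = N ^ s := by simp [hB]
  have hsub : B ⊆ B.filter (fun x => Function.Injective x) ∪
      ((univ : Finset (Fin s × Fin s)).filter (fun q => q.1 ≠ q.2)).biUnion
        (fun q => B.filter (fun x => x q.1 = x q.2)) := by
    intro x hx
    rw [Finset.mem_union]
    by_cases hi : Function.Injective x
    · exact Or.inl (Finset.mem_filter.2 ⟨hx, hi⟩)
    · right
      rw [Function.Injective] at hi
      push Not at hi
      obtain ⟨i, j, h1, h2⟩ := hi
      rw [Finset.mem_biUnion]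
      exact ⟨(i, j), Finset.mem_filter.2 ⟨Finset.mem_univ _, h2⟩, Finset.mem_filter.2 ⟨hx, h1⟩⟩
  rw [← hBc]
  refine (Finset.card_le_card hsub).trans ((Finset.card_union_le _ _).trans ?_)
  apply Nat.add_le_add_left
  refine Finset.card_biUnion_le.trans ?_
  calc ∑ q ∈ (univ : Finset (Fin s × Fin s)).filter (fun q => q.1 ≠ q.2),
        (B.filter (fun x => x q.1 = x q.2)).card
      ≤ ∑ q ∈ (univ : Finset (Fin s × Fin s)).filter (fun q => q.1 ≠ q.2), N ^ (s - 1) := by
        apply Finset.sum_le_sum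
        intro q hq
        exact card_two_equal s N q.1 q.2 (Finset.mem_filter.1 hq).2
    _ ≤ s * s * N ^ (s - 1) := by
        rw [Finset.sum_const, smul_eq_mul]
        apply Nat.mul_le_mul_right
        refine (Finset.card_filter_le _ _).trans ?_
        rw [Finset.card_univ, Fintype.card_prod, Fintype.card_fin]

end Pool.Agent.H33.Vmv
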