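import Pool.Agent.H33.Section
import Pool.Agent.H33.Slicing

set_option autoImplicit false

namespace Pool.Agent.H33

open MvPolynomial Filter Topology

noncomputable section

/-- the linear form with integer coefficients `a` -/
def linForm {N : ℕ} (a : Fin N → ℤ) : MvPolynomial (Fin N) ℚ := ∑ j, C ((a j : ℤ) : ℚ) * X j

lemma linForm_homog {N : ℕ} (a : Fin N → ℤ) : (linForm a).IsHomogeneous 1 := by
  apply IsHomogeneous.sum
  intro j _
  exact isHomogeneous_C_mul_X _ _

lemma eval_linForm {N : ℕ} (a p : Fin N → ℤ) :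
    eval (fun i => ((p i : ℤ) : ℚ)) (linForm a) = ((a ⬝ᵥ p : ℤ) : ℚ) := by
  unfold linForm dotProduct
  simp

/-- integer vectors whose linear form lies in `P` -/
def formW {N : ℕ} (P : Ideal (MvPolynomial (Fin N) ℚ)) : Submodule ℤ (Fin N → ℤ) where
  carrier := {a | linForm a ∈ P}
  zero_mem' := by
    show linForm 0 ∈ P
    simp [linForm]
  add_mem' := by
    intro a b ha hb
    show linForm (a + b) ∈ P
    have : linForm (a + b) = linForm a + linForm b := by
      unfold linForm
      rw [← Finset.sum_add_distrib]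
      apply Finset.sum_congr rfl
      intro j _
      simp only [Pi.add_apply, Int.cast_add, C_add, add_mul]
    rw [this]
    exact P.add_mem ha hb
  smul_mem' := by
    intro c a ha
    show linForm (c • a) ∈ P
    have : linForm (c • a) = C (c : ℚ) * linForm a := by
      unfold linForm
      rw [Finset.mul_sum]
      apply Finset.sum_congr rfl
      intro j _
      simp only [Pi.smul_apply, smul_eq_mul, Int.cast_mul, C_mul, mul_assoc]
    rw [this]
    exact P.mul_mem_left _ ha

lemma mem_formW {N : ℕ} {P : Ideal (MvPolynomial (Fin N) ℚ)} {a : Fin N → ℤ} :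
    a ∈ formW P ↔ linForm a ∈ P := Iff.rfl

lemma formW_sat {N : ℕ} (P : Ideal (MvPolynomial (Fin N) ℚ)) (j : ℤ) (a : Fin N → ℤ) (hj : j ≠ 0)
    (h : j • a ∈ formW P) : a ∈ formW P := by
  rw [mem_formW] at *
  have : linForm (j • a) = C (j : ℚ) * linForm a := by
    unfold linForm
    rw [Finset.mul_sum]
    apply Finset.sum_congr rfl
    intro i _
    simp only [Pi.smul_apply, smul_eq_mul, Int.cast_mul, C_mul, mul_assoc]
  rw [this] at h
  have h2 := P.mul_mem_left (C ((j : ℚ)⁻¹)) h
  rw [← mul_assoc, ← C_mul, inv_mul_cancel₀ (by exact_mod_cast hj), C_1, one_mul] at h2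
  exact h2

/-- good frames of integer vectors attached to a point `p` -/
structure Frame {n : ℕ} (p : Fin (n + 1) → ℤ) (A : Fin n → (Fin (n + 1) → ℤ)) : Prop where
  li : LinearIndependent ℤ A
  orth : ∀ i, A i ⬝ᵥ p = 0
  mono : Monotone (fun i => supN (A i))

lemma Frame.one_le {n : ℕ} {p : Fin (n + 1) → ℤ} {A : Fin n → (Fin (n + 1) → ℤ)} (h : Frame p A)
    (i : Fin n) : 1 ≤ supN (A i) := supN_pos (h.li.ne_zero i)

lemma frame_exists_not_mem {n : ℕ} {p : Fin (n + 1) → ℤ} {A : Fin n → (Fin (n + 1) → ℤ)}
    (h : Frame p A) {P : Ideal (MvPolynomial (Fin (n + 1)) ℚ)} {k : ℕ}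
    {y : Fin (k + 2) → MvPolynomial (Fin (n + 1)) ℚ} (hN : NN P (k + 2) y) (hk : k + 1 ≤ n) :
    ∃ a : Fin (n + 1) → ℤ, a ∉ formW P ∧ a ⬝ᵥ p = 0 ∧ supN a ≤ supN (A ⟨n - (k + 1), by omega⟩) := by
  by_contra hcon
  push Not at hcon
  -- all A i with i ≤ n - (k+1) are in formW P
  have h1 : ∀ i : Fin (n - k), linForm (A ⟨i.val, by omega⟩) ∈ P := by
    intro i
    by_contra hi
    have := hcon (A ⟨i.val, by omega⟩) (fun h => hi h) (h.orth _)
    have h2 : supN (A ⟨i.val, by omega⟩) ≤ supN (A ⟨n - (k + 1), by omega⟩) := by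
      apply h.mono
      show i.val ≤ n - (k + 1)
      omega
    omega
  let a : Fin (n - k) → Fin (n + 1) → ℚ := fun i j => ((A ⟨i.val, by omega⟩ j : ℤ) : ℚ)
  have ha : LinearIndependent ℚ a := by
    have h3 : LinearIndependent ℤ (fun i : Fin (n - k) => A ⟨i.val, by omega⟩) := by
      apply h.li.comp (fun i : Fin (n - k) => (⟨i.val, by omega⟩ : Fin n))
      intro i j hij
      ext
      simpa using congrArg Fin.val hij
    have h4 : LinearIndependent ℤ a := by
      have := h3.map' (M' := Fin (n + 1) → ℚ)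
        (LinearMap.compLeft ((Int.castAddHom ℚ).toIntLinearMap) (Fin (n + 1))) (by
          rw [LinearMap.ker_eq_bot]
          intro u v huv
          funext j
          have := congrFun huv j
          simp only [LinearMap.compLeft_apply, Function.comp] at this
          exact Int.cast_injective (α := ℚ) this)
      exact this
    exact (LinearIndependent.iff_fractionRing ℤ ℚ).1 h4
  have h5 := linear_forms_bound hN a ha (fun i => h1 i)
  omega

/-- the weight of a point -/
def wt {n : ℕ} (A : Fin n → (Fin (n + 1) → ℤ)) (k : ℕ) : ℝ :=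
  ∏ i ∈ Finset.univ.filter (fun i : Fin n => n - k ≤ i.val), (1 / (supN (A i) : ℝ))

lemma wt_nonneg {n : ℕ} (A : Fin n → (Fin (n + 1) → ℤ)) (k : ℕ) : 0 ≤ wt A k := by
  unfold wt
  apply Finset.prod_nonneg
  intro i _
  positivity

lemma wt_zero {n : ℕ} (A : Fin n → (Fin (n + 1) → ℤ)) : wt A 0 = 1 := by
  unfold wt
  rw [Finset.filter_false_of_mem, Finset.prod_empty]
  intro i _
  have := i.2
  omega

lemma wt_succ {n : ℕ} (A : Fin n → (Fin (n + 1) → ℤ)) (k : ℕ) (hk : k + 1 ≤ n) :
    wt A (k + 1) = (1 / (supN (A ⟨n - (k + 1), by omega⟩) : ℝ)) * wt A k := by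
  unfold wt
  have : Finset.univ.filter (fun i : Fin n => n - (k + 1) ≤ i.val) =
      insert (⟨n - (k + 1), by omega⟩ : Fin n) (Finset.univ.filter (fun i : Fin n => n - k ≤ i.val)) := by
    ext i
    simp only [Finset.mem_filter, Finset.mem_univ, true_and, Finset.mem_insert, Fin.ext_iff]
    omega
  rw [this, Finset.prod_insert]
  simp only [Finset.mem_filter, Finset.mem_univ, true_and]
  omega

theorem weighted_bound {n : ℕ} (A : (Fin (n + 1) → ℤ) → Fin n → (Fin (n + 1) → ℤ)) (k : ℕ) :
    ∀ (P : Ideal (MvPolynomial (Fin (n + 1)) ℚ)), P.IsPrime → IsHomog P →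
    ∀ (y : Fin (k + 1) → MvPolynomial (Fin (n + 1)) ℚ), NN P (k + 1) y →
    ∀ (d : ℝ), HasDeg P k d → ∀ (B : ℕ), 1 ≤ B → ∀ (Q : Finset (Fin (n + 1) → ℤ)),
    (∀ p ∈ Q, p ≠ 0 ∧ supN p ≤ B ∧ Frame p (A p) ∧
      ∀ f ∈ P, eval (fun i => ((p i : ℤ) : ℚ)) f = 0) →
    (∀ p ∈ Q, ∀ q ∈ Q, (∀ i j, p j * q i = p i * q j) → p = q) →
    ∑ p ∈ Q, wt (A p) k ≤ (slC (n + 1) : ℝ) ^ k * d * (B : ℝ) ^ k := by
  classical
  induction k with
  | zero =>
    intro P hP hPh y hN d hd B hB Q hQ hQp
    have hd1 : 1 ≤ d := by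
      obtain ⟨d', hd1, hd2⟩ := exists_hasDeg hPh hN
      rw [tendsto_nhds_unique hd hd2]
      exact hd1
    have hcard : Q.card ≤ 1 := by
      rw [Finset.card_le_one]
      intro p hp q hq
      apply hQp p hp q hq
      intro i j
      obtain ⟨hp0, -, -, hpP⟩ := hQ p hp
      obtain ⟨-, -, -, hqP⟩ := hQ q hq
      have := zero_dim_unique hP hPh hN (p := fun i => ((p i : ℤ) : ℚ)) (p' := fun i => ((q i : ℤ) : ℚ))
        (by
          intro h0
          apply hp0
          funext i
          have := congrFun h0 i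
          simpa using this) hpP hqP i j
      exact_mod_cast this
    simp only [wt_zero, Finset.sum_const, nsmul_eq_mul, mul_one, pow_zero, one_mul]
    calc (Q.card : ℝ) ≤ 1 := by exact_mod_cast hcard
      _ ≤ d := hd1
  | succ k ih =>
    intro P hP hPh y hN d hd B hB Q hQ hQp
    have hkn : k + 1 ≤ n := by
      have := linear_forms_bound (m := 0) hN (fun i => i.elim0) (linearIndependent_empty_type)
        (fun i => i.elim0)
      omega
    have hdim := NN_ringKrullDim hN
    obtain ⟨H, φ, hφ, hHW, hsum⟩ := slicing (formW P) (formW_sat P) B hB Q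
      (by
        intro p hp w hw
        have h1 := (hQ p hp).2.2.2 _ hw
        rw [eval_linForm] at h1
        exact_mod_cast h1)
      (fun p hp => (hQ p hp).2.1)
      (by
        intro p hp
        obtain ⟨a, ha1, ha2, -⟩ := frame_exists_not_mem (hQ p hp).2.2.1 hN hkn
        exact ⟨a, ha1, ha2⟩)
    -- bound for each h
    have hh : ∀ h ∈ H, ∑ p ∈ Q.filter (fun p => φ p = h), wt (A p) k ≤
        (slC (n + 1) : ℝ) ^ k * d * (B : ℝ) ^ k := by
      intro h hhH
      have hlP : linForm h ∉ P := hHW h hhH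
      obtain ⟨r, y', hN', hy'⟩ := exists_NN P hPh (linForm h) (linForm_homog h) hlP
      have hr : r = k + 1 := by
        have h1 := NN_ringKrullDim hN'
        rw [hdim] at h1
        have h2 : ((k + 1 + 1 : ℕ) : WithBot ℕ∞) = ((r + 1 : ℕ) : WithBot ℕ∞) := h1
        have h3 : k + 1 + 1 = r + 1 := by exact_mod_cast h2
        omega
      subst hr
      have hfin : (P ⊔ Ideal.span {linForm h}).minimalPrimes.Finite :=
        Ideal.finite_minimalPrimes_of_isNoetherianRing _ _
      have hJh : IsHomog (P ⊔ Ideal.span {linForm h}) := isHomog_sup_span hPh (linForm_homog h)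
      have hNQ : ∀ R ∈ (P ⊔ Ideal.span {linForm h}).minimalPrimes,
          NN R (k + 1) (fun i => y' i.succ) := by
        intro R hR
        apply NN_minimalPrime hN'
        rw [hy']; exact hR
      have hdegex : ∀ R : Ideal (MvPolynomial (Fin (n + 1)) ℚ), ∃ dR : ℝ,
          R ∈ (P ⊔ Ideal.span {linForm h}).minimalPrimes → HasDeg R k dR := by
        intro R
        by_cases hR : R ∈ (P ⊔ Ideal.span {linForm h}).minimalPrimes
        · obtain ⟨dR, -, h2⟩ := exists_hasDeg (isHomog_minimalPrime hJh hR) (hNQ R hR)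
          exact ⟨dR, fun _ => h2⟩
        · exact ⟨0, fun h => absurd h hR⟩
      choose deg hdeg using hdegex
      have hsec := section_degree hP hPh (linForm_homog h) hlP hd hfin.toFinset deg
        (fun R hR => ⟨hfin.mem_toFinset.1 hR, hdeg R (hfin.mem_toFinset.1 hR)⟩)
      -- each point lies on some R
      have hpt : ∀ p ∈ Q.filter (fun p => φ p = h), ∃ R ∈ hfin.toFinset,
          ∀ f ∈ R, eval (fun i => ((p i : ℤ) : ℚ)) f = 0 := by
        intro p hp
        rw [Finset.mem_filter] at hp
        have hle : P ⊔ Ideal.span {linForm h} ≤ RingHom.ker (eval (fun i => ((p i : ℤ) : ℚ))) := by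
          apply sup_le
          · intro f hf
            exact (hQ p hp.1).2.2.2 f hf
          · rw [Ideal.span_singleton_le_iff_mem, RingHom.mem_ker, eval_linForm]
            have := (hφ p hp.1).2.1
            rw [hp.2] at this
            rw [this]; simp
        have : (RingHom.ker (eval (fun i => ((p i : ℤ) : ℚ)))).IsPrime := RingHom.ker_isPrime _
        obtain ⟨R, hR, hRle⟩ := Ideal.exists_minimalPrimes_le hle
        exact ⟨R, hfin.mem_toFinset.2 hR, fun f hf => hRle hf⟩
      calc ∑ p ∈ Q.filter (fun p => φ p = h), wt (A p) k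
          ≤ ∑ R ∈ hfin.toFinset, ∑ p ∈ (Q.filter (fun p => φ p = h)).filter
              (fun p => ∀ f ∈ R, eval (fun i => ((p i : ℤ) : ℚ)) f = 0), wt (A p) k := by
            have h1 : ∀ p ∈ Q.filter (fun p => φ p = h), wt (A p) k ≤
                ∑ R ∈ hfin.toFinset, (if (∀ f ∈ R, eval (fun i => ((p i : ℤ) : ℚ)) f = 0) then
                  wt (A p) k else 0) := by
              intro p hp
              obtain ⟨R, hR, hRp⟩ := hpt p hp
              have h2 := Finset.single_le_sum (f := fun R : Ideal (MvPolynomial (Fin (n + 1)) ℚ) =>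
                (if (∀ f ∈ R, eval (fun i => ((p i : ℤ) : ℚ)) f = 0) then wt (A p) k else 0))
                (s := hfin.toFinset) (fun R _ => by
                  show (0 : ℝ) ≤ if _ then _ else _
                  split_ifs
                  · exact wt_nonneg _ _
                  · exact le_rfl) hR
              have h3 : (if (∀ f ∈ R, eval (fun i => ((p i : ℤ) : ℚ)) f = 0) then wt (A p) k else 0) =
                wt (A p) k := if_pos hRp
              rw [h3] at h2
              exact h2
            refine (Finset.sum_le_sum h1).trans ?_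
            rw [Finset.sum_comm]
            apply Finset.sum_le_sum
            intro R _
            rw [← Finset.sum_filter]
        _ ≤ ∑ R ∈ hfin.toFinset, (slC (n + 1) : ℝ) ^ k * deg R * (B : ℝ) ^ k := by
            apply Finset.sum_le_sum
            intro R hR
            have hR' := hfin.mem_toFinset.1 hR
            apply ih R hR'.1.1 (isHomog_minimalPrime hJh hR') _ (hNQ R hR') (deg R) (hdeg R hR') B hB
            · intro p hp
              rw [Finset.mem_filter, Finset.mem_filter] at hp
              obtain ⟨h1, h2, h3, -⟩ := hQ p hp.1.1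
              exact ⟨h1, h2, h3, hp.2⟩
            · intro p hp q hq
              rw [Finset.mem_filter, Finset.mem_filter] at hp hq
              exact hQp p hp.1.1 q hq.1.1
        _ = (slC (n + 1) : ℝ) ^ k * (∑ R ∈ hfin.toFinset, deg R) * (B : ℝ) ^ k := by
            rw [Finset.mul_sum, Finset.sum_mul]
        _ ≤ (slC (n + 1) : ℝ) ^ k * d * (B : ℝ) ^ k := by
            apply mul_le_mul_of_nonneg_right _ (by positivity)
            apply mul_le_mul_of_nonneg_left hsec (by positivity)
    have hd0 : 0 ≤ d := by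
      obtain ⟨d', hd1, hd2⟩ := exists_hasDeg hPh hN
      rw [tendsto_nhds_unique hd hd2]
      linarith
    calc ∑ p ∈ Q, wt (A p) (k + 1) ≤ ∑ p ∈ Q, (1 / (supN (φ p) : ℝ)) * wt (A p) k := by
          apply Finset.sum_le_sum
          intro p hp
          rw [wt_succ _ _ hkn]
          apply mul_le_mul_of_nonneg_right _ (wt_nonneg _ _)
          obtain ⟨a, ha1, ha2, ha3⟩ := frame_exists_not_mem (hQ p hp).2.2.1 hN hkn
          have h1 := (hφ p hp).2.2 a ha1 ha2
          have h2 : 1 ≤ supN (φ p) := by
            apply supN_pos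
            intro h0
            apply hHW _ (hφ p hp).1
            rw [h0]; exact (formW P).zero_mem
          apply one_div_le_one_div_of_le
          · exact_mod_cast h2
          · exact_mod_cast h1.trans ha3
      _ = ∑ h ∈ H, ∑ p ∈ Q.filter (fun p => φ p = h), (1 / (supN (φ p) : ℝ)) * wt (A p) k := by
          rw [Finset.sum_fiberwise_of_maps_to]
          intro p hp
          exact (hφ p hp).1
      _ = ∑ h ∈ H, (1 / (supN h : ℝ)) * ∑ p ∈ Q.filter (fun p => φ p = h), wt (A p) k := by
          apply Finset.sum_congr rfl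
          intro h _
          rw [Finset.mul_sum]
          apply Finset.sum_congr rfl
          intro p hp
          rw [(Finset.mem_filter.1 hp).2]
      _ ≤ ∑ h ∈ H, (1 / (supN h : ℝ)) * ((slC (n + 1) : ℝ) ^ k * d * (B : ℝ) ^ k) := by
          apply Finset.sum_le_sum
          intro h hh'
          apply mul_le_mul_of_nonneg_left (hh h hh') (by positivity)
      _ = (∑ h ∈ H, (1 / (supN h : ℝ))) * ((slC (n + 1) : ℝ) ^ k * d * (B : ℝ) ^ k) := by
          rw [Finset.sum_mul]
      _ ≤ (slC (n + 1) * B) * ((slC (n + 1) : ℝ) ^ k * d * (B : ℝ) ^ k) := by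
          apply mul_le_mul_of_nonneg_right hsum
          positivity
      _ = (slC (n + 1) : ℝ) ^ (k + 1) * d * (B : ℝ) ^ (k + 1) := by ring

end

end Pool.Agent.H33
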